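import Pool.Agent.Work.MP_8f87b2_h4.Ends
import Pool.Agent.Work.MP_8f87b2_h20.S5Ty

/-!
# MP_8f87b2_co: row W-J3V-S5

`SqD.s5W`: a common word of a triple of type S5 and the 19 words is the word 16 with `B = nil`, `S = (())(())[s]` (content
`{s, 2, 2}`, one big soliton). `TyJ3V.s5`: no common word if `V` has at least two parts larger than 2.
-/

set_option autoImplicit false

namespace Pool.OddHC

open Finset Equiv BinaryTree Pool.Agent.Work.MP_8f87b2_co

namespace J3

variable {k : ℕ} {F F' : Set (Cyc k)} {g g' : DG k} {R B S Y P Q A : BinaryTree Unit}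

theorem raise_one {M : Multiset ℕ} (hM : ∀ x ∈ M, 1 ≤ x) (h : (raise (M + {1})).count 1 = 0) : M = 0 := by
  by_contra h0
  have hs : (M + {1}).sup = M.sup ⊔ 1 := by rw [Multiset.sup_add, Multiset.sup_singleton]
  have h1 : 1 ≤ M.sup := by
    obtain ⟨x, hx⟩ := Multiset.exists_mem_of_ne_zero h0
    exact (hM x hx).trans (Multiset.le_sup hx)
  have hs' : (M + {1}).sup = M.sup := by rw [hs]; exact sup_eq_left.2 h1
  unfold raise at h
  rw [hs', Multiset.count_cons] at h
  by_cases h2 : M.sup = 1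
  · rw [h2, Multiset.count_erase_self, Multiset.count_add, Multiset.count_singleton_self] at h
    have h3 : 0 < M.count 1 := by
      rw [Multiset.count_pos]
      obtain ⟨x, hx⟩ := Multiset.exists_mem_of_ne_zero h0
      have h4 := Multiset.le_sup hx
      have h5 := hM x hx
      have : x = 1 := by omega
      rwa [← this]
    omega
  · rw [Multiset.count_erase_of_ne (fun e => h2 e.symm), Multiset.count_add,
      Multiset.count_singleton_self] at h
    omega

theorem cont_zero {t : BinaryTree Unit} (h : OddHC.cont t = 0) : t = .nil := by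
  cases t with
  | nil => rfl
  | node _ A C =>
    have e : OddHC.cont (A △ C) = raise (OddHC.cont A) + OddHC.cont C := rfl
    have h' : OddHC.cont (A △ C) = 0 := h
    rw [e] at h'
    unfold raise at h'
    rw [Multiset.cons_add] at h'
    exact absurd h' (Multiset.cons_ne_zero)

/-- no component `(A'())`, `A'` not empty, in a word without a part 1 -/
theorem no_inner (h : (OddHC.cont (app A (.nil △ .nil) △ Y)).count 1 = 0) : A = .nil := by
  rw [cont_node, Multiset.count_add, cont_app] at h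
  have e : OddHC.cont (BinaryTree.nil △ BinaryTree.nil : BinaryTree Unit) = {1} := raise_nil
  rw [e] at h
  exact cont_zero (raise_one (cont_pos A) (by omega))

theorem lp_one' (n : ℕ) : lp (n + 1) = .nil △ lp n := rfl

theorem lp_lst (n : ℕ) : lp (n + 1) = app (lp n) (.nil △ .nil) := by
  induction n with
  | zero => rfl
  | succ n ih =>
    rw [lp_one' (n + 1)]
    conv_lhs => rw [ih]
    rfl

theorem no_lp {n : ℕ} (h : (OddHC.cont (lp (n + 2) △ Y)).count 1 = 0) : False := by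
  rw [lp_lst (n + 1)] at h
  have := no_inner h
  rw [lp_one'] at this
  exact absurd this (by simp)

theorem no_lp' {n : ℕ} (h : (OddHC.cont (app Y (lp (n + 2) △ .nil))).count 1 = 0) : False :=
  no_lp (cnt_app h).2

theorem lp_cnt {n : ℕ} (h : (OddHC.cont (lp (n + 1))).count 1 = 0) : False := by
  have := fb_one h
  rw [lp_one'] at this
  exact absurd this (by simp [H1.fb, H1.isNil])

theorem ch_two' {s : ℕ} (hs : 3 ≤ s) : ∃ C : BinaryTree Unit, C ≠ .nil ∧ H1.ch s = C △ .nil := by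
  obtain ⟨s, rfl⟩ : ∃ s', s = s' + 1 := ⟨s - 1, by omega⟩
  exact ⟨H1.ch s, ch_ne (by omega), rfl⟩

/-- at most two `()` in front -/
theorem SqD.lead3 (h : SqD k R B S) {i : ℕ} (hi : i < 20) (h9 : i ≠ 9) :
    H1.W R .nil B S i ≠ .nil △ (.nil △ (.nil △ Y)) := by
  intro e
  rcases h.fst hi h9 e with ⟨_, e2⟩ | ⟨_, e2⟩ | ⟨_, e2⟩ | ⟨_, e2⟩ | ⟨_, e2⟩ | ⟨_, hB, e2⟩
  · obtain ⟨R', e3, _⟩ := fst_app h.ne e2.symm
    exact ne_nil_node h.one e3
  · exact ne_nil_node h.one (H1.node_inj e2).2.symm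
  · exact absurd (H1.node_inj e2).2 (by simp)
  · exact absurd (H1.node_inj e2).1.symm h.neS
  · obtain ⟨S', e3, _⟩ := fst_app h.neS e2.symm
    exact ne_nil_node h.oneS e3
  · exact ne_nil_node h.oneS (H1.node_inj e2).2.symm

/-- at most two `()` at the end -/
theorem SqD.trail3 (h : SqD k R B S) {i : ℕ} (hi : i < 20) (h9 : i ≠ 9) :
    H1.W R .nil B S i ≠ app Y (.nil △ (.nil △ (.nil △ .nil))) := by
  intro e
  have e1 : H1.W R .nil B S i = app (app (app Y (.nil △ .nil)) (.nil △ .nil)) (.nil △ .nil) := by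
    rw [e, H1.app_assoc, H1.app_assoc]; rfl
  rcases h.lst hi h9 e1 with ⟨_, e2⟩ | ⟨_, e2⟩ | ⟨_, e2⟩ | ⟨_, e2⟩ | ⟨_, e2⟩ | ⟨_, hB, e2⟩
  · exact ne_app_lf h.one (H1.app_snoc e2).1.symm
  · exact ne_app_lf h.one (lst_node h.ne e2.symm).choose_spec.1
  · have e3 : app .nil (R △ .nil) = app (app Y (.nil △ .nil)) (.nil △ .nil) := e2.symm
    exact absurd (H1.app_snoc e3).2 h.ne
  · by_cases hB : B = .nil
    · subst hB
      have e3 : app .nil (S △ .nil) = app (app Y (.nil △ .nil)) (.nil △ .nil) := e2.symm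
      exact absurd (H1.app_snoc e3).2 h.neS
    · obtain ⟨Q', e3, _⟩ := lst_node hB e2.symm
      exact ne_app_lf h.oneB e3
  · obtain ⟨e3, e4⟩ := H1.app_snoc e2
    exact ne_app_lf h.oneS e3.symm
  · obtain ⟨Q', e3, _⟩ := lst_node h.neS e2.symm
    exact ne_app_lf h.oneS e3

/-- **W-J3V-S5**, the core -/
theorem SqD.s5W (h : SqD k R B S) {w0 : X k} (ht : TyS5 F g)
    (hd : ∀ c ∈ F, c ≠ cyc (sX R B S w0 1)) {w : X k} (hw : w ∈ g.B)
    {i : ℕ} (hi : i < 20) (h9 : i ≠ 9) (e : w.1 = H1.W R .nil B S i) :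
    i = 16 ∧ B = .nil ∧ ∃ s, 3 ≤ s ∧ S = (.nil △ .nil) △ ((.nil △ .nil) △ H1.ch s) := by
  obtain ⟨s, n, hs, hn, ht⟩ := ht
  obtain ⟨n, rfl⟩ : ∃ n', n = n' + 2 := ⟨n - 2, by omega⟩
  obtain ⟨C, hC, hCs⟩ := ch_two' hs
  have hsn : H1.ch s ≠ .nil := by rw [hCs]; simp
  have hlp : ∀ m, lp (m + 1) ≠ .nil := fun m => by rw [lp_one']; simp
  have hlf : ∀ m, lp (m + 2) ≠ .nil △ .nil := fun m e => by
    rw [lp_one', lp_one'] at e
    exact absurd (H1.node_inj e).2 (by simp)
  rcases ht with ht | ht | ht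
  · -- `()^(n+4) ([s])`
    rcases ht.words w hw with e1 | ⟨-, e1 | e1⟩
    · exact absurd (e.symm.trans e1) (h.lead3 hi h9)
    · have e2 : H1.W R .nil B S i = app (app (H1.ch s) (lp (n + 2))) (.nil △ (.nil △ (.nil △ .nil))) := by
        rw [← e, e1, H1.app_assoc]
        change app (H1.ch s) (.nil △ lp (n + 2 + 2)) = _
        congr 1
        rw [← lp_one', lp_lst (n + 4), lp_lst (n + 3), lp_lst (n + 2), H1.app_assoc, H1.app_assoc]
        rfl
      exact absurd e2 (h.trail3 hi h9)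
    · have e2 : H1.W R .nil B S i = lp (n + 2 + 2) △ H1.ch s := e.symm.trans e1
      rcases h.fstA hi h9 (hlp _) e2 with ⟨_, R', e3, _⟩ | ⟨_, R', e3, _⟩ | ⟨_, _, e3⟩ | ⟨_, e3, _⟩ | ⟨_, e3, _⟩ |
        ⟨_, _, e3⟩ | ⟨_, _, e3, _⟩ | ⟨_, B', e3, _⟩ | ⟨_, B', e3, _⟩ | ⟨_, e3, _⟩ | ⟨_, S', e3, _⟩ |
        ⟨_, e3, _⟩ | ⟨_, S', e3, _⟩ | ⟨_, _, e3⟩ | ⟨_, _, e3⟩
      · exact (no_lp (n := n + 2) (by rw [← e3]; exact h.one)).elim
      · exact (no_lp (n := n + 2) (by rw [← e3]; exact h.one)).elim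
      · exact absurd e3 hsn
      · exact absurd e3 (hlf _)
      · exact (lp_cnt (n := n + 3) (by rw [e3]; exact h.one)).elim
      · exact absurd e3 hsn
      · exact absurd e3 (hlf _)
      · exact (no_lp (n := n + 2) (by rw [← e3]; exact h.oneB)).elim
      · exact (no_lp (n := n + 2) (by rw [← e3]; exact h.oneB)).elim
      · exact (lp_cnt (n := n + 3) (by rw [e3]; exact h.oneS)).elim
      · exact (no_lp (n := n + 2) (by rw [← e3]; exact h.oneS)).elim
      · rw [lp_one'] at e3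
        exact (lp_cnt (n := n + 2) (by rw [(H1.node_inj e3).2]; exact h.oneS)).elim
      · exact (no_lp (n := n + 2) (by rw [← e3]; exact h.oneS)).elim
      · exact absurd e3 hsn
      · exact absurd e3 hsn
  · -- `([s]) ()^(n+4)`
    rcases ht.words w hw with e1 | ⟨-, e1 | e1⟩
    · have e2 : H1.W R .nil B S i = app (H1.ch s △ lp (n + 1)) (.nil △ (.nil △ (.nil △ .nil))) := by
        rw [← e, e1]
        change H1.ch s △ lp (n + 2 + 2) = H1.ch s △ app (lp (n + 1)) _
        rw [lp_lst (n + 3), lp_lst (n + 2), lp_lst (n + 1), H1.app_assoc, H1.app_assoc]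
        rfl
      exact absurd e2 (h.trail3 hi h9)
    · have e2 : H1.W R .nil B S i = app (H1.ch s) (lp (n + 2 + 2) △ .nil) := e.symm.trans e1
      rcases h.lstA hi h9 (hlp _) e2 with ⟨_, e3, _⟩ | ⟨_, R', e3, _⟩ | ⟨_, R', e3, _⟩ | ⟨_, e3, _⟩ | ⟨_, S', e3, _⟩ |
        ⟨_, S', e3, _⟩ | ⟨_, e3, _⟩ | ⟨_, _, _, e3⟩ | ⟨_, B', e3, _⟩ | ⟨_, _, e3, _⟩ | ⟨_, B', e3, _⟩ |
        ⟨_, e3, _⟩ | ⟨_, _, e3⟩ | ⟨_, _, e3⟩ | ⟨_, _, e3⟩ | ⟨_, _, e3⟩
      · exact absurd e3 (hlf _)
      · exact (no_lp' (n := n + 2) (by rw [← e3]; exact h.one)).elim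
      · exact (no_lp' (n := n + 2) (by rw [← e3]; exact h.one)).elim
      · exact (lp_cnt (n := n + 3) (by rw [e3]; exact h.one)).elim
      · exact (no_lp' (n := n + 2) (by rw [← e3]; exact h.oneS)).elim
      · exact (no_lp' (n := n + 2) (by rw [← e3]; exact h.oneS)).elim
      · rw [lp_lst (n + 3)] at e3
        exact (lp_cnt (n := n + 2) (by rw [(H1.app_snoc e3).1]; exact h.oneB)).elim
      · exact absurd e3 hsn
      · exact (no_lp' (n := n + 2) (by rw [← e3]; exact h.oneB)).elim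
      · exact (lp_cnt (n := n + 3) (by rw [e3]; exact h.oneS)).elim
      · exact (no_lp' (n := n + 2) (by rw [← e3]; exact h.oneB)).elim
      · exact (lp_cnt (n := n + 3) (by rw [e3]; exact h.oneB)).elim
      · exact absurd e3 hsn
      · exact absurd e3 hsn
      · exact absurd e3 hsn
      · exact absurd e3 hsn
    · exact absurd (e.symm.trans e1) (h.lead3 hi h9)
  · -- `() ([s] ()^n) (())`
    have hw' := ht.words w hw
    obtain ⟨a, b, d, ha, hb, hc, -, -, -, rfl, -⟩ := ht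
    have c2 : H1.ch 2 = (.nil △ .nil) △ .nil := rfl
    have lbS : H1.lastB (app (H1.ch s) (lp (n + 2))) = true := by
      rw [lp_lst, ← H1.app_assoc, H1.lastB_app (by simp)]; rfl
    rcases hw' with e1 | ⟨-, e1 | e1⟩
    · have e2 : H1.W R .nil B S i = .nil △ (app (H1.ch s) (lp (n + 2)) △ ((.nil △ .nil) △ .nil)) := e.symm.trans e1
      have ne1 : app (H1.ch s) (lp (n + 2)) ≠ .nil := H1.app_ne (hlp _)
      rcases h.fst hi h9 e2 with ⟨_, e3⟩ | ⟨_, e3⟩ | ⟨_, e3⟩ | ⟨_, e3⟩ | ⟨_, e3⟩ | ⟨_, hB, e3⟩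
      · have e4 := congrArg H1.lastB e3
        rw [H1.lastB_app (by simp)] at e4
        exact absurd e4 (by simp [H1.lastB, H1.isNil])
      · exact absurd (H1.node_inj e3).1 ne1
      · exact absurd (H1.node_inj e3).2 (by simp)
      · have e4 := lastB_one h.oneS
        rw [← (H1.node_inj e3).1, lbS] at e4
        exact absurd e4 (by simp)
      · have e4 : app (app (H1.ch s) (lp (n + 2)) △ .nil) ((.nil △ .nil) △ .nil) = app S (B △ .nil) := e3
        have e5 := fb_one h.oneB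
        rw [← (H1.app_snoc e4).2] at e5
        exact absurd e5 (by simp [H1.fb, H1.isNil])
      · exact absurd (H1.node_inj e3).1 ne1
    · have e2 : H1.W R .nil B S i =
          app (app (app (H1.ch s) (lp (n + 2))) (H1.ch 2 △ .nil)) (.nil △ .nil) := by
        rw [← e, e1, H1.app_assoc]
        rfl
      have hne : app (lp (n + 2)) (H1.ch 2 △ .nil) ≠ .nil := H1.app_ne (by simp)
      have e0 : app (app (H1.ch s) (lp (n + 2))) (H1.ch 2 △ .nil) =
          C △ app (lp (n + 2)) (H1.ch 2 △ .nil) := by rw [hCs]; rfl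
      rcases h.lst hi h9 e2 with ⟨_, e3⟩ | ⟨_, e3⟩ | ⟨_, e3⟩ | ⟨_, e3⟩ | ⟨_, e3⟩ | ⟨_, hB, e3⟩
      · exact absurd (H1.app_snoc e3).2 (by rw [c2]; simp)
      · exact absurd (H1.node_inj (e0.symm.trans e3)).1 hC
      · exact absurd (H1.node_inj (e0.symm.trans e3)).2 hne
      · have e4 := fb_one h.oneB
        rw [← (H1.node_inj (e0.symm.trans e3)).2] at e4
        exact absurd e4 (by simp [lp_one', app, H1.fb, H1.isNil])
      · have e4 := lastB_one h.oneS
        rw [← (H1.app_snoc e3).1, lbS] at e4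
        exact absurd e4 (by simp)
      · exact absurd (H1.node_inj (e0.symm.trans e3)).1 hC
    · have e2 : H1.W R .nil B S i =
          app ((.nil △ .nil) △ ((.nil △ .nil) △ app (H1.ch s) (lp (n + 1)))) (.nil △ .nil) := by
        rw [← e, e1]
        change (.nil △ .nil) △ ((.nil △ .nil) △ app (H1.ch s) (lp (n + 2))) = _
        rw [lp_lst (n + 1), ← H1.app_assoc]
        rfl
      rcases h.lst hi h9 e2 with ⟨e4, e3⟩ | ⟨_, e3⟩ | ⟨_, e3⟩ | ⟨_, e3⟩ | ⟨e4, e3⟩ | ⟨_, hB, e3⟩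
      · subst e4
        refine absurd ?_ (hd (cyc d) (Or.inr rfl))
        congr 1
        apply Subtype.ext
        rw [hc, ← e1, e, h.word w0 (by norm_num)]
      · exact absurd (H1.node_inj e3).1 (by simp)
      · exact absurd (H1.node_inj e3).2 (by simp)
      · have e4 := fb_one h.oneS
        rw [← (H1.node_inj e3).1] at e4
        exact absurd e4 (by simp [H1.fb, H1.isNil])
      · have e5 : app ((.nil △ .nil) △ ((.nil △ .nil) △ app (H1.ch s) (lp n))) (.nil △ .nil) =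
            app S (B △ .nil) := by
          rw [← e3, lp_lst n, ← H1.app_assoc]
          rfl
        obtain ⟨e6, e7⟩ := H1.app_snoc e5
        refine ⟨e4, e7.symm, s, hs, ?_⟩
        cases n with
        | zero =>
          rw [← e6]
          change _ △ (_ △ app (H1.ch s) .nil) = _
          rw [H1.app_nil]
        | succ n =>
          exfalso
          have e8 := lastB_one h.oneS
          have e9 : (.nil △ .nil) △ ((.nil △ .nil) △ app (H1.ch s) (lp (n + 1))) =
              app ((.nil △ .nil) △ ((.nil △ .nil) △ app (H1.ch s) (lp n))) (.nil △ .nil) := by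
            rw [lp_lst n, ← H1.app_assoc]
            rfl
          rw [← e6, e9, H1.lastB_app (by simp)] at e8
          exact absurd e8 (by simp [H1.lastB, H1.isNil])
      · exact absurd (H1.node_inj e3).1 (by simp)

end J3

open J3

variable {k : ℕ} {F F' : Set (Cyc k)} {g g' : DG k}

theorem cont_chS5 {s : ℕ} (hs : 1 ≤ s) : OddHC.cont (H1.ch s) = {s} := by
  obtain ⟨s, rfl⟩ : ∃ s', s = s' + 1 := ⟨s - 1, by omega⟩
  clear hs
  induction s with
  | zero => exact raise_nil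
  | succ s ih =>
    rw [H1.ch_succ, cont_node, ih, cont_nil, add_zero]
    unfold raise
    rw [Multiset.sup_singleton, Multiset.erase_singleton]
    rfl

/-- **W-J3V-S5**: no common word, if `V` has at least two parts larger than 2 -/
theorem TyJ3V.w_S5 (h : TyJ3V F g) (h' : TyS5 F' g') (hV : ∀ c ∈ F, 2 ≤ (contc c).countP (3 ≤ ·))
    (hd : ∀ c ∈ F, c ∉ F') : ∀ w ∈ g.B, w ∉ g'.B := by
  obtain ⟨R, B, S, w0, h1, hp, rfl, rfl⟩ := h
  intro w hw hw'
  obtain ⟨i, hi, h9, rfl⟩ := mem_gadS.1 hw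
  obtain ⟨rfl, rfl, s, hs, e⟩ := h1.s5W h' (w0 := w0)
    (fun c hc e => hd _ (Or.inr (Or.inl rfl)) (e ▸ hc)) hw' hi h9 (h1.word w0 hi)
  have h2 := hV _ (Or.inl rfl)
  have h3 : contc (cyc (sX R .nil S w0 0)) = OddHC.cont R + {2} := h1.cont0 w0
  have h4 := h1.cont
  have h5 : raise (OddHC.cont (BinaryTree.nil △ BinaryTree.nil : BinaryTree Unit)) = {2} := by
    rw [cont_node, raise_nil, cont_nil, add_zero]
    rfl
  have h6 : OddHC.cont S = {2} + ({2} + {s}) := by
    have e6 : OddHC.cont ((.nil △ .nil) △ ((.nil △ .nil) △ H1.ch s)) =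
        raise (OddHC.cont (BinaryTree.nil △ BinaryTree.nil : BinaryTree Unit)) +
        (raise (OddHC.cont (BinaryTree.nil △ BinaryTree.nil : BinaryTree Unit)) + OddHC.cont (H1.ch s)) := rfl
    rw [e, e6, h5, cont_chS5 (by omega)]
  rw [cont_nil, zero_add, h6] at h4
  rw [h3, ← h4] at h2
  simp only [Multiset.countP_add] at h2
  have k1 : Multiset.countP (3 ≤ ·) ({2} : Multiset ℕ) = 0 := by decide
  have k2 : Multiset.countP (3 ≤ ·) ({s} : Multiset ℕ) ≤ 1 :=
    (Multiset.countP_le_card _ _).trans (by simp)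
  omega

end Pool.OddHC
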