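import Pool.Agent.Work.MP_8f87b2_h90.InAJ2
import Pool.Agent.Work.MP_8f87b2_h17.TyJ2B

/-!
# MP_8f87b2_co: rows I-A-J2B, I-A-J3V

`TyA.inner_J2R`, `TyA.inner_J3V` (exact lists), `TyA.inner_J2B5`, `TyA.inner_J3V5` (windows of height at least 5 with a part 1:
no hit).
-/

set_option autoImplicit false

namespace Pool.OddHC

open Finset Equiv BinaryTree Pool.Agent.Work.MP_8f87b2_co J3

variable {k : ℕ} {F F' : Set (Cyc k)} {g g' : DG k} {R B S : BinaryTree Unit}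

/-- **I-A-J2B**: exact list -/
theorem TyA.inner_J2R (h : TyA F g) (h' : TyJ2R R B S F' g') {a : X k × X k} (ha : a ∈ g.arcs) {w : X k}
    (hw : w ∈ innA a) (hw' : w ∈ g'.B) :
    ((∀ c ∈ F, htc c = 4 ∧ (contc c).count 1 = 0) ∧
      (w.1 = app R ((.nil △ .nil) △ .nil) ∨ (w.1 = app S ((.nil △ .nil) △ .nil) ∧ B = .nil))) ∨
    ((∀ c ∈ F, htc c = 4 ∧ 1 ≤ (contc c).count 1) ∧ (w.1 = app R (.nil △ .nil) △ .nil ∨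
      (w.1 = app S (app B (.nil △ .nil) △ .nil) ∧ B ≠ .nil) ∨ (w.1 = app S (.nil △ .nil) △ .nil ∧ B = .nil))) ∨
    ((∀ c ∈ F, 5 ≤ htc c ∧ (contc c).count 1 = 0) ∧ (w.1 = (R △ .nil) △ .nil ∨ w.1 = (S △ B) △ .nil ∨
      (w.1 = app S (B △ .nil) △ .nil ∧ B ≠ .nil))) := by
  obtain ⟨j, hj, e⟩ := h'.words w hw'
  rcases h.inner_sq h'.sqd ha hw hj e with ⟨k1, k2⟩ | ⟨k1, k2⟩ | ⟨k1, k2⟩
  · rcases k2 with rfl | ⟨rfl, rfl⟩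
    · exact Or.inl ⟨k1, Or.inl e⟩
    · exact Or.inl ⟨k1, Or.inr ⟨e, rfl⟩⟩
  · rcases k2 with rfl | ⟨rfl, hB⟩ | ⟨rfl, rfl⟩
    · exact Or.inr (Or.inl ⟨k1, Or.inl e⟩)
    · exact Or.inr (Or.inl ⟨k1, Or.inr (Or.inl ⟨e, hB⟩)⟩)
    · exact Or.inr (Or.inl ⟨k1, Or.inr (Or.inr ⟨e, rfl⟩)⟩)
  · rcases k2 with rfl | rfl | ⟨rfl, hB⟩
    · exact Or.inr (Or.inr ⟨k1, Or.inl e⟩)
    · exact Or.inr (Or.inr ⟨k1, Or.inr (Or.inl e)⟩)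
    · exact Or.inr (Or.inr ⟨k1, Or.inr (Or.inr ⟨e, hB⟩)⟩)

/-- **I-A-J2B**: windows of height at least 5 with a part 1 -/
theorem TyA.inner_J2B5 (h : TyA F g) (h' : TyJ2B F' g') (h5 : ∀ c ∈ F, 5 ≤ htc c)
    (h1 : ∀ c ∈ F, 1 ∈ contc c) : ∀ p ∈ g.arcs, ∀ w ∈ innA p, w ∉ g'.B := by
  obtain ⟨R, B, S, h'⟩ := h'
  intro p hp w hw hw'
  obtain ⟨j, hj, e⟩ := h'.words w hw'
  exact h.inner_sq5 h'.sqd h5 h1 hp hw hj e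

/-- **I-A-J3V**: exact list -/
theorem TyA.inner_J3V (h : TyA F g) (h' : TyJ3V F' g') {a : X k × X k} (ha : a ∈ g.arcs) {w : X k}
    (hw : w ∈ innA a) (hw' : w ∈ g'.B) : ∃ R B S : BinaryTree Unit, SqD k R B S ∧
    (((∀ c ∈ F, htc c = 4 ∧ (contc c).count 1 = 0) ∧
      (w.1 = app R ((.nil △ .nil) △ .nil) ∨ (w.1 = app S ((.nil △ .nil) △ .nil) ∧ B = .nil))) ∨
    ((∀ c ∈ F, htc c = 4 ∧ 1 ≤ (contc c).count 1) ∧ (w.1 = app R (.nil △ .nil) △ .nil ∨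
      (w.1 = app S (app B (.nil △ .nil) △ .nil) ∧ B ≠ .nil) ∨ (w.1 = app S (.nil △ .nil) △ .nil ∧ B = .nil))) ∨
    ((∀ c ∈ F, 5 ≤ htc c ∧ (contc c).count 1 = 0) ∧ (w.1 = (S △ B) △ .nil ∨
      (w.1 = app S (B △ .nil) △ .nil ∧ B ≠ .nil)))) := by
  obtain ⟨R, B, S, w0, h1, hp, rfl, rfl⟩ := h'
  obtain ⟨j, hj, h9, rfl⟩ := mem_gadS.1 hw'
  refine ⟨R, B, S, h1, ?_⟩
  have e := h1.word w0 hj
  rcases h.inner_sq h1 ha hw hj e with ⟨k1, k2⟩ | ⟨k1, k2⟩ | ⟨k1, k2⟩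
  · rcases k2 with rfl | ⟨rfl, rfl⟩
    · exact Or.inl ⟨k1, Or.inl e⟩
    · exact Or.inl ⟨k1, Or.inr ⟨e, rfl⟩⟩
  · rcases k2 with rfl | ⟨rfl, hB⟩ | ⟨rfl, rfl⟩
    · exact Or.inr (Or.inl ⟨k1, Or.inl e⟩)
    · exact Or.inr (Or.inl ⟨k1, Or.inr (Or.inl ⟨e, hB⟩)⟩)
    · exact Or.inr (Or.inl ⟨k1, Or.inr (Or.inr ⟨e, rfl⟩)⟩)
  · rcases k2 with rfl | rfl | ⟨rfl, hB⟩
    · exact absurd rfl h9
    · exact Or.inr (Or.inr ⟨k1, Or.inl e⟩)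
    · exact Or.inr (Or.inr ⟨k1, Or.inr ⟨e, hB⟩⟩)

/-- **I-A-J3V**: windows of height at least 5 with a part 1 -/
theorem TyA.inner_J3V5 (h : TyA F g) (h' : TyJ3V F' g') (h5 : ∀ c ∈ F, 5 ≤ htc c)
    (h1 : ∀ c ∈ F, 1 ∈ contc c) : ∀ p ∈ g.arcs, ∀ w ∈ innA p, w ∉ g'.B := by
  obtain ⟨R, B, S, w0, h2, hp, rfl, rfl⟩ := h'
  intro p hp w hw hw'
  obtain ⟨j, hj, h9, rfl⟩ := mem_gadS.1 hw'
  exact h.inner_sq5 h2 h5 h1 hp hw hj (h2.word w0 hj)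

end Pool.OddHC
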