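import Pool.Agent.Work.MP_8f87b2_h90.J3S5

/-!
# MP_8f87b2_co: the words of type S5 have at least two components
-/

set_option autoImplicit false

namespace Pool.OddHC

open Finset Equiv BinaryTree Pool.Agent.Work.MP_8f87b2_co J3

variable {k : ℕ} {F : Set (Cyc k)} {g : DG k}

/-- two components -/
theorem J3.app_two {A Z : BinaryTree Unit} (hA : A ≠ .nil) (hZ : Z ≠ .nil) (Y : BinaryTree Unit) :
    app A Z ≠ Y △ .nil := by
  cases A with
  | nil => exact absurd rfl hA
  | node _ a A' =>
    intro e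
    have e' : a △ app A' Z = Y △ .nil := e
    exact absurd (H1.node_inj e').2 (H1.app_ne hZ)

/-- a word of type S5 is not `(Y)` -/
theorem TyS5.two (h : TyS5 F g) : ∀ w ∈ g.B, ∀ Y, w.1 ≠ Y △ .nil := by
  obtain ⟨s, n, hs, hn, ht⟩ := h
  obtain ⟨C, hC, hCs⟩ := ch_two' hs
  have hsn : H1.ch s ≠ .nil := by rw [hCs]; simp
  have hlp : ∀ m, lp (m + 1) ≠ .nil := fun m => by rw [lp_one']; simp
  intro w hw Y e
  rcases ht with ht | ht | ht
  · rcases ht.words w hw with e1 | ⟨-, e1 | e1⟩
    · exact app_two (hlp (n + 1)) (by simp) Y (e1.symm.trans e)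
    · exact app_two hsn (by simp) Y (e1.symm.trans e)
    · exact absurd (H1.node_inj (e1.symm.trans e)).2 hsn
  · rcases ht.words w hw with e1 | ⟨-, e1 | e1⟩
    · exact absurd (H1.node_inj (e1.symm.trans e)).2 (hlp _)
    · exact app_two hsn (by simp) Y (e1.symm.trans e)
    · exact app_two (hlp (n + 1)) (by simp) Y (e1.symm.trans e)
  · rcases ht.words w hw with e1 | ⟨-, e1 | e1⟩
    · exact app_two (hlp 0) (by simp) Y (e1.symm.trans e)
    · refine app_two (A := app (H1.ch s) (lp n)) ?_ (by simp) Y (e1.symm.trans e)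
      rw [hCs]
      change C △ app .nil (lp n) ≠ .nil
      simp
    · exact app_two (A := H1.ch 2) (by simp [H1.ch]) (by simp) Y (e1.symm.trans e)

end Pool.OddHC
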