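import Pool.Agent.Work.MP_8f87b2_h90.J3S5
import Pool.Agent.Work.MP_8f87b2_h60.TyA0

/-!
# MP_8f87b2_co: row W-A0-J3V, the core

The twenty words `aw R (pc (q+1)) B S i` (all parts at least 3) against the words `pw X j` (no part 1).
-/

set_option autoImplicit false
set_option linter.unusedSimpArgs false
set_option linter.unusedVariables false

namespace Pool.OddHC

open Finset Equiv BinaryTree Pool.Agent.Work.MP_8f87b2_co

namespace J3

variable {k : ℕ} {R B S X Y Z P Q A C T R' B' S' : BinaryTree Unit}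

/-- the possible `X` -/
def PossA0 (q : ℕ) (R B S X : BinaryTree Unit) : Prop :=
  (q = 0 ∧ (X = R △ .nil ∨ X = app B (S △ .nil) ∨ (B ≠ .nil ∧ X = B △ S))) ∨
  (q = 1 ∧ (X = (R △ .nil) △ .nil ∨ X = app B (S △ .nil) △ .nil ∨ X = (B △ S) △ .nil))

theorem app_eq_nil : app P Q = .nil ↔ P = .nil ∧ Q = .nil := by
  constructor
  · intro e
    cases P with
    | nil => exact ⟨rfl, e⟩
    | node _ A C => exact absurd e (by change A △ app C Q ≠ .nil; simp)
  · rintro ⟨rfl, rfl⟩; rfl

theorem snoc_iff {P P' A A' : BinaryTree Unit} : app P (A △ .nil) = app P' (A' △ .nil) ↔ P = P' ∧ A = A' :=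
  ⟨H1.app_snoc, fun ⟨h1, h2⟩ => by rw [h1, h2]⟩

theorem snoc_one {P A C : BinaryTree Unit} : app P (A △ .nil) = C △ .nil ↔ P = .nil ∧ A = C := by
  have : (C △ .nil : BinaryTree Unit) = app .nil (C △ .nil) := rfl
  rw [this, snoc_iff]

theorem snoc_one' {P A C : BinaryTree Unit} : C △ .nil = app P (A △ .nil) ↔ P = .nil ∧ A = C := by
  rw [eq_comm, snoc_one]

/-- only the component `()` -/
theorem cont_lf_iff (h : OddHC.cont A = {1}) : A = .nil △ .nil := by
  cases A with
  | nil => simp [OddHC.cont] at h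
  | node _ C D =>
    have e : OddHC.cont (C △ D) = raise (OddHC.cont C) + OddHC.cont D := rfl
    have h' : OddHC.cont (C △ D) = {1} := h
    rw [e] at h'
    have h2 := congrArg Multiset.card h'
    unfold raise at h2
    rw [Multiset.card_add, Multiset.card_cons, Multiset.card_singleton] at h2
    have h3 : OddHC.cont D = 0 := Multiset.card_eq_zero.1 (by omega)
    have h4 : OddHC.cont C = 0 := by
      rw [h3, add_zero] at h'
      have h5 : (OddHC.cont C).sup + 1 ∈ raise (OddHC.cont C) := by unfold raise; simp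
      rw [h', Multiset.mem_singleton] at h5
      by_contra h6
      obtain ⟨x, hx⟩ := Multiset.exists_mem_of_ne_zero h6
      have h7 := Multiset.le_sup hx
      have h8 := cont_pos _ x hx
      omega
    rw [cont_zero h3, cont_zero h4]

theorem raise_lf (h : (raise (OddHC.cont A)).count 1 = 0) : A ≠ .nil ∧ (A = .nil △ .nil ∨ (OddHC.cont A).count 1 = 0) := by
  constructor
  · rintro rfl
    rw [raise_nil] at h
    simp at h
  · by_cases h1 : (OddHC.cont A).count 1 = 0
    · exact Or.inr h1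
    · left
      have h2 : 1 ∈ OddHC.cont A := Multiset.count_pos.1 (by omega)
      obtain ⟨M, hM⟩ := Multiset.exists_cons_of_mem h2
      have h3 : OddHC.cont A = M + {1} := by rw [hM, add_comm, Multiset.singleton_add]
      have h4 : M = 0 := raise_one (fun x hx => cont_pos A x (by rw [h3]; exact Multiset.mem_add.2 (Or.inl hx)))
        (by rw [← h3]; exact h)
      apply cont_lf_iff
      rw [h3, h4, zero_add]

/-- no part 1 -/
def N1 (T : BinaryTree Unit) : Prop := (OddHC.cont T).count 1 = 0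

/-- all parts at least 3 -/
def T3 (T : BinaryTree Unit) : Prop := ∀ x ∈ OddHC.cont T, 3 ≤ x

theorem T3.n1 {T : BinaryTree Unit} (h : T3 T) : N1 T := by
  unfold N1
  rw [Multiset.count_eq_zero]
  intro h2
  have := h 1 h2
  omega

/-- the components of a word without a part 1 -/
theorem N1.comp {T : BinaryTree Unit} (h : N1 T) (e : T = app P (A △ Q)) :
    A ≠ .nil ∧ (A = .nil △ .nil ∨ N1 A) := by
  subst e
  unfold N1 at h
  rw [cont_app, cont_node, Multiset.count_add, Multiset.count_add] at h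
  exact raise_lf (by omega)

/-- the components of a word with all parts at least 3 -/
theorem T3.comp {T : BinaryTree Unit} (h : T3 T) (e : T = app P (A △ Q)) :
    A ≠ .nil ∧ A ≠ .nil △ .nil ∧ N1 A := by
  obtain ⟨h1, h2⟩ := h.n1.comp e
  have h3 : A ≠ .nil △ .nil := by
    rintro rfl
    subst e
    have h4 := h 2 (by
      rw [cont_app, cont_node]
      refine Multiset.mem_add.2 (Or.inr (Multiset.mem_add.2 (Or.inl ?_)))
      change 2 ∈ raise (raise 0 + 0)
      decide)
    omega
  exact ⟨h1, h3, h2.resolve_left h3⟩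

theorem T3.c1 (h : T3 T) : T ≠ app P (.nil △ Q) := fun e => (h.comp e).1 rfl
theorem T3.c2 (h : T3 T) : T ≠ app P ((.nil △ .nil) △ Q) := fun e => (h.comp e).2.1 rfl
theorem T3.c3 (h : T3 T) : T ≠ app P (app A (.nil △ .nil) △ Q) := fun e =>
  ne_app_lf (h.comp e).2.2 rfl
theorem T3.c4 (h : T3 T) : T ≠ app P ((.nil △ A) △ Q) := fun e =>
  ne_nil_node (h.comp e).2.2 rfl
theorem T3.d1 (h : T3 T) : T ≠ .nil △ Q := h.c1 (P := .nil)
theorem T3.d2 (h : T3 T) : T ≠ (.nil △ .nil) △ Q := h.c2 (P := .nil)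
theorem T3.d3 (h : T3 T) : T ≠ app A (.nil △ .nil) △ Q := h.c3 (P := .nil)
theorem T3.d4 (h : T3 T) : T ≠ (.nil △ A) △ Q := h.c4 (P := .nil)
theorem T3.e1 (h : T3 T) : T ≠ app P (A △ (.nil △ .nil)) := fun e =>
  ne_app_lf h.n1 (Y := app P (A △ .nil)) (by rw [e, H1.app_assoc]; rfl)
theorem T3.e2 (h : T3 T) : T ≠ A △ (.nil △ .nil) := h.e1 (P := .nil)
theorem N1.c1 (h : N1 T) : T ≠ app P (.nil △ Q) := fun e => (h.comp e).1 rfl
theorem N1.c3 (h : N1 T) (hA : A ≠ .nil) : T ≠ app P (app A (.nil △ .nil) △ Q) := by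
  intro e
  rcases (h.comp e).2 with h1 | h1
  · have h2 : app A (.nil △ .nil) = app .nil (.nil △ .nil) := h1
    exact hA (H1.app_snoc h2).1
  · exact ne_app_lf h1 rfl
theorem N1.c4 (h : N1 T) (hA : A ≠ .nil) : T ≠ app P ((.nil △ A) △ Q) := by
  intro e
  rcases (h.comp e).2 with h1 | h1
  · exact hA (H1.node_inj h1).2
  · exact ne_nil_node h1 rfl
theorem N1.d1 (h : N1 T) : T ≠ .nil △ Q := h.c1 (P := .nil)
theorem N1.d3 (h : N1 T) (hA : A ≠ .nil) : T ≠ app A (.nil △ .nil) △ Q := h.c3 (P := .nil) hA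
theorem N1.d4 (h : N1 T) (hA : A ≠ .nil) : T ≠ (.nil △ A) △ Q := h.c4 (P := .nil) hA
theorem N1.e1 (h : N1 T) : T ≠ app P (A △ (.nil △ .nil)) := fun e =>
  ne_app_lf h (Y := app P (A △ .nil)) (by rw [e, H1.app_assoc]; rfl)
theorem N1.e2 (h : N1 T) : T ≠ A △ (.nil △ .nil) := h.e1 (P := .nil)


theorem end2 : app P (A △ (C △ .nil)) = app (app P (A △ .nil)) (C △ .nil) := by
  rw [H1.app_assoc]; rfl
theorem end3 : app P (A △ (X △ (C △ .nil))) = app (app (app P (A △ .nil)) (X △ .nil)) (C △ .nil) := by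
  rw [H1.app_assoc, H1.app_assoc]; rfl
theorem sn2 : A △ (C △ .nil) = app P (Z △ .nil) ↔ P = A △ .nil ∧ Z = C := by
  have e : A △ (C △ .nil) = app (A △ .nil) (C △ .nil) := rfl
  rw [e, snoc_iff]
  exact ⟨fun ⟨h1, h2⟩ => ⟨h1.symm, h2.symm⟩, fun ⟨h1, h2⟩ => ⟨h1.symm, h2.symm⟩⟩
theorem sn2' : app P (Z △ .nil) = A △ (C △ .nil) ↔ P = A △ .nil ∧ Z = C := by rw [eq_comm, sn2]
theorem sn3 : A △ (X △ (C △ .nil)) = app P (Z △ .nil) ↔ P = A △ (X △ .nil) ∧ Z = C := by
  have e : A △ (X △ (C △ .nil)) = app (A △ (X △ .nil)) (C △ .nil) := rfl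
  rw [e, snoc_iff]
  exact ⟨fun ⟨h1, h2⟩ => ⟨h1.symm, h2.symm⟩, fun ⟨h1, h2⟩ => ⟨h1.symm, h2.symm⟩⟩
theorem sn3' : app P (Z △ .nil) = A △ (X △ (C △ .nil)) ↔ P = A △ (X △ .nil) ∧ Z = C := by rw [eq_comm, sn3]
theorem sn4 : A △ (app X (C △ .nil)) = app P (Z △ .nil) ↔ P = A △ X ∧ Z = C := by
  have e : A △ (app X (C △ .nil)) = app (A △ X) (C △ .nil) := rfl
  rw [e, snoc_iff]
  exact ⟨fun ⟨h1, h2⟩ => ⟨h1.symm, h2.symm⟩, fun ⟨h1, h2⟩ => ⟨h1.symm, h2.symm⟩⟩
theorem sn4' : app P (Z △ .nil) = A △ (app X (C △ .nil)) ↔ P = A △ X ∧ Z = C := by rw [eq_comm, sn4]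

/-- the last component is not `()` -/
structure L1 (T : BinaryTree Unit) : Prop where
  ne : T ≠ .nil
  a : ∀ Y, T ≠ app Y (.nil △ .nil)

theorem L1.node (h : L1 T) (A : BinaryTree Unit) : L1 (A △ T) :=
  ⟨by simp, fun Y e => by
    obtain ⟨Q', h1, _⟩ := lst_node h.ne e
    exact h.a _ h1⟩
theorem L1.app (h : L1 T) (P : BinaryTree Unit) : L1 (app P T) :=
  ⟨H1.app_ne h.ne, fun Y e => by
    obtain ⟨Q', h1, _⟩ := lst_app h.ne e
    exact h.a _ h1⟩
theorem L1.one (h : A ≠ .nil) : L1 (A △ .nil) :=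
  ⟨by simp, fun Y e => by
    rw [snoc_one'] at e
    exact h e.2.symm⟩
theorem L1.of (h : N1 T) (h0 : T ≠ .nil) : L1 T := ⟨h0, fun Y e => h.c1 (P := Y) (Q := .nil) e⟩

/-- the last component is not `(())` -/
structure L2 (T : BinaryTree Unit) : Prop where
  ne : T ≠ .nil
  a : ∀ Y, T ≠ app Y ((.nil △ .nil) △ .nil)

theorem L2.node (h : L2 T) (A : BinaryTree Unit) : L2 (A △ T) :=
  ⟨by simp, fun Y e => by
    obtain ⟨Q', h1, _⟩ := lst_node h.ne e
    exact h.a _ h1⟩
theorem L2.app (h : L2 T) (P : BinaryTree Unit) : L2 (app P T) :=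
  ⟨H1.app_ne h.ne, fun Y e => by
    obtain ⟨Q', h1, _⟩ := lst_app h.ne e
    exact h.a _ h1⟩
theorem L2.one (h : A ≠ .nil △ .nil) : L2 (A △ .nil) :=
  ⟨by simp, fun Y e => by
    rw [snoc_one'] at e
    exact h e.2.symm⟩
theorem L2.of (h : T3 T) (h0 : T ≠ .nil) : L2 T := ⟨h0, fun Y e => h.c2 (P := Y) (Q := .nil) e⟩

/-- the first component is not `()` -/
structure F1 (T : BinaryTree Unit) : Prop where
  ne : T ≠ .nil
  a : ∀ Y, T ≠ .nil △ Y

theorem F1.app (h : F1 T) (P : BinaryTree Unit) : F1 (app T P) :=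
  ⟨H1.app_ne' h.ne, fun Y e => by
    obtain ⟨Q', h1, _⟩ := fst_app h.ne e
    exact h.a _ h1⟩
theorem F1.of (h : N1 T) (h0 : T ≠ .nil) : F1 T := ⟨h0, fun Y e => h.d1 e⟩
theorem F1.node (h : A ≠ .nil) : F1 (A △ P) := ⟨by simp, fun Y e => h (H1.node_inj e).1⟩

/-- the first component is not `(())` -/
structure F2 (T : BinaryTree Unit) : Prop where
  ne : T ≠ .nil
  a : ∀ Y, T ≠ (.nil △ .nil) △ Y

theorem F2.app (h : F2 T) (P : BinaryTree Unit) : F2 (app T P) :=
  ⟨H1.app_ne' h.ne, fun Y e => by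
    obtain ⟨Q', h1, _⟩ := fst_app h.ne e
    exact h.a _ h1⟩
theorem F2.of (h : T3 T) (h0 : T ≠ .nil) : F2 T := ⟨h0, fun Y e => h.d2 e⟩
theorem F2.node (h : A ≠ .nil △ .nil) : F2 (A △ P) := ⟨by simp, fun Y e => h (H1.node_inj e).1⟩

theorem K2 (h : N1 X) (e : .nil △ R = app X T) : X = .nil ∧ T = .nil △ R := by
  by_cases hX : X = .nil
  · subst hX
    exact ⟨rfl, e.symm⟩
  · obtain ⟨P', h1, _⟩ := fst_app hX e.symm
    exact absurd h1 h.d1

theorem K3 (h : N1 X) (e : app R (.nil △ .nil) = app P X) : X = .nil := by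
  by_contra hX
  obtain ⟨Q', h1, _⟩ := lst_app hX e.symm
  exact h.c1 (P := Q') (Q := .nil) h1

theorem N1.tl (h : N1 (A △ X)) : N1 X := cnt_node h
theorem N1.fr (h : N1 (app X Y)) : N1 X := (cnt_app h).1
theorem N1.bk (h : N1 (app X Y)) : N1 Y := (cnt_app h).2

theorem K1 (h : N1 S) (h0 : S ≠ .nil) (e : app S T = A △ (.nil △ R)) : S = A △ .nil ∧ T = .nil △ R := by
  obtain ⟨P', h1, h2⟩ := fst_app h0 e
  have h3 : N1 P' := by rw [h1] at h; exact h.tl
  obtain ⟨h4, h5⟩ := K2 h3 h2
  rw [h4] at h1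
  exact ⟨h1, h5⟩

theorem K4 {U V : BinaryTree Unit} : ∀ {S B : BinaryTree Unit}, N1 S → N1 B →
    app S (.nil △ U) = app B (.nil △ V) → S = B ∧ U = V := by
  intro S
  induction S with
  | nil =>
    intro B _ hB e
    obtain ⟨h1, h2⟩ := K2 hB e
    exact ⟨h1.symm, (H1.node_inj h2).2.symm⟩
  | node u A C _ ih =>
    intro B hS hB e
    cases B with
    | nil =>
      have e' : A △ app C (.nil △ U) = .nil △ V := e
      have h1 := (H1.node_inj e').1
      subst h1
      exact absurd (rfl : (BinaryTree.nil △ C) = _) (hS.d1 (Q := C))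
    | node _ A' C' =>
      have e' : A △ app C (.nil △ U) = A' △ app C' (.nil △ V) := e
      obtain ⟨h1, h2⟩ := H1.node_inj e'
      obtain ⟨h3, h4⟩ := ih hS.tl hB.tl h2
      subst h1 h3
      exact ⟨rfl, h4⟩

theorem pc_lf {q : ℕ} (h : pc (q + 1) = .nil △ .nil) : q = 0 := by
  cases q with
  | zero => rfl
  | succ q =>
    have h' : pc (q + 1) △ .nil = .nil △ .nil := h
    exact absurd (H1.node_inj h').1 (by simp [pc])

theorem pc_z {q : ℕ} (h : pc q = .nil) : q = 0 := by
  cases q with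
  | zero => rfl
  | succ q => exact absurd h (by simp [pc])

theorem raise3 {M : Multiset ℕ} (h : ∀ x ∈ M, 3 ≤ x) (h0 : M ≠ 0) : ∀ x ∈ raise M, 3 ≤ x := by
  intro x hx
  unfold raise at hx
  rcases Multiset.mem_cons.1 hx with rfl | hx
  · obtain ⟨y, hy⟩ := Multiset.exists_mem_of_ne_zero h0
    have := h y hy
    have := Multiset.le_sup hy
    omega
  · exact h x (Multiset.mem_of_mem_erase hx)

theorem T3.one (h : T3 S) (h0 : S ≠ .nil) : T3 (S △ .nil) := by
  intro x hx
  rw [cont_node, cont_nil, add_zero] at hx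
  exact raise3 h (fun e => h0 (cont_zero e)) x hx

theorem T3.app (h : T3 R) (h' : T3 S) : T3 (app R S) := by
  intro x hx
  rw [cont_app] at hx
  rcases Multiset.mem_add.1 hx with hx | hx
  · exact h x hx
  · exact h' x hx

theorem T3.nod (h : T3 R) (h0 : R ≠ .nil) (h' : T3 S) : T3 (R △ S) := (h.one h0).app h'





theorem a0_m0 (h : SqD k R' B' S') (hR : R ≠ .nil) (hS : S ≠ .nil) (tR : T3 R) (tB : T3 B) (tS : T3 S)
    {j : ℕ} (hj : j < 20) (h9 : j ≠ 9) (q : ℕ)
    (e : H1.W R' .nil B' S' j = aw R (pc (q + 1)) B S 0) :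
    ∃ X, (X = R' ∨ (B' = .nil ∧ X = S')) ∧ PossA0 (q) R B S X := by
  have nR' : N1 R' := h.one
  have nB' : N1 B' := h.oneB
  have nS' : N1 S' := h.oneS
  have hR' := h.ne
  have hS' := h.neS
  have hQ : pc (q + 1) ≠ .nil := by simp [pc]
  have lR := L1.of tR.n1 hR
  have lS := L1.of tS.n1 hS
  have lR' := L1.of nR' hR'
  have lS' := L1.of nS' hS'
  have mR := L2.of tR hR
  have mS := L2.of tS hS
  have fR := F1.of tR.n1 hR
  have fS := F1.of tS.n1 hS
  have fR' := F1.of nR' hR'
  have fS' := F1.of nS' hS'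
  have gR := F2.of tR hR
  have gS := F2.of tS hS
  have dB' : ∀ Y, B' ≠ .nil △ Y := fun Y => nB'.d1
  have lB : ∀ Y, B ≠ app Y (.nil △ .nil) := fun Y => tB.n1.c1
  have lB' : ∀ Y, B' ≠ app Y (.nil △ .nil) := fun Y => nB'.c1
  have tT : T3 (app B (S △ .nil)) := tB.app (tS.one hS)
  have zR := H1.len_pos hR
  have zS := H1.len_pos hS
  have zR' := H1.len_pos hR'
  have zS' := H1.len_pos hS'
  have e' : H1.W R' .nil B' S' j = (pc (q + 1) △ .nil) △ R := e
  rcases h.fstA hj h9 (by simp [app_eq_nil, pc, hR, hS]) e' with ⟨hj', X', e3, e4⟩ | ⟨hj', X', e3, e4⟩ | ⟨hj', e3, e4⟩ | ⟨hj', e3, e4⟩ |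
    ⟨hj', e3, e4⟩ | ⟨hj', e3, e4⟩ | ⟨hj', hB', e3, e4⟩ | ⟨hj', X', e3, e4⟩ | ⟨hj', X', e3, e4⟩ | ⟨hj', e3, e4⟩ |
    ⟨hj', X', e3, e4⟩ | ⟨hj', e3, e4⟩ | ⟨hj', X', e3, e4⟩ | ⟨hj', e3, e4⟩ | ⟨hj', e3, e4⟩
  all_goals first
      | exact (hR e4).elim
      | exact (hR' e4.symm).elim
      | exact (hS e4).elim
      | exact (hR e4.symm).elim
      | exact (hS' e4.symm).elim
      | exact (hS e4.symm).elim
      | exact (tR.c1 e4).elim
      | exact (tR.c1 e4.symm).elim
      | exact (tR.c1 e3).elim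
      | exact (tR.c1 e3.symm).elim
      | exact (tR.c2 e4).elim
      | exact (tR.c2 e4.symm).elim
      | exact (tR.c2 e3).elim
      | exact (tR.c2 e3.symm).elim
      | exact (tR.c3 e4).elim
      | exact (tR.c3 e4.symm).elim
      | exact (tR.c3 e3).elim
      | exact (tR.c3 e3.symm).elim
      | exact (tR.c4 e4).elim
      | exact (tR.c4 e4.symm).elim
      | exact (tR.c4 e3).elim
      | exact (tR.c4 e3.symm).elim
      | exact (tR.d1 e4).elim
      | exact (tR.d1 e4.symm).elim
      | exact (tR.d1 e3).elim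
      | exact (tR.d1 e3.symm).elim
      | exact (tR.d2 e4).elim
      | exact (tR.d2 e4.symm).elim
      | exact (tR.d2 e3).elim
      | exact (tR.d2 e3.symm).elim
      | exact (tR.d3 e4).elim
      | exact (tR.d3 e4.symm).elim
      | exact (tR.d3 e3).elim
      | exact (tR.d3 e3.symm).elim
      | exact (tR.d4 e4).elim
      | exact (tR.d4 e4.symm).elim
      | exact (tR.d4 e3).elim
      | exact (tR.d4 e3.symm).elim
      | exact (tR.e1 e4).elim
      | exact (tR.e1 e4.symm).elim
      | exact (tR.e1 e3).elim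
      | exact (tR.e1 e3.symm).elim
      | exact (tR.e2 e4).elim
      | exact (tR.e2 e4.symm).elim
      | exact (tR.e2 e3).elim
      | exact (tR.e2 e3.symm).elim
      | exact (tB.c1 e4).elim
      | exact (tB.c1 e4.symm).elim
      | exact (tB.c1 e3).elim
      | exact (tB.c1 e3.symm).elim
      | exact (tB.c2 e4).elim
      | exact (tB.c2 e4.symm).elim
      | exact (tB.c2 e3).elim
      | exact (tB.c2 e3.symm).elim
      | exact (tB.c3 e4).elim
      | exact (tB.c3 e4.symm).elim
      | exact (tB.c3 e3).elim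
      | exact (tB.c3 e3.symm).elim
      | exact (tB.c4 e4).elim
      | exact (tB.c4 e4.symm).elim
      | exact (tB.c4 e3).elim
      | exact (tB.c4 e3.symm).elim
      | exact (tB.d1 e4).elim
      | exact (tB.d1 e4.symm).elim
      | exact (tB.d1 e3).elim
      | exact (tB.d1 e3.symm).elim
      | exact (tB.d2 e4).elim
      | exact (tB.d2 e4.symm).elim
      | exact (tB.d2 e3).elim
      | exact (tB.d2 e3.symm).elim
      | exact (tB.d3 e4).elim
      | exact (tB.d3 e4.symm).elim
      | exact (tB.d3 e3).elim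
      | exact (tB.d3 e3.symm).elim
      | exact (tB.d4 e4).elim
      | exact (tB.d4 e4.symm).elim
      | exact (tB.d4 e3).elim
      | exact (tB.d4 e3.symm).elim
      | exact (tB.e1 e4).elim
      | exact (tB.e1 e4.symm).elim
      | exact (tB.e1 e3).elim
      | exact (tB.e1 e3.symm).elim
      | exact (tB.e2 e4).elim
      | exact (tB.e2 e4.symm).elim
      | exact (tB.e2 e3).elim
      | exact (tB.e2 e3.symm).elim
      | exact (tS.c1 e4).elim
      | exact (tS.c1 e4.symm).elim
      | exact (tS.c1 e3).elim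
      | exact (tS.c1 e3.symm).elim
      | exact (tS.c2 e4).elim
      | exact (tS.c2 e4.symm).elim
      | exact (tS.c2 e3).elim
      | exact (tS.c2 e3.symm).elim
      | exact (tS.c3 e4).elim
      | exact (tS.c3 e4.symm).elim
      | exact (tS.c3 e3).elim
      | exact (tS.c3 e3.symm).elim
      | exact (tS.c4 e4).elim
      | exact (tS.c4 e4.symm).elim
      | exact (tS.c4 e3).elim
      | exact (tS.c4 e3.symm).elim
      | exact (tS.d1 e4).elim
      | exact (tS.d1 e4.symm).elim
      | exact (tS.d1 e3).elim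
      | exact (tS.d1 e3.symm).elim
      | exact (tS.d2 e4).elim
      | exact (tS.d2 e4.symm).elim
      | exact (tS.d2 e3).elim
      | exact (tS.d2 e3.symm).elim
      | exact (tS.d3 e4).elim
      | exact (tS.d3 e4.symm).elim
      | exact (tS.d3 e3).elim
      | exact (tS.d3 e3.symm).elim
      | exact (tS.d4 e4).elim
      | exact (tS.d4 e4.symm).elim
      | exact (tS.d4 e3).elim
      | exact (tS.d4 e3.symm).elim
      | exact (tS.e1 e4).elim
      | exact (tS.e1 e4.symm).elim
      | exact (tS.e1 e3).elim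
      | exact (tS.e1 e3.symm).elim
      | exact (tS.e2 e4).elim
      | exact (tS.e2 e4.symm).elim
      | exact (tS.e2 e3).elim
      | exact (tS.e2 e3.symm).elim
      | exact (nR'.c1 e3).elim
      | exact (nR'.c1 e4).elim
      | exact (nR'.c1 e3.symm).elim
      | exact (nR'.c1 e4.symm).elim
      | exact (nR'.d1 e3).elim
      | exact (nR'.d1 e4).elim
      | exact (nR'.d1 e3.symm).elim
      | exact (nR'.d1 e4.symm).elim
      | exact (nR'.e1 e3).elim
      | exact (nR'.e1 e4).elim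
      | exact (nR'.e1 e3.symm).elim
      | exact (nR'.e1 e4.symm).elim
      | exact (nR'.e2 e3).elim
      | exact (nR'.e2 e4).elim
      | exact (nR'.e2 e3.symm).elim
      | exact (nR'.e2 e4.symm).elim
      | exact (nR'.c3 hR e3).elim
      | exact (nR'.c3 hS e3).elim
      | exact (nR'.c3 hQ e3).elim
      | exact (nR'.c3 hQ e3).elim
      | exact (nR'.c4 hR e3).elim
      | exact (nR'.c4 hS e3).elim
      | exact (nR'.c4 hQ e3).elim
      | exact (nR'.c4 hQ e3).elim
      | exact (nR'.d3 hR e3).elim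
      | exact (nR'.d3 hS e3).elim
      | exact (nR'.d3 hQ e3).elim
      | exact (nR'.d3 hQ e3).elim
      | exact (nR'.d4 hR e3).elim
      | exact (nR'.d4 hS e3).elim
      | exact (nR'.d4 hQ e3).elim
      | exact (nR'.d4 hQ e3).elim
      | exact (nB'.c1 e3).elim
      | exact (nB'.c1 e4).elim
      | exact (nB'.c1 e3.symm).elim
      | exact (nB'.c1 e4.symm).elim
      | exact (nB'.d1 e3).elim
      | exact (nB'.d1 e4).elim
      | exact (nB'.d1 e3.symm).elim
      | exact (nB'.d1 e4.symm).elim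
      | exact (nB'.e1 e3).elim
      | exact (nB'.e1 e4).elim
      | exact (nB'.e1 e3.symm).elim
      | exact (nB'.e1 e4.symm).elim
      | exact (nB'.e2 e3).elim
      | exact (nB'.e2 e4).elim
      | exact (nB'.e2 e3.symm).elim
      | exact (nB'.e2 e4.symm).elim
      | exact (nB'.c3 hR e3).elim
      | exact (nB'.c3 hS e3).elim
      | exact (nB'.c3 hQ e3).elim
      | exact (nB'.c3 hQ e3).elim
      | exact (nB'.c4 hR e3).elim
      | exact (nB'.c4 hS e3).elim
      | exact (nB'.c4 hQ e3).elim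
      | exact (nB'.c4 hQ e3).elim
      | exact (nB'.d3 hR e3).elim
      | exact (nB'.d3 hS e3).elim
      | exact (nB'.d3 hQ e3).elim
      | exact (nB'.d3 hQ e3).elim
      | exact (nB'.d4 hR e3).elim
      | exact (nB'.d4 hS e3).elim
      | exact (nB'.d4 hQ e3).elim
      | exact (nB'.d4 hQ e3).elim
      | exact (nS'.c1 e3).elim
      | exact (nS'.c1 e4).elim
      | exact (nS'.c1 e3.symm).elim
      | exact (nS'.c1 e4.symm).elim
      | exact (nS'.d1 e3).elim
      | exact (nS'.d1 e4).elim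
      | exact (nS'.d1 e3.symm).elim
      | exact (nS'.d1 e4.symm).elim
      | exact (nS'.e1 e3).elim
      | exact (nS'.e1 e4).elim
      | exact (nS'.e1 e3.symm).elim
      | exact (nS'.e1 e4.symm).elim
      | exact (nS'.e2 e3).elim
      | exact (nS'.e2 e4).elim
      | exact (nS'.e2 e3.symm).elim
      | exact (nS'.e2 e4.symm).elim
      | exact (nS'.c3 hR e3).elim
      | exact (nS'.c3 hS e3).elim
      | exact (nS'.c3 hQ e3).elim
      | exact (nS'.c3 hQ e3).elim
      | exact (nS'.c4 hR e3).elim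
      | exact (nS'.c4 hS e3).elim
      | exact (nS'.c4 hQ e3).elim
      | exact (nS'.c4 hQ e3).elim
      | exact (nS'.d3 hR e3).elim
      | exact (nS'.d3 hS e3).elim
      | exact (nS'.d3 hQ e3).elim
      | exact (nS'.d3 hQ e3).elim
      | exact (nS'.d4 hR e3).elim
      | exact (nS'.d4 hS e3).elim
      | exact (nS'.d4 hQ e3).elim
      | exact (nS'.d4 hQ e3).elim
      | (exfalso; simp [hR.symm, hS.symm, hR'.symm, hS'.symm, dB', (fun Y => (dB' Y).symm), lB, (fun Y => (lB Y).symm), lB', (fun Y => (lB' Y).symm), pc, snoc_iff, snoc_one, snoc_one', app_eq_nil, app, end2, end3, sn2, sn2', sn3, sn3', sn4, sn4', H1.app_nil, hR, hS, hR', hS', lR.a, lS.a, lR'.a, lS'.a, mR.a, mS.a, fR.a, fS.a, fR'.a, fS'.a, gR.a, gS.a, fun Y => (lR.a Y).symm, fun Y => (lS.a Y).symm, fun Y => (lR'.a Y).symm, fun Y => (lS'.a Y).symm, fun Y => (mR.a Y).symm, fun Y => (mS.a Y).symm, fun Y => (fR.a Y).symm, fun Y => (fS.a Y).symm, fun Y => (fR'.a Y).symm, fun Y => (fS'.a Y).symm, fun Y => (gR.a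 Y).symm, fun Y => (gS.a Y).symm, fun A Y => (lR.node A).a Y, fun A Y => (lS.node A).a Y, fun A C Y => ((lR.node A).node C).a Y, fun A C Y => ((lS.node A).node C).a Y, fun A C Y => (((lR.node A).node C).a Y).symm, fun A C Y => (((lS.node A).node C).a Y).symm] at e3; done)
      | (exfalso; simp [hR.symm, hS.symm, hR'.symm, hS'.symm, dB', (fun Y => (dB' Y).symm), lB, (fun Y => (lB Y).symm), lB', (fun Y => (lB' Y).symm), pc, snoc_iff, snoc_one, snoc_one', app_eq_nil, app, end2, end3, sn2, sn2', sn3, sn3', sn4, sn4', H1.app_nil, hR, hS, hR', hS', lR.a, lS.a, lR'.a, lS'.a, mR.a, mS.a, fR.a, fS.a, fR'.a, fS'.a, gR.a, gS.a, fun Y => (lR.a Y).symm, fun Y => (lS.a Y).symm, fun Y => (lR'.a Y).symm, fun Y => (lS'.a Y).symm, fun Y => (mR.a Y).symm, fun Y => (mS.a Y).symm, fun Y => (fR.a Y).symm, fun Y => (fS.a Y).symm, fun Y => (fR'.a Y).symm, fun Y => (fS'.a Y).symm, fun Y => (gR.a Y).symm, fun Y => (gS.a Y).symm, fun A Y => (lR.node A).a Y, fun A Y => (lS.node A).a Y, fun A C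 Y => ((lR.node A).node C).a Y, fun A C Y => ((lS.node A).node C).a Y, fun A C Y => (((lR.node A).node C).a Y).symm, fun A C Y => (((lS.node A).node C).a Y).symm] at e4; done)
      | (exfalso; have l4 := congrArg H1.len e4; simp only [H1.len_app, len_node, len_nil, pc, app] at l4; omega)
      | (exfalso; have l4 := congrArg H1.len e3; simp only [H1.len_app, len_node, len_nil, pc, app] at l4; omega)
      | (exfalso; subst e3; simp [hR.symm, hS.symm, hR'.symm, hS'.symm, dB', (fun Y => (dB' Y).symm), lB, (fun Y => (lB Y).symm), lB', (fun Y => (lB' Y).symm), pc, snoc_iff, snoc_one, snoc_one', app_eq_nil, app, end2, end3, sn2, sn2', sn3, sn3', sn4, sn4', H1.app_nil, hR, hS, hR', hS', lR.a, lS.a, lR'.a, lS'.a, mR.a, mS.a, fR.a, fS.a, fR'.a, fS'.a, gR.a, gS.a, fun Y => (lR.a Y).symm, fun Y => (lS.a Y).symm, fun Y => (lR'.a Y).symm, fun Y => (lS'.a Y).symm, fun Y => (mR.a Y).symm, fun Y => (mS.a Y).symm, fun Y => (fR.a Y).symm, fun Y => (fS.a Y).symm, fun Y => (fR'.a Y).symm,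 fun Y => (fS'.a Y).symm, fun Y => (gR.a Y).symm, fun Y => (gS.a Y).symm, fun A Y => (lR.node A).a Y, fun A Y => (lS.node A).a Y, fun A C Y => ((lR.node A).node C).a Y, fun A C Y => ((lS.node A).node C).a Y, fun A C Y => (((lR.node A).node C).a Y).symm, fun A C Y => (((lS.node A).node C).a Y).symm] at e4; done)
      | skip

theorem a0_m1 (h : SqD k R' B' S') (hR : R ≠ .nil) (hS : S ≠ .nil) (tR : T3 R) (tB : T3 B) (tS : T3 S)
    {j : ℕ} (hj : j < 20) (h9 : j ≠ 9) (q : ℕ)
    (e : H1.W R' .nil B' S' j = aw R (pc (q + 1)) B S 1) :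
    ∃ X, (X = R' ∨ (B' = .nil ∧ X = S')) ∧ PossA0 (q) R B S X := by
  have nR' : N1 R' := h.one
  have nB' : N1 B' := h.oneB
  have nS' : N1 S' := h.oneS
  have hR' := h.ne
  have hS' := h.neS
  have hQ : pc (q + 1) ≠ .nil := by simp [pc]
  have lR := L1.of tR.n1 hR
  have lS := L1.of tS.n1 hS
  have lR' := L1.of nR' hR'
  have lS' := L1.of nS' hS'
  have mR := L2.of tR hR
  have mS := L2.of tS hS
  have fR := F1.of tR.n1 hR
  have fS := F1.of tS.n1 hS
  have fR' := F1.of nR' hR'
  have fS' := F1.of nS' hS'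
  have gR := F2.of tR hR
  have gS := F2.of tS hS
  have dB' : ∀ Y, B' ≠ .nil △ Y := fun Y => nB'.d1
  have lB : ∀ Y, B ≠ app Y (.nil △ .nil) := fun Y => tB.n1.c1
  have lB' : ∀ Y, B' ≠ app Y (.nil △ .nil) := fun Y => nB'.c1
  have tT : T3 (app B (S △ .nil)) := tB.app (tS.one hS)
  have zR := H1.len_pos hR
  have zS := H1.len_pos hS
  have zR' := H1.len_pos hR'
  have zS' := H1.len_pos hS'
  have e' : H1.W R' .nil B' S' j = .nil △ app (pc (q + 1)) (.nil △ R) := e
  rcases h.fst hj h9 e' with ⟨hj', e4⟩ | ⟨hj', e4⟩ | ⟨hj', e4⟩ | ⟨hj', e4⟩ | ⟨hj', e4⟩ | ⟨hj', hB', e4⟩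
  all_goals first
      | exact (hR e4).elim
      | exact (hR' e4.symm).elim
      | exact (hS e4).elim
      | exact (hR e4.symm).elim
      | exact (hS' e4.symm).elim
      | exact (hS e4.symm).elim
      | exact (tR.c1 e4).elim
      | exact (tR.c1 e4.symm).elim
      | exact (tR.c1 e3).elim
      | exact (tR.c1 e3.symm).elim
      | exact (tR.c2 e4).elim
      | exact (tR.c2 e4.symm).elim
      | exact (tR.c2 e3).elim
      | exact (tR.c2 e3.symm).elim
      | exact (tR.c3 e4).elim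
      | exact (tR.c3 e4.symm).elim
      | exact (tR.c3 e3).elim
      | exact (tR.c3 e3.symm).elim
      | exact (tR.c4 e4).elim
      | exact (tR.c4 e4.symm).elim
      | exact (tR.c4 e3).elim
      | exact (tR.c4 e3.symm).elim
      | exact (tR.d1 e4).elim
      | exact (tR.d1 e4.symm).elim
      | exact (tR.d1 e3).elim
      | exact (tR.d1 e3.symm).elim
      | exact (tR.d2 e4).elim
      | exact (tR.d2 e4.symm).elim
      | exact (tR.d2 e3).elim
      | exact (tR.d2 e3.symm).elim
      | exact (tR.d3 e4).elim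
      | exact (tR.d3 e4.symm).elim
      | exact (tR.d3 e3).elim
      | exact (tR.d3 e3.symm).elim
      | exact (tR.d4 e4).elim
      | exact (tR.d4 e4.symm).elim
      | exact (tR.d4 e3).elim
      | exact (tR.d4 e3.symm).elim
      | exact (tR.e1 e4).elim
      | exact (tR.e1 e4.symm).elim
      | exact (tR.e1 e3).elim
      | exact (tR.e1 e3.symm).elim
      | exact (tR.e2 e4).elim
      | exact (tR.e2 e4.symm).elim
      | exact (tR.e2 e3).elim
      | exact (tR.e2 e3.symm).elim
      | exact (tB.c1 e4).elim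
      | exact (tB.c1 e4.symm).elim
      | exact (tB.c1 e3).elim
      | exact (tB.c1 e3.symm).elim
      | exact (tB.c2 e4).elim
      | exact (tB.c2 e4.symm).elim
      | exact (tB.c2 e3).elim
      | exact (tB.c2 e3.symm).elim
      | exact (tB.c3 e4).elim
      | exact (tB.c3 e4.symm).elim
      | exact (tB.c3 e3).elim
      | exact (tB.c3 e3.symm).elim
      | exact (tB.c4 e4).elim
      | exact (tB.c4 e4.symm).elim
      | exact (tB.c4 e3).elim
      | exact (tB.c4 e3.symm).elim
      | exact (tB.d1 e4).elim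
      | exact (tB.d1 e4.symm).elim
      | exact (tB.d1 e3).elim
      | exact (tB.d1 e3.symm).elim
      | exact (tB.d2 e4).elim
      | exact (tB.d2 e4.symm).elim
      | exact (tB.d2 e3).elim
      | exact (tB.d2 e3.symm).elim
      | exact (tB.d3 e4).elim
      | exact (tB.d3 e4.symm).elim
      | exact (tB.d3 e3).elim
      | exact (tB.d3 e3.symm).elim
      | exact (tB.d4 e4).elim
      | exact (tB.d4 e4.symm).elim
      | exact (tB.d4 e3).elim
      | exact (tB.d4 e3.symm).elim
      | exact (tB.e1 e4).elim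
      | exact (tB.e1 e4.symm).elim
      | exact (tB.e1 e3).elim
      | exact (tB.e1 e3.symm).elim
      | exact (tB.e2 e4).elim
      | exact (tB.e2 e4.symm).elim
      | exact (tB.e2 e3).elim
      | exact (tB.e2 e3.symm).elim
      | exact (tS.c1 e4).elim
      | exact (tS.c1 e4.symm).elim
      | exact (tS.c1 e3).elim
      | exact (tS.c1 e3.symm).elim
      | exact (tS.c2 e4).elim
      | exact (tS.c2 e4.symm).elim
      | exact (tS.c2 e3).elim
      | exact (tS.c2 e3.symm).elim
      | exact (tS.c3 e4).elim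
      | exact (tS.c3 e4.symm).elim
      | exact (tS.c3 e3).elim
      | exact (tS.c3 e3.symm).elim
      | exact (tS.c4 e4).elim
      | exact (tS.c4 e4.symm).elim
      | exact (tS.c4 e3).elim
      | exact (tS.c4 e3.symm).elim
      | exact (tS.d1 e4).elim
      | exact (tS.d1 e4.symm).elim
      | exact (tS.d1 e3).elim
      | exact (tS.d1 e3.symm).elim
      | exact (tS.d2 e4).elim
      | exact (tS.d2 e4.symm).elim
      | exact (tS.d2 e3).elim
      | exact (tS.d2 e3.symm).elim
      | exact (tS.d3 e4).elim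
      | exact (tS.d3 e4.symm).elim
      | exact (tS.d3 e3).elim
      | exact (tS.d3 e3.symm).elim
      | exact (tS.d4 e4).elim
      | exact (tS.d4 e4.symm).elim
      | exact (tS.d4 e3).elim
      | exact (tS.d4 e3.symm).elim
      | exact (tS.e1 e4).elim
      | exact (tS.e1 e4.symm).elim
      | exact (tS.e1 e3).elim
      | exact (tS.e1 e3.symm).elim
      | exact (tS.e2 e4).elim
      | exact (tS.e2 e4.symm).elim
      | exact (tS.e2 e3).elim
      | exact (tS.e2 e3.symm).elim
      | exact (nR'.c1 e3).elim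
      | exact (nR'.c1 e4).elim
      | exact (nR'.c1 e3.symm).elim
      | exact (nR'.c1 e4.symm).elim
      | exact (nR'.d1 e3).elim
      | exact (nR'.d1 e4).elim
      | exact (nR'.d1 e3.symm).elim
      | exact (nR'.d1 e4.symm).elim
      | exact (nR'.e1 e3).elim
      | exact (nR'.e1 e4).elim
      | exact (nR'.e1 e3.symm).elim
      | exact (nR'.e1 e4.symm).elim
      | exact (nR'.e2 e3).elim
      | exact (nR'.e2 e4).elim
      | exact (nR'.e2 e3.symm).elim
      | exact (nR'.e2 e4.symm).elim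
      | exact (nR'.c3 hR e3).elim
      | exact (nR'.c3 hS e3).elim
      | exact (nR'.c3 hQ e3).elim
      | exact (nR'.c3 hQ e3).elim
      | exact (nR'.c4 hR e3).elim
      | exact (nR'.c4 hS e3).elim
      | exact (nR'.c4 hQ e3).elim
      | exact (nR'.c4 hQ e3).elim
      | exact (nR'.d3 hR e3).elim
      | exact (nR'.d3 hS e3).elim
      | exact (nR'.d3 hQ e3).elim
      | exact (nR'.d3 hQ e3).elim
      | exact (nR'.d4 hR e3).elim
      | exact (nR'.d4 hS e3).elim
      | exact (nR'.d4 hQ e3).elim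
      | exact (nR'.d4 hQ e3).elim
      | exact (nB'.c1 e3).elim
      | exact (nB'.c1 e4).elim
      | exact (nB'.c1 e3.symm).elim
      | exact (nB'.c1 e4.symm).elim
      | exact (nB'.d1 e3).elim
      | exact (nB'.d1 e4).elim
      | exact (nB'.d1 e3.symm).elim
      | exact (nB'.d1 e4.symm).elim
      | exact (nB'.e1 e3).elim
      | exact (nB'.e1 e4).elim
      | exact (nB'.e1 e3.symm).elim
      | exact (nB'.e1 e4.symm).elim
      | exact (nB'.e2 e3).elim
      | exact (nB'.e2 e4).elim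
      | exact (nB'.e2 e3.symm).elim
      | exact (nB'.e2 e4.symm).elim
      | exact (nB'.c3 hR e3).elim
      | exact (nB'.c3 hS e3).elim
      | exact (nB'.c3 hQ e3).elim
      | exact (nB'.c3 hQ e3).elim
      | exact (nB'.c4 hR e3).elim
      | exact (nB'.c4 hS e3).elim
      | exact (nB'.c4 hQ e3).elim
      | exact (nB'.c4 hQ e3).elim
      | exact (nB'.d3 hR e3).elim
      | exact (nB'.d3 hS e3).elim
      | exact (nB'.d3 hQ e3).elim
      | exact (nB'.d3 hQ e3).elim
      | exact (nB'.d4 hR e3).elim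
      | exact (nB'.d4 hS e3).elim
      | exact (nB'.d4 hQ e3).elim
      | exact (nB'.d4 hQ e3).elim
      | exact (nS'.c1 e3).elim
      | exact (nS'.c1 e4).elim
      | exact (nS'.c1 e3.symm).elim
      | exact (nS'.c1 e4.symm).elim
      | exact (nS'.d1 e3).elim
      | exact (nS'.d1 e4).elim
      | exact (nS'.d1 e3.symm).elim
      | exact (nS'.d1 e4.symm).elim
      | exact (nS'.e1 e3).elim
      | exact (nS'.e1 e4).elim
      | exact (nS'.e1 e3.symm).elim
      | exact (nS'.e1 e4.symm).elim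
      | exact (nS'.e2 e3).elim
      | exact (nS'.e2 e4).elim
      | exact (nS'.e2 e3.symm).elim
      | exact (nS'.e2 e4.symm).elim
      | exact (nS'.c3 hR e3).elim
      | exact (nS'.c3 hS e3).elim
      | exact (nS'.c3 hQ e3).elim
      | exact (nS'.c3 hQ e3).elim
      | exact (nS'.c4 hR e3).elim
      | exact (nS'.c4 hS e3).elim
      | exact (nS'.c4 hQ e3).elim
      | exact (nS'.c4 hQ e3).elim
      | exact (nS'.d3 hR e3).elim
      | exact (nS'.d3 hS e3).elim
      | exact (nS'.d3 hQ e3).elim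
      | exact (nS'.d3 hQ e3).elim
      | exact (nS'.d4 hR e3).elim
      | exact (nS'.d4 hS e3).elim
      | exact (nS'.d4 hQ e3).elim
      | exact (nS'.d4 hQ e3).elim
      | (exfalso; simp [hR.symm, hS.symm, hR'.symm, hS'.symm, dB', (fun Y => (dB' Y).symm), lB, (fun Y => (lB Y).symm), lB', (fun Y => (lB' Y).symm), pc, snoc_iff, snoc_one, snoc_one', app_eq_nil, app, end2, end3, sn2, sn2', sn3, sn3', sn4, sn4', H1.app_nil, hR, hS, hR', hS', lR.a, lS.a, lR'.a, lS'.a, mR.a, mS.a, fR.a, fS.a, fR'.a, fS'.a, gR.a, gS.a, fun Y => (lR.a Y).symm, fun Y => (lS.a Y).symm, fun Y => (lR'.a Y).symm, fun Y => (lS'.a Y).symm, fun Y => (mR.a Y).symm, fun Y => (mS.a Y).symm, fun Y => (fR.a Y).symm, fun Y => (fS.a Y).symm, fun Y => (fR'.a Y).symm, fun Y => (fS'.a Y).symm, fun Y => (gR.a Y).symm, fun Y => (gS.a Y).symm, fun A Y => (lR.node A).a Y, fun A Y => (lS.node A).a Y, fun A C Y => ((lR.node A).node C).a Y, fun A C Y => ((lS.node A).node C).a Y, fun A C Y => (((lR.node A).node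 C).a Y).symm, fun A C Y => (((lS.node A).node C).a Y).symm] at e3; done)
      | (exfalso; simp [hR.symm, hS.symm, hR'.symm, hS'.symm, dB', (fun Y => (dB' Y).symm), lB, (fun Y => (lB Y).symm), lB', (fun Y => (lB' Y).symm), pc, snoc_iff, snoc_one, snoc_one', app_eq_nil, app, end2, end3, sn2, sn2', sn3, sn3', sn4, sn4', H1.app_nil, hR, hS, hR', hS', lR.a, lS.a, lR'.a, lS'.a, mR.a, mS.a, fR.a, fS.a, fR'.a, fS'.a, gR.a, gS.a, fun Y => (lR.a Y).symm, fun Y => (lS.a Y).symm, fun Y => (lR'.a Y).symm, fun Y => (lS'.a Y).symm, fun Y => (mR.a Y).symm, fun Y => (mS.a Y).symm, fun Y => (fR.a Y).symm, fun Y => (fS.a Y).symm, fun Y => (fR'.a Y).symm, fun Y => (fS'.a Y).symm, fun Y => (gR.a Y).symm, fun Y => (gS.a Y).symm, fun A Y => (lR.node A).a Y, fun A Y => (lS.node A).a Y, fun A C Y => ((lR.node A).node C).a Y, fun A C Y => ((lS.node A).node C).a Y, fun A C Y => (((lR.node A).node C).a Y).symm, fun A C Y => (((lS.node A).node C).a Y).symm] at e4; done)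
      | (exfalso; have l4 := congrArg H1.len e4; simp only [H1.len_app, len_node, len_nil, pc, app] at l4; omega)
      | (exfalso; have l4 := congrArg H1.len e3; simp only [H1.len_app, len_node, len_nil, pc, app] at l4; omega)
      | (exfalso; subst e3; simp [hR.symm, hS.symm, hR'.symm, hS'.symm, dB', (fun Y => (dB' Y).symm), lB, (fun Y => (lB Y).symm), lB', (fun Y => (lB' Y).symm), pc, snoc_iff, snoc_one, snoc_one', app_eq_nil, app, end2, end3, sn2, sn2', sn3, sn3', sn4, sn4', H1.app_nil, hR, hS, hR', hS', lR.a, lS.a, lR'.a, lS'.a, mR.a, mS.a, fR.a, fS.a, fR'.a, fS'.a, gR.a, gS.a, fun Y => (lR.a Y).symm, fun Y => (lS.a Y).symm, fun Y => (lR'.a Y).symm, fun Y => (lS'.a Y).symm, fun Y => (mR.a Y).symm, fun Y => (mS.a Y).symm, fun Y => (fR.a Y).symm, fun Y => (fS.a Y).symm, fun Y => (fR'.a Y).symm, fun Y => (fS'.a Y).symm, fun Y => (gR.a Y).symm, fun Y => (gS.a Y).symm, fun A Y => (lR.node A).a Y, fun A Y => (lS.node A).a Y, fun A C Y => ((lR.node A).node C).a Y, fun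 A C Y => ((lS.node A).node C).a Y, fun A C Y => (((lR.node A).node C).a Y).symm, fun A C Y => (((lS.node A).node C).a Y).symm] at e4; done)
      | skip
  · exact absurd (H1.node_inj (K1 nS' hS' (show app S' (B' △ .nil) = pc q △ (.nil △ R) from e4.symm)).2).2 hR.symm

theorem a0_m2a (h : SqD k R' B' S') (hR : R ≠ .nil) (hS : S ≠ .nil) (tR : T3 R) (tB : T3 B) (tS : T3 S)
    {j : ℕ} (hj : j < 20) (h9 : j ≠ 9) (q : ℕ)
    (e : H1.W R' .nil B' S' j = aw R (pc (0 + 1)) B S 2) :
    ∃ X, (X = R' ∨ (B' = .nil ∧ X = S')) ∧ PossA0 (0) R B S X := by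
  have nR' : N1 R' := h.one
  have nB' : N1 B' := h.oneB
  have nS' : N1 S' := h.oneS
  have hR' := h.ne
  have hS' := h.neS
  have hQ : pc (q + 1) ≠ .nil := by simp [pc]
  have lR := L1.of tR.n1 hR
  have lS := L1.of tS.n1 hS
  have lR' := L1.of nR' hR'
  have lS' := L1.of nS' hS'
  have mR := L2.of tR hR
  have mS := L2.of tS hS
  have fR := F1.of tR.n1 hR
  have fS := F1.of tS.n1 hS
  have fR' := F1.of nR' hR'
  have fS' := F1.of nS' hS'
  have gR := F2.of tR hR
  have gS := F2.of tS hS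
  have dB' : ∀ Y, B' ≠ .nil △ Y := fun Y => nB'.d1
  have lB : ∀ Y, B ≠ app Y (.nil △ .nil) := fun Y => tB.n1.c1
  have lB' : ∀ Y, B' ≠ app Y (.nil △ .nil) := fun Y => nB'.c1
  have tT : T3 (app B (S △ .nil)) := tB.app (tS.one hS)
  have zR := H1.len_pos hR
  have zS := H1.len_pos hS
  have zR' := H1.len_pos hR'
  have zS' := H1.len_pos hS'
  have e' : H1.W R' .nil B' S' j = .nil △ (.nil △ app R (.nil △ .nil)) := e
  rcases h.fst hj h9 e' with ⟨hj', e4⟩ | ⟨hj', e4⟩ | ⟨hj', e4⟩ | ⟨hj', e4⟩ | ⟨hj', e4⟩ | ⟨hj', hB', e4⟩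
  all_goals first
      | exact (hR e4).elim
      | exact (hR' e4.symm).elim
      | exact (hS e4).elim
      | exact (hR e4.symm).elim
      | exact (hS' e4.symm).elim
      | exact (hS e4.symm).elim
      | exact (tR.c1 e4).elim
      | exact (tR.c1 e4.symm).elim
      | exact (tR.c1 e3).elim
      | exact (tR.c1 e3.symm).elim
      | exact (tR.c2 e4).elim
      | exact (tR.c2 e4.symm).elim
      | exact (tR.c2 e3).elim
      | exact (tR.c2 e3.symm).elim
      | exact (tR.c3 e4).elim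
      | exact (tR.c3 e4.symm).elim
      | exact (tR.c3 e3).elim
      | exact (tR.c3 e3.symm).elim
      | exact (tR.c4 e4).elim
      | exact (tR.c4 e4.symm).elim
      | exact (tR.c4 e3).elim
      | exact (tR.c4 e3.symm).elim
      | exact (tR.d1 e4).elim
      | exact (tR.d1 e4.symm).elim
      | exact (tR.d1 e3).elim
      | exact (tR.d1 e3.symm).elim
      | exact (tR.d2 e4).elim
      | exact (tR.d2 e4.symm).elim
      | exact (tR.d2 e3).elim
      | exact (tR.d2 e3.symm).elim
      | exact (tR.d3 e4).elim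
      | exact (tR.d3 e4.symm).elim
      | exact (tR.d3 e3).elim
      | exact (tR.d3 e3.symm).elim
      | exact (tR.d4 e4).elim
      | exact (tR.d4 e4.symm).elim
      | exact (tR.d4 e3).elim
      | exact (tR.d4 e3.symm).elim
      | exact (tR.e1 e4).elim
      | exact (tR.e1 e4.symm).elim
      | exact (tR.e1 e3).elim
      | exact (tR.e1 e3.symm).elim
      | exact (tR.e2 e4).elim
      | exact (tR.e2 e4.symm).elim
      | exact (tR.e2 e3).elim
      | exact (tR.e2 e3.symm).elim
      | exact (tB.c1 e4).elim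
      | exact (tB.c1 e4.symm).elim
      | exact (tB.c1 e3).elim
      | exact (tB.c1 e3.symm).elim
      | exact (tB.c2 e4).elim
      | exact (tB.c2 e4.symm).elim
      | exact (tB.c2 e3).elim
      | exact (tB.c2 e3.symm).elim
      | exact (tB.c3 e4).elim
      | exact (tB.c3 e4.symm).elim
      | exact (tB.c3 e3).elim
      | exact (tB.c3 e3.symm).elim
      | exact (tB.c4 e4).elim
      | exact (tB.c4 e4.symm).elim
      | exact (tB.c4 e3).elim
      | exact (tB.c4 e3.symm).elim
      | exact (tB.d1 e4).elim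
      | exact (tB.d1 e4.symm).elim
      | exact (tB.d1 e3).elim
      | exact (tB.d1 e3.symm).elim
      | exact (tB.d2 e4).elim
      | exact (tB.d2 e4.symm).elim
      | exact (tB.d2 e3).elim
      | exact (tB.d2 e3.symm).elim
      | exact (tB.d3 e4).elim
      | exact (tB.d3 e4.symm).elim
      | exact (tB.d3 e3).elim
      | exact (tB.d3 e3.symm).elim
      | exact (tB.d4 e4).elim
      | exact (tB.d4 e4.symm).elim
      | exact (tB.d4 e3).elim
      | exact (tB.d4 e3.symm).elim
      | exact (tB.e1 e4).elim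
      | exact (tB.e1 e4.symm).elim
      | exact (tB.e1 e3).elim
      | exact (tB.e1 e3.symm).elim
      | exact (tB.e2 e4).elim
      | exact (tB.e2 e4.symm).elim
      | exact (tB.e2 e3).elim
      | exact (tB.e2 e3.symm).elim
      | exact (tS.c1 e4).elim
      | exact (tS.c1 e4.symm).elim
      | exact (tS.c1 e3).elim
      | exact (tS.c1 e3.symm).elim
      | exact (tS.c2 e4).elim
      | exact (tS.c2 e4.symm).elim
      | exact (tS.c2 e3).elim
      | exact (tS.c2 e3.symm).elim
      | exact (tS.c3 e4).elim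
      | exact (tS.c3 e4.symm).elim
      | exact (tS.c3 e3).elim
      | exact (tS.c3 e3.symm).elim
      | exact (tS.c4 e4).elim
      | exact (tS.c4 e4.symm).elim
      | exact (tS.c4 e3).elim
      | exact (tS.c4 e3.symm).elim
      | exact (tS.d1 e4).elim
      | exact (tS.d1 e4.symm).elim
      | exact (tS.d1 e3).elim
      | exact (tS.d1 e3.symm).elim
      | exact (tS.d2 e4).elim
      | exact (tS.d2 e4.symm).elim
      | exact (tS.d2 e3).elim
      | exact (tS.d2 e3.symm).elim
      | exact (tS.d3 e4).elim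
      | exact (tS.d3 e4.symm).elim
      | exact (tS.d3 e3).elim
      | exact (tS.d3 e3.symm).elim
      | exact (tS.d4 e4).elim
      | exact (tS.d4 e4.symm).elim
      | exact (tS.d4 e3).elim
      | exact (tS.d4 e3.symm).elim
      | exact (tS.e1 e4).elim
      | exact (tS.e1 e4.symm).elim
      | exact (tS.e1 e3).elim
      | exact (tS.e1 e3.symm).elim
      | exact (tS.e2 e4).elim
      | exact (tS.e2 e4.symm).elim
      | exact (tS.e2 e3).elim
      | exact (tS.e2 e3.symm).elim
      | exact (nR'.c1 e3).elim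
      | exact (nR'.c1 e4).elim
      | exact (nR'.c1 e3.symm).elim
      | exact (nR'.c1 e4.symm).elim
      | exact (nR'.d1 e3).elim
      | exact (nR'.d1 e4).elim
      | exact (nR'.d1 e3.symm).elim
      | exact (nR'.d1 e4.symm).elim
      | exact (nR'.e1 e3).elim
      | exact (nR'.e1 e4).elim
      | exact (nR'.e1 e3.symm).elim
      | exact (nR'.e1 e4.symm).elim
      | exact (nR'.e2 e3).elim
      | exact (nR'.e2 e4).elim
      | exact (nR'.e2 e3.symm).elim
      | exact (nR'.e2 e4.symm).elim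
      | exact (nR'.c3 hR e3).elim
      | exact (nR'.c3 hS e3).elim
      | exact (nR'.c3 hQ e3).elim
      | exact (nR'.c3 hQ e3).elim
      | exact (nR'.c4 hR e3).elim
      | exact (nR'.c4 hS e3).elim
      | exact (nR'.c4 hQ e3).elim
      | exact (nR'.c4 hQ e3).elim
      | exact (nR'.d3 hR e3).elim
      | exact (nR'.d3 hS e3).elim
      | exact (nR'.d3 hQ e3).elim
      | exact (nR'.d3 hQ e3).elim
      | exact (nR'.d4 hR e3).elim
      | exact (nR'.d4 hS e3).elim
      | exact (nR'.d4 hQ e3).elim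
      | exact (nR'.d4 hQ e3).elim
      | exact (nB'.c1 e3).elim
      | exact (nB'.c1 e4).elim
      | exact (nB'.c1 e3.symm).elim
      | exact (nB'.c1 e4.symm).elim
      | exact (nB'.d1 e3).elim
      | exact (nB'.d1 e4).elim
      | exact (nB'.d1 e3.symm).elim
      | exact (nB'.d1 e4.symm).elim
      | exact (nB'.e1 e3).elim
      | exact (nB'.e1 e4).elim
      | exact (nB'.e1 e3.symm).elim
      | exact (nB'.e1 e4.symm).elim
      | exact (nB'.e2 e3).elim
      | exact (nB'.e2 e4).elim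
      | exact (nB'.e2 e3.symm).elim
      | exact (nB'.e2 e4.symm).elim
      | exact (nB'.c3 hR e3).elim
      | exact (nB'.c3 hS e3).elim
      | exact (nB'.c3 hQ e3).elim
      | exact (nB'.c3 hQ e3).elim
      | exact (nB'.c4 hR e3).elim
      | exact (nB'.c4 hS e3).elim
      | exact (nB'.c4 hQ e3).elim
      | exact (nB'.c4 hQ e3).elim
      | exact (nB'.d3 hR e3).elim
      | exact (nB'.d3 hS e3).elim
      | exact (nB'.d3 hQ e3).elim
      | exact (nB'.d3 hQ e3).elim
      | exact (nB'.d4 hR e3).elim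
      | exact (nB'.d4 hS e3).elim
      | exact (nB'.d4 hQ e3).elim
      | exact (nB'.d4 hQ e3).elim
      | exact (nS'.c1 e3).elim
      | exact (nS'.c1 e4).elim
      | exact (nS'.c1 e3.symm).elim
      | exact (nS'.c1 e4.symm).elim
      | exact (nS'.d1 e3).elim
      | exact (nS'.d1 e4).elim
      | exact (nS'.d1 e3.symm).elim
      | exact (nS'.d1 e4.symm).elim
      | exact (nS'.e1 e3).elim
      | exact (nS'.e1 e4).elim
      | exact (nS'.e1 e3.symm).elim
      | exact (nS'.e1 e4.symm).elim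
      | exact (nS'.e2 e3).elim
      | exact (nS'.e2 e4).elim
      | exact (nS'.e2 e3.symm).elim
      | exact (nS'.e2 e4.symm).elim
      | exact (nS'.c3 hR e3).elim
      | exact (nS'.c3 hS e3).elim
      | exact (nS'.c3 hQ e3).elim
      | exact (nS'.c3 hQ e3).elim
      | exact (nS'.c4 hR e3).elim
      | exact (nS'.c4 hS e3).elim
      | exact (nS'.c4 hQ e3).elim
      | exact (nS'.c4 hQ e3).elim
      | exact (nS'.d3 hR e3).elim
      | exact (nS'.d3 hS e3).elim
      | exact (nS'.d3 hQ e3).elim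
      | exact (nS'.d3 hQ e3).elim
      | exact (nS'.d4 hR e3).elim
      | exact (nS'.d4 hS e3).elim
      | exact (nS'.d4 hQ e3).elim
      | exact (nS'.d4 hQ e3).elim
      | (exfalso; simp [hR.symm, hS.symm, hR'.symm, hS'.symm, dB', (fun Y => (dB' Y).symm), lB, (fun Y => (lB Y).symm), lB', (fun Y => (lB' Y).symm), pc, snoc_iff, snoc_one, snoc_one', app_eq_nil, app, end2, end3, sn2, sn2', sn3, sn3', sn4, sn4', H1.app_nil, hR, hS, hR', hS', lR.a, lS.a, lR'.a, lS'.a, mR.a, mS.a, fR.a, fS.a, fR'.a, fS'.a, gR.a, gS.a, fun Y => (lR.a Y).symm, fun Y => (lS.a Y).symm, fun Y => (lR'.a Y).symm, fun Y => (lS'.a Y).symm, fun Y => (mR.a Y).symm, fun Y => (mS.a Y).symm, fun Y => (fR.a Y).symm, fun Y => (fS.a Y).symm, fun Y => (fR'.a Y).symm, fun Y => (fS'.a Y).symm, fun Y => (gR.a Y).symm, fun Y => (gS.a Y).symm, fun A Y => (lR.node A).a Y, fun A Y => (lS.node A).a Y, fun A C Y => ((lR.node A).node C).a Y, fun A C Y => ((lS.node A).node C).a Y, fun A C Y => (((lR.node A).node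 C).a Y).symm, fun A C Y => (((lS.node A).node C).a Y).symm] at e3; done)
      | (exfalso; simp [hR.symm, hS.symm, hR'.symm, hS'.symm, dB', (fun Y => (dB' Y).symm), lB, (fun Y => (lB Y).symm), lB', (fun Y => (lB' Y).symm), pc, snoc_iff, snoc_one, snoc_one', app_eq_nil, app, end2, end3, sn2, sn2', sn3, sn3', sn4, sn4', H1.app_nil, hR, hS, hR', hS', lR.a, lS.a, lR'.a, lS'.a, mR.a, mS.a, fR.a, fS.a, fR'.a, fS'.a, gR.a, gS.a, fun Y => (lR.a Y).symm, fun Y => (lS.a Y).symm, fun Y => (lR'.a Y).symm, fun Y => (lS'.a Y).symm, fun Y => (mR.a Y).symm, fun Y => (mS.a Y).symm, fun Y => (fR.a Y).symm, fun Y => (fS.a Y).symm, fun Y => (fR'.a Y).symm, fun Y => (fS'.a Y).symm, fun Y => (gR.a Y).symm, fun Y => (gS.a Y).symm, fun A Y => (lR.node A).a Y, fun A Y => (lS.node A).a Y, fun A C Y => ((lR.node A).node C).a Y, fun A C Y => ((lS.node A).node C).a Y, fun A C Y => (((lR.node A).node C).a Y).symm, fun A C Y => (((lS.node A).node C).a Y).symm] at e4; done)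
      | (exfalso; have l4 := congrArg H1.len e4; simp only [H1.len_app, len_node, len_nil, pc, app] at l4; omega)
      | (exfalso; have l4 := congrArg H1.len e3; simp only [H1.len_app, len_node, len_nil, pc, app] at l4; omega)
      | (exfalso; subst e3; simp [hR.symm, hS.symm, hR'.symm, hS'.symm, dB', (fun Y => (dB' Y).symm), lB, (fun Y => (lB Y).symm), lB', (fun Y => (lB' Y).symm), pc, snoc_iff, snoc_one, snoc_one', app_eq_nil, app, end2, end3, sn2, sn2', sn3, sn3', sn4, sn4', H1.app_nil, hR, hS, hR', hS', lR.a, lS.a, lR'.a, lS'.a, mR.a, mS.a, fR.a, fS.a, fR'.a, fS'.a, gR.a, gS.a, fun Y => (lR.a Y).symm, fun Y => (lS.a Y).symm, fun Y => (lR'.a Y).symm, fun Y => (lS'.a Y).symm, fun Y => (mR.a Y).symm, fun Y => (mS.a Y).symm, fun Y => (fR.a Y).symm, fun Y => (fS.a Y).symm, fun Y => (fR'.a Y).symm, fun Y => (fS'.a Y).symm, fun Y => (gR.a Y).symm, fun Y => (gS.a Y).symm, fun A Y => (lR.node A).a Y, fun A Y => (lS.node A).a Y, fun A C Y => ((lR.node A).node C).a Y, fun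 A C Y => ((lS.node A).node C).a Y, fun A C Y => (((lR.node A).node C).a Y).symm, fun A C Y => (((lS.node A).node C).a Y).symm] at e4; done)
      | skip

theorem a0_m2b (h : SqD k R' B' S') (hR : R ≠ .nil) (hS : S ≠ .nil) (tR : T3 R) (tB : T3 B) (tS : T3 S)
    {j : ℕ} (hj : j < 20) (h9 : j ≠ 9) (q : ℕ)
    (e : H1.W R' .nil B' S' j = aw R (pc ((q + 1) + 1)) B S 2) :
    ∃ X, (X = R' ∨ (B' = .nil ∧ X = S')) ∧ PossA0 ((q + 1)) R B S X := by
  have nR' : N1 R' := h.one
  have nB' : N1 B' := h.oneB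
  have nS' : N1 S' := h.oneS
  have hR' := h.ne
  have hS' := h.neS
  have hQ : pc (q + 1) ≠ .nil := by simp [pc]
  have lR := L1.of tR.n1 hR
  have lS := L1.of tS.n1 hS
  have lR' := L1.of nR' hR'
  have lS' := L1.of nS' hS'
  have mR := L2.of tR hR
  have mS := L2.of tS hS
  have fR := F1.of tR.n1 hR
  have fS := F1.of tS.n1 hS
  have fR' := F1.of nR' hR'
  have fS' := F1.of nS' hS'
  have gR := F2.of tR hR
  have gS := F2.of tS hS
  have dB' : ∀ Y, B' ≠ .nil △ Y := fun Y => nB'.d1
  have lB : ∀ Y, B ≠ app Y (.nil △ .nil) := fun Y => tB.n1.c1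
  have lB' : ∀ Y, B' ≠ app Y (.nil △ .nil) := fun Y => nB'.c1
  have tT : T3 (app B (S △ .nil)) := tB.app (tS.one hS)
  have zR := H1.len_pos hR
  have zS := H1.len_pos hS
  have zR' := H1.len_pos hR'
  have zS' := H1.len_pos hS'
  have e' : H1.W R' .nil B' S' j = (pc (q + 1)) △ (.nil △ app R (.nil △ .nil)) := e
  rcases h.fstA hj h9 (by simp [app_eq_nil, pc, hR, hS]) e' with ⟨hj', X', e3, e4⟩ | ⟨hj', X', e3, e4⟩ | ⟨hj', e3, e4⟩ | ⟨hj', e3, e4⟩ |
    ⟨hj', e3, e4⟩ | ⟨hj', e3, e4⟩ | ⟨hj', hB', e3, e4⟩ | ⟨hj', X', e3, e4⟩ | ⟨hj', X', e3, e4⟩ | ⟨hj', e3, e4⟩ |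
    ⟨hj', X', e3, e4⟩ | ⟨hj', e3, e4⟩ | ⟨hj', X', e3, e4⟩ | ⟨hj', e3, e4⟩ | ⟨hj', e3, e4⟩
  all_goals first
      | exact (hR e4).elim
      | exact (hR' e4.symm).elim
      | exact (hS e4).elim
      | exact (hR e4.symm).elim
      | exact (hS' e4.symm).elim
      | exact (hS e4.symm).elim
      | exact (tR.c1 e4).elim
      | exact (tR.c1 e4.symm).elim
      | exact (tR.c1 e3).elim
      | exact (tR.c1 e3.symm).elim
      | exact (tR.c2 e4).elim
      | exact (tR.c2 e4.symm).elim
      | exact (tR.c2 e3).elim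
      | exact (tR.c2 e3.symm).elim
      | exact (tR.c3 e4).elim
      | exact (tR.c3 e4.symm).elim
      | exact (tR.c3 e3).elim
      | exact (tR.c3 e3.symm).elim
      | exact (tR.c4 e4).elim
      | exact (tR.c4 e4.symm).elim
      | exact (tR.c4 e3).elim
      | exact (tR.c4 e3.symm).elim
      | exact (tR.d1 e4).elim
      | exact (tR.d1 e4.symm).elim
      | exact (tR.d1 e3).elim
      | exact (tR.d1 e3.symm).elim
      | exact (tR.d2 e4).elim
      | exact (tR.d2 e4.symm).elim
      | exact (tR.d2 e3).elim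
      | exact (tR.d2 e3.symm).elim
      | exact (tR.d3 e4).elim
      | exact (tR.d3 e4.symm).elim
      | exact (tR.d3 e3).elim
      | exact (tR.d3 e3.symm).elim
      | exact (tR.d4 e4).elim
      | exact (tR.d4 e4.symm).elim
      | exact (tR.d4 e3).elim
      | exact (tR.d4 e3.symm).elim
      | exact (tR.e1 e4).elim
      | exact (tR.e1 e4.symm).elim
      | exact (tR.e1 e3).elim
      | exact (tR.e1 e3.symm).elim
      | exact (tR.e2 e4).elim
      | exact (tR.e2 e4.symm).elim
      | exact (tR.e2 e3).elim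
      | exact (tR.e2 e3.symm).elim
      | exact (tB.c1 e4).elim
      | exact (tB.c1 e4.symm).elim
      | exact (tB.c1 e3).elim
      | exact (tB.c1 e3.symm).elim
      | exact (tB.c2 e4).elim
      | exact (tB.c2 e4.symm).elim
      | exact (tB.c2 e3).elim
      | exact (tB.c2 e3.symm).elim
      | exact (tB.c3 e4).elim
      | exact (tB.c3 e4.symm).elim
      | exact (tB.c3 e3).elim
      | exact (tB.c3 e3.symm).elim
      | exact (tB.c4 e4).elim
      | exact (tB.c4 e4.symm).elim
      | exact (tB.c4 e3).elim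
      | exact (tB.c4 e3.symm).elim
      | exact (tB.d1 e4).elim
      | exact (tB.d1 e4.symm).elim
      | exact (tB.d1 e3).elim
      | exact (tB.d1 e3.symm).elim
      | exact (tB.d2 e4).elim
      | exact (tB.d2 e4.symm).elim
      | exact (tB.d2 e3).elim
      | exact (tB.d2 e3.symm).elim
      | exact (tB.d3 e4).elim
      | exact (tB.d3 e4.symm).elim
      | exact (tB.d3 e3).elim
      | exact (tB.d3 e3.symm).elim
      | exact (tB.d4 e4).elim
      | exact (tB.d4 e4.symm).elim
      | exact (tB.d4 e3).elim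
      | exact (tB.d4 e3.symm).elim
      | exact (tB.e1 e4).elim
      | exact (tB.e1 e4.symm).elim
      | exact (tB.e1 e3).elim
      | exact (tB.e1 e3.symm).elim
      | exact (tB.e2 e4).elim
      | exact (tB.e2 e4.symm).elim
      | exact (tB.e2 e3).elim
      | exact (tB.e2 e3.symm).elim
      | exact (tS.c1 e4).elim
      | exact (tS.c1 e4.symm).elim
      | exact (tS.c1 e3).elim
      | exact (tS.c1 e3.symm).elim
      | exact (tS.c2 e4).elim
      | exact (tS.c2 e4.symm).elim
      | exact (tS.c2 e3).elim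
      | exact (tS.c2 e3.symm).elim
      | exact (tS.c3 e4).elim
      | exact (tS.c3 e4.symm).elim
      | exact (tS.c3 e3).elim
      | exact (tS.c3 e3.symm).elim
      | exact (tS.c4 e4).elim
      | exact (tS.c4 e4.symm).elim
      | exact (tS.c4 e3).elim
      | exact (tS.c4 e3.symm).elim
      | exact (tS.d1 e4).elim
      | exact (tS.d1 e4.symm).elim
      | exact (tS.d1 e3).elim
      | exact (tS.d1 e3.symm).elim
      | exact (tS.d2 e4).elim
      | exact (tS.d2 e4.symm).elim
      | exact (tS.d2 e3).elim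
      | exact (tS.d2 e3.symm).elim
      | exact (tS.d3 e4).elim
      | exact (tS.d3 e4.symm).elim
      | exact (tS.d3 e3).elim
      | exact (tS.d3 e3.symm).elim
      | exact (tS.d4 e4).elim
      | exact (tS.d4 e4.symm).elim
      | exact (tS.d4 e3).elim
      | exact (tS.d4 e3.symm).elim
      | exact (tS.e1 e4).elim
      | exact (tS.e1 e4.symm).elim
      | exact (tS.e1 e3).elim
      | exact (tS.e1 e3.symm).elim
      | exact (tS.e2 e4).elim
      | exact (tS.e2 e4.symm).elim
      | exact (tS.e2 e3).elim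
      | exact (tS.e2 e3.symm).elim
      | exact (nR'.c1 e3).elim
      | exact (nR'.c1 e4).elim
      | exact (nR'.c1 e3.symm).elim
      | exact (nR'.c1 e4.symm).elim
      | exact (nR'.d1 e3).elim
      | exact (nR'.d1 e4).elim
      | exact (nR'.d1 e3.symm).elim
      | exact (nR'.d1 e4.symm).elim
      | exact (nR'.e1 e3).elim
      | exact (nR'.e1 e4).elim
      | exact (nR'.e1 e3.symm).elim
      | exact (nR'.e1 e4.symm).elim
      | exact (nR'.e2 e3).elim
      | exact (nR'.e2 e4).elim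
      | exact (nR'.e2 e3.symm).elim
      | exact (nR'.e2 e4.symm).elim
      | exact (nR'.c3 hR e3).elim
      | exact (nR'.c3 hS e3).elim
      | exact (nR'.c3 hQ e3).elim
      | exact (nR'.c3 hQ e3).elim
      | exact (nR'.c4 hR e3).elim
      | exact (nR'.c4 hS e3).elim
      | exact (nR'.c4 hQ e3).elim
      | exact (nR'.c4 hQ e3).elim
      | exact (nR'.d3 hR e3).elim
      | exact (nR'.d3 hS e3).elim
      | exact (nR'.d3 hQ e3).elim
      | exact (nR'.d3 hQ e3).elim
      | exact (nR'.d4 hR e3).elim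
      | exact (nR'.d4 hS e3).elim
      | exact (nR'.d4 hQ e3).elim
      | exact (nR'.d4 hQ e3).elim
      | exact (nB'.c1 e3).elim
      | exact (nB'.c1 e4).elim
      | exact (nB'.c1 e3.symm).elim
      | exact (nB'.c1 e4.symm).elim
      | exact (nB'.d1 e3).elim
      | exact (nB'.d1 e4).elim
      | exact (nB'.d1 e3.symm).elim
      | exact (nB'.d1 e4.symm).elim
      | exact (nB'.e1 e3).elim
      | exact (nB'.e1 e4).elim
      | exact (nB'.e1 e3.symm).elim
      | exact (nB'.e1 e4.symm).elim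
      | exact (nB'.e2 e3).elim
      | exact (nB'.e2 e4).elim
      | exact (nB'.e2 e3.symm).elim
      | exact (nB'.e2 e4.symm).elim
      | exact (nB'.c3 hR e3).elim
      | exact (nB'.c3 hS e3).elim
      | exact (nB'.c3 hQ e3).elim
      | exact (nB'.c3 hQ e3).elim
      | exact (nB'.c4 hR e3).elim
      | exact (nB'.c4 hS e3).elim
      | exact (nB'.c4 hQ e3).elim
      | exact (nB'.c4 hQ e3).elim
      | exact (nB'.d3 hR e3).elim
      | exact (nB'.d3 hS e3).elim
      | exact (nB'.d3 hQ e3).elim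
      | exact (nB'.d3 hQ e3).elim
      | exact (nB'.d4 hR e3).elim
      | exact (nB'.d4 hS e3).elim
      | exact (nB'.d4 hQ e3).elim
      | exact (nB'.d4 hQ e3).elim
      | exact (nS'.c1 e3).elim
      | exact (nS'.c1 e4).elim
      | exact (nS'.c1 e3.symm).elim
      | exact (nS'.c1 e4.symm).elim
      | exact (nS'.d1 e3).elim
      | exact (nS'.d1 e4).elim
      | exact (nS'.d1 e3.symm).elim
      | exact (nS'.d1 e4.symm).elim
      | exact (nS'.e1 e3).elim
      | exact (nS'.e1 e4).elim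
      | exact (nS'.e1 e3.symm).elim
      | exact (nS'.e1 e4.symm).elim
      | exact (nS'.e2 e3).elim
      | exact (nS'.e2 e4).elim
      | exact (nS'.e2 e3.symm).elim
      | exact (nS'.e2 e4.symm).elim
      | exact (nS'.c3 hR e3).elim
      | exact (nS'.c3 hS e3).elim
      | exact (nS'.c3 hQ e3).elim
      | exact (nS'.c3 hQ e3).elim
      | exact (nS'.c4 hR e3).elim
      | exact (nS'.c4 hS e3).elim
      | exact (nS'.c4 hQ e3).elim
      | exact (nS'.c4 hQ e3).elim
      | exact (nS'.d3 hR e3).elim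
      | exact (nS'.d3 hS e3).elim
      | exact (nS'.d3 hQ e3).elim
      | exact (nS'.d3 hQ e3).elim
      | exact (nS'.d4 hR e3).elim
      | exact (nS'.d4 hS e3).elim
      | exact (nS'.d4 hQ e3).elim
      | exact (nS'.d4 hQ e3).elim
      | (exfalso; simp [hR.symm, hS.symm, hR'.symm, hS'.symm, dB', (fun Y => (dB' Y).symm), lB, (fun Y => (lB Y).symm), lB', (fun Y => (lB' Y).symm), pc, snoc_iff, snoc_one, snoc_one', app_eq_nil, app, end2, end3, sn2, sn2', sn3, sn3', sn4, sn4', H1.app_nil, hR, hS, hR', hS', lR.a, lS.a, lR'.a, lS'.a, mR.a, mS.a, fR.a, fS.a, fR'.a, fS'.a, gR.a, gS.a, fun Y => (lR.a Y).symm, fun Y => (lS.a Y).symm, fun Y => (lR'.a Y).symm, fun Y => (lS'.a Y).symm, fun Y => (mR.a Y).symm, fun Y => (mS.a Y).symm, fun Y => (fR.a Y).symm, fun Y => (fS.a Y).symm, fun Y => (fR'.a Y).symm, fun Y => (fS'.a Y).symm, fun Y => (gR.a Y).symm, fun Y => (gS.a Y).symm, fun A Y => (lR.node A).a Y, fun A Y => (lS.node A).a Y, fun A C Y => ((lR.node A).node C).a Y, fun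 A C Y => ((lS.node A).node C).a Y, fun A C Y => (((lR.node A).node C).a Y).symm, fun A C Y => (((lS.node A).node C).a Y).symm] at e3; done)
      | (exfalso; simp [hR.symm, hS.symm, hR'.symm, hS'.symm, dB', (fun Y => (dB' Y).symm), lB, (fun Y => (lB Y).symm), lB', (fun Y => (lB' Y).symm), pc, snoc_iff, snoc_one, snoc_one', app_eq_nil, app, end2, end3, sn2, sn2', sn3, sn3', sn4, sn4', H1.app_nil, hR, hS, hR', hS', lR.a, lS.a, lR'.a, lS'.a, mR.a, mS.a, fR.a, fS.a, fR'.a, fS'.a, gR.a, gS.a, fun Y => (lR.a Y).symm, fun Y => (lS.a Y).symm, fun Y => (lR'.a Y).symm, fun Y => (lS'.a Y).symm, fun Y => (mR.a Y).symm, fun Y => (mS.a Y).symm, fun Y => (fR.a Y).symm, fun Y => (fS.a Y).symm, fun Y => (fR'.a Y).symm, fun Y => (fS'.a Y).symm, fun Y => (gR.a Y).symm, fun Y => (gS.a Y).symm, fun A Y => (lR.node A).a Y, fun A Y => (lS.node A).a Y, fun A C Y => ((lR.node A).node C).a Y, fun A C Y => ((lS.node A).node C).a Y, fun A C Y => (((lR.node A).node C).a Y).symm, fun A C Y => (((lS.node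 A).node C).a Y).symm] at e4; done)
      | (exfalso; have l4 := congrArg H1.len e4; simp only [H1.len_app, len_node, len_nil, pc, app] at l4; omega)
      | (exfalso; have l4 := congrArg H1.len e3; simp only [H1.len_app, len_node, len_nil, pc, app] at l4; omega)
      | (exfalso; subst e3; simp [hR.symm, hS.symm, hR'.symm, hS'.symm, dB', (fun Y => (dB' Y).symm), lB, (fun Y => (lB Y).symm), lB', (fun Y => (lB' Y).symm), pc, snoc_iff, snoc_one, snoc_one', app_eq_nil, app, end2, end3, sn2, sn2', sn3, sn3', sn4, sn4', H1.app_nil, hR, hS, hR', hS', lR.a, lS.a, lR'.a, lS'.a, mR.a, mS.a, fR.a, fS.a, fR'.a, fS'.a, gR.a, gS.a, fun Y => (lR.a Y).symm, fun Y => (lS.a Y).symm, fun Y => (lR'.a Y).symm, fun Y => (lS'.a Y).symm, fun Y => (mR.a Y).symm, fun Y => (mS.a Y).symm, fun Y => (fR.a Y).symm, fun Y => (fS.a Y).symm, fun Y => (fR'.a Y).symm, fun Y => (fS'.a Y).symm, fun Y => (gR.a Y).symm, fun Y => (gS.a Y).symm, fun A Y => (lR.node A).a Y, fun A Y => (lS.node A).a Y, fun A C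 Y => ((lR.node A).node C).a Y, fun A C Y => ((lS.node A).node C).a Y, fun A C Y => (((lR.node A).node C).a Y).symm, fun A C Y => (((lS.node A).node C).a Y).symm] at e4; done)
      | skip
  · obtain ⟨h5, h6⟩ := K2 (by rw [e3] at nR'; exact nR'.tl) e4
    exact absurd (snoc_one.1 (H1.node_inj h6).2.symm).1 hR
  · obtain ⟨h5, h6⟩ := K2 (by rw [e3] at nB'; exact nB'.tl) e4
    exact absurd (H1.node_inj h6).1 (by simp)
  · obtain ⟨h5, h6⟩ := K2 (by rw [e3] at nB'; exact nB'.tl) e4
    exact absurd (H1.node_inj h6).2.symm ((fR.app _).a _)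
  · obtain ⟨h5, h6⟩ := K2 (by rw [e3] at nS'; exact nS'.tl) e4
    exact absurd (snoc_one.1 (H1.node_inj h6).2.symm).1 hR

theorem a0_m3 (h : SqD k R' B' S') (hR : R ≠ .nil) (hS : S ≠ .nil) (tR : T3 R) (tB : T3 B) (tS : T3 S)
    {j : ℕ} (hj : j < 20) (h9 : j ≠ 9) (q : ℕ)
    (e : H1.W R' .nil B' S' j = aw R (pc (q + 1)) B S 3) :
    ∃ X, (X = R' ∨ (B' = .nil ∧ X = S')) ∧ PossA0 (q) R B S X := by
  have nR' : N1 R' := h.one
  have nB' : N1 B' := h.oneB
  have nS' : N1 S' := h.oneS
  have hR' := h.ne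
  have hS' := h.neS
  have hQ : pc (q + 1) ≠ .nil := by simp [pc]
  have lR := L1.of tR.n1 hR
  have lS := L1.of tS.n1 hS
  have lR' := L1.of nR' hR'
  have lS' := L1.of nS' hS'
  have mR := L2.of tR hR
  have mS := L2.of tS hS
  have fR := F1.of tR.n1 hR
  have fS := F1.of tS.n1 hS
  have fR' := F1.of nR' hR'
  have fS' := F1.of nS' hS'
  have gR := F2.of tR hR
  have gS := F2.of tS hS
  have dB' : ∀ Y, B' ≠ .nil △ Y := fun Y => nB'.d1
  have lB : ∀ Y, B ≠ app Y (.nil △ .nil) := fun Y => tB.n1.c1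
  have lB' : ∀ Y, B' ≠ app Y (.nil △ .nil) := fun Y => nB'.c1
  have tT : T3 (app B (S △ .nil)) := tB.app (tS.one hS)
  have zR := H1.len_pos hR
  have zS := H1.len_pos hS
  have zR' := H1.len_pos hR'
  have zS' := H1.len_pos hS'
  have e' : H1.W R' .nil B' S' j = (app (pc (q + 1)) (.nil △ R)) △ .nil := e
  rcases h.one1 hj h9 e' with ⟨hj', e4⟩ | ⟨hj', e4⟩ | ⟨hj', e4⟩ | ⟨hj', e4⟩ | ⟨hj', hB', e4⟩
  all_goals first
      | exact (hR e4).elim
      | exact (hR' e4.symm).elim
      | exact (hS e4).elim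
      | exact (hR e4.symm).elim
      | exact (hS' e4.symm).elim
      | exact (hS e4.symm).elim
      | exact (tR.c1 e4).elim
      | exact (tR.c1 e4.symm).elim
      | exact (tR.c1 e3).elim
      | exact (tR.c1 e3.symm).elim
      | exact (tR.c2 e4).elim
      | exact (tR.c2 e4.symm).elim
      | exact (tR.c2 e3).elim
      | exact (tR.c2 e3.symm).elim
      | exact (tR.c3 e4).elim
      | exact (tR.c3 e4.symm).elim
      | exact (tR.c3 e3).elim
      | exact (tR.c3 e3.symm).elim
      | exact (tR.c4 e4).elim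
      | exact (tR.c4 e4.symm).elim
      | exact (tR.c4 e3).elim
      | exact (tR.c4 e3.symm).elim
      | exact (tR.d1 e4).elim
      | exact (tR.d1 e4.symm).elim
      | exact (tR.d1 e3).elim
      | exact (tR.d1 e3.symm).elim
      | exact (tR.d2 e4).elim
      | exact (tR.d2 e4.symm).elim
      | exact (tR.d2 e3).elim
      | exact (tR.d2 e3.symm).elim
      | exact (tR.d3 e4).elim
      | exact (tR.d3 e4.symm).elim
      | exact (tR.d3 e3).elim
      | exact (tR.d3 e3.symm).elim
      | exact (tR.d4 e4).elim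
      | exact (tR.d4 e4.symm).elim
      | exact (tR.d4 e3).elim
      | exact (tR.d4 e3.symm).elim
      | exact (tR.e1 e4).elim
      | exact (tR.e1 e4.symm).elim
      | exact (tR.e1 e3).elim
      | exact (tR.e1 e3.symm).elim
      | exact (tR.e2 e4).elim
      | exact (tR.e2 e4.symm).elim
      | exact (tR.e2 e3).elim
      | exact (tR.e2 e3.symm).elim
      | exact (tB.c1 e4).elim
      | exact (tB.c1 e4.symm).elim
      | exact (tB.c1 e3).elim
      | exact (tB.c1 e3.symm).elim
      | exact (tB.c2 e4).elim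
      | exact (tB.c2 e4.symm).elim
      | exact (tB.c2 e3).elim
      | exact (tB.c2 e3.symm).elim
      | exact (tB.c3 e4).elim
      | exact (tB.c3 e4.symm).elim
      | exact (tB.c3 e3).elim
      | exact (tB.c3 e3.symm).elim
      | exact (tB.c4 e4).elim
      | exact (tB.c4 e4.symm).elim
      | exact (tB.c4 e3).elim
      | exact (tB.c4 e3.symm).elim
      | exact (tB.d1 e4).elim
      | exact (tB.d1 e4.symm).elim
      | exact (tB.d1 e3).elim
      | exact (tB.d1 e3.symm).elim
      | exact (tB.d2 e4).elim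
      | exact (tB.d2 e4.symm).elim
      | exact (tB.d2 e3).elim
      | exact (tB.d2 e3.symm).elim
      | exact (tB.d3 e4).elim
      | exact (tB.d3 e4.symm).elim
      | exact (tB.d3 e3).elim
      | exact (tB.d3 e3.symm).elim
      | exact (tB.d4 e4).elim
      | exact (tB.d4 e4.symm).elim
      | exact (tB.d4 e3).elim
      | exact (tB.d4 e3.symm).elim
      | exact (tB.e1 e4).elim
      | exact (tB.e1 e4.symm).elim
      | exact (tB.e1 e3).elim
      | exact (tB.e1 e3.symm).elim
      | exact (tB.e2 e4).elim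
      | exact (tB.e2 e4.symm).elim
      | exact (tB.e2 e3).elim
      | exact (tB.e2 e3.symm).elim
      | exact (tS.c1 e4).elim
      | exact (tS.c1 e4.symm).elim
      | exact (tS.c1 e3).elim
      | exact (tS.c1 e3.symm).elim
      | exact (tS.c2 e4).elim
      | exact (tS.c2 e4.symm).elim
      | exact (tS.c2 e3).elim
      | exact (tS.c2 e3.symm).elim
      | exact (tS.c3 e4).elim
      | exact (tS.c3 e4.symm).elim
      | exact (tS.c3 e3).elim
      | exact (tS.c3 e3.symm).elim
      | exact (tS.c4 e4).elim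
      | exact (tS.c4 e4.symm).elim
      | exact (tS.c4 e3).elim
      | exact (tS.c4 e3.symm).elim
      | exact (tS.d1 e4).elim
      | exact (tS.d1 e4.symm).elim
      | exact (tS.d1 e3).elim
      | exact (tS.d1 e3.symm).elim
      | exact (tS.d2 e4).elim
      | exact (tS.d2 e4.symm).elim
      | exact (tS.d2 e3).elim
      | exact (tS.d2 e3.symm).elim
      | exact (tS.d3 e4).elim
      | exact (tS.d3 e4.symm).elim
      | exact (tS.d3 e3).elim
      | exact (tS.d3 e3.symm).elim
      | exact (tS.d4 e4).elim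
      | exact (tS.d4 e4.symm).elim
      | exact (tS.d4 e3).elim
      | exact (tS.d4 e3.symm).elim
      | exact (tS.e1 e4).elim
      | exact (tS.e1 e4.symm).elim
      | exact (tS.e1 e3).elim
      | exact (tS.e1 e3.symm).elim
      | exact (tS.e2 e4).elim
      | exact (tS.e2 e4.symm).elim
      | exact (tS.e2 e3).elim
      | exact (tS.e2 e3.symm).elim
      | exact (nR'.c1 e3).elim
      | exact (nR'.c1 e4).elim
      | exact (nR'.c1 e3.symm).elim
      | exact (nR'.c1 e4.symm).elim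
      | exact (nR'.d1 e3).elim
      | exact (nR'.d1 e4).elim
      | exact (nR'.d1 e3.symm).elim
      | exact (nR'.d1 e4.symm).elim
      | exact (nR'.e1 e3).elim
      | exact (nR'.e1 e4).elim
      | exact (nR'.e1 e3.symm).elim
      | exact (nR'.e1 e4.symm).elim
      | exact (nR'.e2 e3).elim
      | exact (nR'.e2 e4).elim
      | exact (nR'.e2 e3.symm).elim
      | exact (nR'.e2 e4.symm).elim
      | exact (nR'.c3 hR e3).elim
      | exact (nR'.c3 hS e3).elim
      | exact (nR'.c3 hQ e3).elim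
      | exact (nR'.c3 hQ e3).elim
      | exact (nR'.c4 hR e3).elim
      | exact (nR'.c4 hS e3).elim
      | exact (nR'.c4 hQ e3).elim
      | exact (nR'.c4 hQ e3).elim
      | exact (nR'.d3 hR e3).elim
      | exact (nR'.d3 hS e3).elim
      | exact (nR'.d3 hQ e3).elim
      | exact (nR'.d3 hQ e3).elim
      | exact (nR'.d4 hR e3).elim
      | exact (nR'.d4 hS e3).elim
      | exact (nR'.d4 hQ e3).elim
      | exact (nR'.d4 hQ e3).elim
      | exact (nB'.c1 e3).elim
      | exact (nB'.c1 e4).elim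
      | exact (nB'.c1 e3.symm).elim
      | exact (nB'.c1 e4.symm).elim
      | exact (nB'.d1 e3).elim
      | exact (nB'.d1 e4).elim
      | exact (nB'.d1 e3.symm).elim
      | exact (nB'.d1 e4.symm).elim
      | exact (nB'.e1 e3).elim
      | exact (nB'.e1 e4).elim
      | exact (nB'.e1 e3.symm).elim
      | exact (nB'.e1 e4.symm).elim
      | exact (nB'.e2 e3).elim
      | exact (nB'.e2 e4).elim
      | exact (nB'.e2 e3.symm).elim
      | exact (nB'.e2 e4.symm).elim
      | exact (nB'.c3 hR e3).elim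
      | exact (nB'.c3 hS e3).elim
      | exact (nB'.c3 hQ e3).elim
      | exact (nB'.c3 hQ e3).elim
      | exact (nB'.c4 hR e3).elim
      | exact (nB'.c4 hS e3).elim
      | exact (nB'.c4 hQ e3).elim
      | exact (nB'.c4 hQ e3).elim
      | exact (nB'.d3 hR e3).elim
      | exact (nB'.d3 hS e3).elim
      | exact (nB'.d3 hQ e3).elim
      | exact (nB'.d3 hQ e3).elim
      | exact (nB'.d4 hR e3).elim
      | exact (nB'.d4 hS e3).elim
      | exact (nB'.d4 hQ e3).elim
      | exact (nB'.d4 hQ e3).elim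
      | exact (nS'.c1 e3).elim
      | exact (nS'.c1 e4).elim
      | exact (nS'.c1 e3.symm).elim
      | exact (nS'.c1 e4.symm).elim
      | exact (nS'.d1 e3).elim
      | exact (nS'.d1 e4).elim
      | exact (nS'.d1 e3.symm).elim
      | exact (nS'.d1 e4.symm).elim
      | exact (nS'.e1 e3).elim
      | exact (nS'.e1 e4).elim
      | exact (nS'.e1 e3.symm).elim
      | exact (nS'.e1 e4.symm).elim
      | exact (nS'.e2 e3).elim
      | exact (nS'.e2 e4).elim
      | exact (nS'.e2 e3.symm).elim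
      | exact (nS'.e2 e4.symm).elim
      | exact (nS'.c3 hR e3).elim
      | exact (nS'.c3 hS e3).elim
      | exact (nS'.c3 hQ e3).elim
      | exact (nS'.c3 hQ e3).elim
      | exact (nS'.c4 hR e3).elim
      | exact (nS'.c4 hS e3).elim
      | exact (nS'.c4 hQ e3).elim
      | exact (nS'.c4 hQ e3).elim
      | exact (nS'.d3 hR e3).elim
      | exact (nS'.d3 hS e3).elim
      | exact (nS'.d3 hQ e3).elim
      | exact (nS'.d3 hQ e3).elim
      | exact (nS'.d4 hR e3).elim
      | exact (nS'.d4 hS e3).elim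
      | exact (nS'.d4 hQ e3).elim
      | exact (nS'.d4 hQ e3).elim
      | (exfalso; simp [hR.symm, hS.symm, hR'.symm, hS'.symm, dB', (fun Y => (dB' Y).symm), lB, (fun Y => (lB Y).symm), lB', (fun Y => (lB' Y).symm), pc, snoc_iff, snoc_one, snoc_one', app_eq_nil, app, end2, end3, sn2, sn2', sn3, sn3', sn4, sn4', H1.app_nil, hR, hS, hR', hS', lR.a, lS.a, lR'.a, lS'.a, mR.a, mS.a, fR.a, fS.a, fR'.a, fS'.a, gR.a, gS.a, fun Y => (lR.a Y).symm, fun Y => (lS.a Y).symm, fun Y => (lR'.a Y).symm, fun Y => (lS'.a Y).symm, fun Y => (mR.a Y).symm, fun Y => (mS.a Y).symm, fun Y => (fR.a Y).symm, fun Y => (fS.a Y).symm, fun Y => (fR'.a Y).symm, fun Y => (fS'.a Y).symm, fun Y => (gR.a Y).symm, fun Y => (gS.a Y).symm, fun A Y => (lR.node A).a Y, fun A Y => (lS.node A).a Y, fun A C Y => ((lR.node A).node C).a Y, fun A C Y => ((lS.node A).node C).a Y, fun A C Y => (((lR.node A).node C).a Y).symm, fun A C Y => (((lS.node A).node C).a Y).symm] at e3; done)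
      | (exfalso; simp [hR.symm, hS.symm, hR'.symm, hS'.symm, dB', (fun Y => (dB' Y).symm), lB, (fun Y => (lB Y).symm), lB', (fun Y => (lB' Y).symm), pc, snoc_iff, snoc_one, snoc_one', app_eq_nil, app, end2, end3, sn2, sn2', sn3, sn3', sn4, sn4', H1.app_nil, hR, hS, hR', hS', lR.a, lS.a, lR'.a, lS'.a, mR.a, mS.a, fR.a, fS.a, fR'.a, fS'.a, gR.a, gS.a, fun Y => (lR.a Y).symm, fun Y => (lS.a Y).symm, fun Y => (lR'.a Y).symm, fun Y => (lS'.a Y).symm, fun Y => (mR.a Y).symm, fun Y => (mS.a Y).symm, fun Y => (fR.a Y).symm, fun Y => (fS.a Y).symm, fun Y => (fR'.a Y).symm, fun Y => (fS'.a Y).symm, fun Y => (gR.a Y).symm, fun Y => (gS.a Y).symm, fun A Y => (lR.node A).a Y, fun A Y => (lS.node A).a Y, fun A C Y => ((lR.node A).node C).a Y, fun A C Y => ((lS.node A).node C).a Y, fun A C Y => (((lR.node A).node C).a Y).symm, fun A C Y => (((lS.node A).node C).a Y).symm] at e4; done)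
      | (exfalso; have l4 := congrArg H1.len e4; simp only [H1.len_app, len_node, len_nil, pc, app] at l4; omega)
      | (exfalso; have l4 := congrArg H1.len e3; simp only [H1.len_app, len_node, len_nil, pc, app] at l4; omega)
      | (exfalso; subst e3; simp [hR.symm, hS.symm, hR'.symm, hS'.symm, dB', (fun Y => (dB' Y).symm), lB, (fun Y => (lB Y).symm), lB', (fun Y => (lB' Y).symm), pc, snoc_iff, snoc_one, snoc_one', app_eq_nil, app, end2, end3, sn2, sn2', sn3, sn3', sn4, sn4', H1.app_nil, hR, hS, hR', hS', lR.a, lS.a, lR'.a, lS'.a, mR.a, mS.a, fR.a, fS.a, fR'.a, fS'.a, gR.a, gS.a, fun Y => (lR.a Y).symm, fun Y => (lS.a Y).symm, fun Y => (lR'.a Y).symm, fun Y => (lS'.a Y).symm, fun Y => (mR.a Y).symm, fun Y => (mS.a Y).symm, fun Y => (fR.a Y).symm, fun Y => (fS.a Y).symm, fun Y => (fR'.a Y).symm, fun Y => (fS'.a Y).symm, fun Y => (gR.a Y).symm, fun Y => (gS.a Y).symm, fun A Y => (lR.node A).a Y, fun A Y => (lS.node A).a Y, fun A C Y => ((lR.node A).node C).a Y, fun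 A C Y => ((lS.node A).node C).a Y, fun A C Y => (((lR.node A).node C).a Y).symm, fun A C Y => (((lS.node A).node C).a Y).symm] at e4; done)
      | skip
  · exact absurd (H1.node_inj (K1 nS' hS' (show app S' (B' △ .nil) = pc q △ (.nil △ R) from e4.symm)).2).2 hR.symm

theorem a0_m4 (h : SqD k R' B' S') (hR : R ≠ .nil) (hS : S ≠ .nil) (tR : T3 R) (tB : T3 B) (tS : T3 S)
    {j : ℕ} (hj : j < 20) (h9 : j ≠ 9) (q : ℕ)
    (e : H1.W R' .nil B' S' j = aw R (pc (q + 1)) B S 4) :
    ∃ X, (X = R' ∨ (B' = .nil ∧ X = S')) ∧ PossA0 (q) R B S X := by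
  have nR' : N1 R' := h.one
  have nB' : N1 B' := h.oneB
  have nS' : N1 S' := h.oneS
  have hR' := h.ne
  have hS' := h.neS
  have hQ : pc (q + 1) ≠ .nil := by simp [pc]
  have lR := L1.of tR.n1 hR
  have lS := L1.of tS.n1 hS
  have lR' := L1.of nR' hR'
  have lS' := L1.of nS' hS'
  have mR := L2.of tR hR
  have mS := L2.of tS hS
  have fR := F1.of tR.n1 hR
  have fS := F1.of tS.n1 hS
  have fR' := F1.of nR' hR'
  have fS' := F1.of nS' hS'
  have gR := F2.of tR hR
  have gS := F2.of tS hS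
  have dB' : ∀ Y, B' ≠ .nil △ Y := fun Y => nB'.d1
  have lB : ∀ Y, B ≠ app Y (.nil △ .nil) := fun Y => tB.n1.c1
  have lB' : ∀ Y, B' ≠ app Y (.nil △ .nil) := fun Y => nB'.c1
  have tT : T3 (app B (S △ .nil)) := tB.app (tS.one hS)
  have zR := H1.len_pos hR
  have zS := H1.len_pos hS
  have zR' := H1.len_pos hR'
  have zS' := H1.len_pos hS'
  have e' : H1.W R' .nil B' S' j = app R ((.nil △ pc (q + 1)) △ .nil) := e
  rcases h.lstA hj h9 (by simp [app_eq_nil, pc, hR, hS]) e' with ⟨hj', e3, e4⟩ | ⟨hj', X', e3, e4⟩ | ⟨hj', X', e3, e4⟩ | ⟨hj', e3, e4⟩ | ⟨hj', X', e3, e4⟩ |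
    ⟨hj', X', e3, e4⟩ | ⟨hj', e3, e4⟩ | ⟨hj', hB', e3, e4⟩ | ⟨hj', X', e3, e4⟩ | ⟨hj', hB', e3, e4⟩ | ⟨hj', X', e3, e4⟩ |
    ⟨hj', e3, e4⟩ | ⟨hj', e3, e4⟩ | ⟨hj', e3, e4⟩ | ⟨hj', e3, e4⟩ | ⟨hj', e3, e4⟩
  all_goals first
      | exact (hR e4).elim
      | exact (hR' e4.symm).elim
      | exact (hS e4).elim
      | exact (hR e4.symm).elim
      | exact (hS' e4.symm).elim
      | exact (hS e4.symm).elim
      | exact (tR.c1 e4).elim
      | exact (tR.c1 e4.symm).elim
      | exact (tR.c1 e3).elim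
      | exact (tR.c1 e3.symm).elim
      | exact (tR.c2 e4).elim
      | exact (tR.c2 e4.symm).elim
      | exact (tR.c2 e3).elim
      | exact (tR.c2 e3.symm).elim
      | exact (tR.c3 e4).elim
      | exact (tR.c3 e4.symm).elim
      | exact (tR.c3 e3).elim
      | exact (tR.c3 e3.symm).elim
      | exact (tR.c4 e4).elim
      | exact (tR.c4 e4.symm).elim
      | exact (tR.c4 e3).elim
      | exact (tR.c4 e3.symm).elim
      | exact (tR.d1 e4).elim
      | exact (tR.d1 e4.symm).elim
      | exact (tR.d1 e3).elim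
      | exact (tR.d1 e3.symm).elim
      | exact (tR.d2 e4).elim
      | exact (tR.d2 e4.symm).elim
      | exact (tR.d2 e3).elim
      | exact (tR.d2 e3.symm).elim
      | exact (tR.d3 e4).elim
      | exact (tR.d3 e4.symm).elim
      | exact (tR.d3 e3).elim
      | exact (tR.d3 e3.symm).elim
      | exact (tR.d4 e4).elim
      | exact (tR.d4 e4.symm).elim
      | exact (tR.d4 e3).elim
      | exact (tR.d4 e3.symm).elim
      | exact (tR.e1 e4).elim
      | exact (tR.e1 e4.symm).elim
      | exact (tR.e1 e3).elim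
      | exact (tR.e1 e3.symm).elim
      | exact (tR.e2 e4).elim
      | exact (tR.e2 e4.symm).elim
      | exact (tR.e2 e3).elim
      | exact (tR.e2 e3.symm).elim
      | exact (tB.c1 e4).elim
      | exact (tB.c1 e4.symm).elim
      | exact (tB.c1 e3).elim
      | exact (tB.c1 e3.symm).elim
      | exact (tB.c2 e4).elim
      | exact (tB.c2 e4.symm).elim
      | exact (tB.c2 e3).elim
      | exact (tB.c2 e3.symm).elim
      | exact (tB.c3 e4).elim
      | exact (tB.c3 e4.symm).elim
      | exact (tB.c3 e3).elim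
      | exact (tB.c3 e3.symm).elim
      | exact (tB.c4 e4).elim
      | exact (tB.c4 e4.symm).elim
      | exact (tB.c4 e3).elim
      | exact (tB.c4 e3.symm).elim
      | exact (tB.d1 e4).elim
      | exact (tB.d1 e4.symm).elim
      | exact (tB.d1 e3).elim
      | exact (tB.d1 e3.symm).elim
      | exact (tB.d2 e4).elim
      | exact (tB.d2 e4.symm).elim
      | exact (tB.d2 e3).elim
      | exact (tB.d2 e3.symm).elim
      | exact (tB.d3 e4).elim
      | exact (tB.d3 e4.symm).elim
      | exact (tB.d3 e3).elim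
      | exact (tB.d3 e3.symm).elim
      | exact (tB.d4 e4).elim
      | exact (tB.d4 e4.symm).elim
      | exact (tB.d4 e3).elim
      | exact (tB.d4 e3.symm).elim
      | exact (tB.e1 e4).elim
      | exact (tB.e1 e4.symm).elim
      | exact (tB.e1 e3).elim
      | exact (tB.e1 e3.symm).elim
      | exact (tB.e2 e4).elim
      | exact (tB.e2 e4.symm).elim
      | exact (tB.e2 e3).elim
      | exact (tB.e2 e3.symm).elim
      | exact (tS.c1 e4).elim
      | exact (tS.c1 e4.symm).elim
      | exact (tS.c1 e3).elim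
      | exact (tS.c1 e3.symm).elim
      | exact (tS.c2 e4).elim
      | exact (tS.c2 e4.symm).elim
      | exact (tS.c2 e3).elim
      | exact (tS.c2 e3.symm).elim
      | exact (tS.c3 e4).elim
      | exact (tS.c3 e4.symm).elim
      | exact (tS.c3 e3).elim
      | exact (tS.c3 e3.symm).elim
      | exact (tS.c4 e4).elim
      | exact (tS.c4 e4.symm).elim
      | exact (tS.c4 e3).elim
      | exact (tS.c4 e3.symm).elim
      | exact (tS.d1 e4).elim
      | exact (tS.d1 e4.symm).elim
      | exact (tS.d1 e3).elim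
      | exact (tS.d1 e3.symm).elim
      | exact (tS.d2 e4).elim
      | exact (tS.d2 e4.symm).elim
      | exact (tS.d2 e3).elim
      | exact (tS.d2 e3.symm).elim
      | exact (tS.d3 e4).elim
      | exact (tS.d3 e4.symm).elim
      | exact (tS.d3 e3).elim
      | exact (tS.d3 e3.symm).elim
      | exact (tS.d4 e4).elim
      | exact (tS.d4 e4.symm).elim
      | exact (tS.d4 e3).elim
      | exact (tS.d4 e3.symm).elim
      | exact (tS.e1 e4).elim
      | exact (tS.e1 e4.symm).elim
      | exact (tS.e1 e3).elim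
      | exact (tS.e1 e3.symm).elim
      | exact (tS.e2 e4).elim
      | exact (tS.e2 e4.symm).elim
      | exact (tS.e2 e3).elim
      | exact (tS.e2 e3.symm).elim
      | exact (nR'.c1 e3).elim
      | exact (nR'.c1 e4).elim
      | exact (nR'.c1 e3.symm).elim
      | exact (nR'.c1 e4.symm).elim
      | exact (nR'.d1 e3).elim
      | exact (nR'.d1 e4).elim
      | exact (nR'.d1 e3.symm).elim
      | exact (nR'.d1 e4.symm).elim
      | exact (nR'.e1 e3).elim
      | exact (nR'.e1 e4).elim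
      | exact (nR'.e1 e3.symm).elim
      | exact (nR'.e1 e4.symm).elim
      | exact (nR'.e2 e3).elim
      | exact (nR'.e2 e4).elim
      | exact (nR'.e2 e3.symm).elim
      | exact (nR'.e2 e4.symm).elim
      | exact (nR'.c3 hR e3).elim
      | exact (nR'.c3 hS e3).elim
      | exact (nR'.c3 hQ e3).elim
      | exact (nR'.c3 hQ e3).elim
      | exact (nR'.c4 hR e3).elim
      | exact (nR'.c4 hS e3).elim
      | exact (nR'.c4 hQ e3).elim
      | exact (nR'.c4 hQ e3).elim
      | exact (nR'.d3 hR e3).elim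
      | exact (nR'.d3 hS e3).elim
      | exact (nR'.d3 hQ e3).elim
      | exact (nR'.d3 hQ e3).elim
      | exact (nR'.d4 hR e3).elim
      | exact (nR'.d4 hS e3).elim
      | exact (nR'.d4 hQ e3).elim
      | exact (nR'.d4 hQ e3).elim
      | exact (nB'.c1 e3).elim
      | exact (nB'.c1 e4).elim
      | exact (nB'.c1 e3.symm).elim
      | exact (nB'.c1 e4.symm).elim
      | exact (nB'.d1 e3).elim
      | exact (nB'.d1 e4).elim
      | exact (nB'.d1 e3.symm).elim
      | exact (nB'.d1 e4.symm).elim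
      | exact (nB'.e1 e3).elim
      | exact (nB'.e1 e4).elim
      | exact (nB'.e1 e3.symm).elim
      | exact (nB'.e1 e4.symm).elim
      | exact (nB'.e2 e3).elim
      | exact (nB'.e2 e4).elim
      | exact (nB'.e2 e3.symm).elim
      | exact (nB'.e2 e4.symm).elim
      | exact (nB'.c3 hR e3).elim
      | exact (nB'.c3 hS e3).elim
      | exact (nB'.c3 hQ e3).elim
      | exact (nB'.c3 hQ e3).elim
      | exact (nB'.c4 hR e3).elim
      | exact (nB'.c4 hS e3).elim
      | exact (nB'.c4 hQ e3).elim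
      | exact (nB'.c4 hQ e3).elim
      | exact (nB'.d3 hR e3).elim
      | exact (nB'.d3 hS e3).elim
      | exact (nB'.d3 hQ e3).elim
      | exact (nB'.d3 hQ e3).elim
      | exact (nB'.d4 hR e3).elim
      | exact (nB'.d4 hS e3).elim
      | exact (nB'.d4 hQ e3).elim
      | exact (nB'.d4 hQ e3).elim
      | exact (nS'.c1 e3).elim
      | exact (nS'.c1 e4).elim
      | exact (nS'.c1 e3.symm).elim
      | exact (nS'.c1 e4.symm).elim
      | exact (nS'.d1 e3).elim
      | exact (nS'.d1 e4).elim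
      | exact (nS'.d1 e3.symm).elim
      | exact (nS'.d1 e4.symm).elim
      | exact (nS'.e1 e3).elim
      | exact (nS'.e1 e4).elim
      | exact (nS'.e1 e3.symm).elim
      | exact (nS'.e1 e4.symm).elim
      | exact (nS'.e2 e3).elim
      | exact (nS'.e2 e4).elim
      | exact (nS'.e2 e3.symm).elim
      | exact (nS'.e2 e4.symm).elim
      | exact (nS'.c3 hR e3).elim
      | exact (nS'.c3 hS e3).elim
      | exact (nS'.c3 hQ e3).elim
      | exact (nS'.c3 hQ e3).elim
      | exact (nS'.c4 hR e3).elim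
      | exact (nS'.c4 hS e3).elim
      | exact (nS'.c4 hQ e3).elim
      | exact (nS'.c4 hQ e3).elim
      | exact (nS'.d3 hR e3).elim
      | exact (nS'.d3 hS e3).elim
      | exact (nS'.d3 hQ e3).elim
      | exact (nS'.d3 hQ e3).elim
      | exact (nS'.d4 hR e3).elim
      | exact (nS'.d4 hS e3).elim
      | exact (nS'.d4 hQ e3).elim
      | exact (nS'.d4 hQ e3).elim
      | (exfalso; simp [hR.symm, hS.symm, hR'.symm, hS'.symm, dB', (fun Y => (dB' Y).symm), lB, (fun Y => (lB Y).symm), lB', (fun Y => (lB' Y).symm), pc, snoc_iff, snoc_one, snoc_one', app_eq_nil, app, end2, end3, sn2, sn2', sn3, sn3', sn4, sn4', H1.app_nil, hR, hS, hR', hS', lR.a, lS.a, lR'.a, lS'.a, mR.a, mS.a, fR.a, fS.a, fR'.a, fS'.a, gR.a, gS.a, fun Y => (lR.a Y).symm, fun Y => (lS.a Y).symm, fun Y => (lR'.a Y).symm, fun Y => (lS'.a Y).symm, fun Y => (mR.a Y).symm, fun Y => (mS.a Y).symm, fun Y => (fR.a Y).symm, fun Y => (fS.a Y).symm, fun Y => (fR'.a Y).symm, fun Y => (fS'.a Y).symm, fun Y => (gR.a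 Y).symm, fun Y => (gS.a Y).symm, fun A Y => (lR.node A).a Y, fun A Y => (lS.node A).a Y, fun A C Y => ((lR.node A).node C).a Y, fun A C Y => ((lS.node A).node C).a Y, fun A C Y => (((lR.node A).node C).a Y).symm, fun A C Y => (((lS.node A).node C).a Y).symm] at e3; done)
      | (exfalso; simp [hR.symm, hS.symm, hR'.symm, hS'.symm, dB', (fun Y => (dB' Y).symm), lB, (fun Y => (lB Y).symm), lB', (fun Y => (lB' Y).symm), pc, snoc_iff, snoc_one, snoc_one', app_eq_nil, app, end2, end3, sn2, sn2', sn3, sn3', sn4, sn4', H1.app_nil, hR, hS, hR', hS', lR.a, lS.a, lR'.a, lS'.a, mR.a, mS.a, fR.a, fS.a, fR'.a, fS'.a, gR.a, gS.a, fun Y => (lR.a Y).symm, fun Y => (lS.a Y).symm, fun Y => (lR'.a Y).symm, fun Y => (lS'.a Y).symm, fun Y => (mR.a Y).symm, fun Y => (mS.a Y).symm, fun Y => (fR.a Y).symm, fun Y => (fS.a Y).symm, fun Y => (fR'.a Y).symm, fun Y => (fS'.a Y).symm, fun Y => (gR.a Y).symm, fun Y => (gS.a Y).symm, fun A Y => (lR.node A).a Y, fun A Y => (lS.node A).a Y, fun A C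 Y => ((lR.node A).node C).a Y, fun A C Y => ((lS.node A).node C).a Y, fun A C Y => (((lR.node A).node C).a Y).symm, fun A C Y => (((lS.node A).node C).a Y).symm] at e4; done)
      | (exfalso; have l4 := congrArg H1.len e4; simp only [H1.len_app, len_node, len_nil, pc, app] at l4; omega)
      | (exfalso; have l4 := congrArg H1.len e3; simp only [H1.len_app, len_node, len_nil, pc, app] at l4; omega)
      | (exfalso; subst e3; simp [hR.symm, hS.symm, hR'.symm, hS'.symm, dB', (fun Y => (dB' Y).symm), lB, (fun Y => (lB Y).symm), lB', (fun Y => (lB' Y).symm), pc, snoc_iff, snoc_one, snoc_one', app_eq_nil, app, end2, end3, sn2, sn2', sn3, sn3', sn4, sn4', H1.app_nil, hR, hS, hR', hS', lR.a, lS.a, lR'.a, lS'.a, mR.a, mS.a, fR.a, fS.a, fR'.a, fS'.a, gR.a, gS.a, fun Y => (lR.a Y).symm, fun Y => (lS.a Y).symm, fun Y => (lR'.a Y).symm, fun Y => (lS'.a Y).symm, fun Y => (mR.a Y).symm, fun Y => (mS.a Y).symm, fun Y => (fR.a Y).symm, fun Y => (fS.a Y).symm, fun Y => (fR'.a Y).symm,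 fun Y => (fS'.a Y).symm, fun Y => (gR.a Y).symm, fun Y => (gS.a Y).symm, fun A Y => (lR.node A).a Y, fun A Y => (lS.node A).a Y, fun A C Y => ((lR.node A).node C).a Y, fun A C Y => ((lS.node A).node C).a Y, fun A C Y => (((lR.node A).node C).a Y).symm, fun A C Y => (((lS.node A).node C).a Y).symm] at e4; done)
      | skip

theorem a0_m5 (h : SqD k R' B' S') (hR : R ≠ .nil) (hS : S ≠ .nil) (tR : T3 R) (tB : T3 B) (tS : T3 S)
    {j : ℕ} (hj : j < 20) (h9 : j ≠ 9) (q : ℕ)
    (e : H1.W R' .nil B' S' j = aw R (pc (q + 1)) B S 5) :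
    ∃ X, (X = R' ∨ (B' = .nil ∧ X = S')) ∧ PossA0 (q) R B S X := by
  have nR' : N1 R' := h.one
  have nB' : N1 B' := h.oneB
  have nS' : N1 S' := h.oneS
  have hR' := h.ne
  have hS' := h.neS
  have hQ : pc (q + 1) ≠ .nil := by simp [pc]
  have lR := L1.of tR.n1 hR
  have lS := L1.of tS.n1 hS
  have lR' := L1.of nR' hR'
  have lS' := L1.of nS' hS'
  have mR := L2.of tR hR
  have mS := L2.of tS hS
  have fR := F1.of tR.n1 hR
  have fS := F1.of tS.n1 hS
  have fR' := F1.of nR' hR'
  have fS' := F1.of nS' hS'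
  have gR := F2.of tR hR
  have gS := F2.of tS hS
  have dB' : ∀ Y, B' ≠ .nil △ Y := fun Y => nB'.d1
  have lB : ∀ Y, B ≠ app Y (.nil △ .nil) := fun Y => tB.n1.c1
  have lB' : ∀ Y, B' ≠ app Y (.nil △ .nil) := fun Y => nB'.c1
  have tT : T3 (app B (S △ .nil)) := tB.app (tS.one hS)
  have zR := H1.len_pos hR
  have zS := H1.len_pos hS
  have zR' := H1.len_pos hR'
  have zS' := H1.len_pos hS'
  have e' : H1.W R' .nil B' S' j = app (app R (.nil △ .nil)) (pc (q + 1) △ .nil) := by rw [e, H1.app_assoc]; rfl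
  rcases h.lstA hj h9 (by simp [app_eq_nil, pc, hR, hS]) e' with ⟨hj', e3, e4⟩ | ⟨hj', X', e3, e4⟩ | ⟨hj', X', e3, e4⟩ | ⟨hj', e3, e4⟩ | ⟨hj', X', e3, e4⟩ |
    ⟨hj', X', e3, e4⟩ | ⟨hj', e3, e4⟩ | ⟨hj', hB', e3, e4⟩ | ⟨hj', X', e3, e4⟩ | ⟨hj', hB', e3, e4⟩ | ⟨hj', X', e3, e4⟩ |
    ⟨hj', e3, e4⟩ | ⟨hj', e3, e4⟩ | ⟨hj', e3, e4⟩ | ⟨hj', e3, e4⟩ | ⟨hj', e3, e4⟩
  all_goals first
      | exact (hR e4).elim
      | exact (hR' e4.symm).elim
      | exact (hS e4).elim
      | exact (hR e4.symm).elim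
      | exact (hS' e4.symm).elim
      | exact (hS e4.symm).elim
      | exact (tR.c1 e4).elim
      | exact (tR.c1 e4.symm).elim
      | exact (tR.c1 e3).elim
      | exact (tR.c1 e3.symm).elim
      | exact (tR.c2 e4).elim
      | exact (tR.c2 e4.symm).elim
      | exact (tR.c2 e3).elim
      | exact (tR.c2 e3.symm).elim
      | exact (tR.c3 e4).elim
      | exact (tR.c3 e4.symm).elim
      | exact (tR.c3 e3).elim
      | exact (tR.c3 e3.symm).elim
      | exact (tR.c4 e4).elim
      | exact (tR.c4 e4.symm).elim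
      | exact (tR.c4 e3).elim
      | exact (tR.c4 e3.symm).elim
      | exact (tR.d1 e4).elim
      | exact (tR.d1 e4.symm).elim
      | exact (tR.d1 e3).elim
      | exact (tR.d1 e3.symm).elim
      | exact (tR.d2 e4).elim
      | exact (tR.d2 e4.symm).elim
      | exact (tR.d2 e3).elim
      | exact (tR.d2 e3.symm).elim
      | exact (tR.d3 e4).elim
      | exact (tR.d3 e4.symm).elim
      | exact (tR.d3 e3).elim
      | exact (tR.d3 e3.symm).elim
      | exact (tR.d4 e4).elim
      | exact (tR.d4 e4.symm).elim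
      | exact (tR.d4 e3).elim
      | exact (tR.d4 e3.symm).elim
      | exact (tR.e1 e4).elim
      | exact (tR.e1 e4.symm).elim
      | exact (tR.e1 e3).elim
      | exact (tR.e1 e3.symm).elim
      | exact (tR.e2 e4).elim
      | exact (tR.e2 e4.symm).elim
      | exact (tR.e2 e3).elim
      | exact (tR.e2 e3.symm).elim
      | exact (tB.c1 e4).elim
      | exact (tB.c1 e4.symm).elim
      | exact (tB.c1 e3).elim
      | exact (tB.c1 e3.symm).elim
      | exact (tB.c2 e4).elim
      | exact (tB.c2 e4.symm).elim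
      | exact (tB.c2 e3).elim
      | exact (tB.c2 e3.symm).elim
      | exact (tB.c3 e4).elim
      | exact (tB.c3 e4.symm).elim
      | exact (tB.c3 e3).elim
      | exact (tB.c3 e3.symm).elim
      | exact (tB.c4 e4).elim
      | exact (tB.c4 e4.symm).elim
      | exact (tB.c4 e3).elim
      | exact (tB.c4 e3.symm).elim
      | exact (tB.d1 e4).elim
      | exact (tB.d1 e4.symm).elim
      | exact (tB.d1 e3).elim
      | exact (tB.d1 e3.symm).elim
      | exact (tB.d2 e4).elim
      | exact (tB.d2 e4.symm).elim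
      | exact (tB.d2 e3).elim
      | exact (tB.d2 e3.symm).elim
      | exact (tB.d3 e4).elim
      | exact (tB.d3 e4.symm).elim
      | exact (tB.d3 e3).elim
      | exact (tB.d3 e3.symm).elim
      | exact (tB.d4 e4).elim
      | exact (tB.d4 e4.symm).elim
      | exact (tB.d4 e3).elim
      | exact (tB.d4 e3.symm).elim
      | exact (tB.e1 e4).elim
      | exact (tB.e1 e4.symm).elim
      | exact (tB.e1 e3).elim
      | exact (tB.e1 e3.symm).elim
      | exact (tB.e2 e4).elim
      | exact (tB.e2 e4.symm).elim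
      | exact (tB.e2 e3).elim
      | exact (tB.e2 e3.symm).elim
      | exact (tS.c1 e4).elim
      | exact (tS.c1 e4.symm).elim
      | exact (tS.c1 e3).elim
      | exact (tS.c1 e3.symm).elim
      | exact (tS.c2 e4).elim
      | exact (tS.c2 e4.symm).elim
      | exact (tS.c2 e3).elim
      | exact (tS.c2 e3.symm).elim
      | exact (tS.c3 e4).elim
      | exact (tS.c3 e4.symm).elim
      | exact (tS.c3 e3).elim
      | exact (tS.c3 e3.symm).elim
      | exact (tS.c4 e4).elim
      | exact (tS.c4 e4.symm).elim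
      | exact (tS.c4 e3).elim
      | exact (tS.c4 e3.symm).elim
      | exact (tS.d1 e4).elim
      | exact (tS.d1 e4.symm).elim
      | exact (tS.d1 e3).elim
      | exact (tS.d1 e3.symm).elim
      | exact (tS.d2 e4).elim
      | exact (tS.d2 e4.symm).elim
      | exact (tS.d2 e3).elim
      | exact (tS.d2 e3.symm).elim
      | exact (tS.d3 e4).elim
      | exact (tS.d3 e4.symm).elim
      | exact (tS.d3 e3).elim
      | exact (tS.d3 e3.symm).elim
      | exact (tS.d4 e4).elim
      | exact (tS.d4 e4.symm).elim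
      | exact (tS.d4 e3).elim
      | exact (tS.d4 e3.symm).elim
      | exact (tS.e1 e4).elim
      | exact (tS.e1 e4.symm).elim
      | exact (tS.e1 e3).elim
      | exact (tS.e1 e3.symm).elim
      | exact (tS.e2 e4).elim
      | exact (tS.e2 e4.symm).elim
      | exact (tS.e2 e3).elim
      | exact (tS.e2 e3.symm).elim
      | exact (nR'.c1 e3).elim
      | exact (nR'.c1 e4).elim
      | exact (nR'.c1 e3.symm).elim
      | exact (nR'.c1 e4.symm).elim
      | exact (nR'.d1 e3).elim
      | exact (nR'.d1 e4).elim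
      | exact (nR'.d1 e3.symm).elim
      | exact (nR'.d1 e4.symm).elim
      | exact (nR'.e1 e3).elim
      | exact (nR'.e1 e4).elim
      | exact (nR'.e1 e3.symm).elim
      | exact (nR'.e1 e4.symm).elim
      | exact (nR'.e2 e3).elim
      | exact (nR'.e2 e4).elim
      | exact (nR'.e2 e3.symm).elim
      | exact (nR'.e2 e4.symm).elim
      | exact (nR'.c3 hR e3).elim
      | exact (nR'.c3 hS e3).elim
      | exact (nR'.c3 hQ e3).elim
      | exact (nR'.c3 hQ e3).elim
      | exact (nR'.c4 hR e3).elim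
      | exact (nR'.c4 hS e3).elim
      | exact (nR'.c4 hQ e3).elim
      | exact (nR'.c4 hQ e3).elim
      | exact (nR'.d3 hR e3).elim
      | exact (nR'.d3 hS e3).elim
      | exact (nR'.d3 hQ e3).elim
      | exact (nR'.d3 hQ e3).elim
      | exact (nR'.d4 hR e3).elim
      | exact (nR'.d4 hS e3).elim
      | exact (nR'.d4 hQ e3).elim
      | exact (nR'.d4 hQ e3).elim
      | exact (nB'.c1 e3).elim
      | exact (nB'.c1 e4).elim
      | exact (nB'.c1 e3.symm).elim
      | exact (nB'.c1 e4.symm).elim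
      | exact (nB'.d1 e3).elim
      | exact (nB'.d1 e4).elim
      | exact (nB'.d1 e3.symm).elim
      | exact (nB'.d1 e4.symm).elim
      | exact (nB'.e1 e3).elim
      | exact (nB'.e1 e4).elim
      | exact (nB'.e1 e3.symm).elim
      | exact (nB'.e1 e4.symm).elim
      | exact (nB'.e2 e3).elim
      | exact (nB'.e2 e4).elim
      | exact (nB'.e2 e3.symm).elim
      | exact (nB'.e2 e4.symm).elim
      | exact (nB'.c3 hR e3).elim
      | exact (nB'.c3 hS e3).elim
      | exact (nB'.c3 hQ e3).elim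
      | exact (nB'.c3 hQ e3).elim
      | exact (nB'.c4 hR e3).elim
      | exact (nB'.c4 hS e3).elim
      | exact (nB'.c4 hQ e3).elim
      | exact (nB'.c4 hQ e3).elim
      | exact (nB'.d3 hR e3).elim
      | exact (nB'.d3 hS e3).elim
      | exact (nB'.d3 hQ e3).elim
      | exact (nB'.d3 hQ e3).elim
      | exact (nB'.d4 hR e3).elim
      | exact (nB'.d4 hS e3).elim
      | exact (nB'.d4 hQ e3).elim
      | exact (nB'.d4 hQ e3).elim
      | exact (nS'.c1 e3).elim
      | exact (nS'.c1 e4).elim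
      | exact (nS'.c1 e3.symm).elim
      | exact (nS'.c1 e4.symm).elim
      | exact (nS'.d1 e3).elim
      | exact (nS'.d1 e4).elim
      | exact (nS'.d1 e3.symm).elim
      | exact (nS'.d1 e4.symm).elim
      | exact (nS'.e1 e3).elim
      | exact (nS'.e1 e4).elim
      | exact (nS'.e1 e3.symm).elim
      | exact (nS'.e1 e4.symm).elim
      | exact (nS'.e2 e3).elim
      | exact (nS'.e2 e4).elim
      | exact (nS'.e2 e3.symm).elim
      | exact (nS'.e2 e4.symm).elim
      | exact (nS'.c3 hR e3).elim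
      | exact (nS'.c3 hS e3).elim
      | exact (nS'.c3 hQ e3).elim
      | exact (nS'.c3 hQ e3).elim
      | exact (nS'.c4 hR e3).elim
      | exact (nS'.c4 hS e3).elim
      | exact (nS'.c4 hQ e3).elim
      | exact (nS'.c4 hQ e3).elim
      | exact (nS'.d3 hR e3).elim
      | exact (nS'.d3 hS e3).elim
      | exact (nS'.d3 hQ e3).elim
      | exact (nS'.d3 hQ e3).elim
      | exact (nS'.d4 hR e3).elim
      | exact (nS'.d4 hS e3).elim
      | exact (nS'.d4 hQ e3).elim
      | exact (nS'.d4 hQ e3).elim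
      | (exfalso; simp [hR.symm, hS.symm, hR'.symm, hS'.symm, dB', (fun Y => (dB' Y).symm), lB, (fun Y => (lB Y).symm), lB', (fun Y => (lB' Y).symm), pc, snoc_iff, snoc_one, snoc_one', app_eq_nil, app, end2, end3, sn2, sn2', sn3, sn3', sn4, sn4', H1.app_nil, hR, hS, hR', hS', lR.a, lS.a, lR'.a, lS'.a, mR.a, mS.a, fR.a, fS.a, fR'.a, fS'.a, gR.a, gS.a, fun Y => (lR.a Y).symm, fun Y => (lS.a Y).symm, fun Y => (lR'.a Y).symm, fun Y => (lS'.a Y).symm, fun Y => (mR.a Y).symm, fun Y => (mS.a Y).symm, fun Y => (fR.a Y).symm, fun Y => (fS.a Y).symm, fun Y => (fR'.a Y).symm, fun Y => (fS'.a Y).symm, fun Y => (gR.a Y).symm, fun Y => (gS.a Y).symm, fun A Y => (lR.node A).a Y, fun A Y => (lS.node A).a Y, fun A C Y => ((lR.node A).node C).a Y, fun A C Y => ((lS.node A).node C).a Y, fun A C Y => (((lR.node A).node C).a Y).symm, fun A C Y => (((lS.node A).node C).a Y).symm] at e3; done)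
      | (exfalso; simp [hR.symm, hS.symm, hR'.symm, hS'.symm, dB', (fun Y => (dB' Y).symm), lB, (fun Y => (lB Y).symm), lB', (fun Y => (lB' Y).symm), pc, snoc_iff, snoc_one, snoc_one', app_eq_nil, app, end2, end3, sn2, sn2', sn3, sn3', sn4, sn4', H1.app_nil, hR, hS, hR', hS', lR.a, lS.a, lR'.a, lS'.a, mR.a, mS.a, fR.a, fS.a, fR'.a, fS'.a, gR.a, gS.a, fun Y => (lR.a Y).symm, fun Y => (lS.a Y).symm, fun Y => (lR'.a Y).symm, fun Y => (lS'.a Y).symm, fun Y => (mR.a Y).symm, fun Y => (mS.a Y).symm, fun Y => (fR.a Y).symm, fun Y => (fS.a Y).symm, fun Y => (fR'.a Y).symm, fun Y => (fS'.a Y).symm, fun Y => (gR.a Y).symm, fun Y => (gS.a Y).symm, fun A Y => (lR.node A).a Y, fun A Y => (lS.node A).a Y, fun A C Y => ((lR.node A).node C).a Y, fun A C Y => ((lS.node A).node C).a Y, fun A C Y => (((lR.node A).node C).a Y).symm, fun A C Y => (((lS.node A).node C).a Y).symm] at e4; done)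
      | (exfalso; have l4 := congrArg H1.len e4; simp only [H1.len_app, len_node, len_nil, pc, app] at l4; omega)
      | (exfalso; have l4 := congrArg H1.len e3; simp only [H1.len_app, len_node, len_nil, pc, app] at l4; omega)
      | (exfalso; subst e3; simp [hR.symm, hS.symm, hR'.symm, hS'.symm, dB', (fun Y => (dB' Y).symm), lB, (fun Y => (lB Y).symm), lB', (fun Y => (lB' Y).symm), pc, snoc_iff, snoc_one, snoc_one', app_eq_nil, app, end2, end3, sn2, sn2', sn3, sn3', sn4, sn4', H1.app_nil, hR, hS, hR', hS', lR.a, lS.a, lR'.a, lS'.a, mR.a, mS.a, fR.a, fS.a, fR'.a, fS'.a, gR.a, gS.a, fun Y => (lR.a Y).symm, fun Y => (lS.a Y).symm, fun Y => (lR'.a Y).symm, fun Y => (lS'.a Y).symm, fun Y => (mR.a Y).symm, fun Y => (mS.a Y).symm, fun Y => (fR.a Y).symm, fun Y => (fS.a Y).symm, fun Y => (fR'.a Y).symm, fun Y => (fS'.a Y).symm, fun Y => (gR.a Y).symm, fun Y => (gS.a Y).symm, fun A Y => (lR.node A).a Y, fun A Y => (lS.node A).a Y, fun A C Y => ((lR.node A).node C).a Y, fun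 A C Y => ((lS.node A).node C).a Y, fun A C Y => (((lR.node A).node C).a Y).symm, fun A C Y => (((lS.node A).node C).a Y).symm] at e4; done)
      | skip
  · exact absurd e4 ((gR.app _).a _)
  · exact absurd e4 ((fR.app _).a _)
  · have h5 := K3 (P := app B' ((.nil △ .nil) △ .nil)) (by rw [e3] at nS'; exact nS'.fr) (by rw [e4, H1.app_assoc]; rfl)
    subst h5
    exact absurd (H1.app_snoc e4).2 (by simp)
  · have h5 := K3 (P := app B' (.nil △ (.nil △ .nil))) (by rw [e3] at nS'; exact nS'.fr) (by rw [e4, H1.app_assoc]; rfl)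
    subst h5
    rw [end2] at e4
    exact absurd (H1.app_snoc e4).1 (fun e => tR.c1 e)
  · have h5 := K3 (P := (.nil △ S') △ .nil) (by rw [e3] at nB'; exact nB'.fr) e4
    subst h5
    exact absurd (snoc_one.1 e4).1 hR
  · exact absurd e4 ((fR.app _).a _)
  · exact absurd e4 ((fR.app _).a _)

theorem a0_m6 (h : SqD k R' B' S') (hR : R ≠ .nil) (hS : S ≠ .nil) (tR : T3 R) (tB : T3 B) (tS : T3 S)
    {j : ℕ} (hj : j < 20) (h9 : j ≠ 9) (q : ℕ)
    (e : H1.W R' .nil B' S' j = aw R (pc (q + 1)) B S 6) :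
    ∃ X, (X = R' ∨ (B' = .nil ∧ X = S')) ∧ PossA0 (q) R B S X := by
  have nR' : N1 R' := h.one
  have nB' : N1 B' := h.oneB
  have nS' : N1 S' := h.oneS
  have hR' := h.ne
  have hS' := h.neS
  have hQ : pc (q + 1) ≠ .nil := by simp [pc]
  have lR := L1.of tR.n1 hR
  have lS := L1.of tS.n1 hS
  have lR' := L1.of nR' hR'
  have lS' := L1.of nS' hS'
  have mR := L2.of tR hR
  have mS := L2.of tS hS
  have fR := F1.of tR.n1 hR
  have fS := F1.of tS.n1 hS
  have fR' := F1.of nR' hR'
  have fS' := F1.of nS' hS'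
  have gR := F2.of tR hR
  have gS := F2.of tS hS
  have dB' : ∀ Y, B' ≠ .nil △ Y := fun Y => nB'.d1
  have lB : ∀ Y, B ≠ app Y (.nil △ .nil) := fun Y => tB.n1.c1
  have lB' : ∀ Y, B' ≠ app Y (.nil △ .nil) := fun Y => nB'.c1
  have tT : T3 (app B (S △ .nil)) := tB.app (tS.one hS)
  have zR := H1.len_pos hR
  have zS := H1.len_pos hS
  have zR' := H1.len_pos hR'
  have zS' := H1.len_pos hS'
  have e' : H1.W R' .nil B' S' j = pc (q + 1) △ (R △ .nil) := e
  rcases h.fstA hj h9 (by simp [app_eq_nil, pc, hR, hS]) e' with ⟨hj', X', e3, e4⟩ | ⟨hj', X', e3, e4⟩ | ⟨hj', e3, e4⟩ | ⟨hj', e3, e4⟩ |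
    ⟨hj', e3, e4⟩ | ⟨hj', e3, e4⟩ | ⟨hj', hB', e3, e4⟩ | ⟨hj', X', e3, e4⟩ | ⟨hj', X', e3, e4⟩ | ⟨hj', e3, e4⟩ |
    ⟨hj', X', e3, e4⟩ | ⟨hj', e3, e4⟩ | ⟨hj', X', e3, e4⟩ | ⟨hj', e3, e4⟩ | ⟨hj', e3, e4⟩
  all_goals first
      | exact (hR e4).elim
      | exact (hR' e4.symm).elim
      | exact (hS e4).elim
      | exact (hR e4.symm).elim
      | exact (hS' e4.symm).elim
      | exact (hS e4.symm).elim
      | exact (tR.c1 e4).elim
      | exact (tR.c1 e4.symm).elim
      | exact (tR.c1 e3).elim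
      | exact (tR.c1 e3.symm).elim
      | exact (tR.c2 e4).elim
      | exact (tR.c2 e4.symm).elim
      | exact (tR.c2 e3).elim
      | exact (tR.c2 e3.symm).elim
      | exact (tR.c3 e4).elim
      | exact (tR.c3 e4.symm).elim
      | exact (tR.c3 e3).elim
      | exact (tR.c3 e3.symm).elim
      | exact (tR.c4 e4).elim
      | exact (tR.c4 e4.symm).elim
      | exact (tR.c4 e3).elim
      | exact (tR.c4 e3.symm).elim
      | exact (tR.d1 e4).elim
      | exact (tR.d1 e4.symm).elim
      | exact (tR.d1 e3).elim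
      | exact (tR.d1 e3.symm).elim
      | exact (tR.d2 e4).elim
      | exact (tR.d2 e4.symm).elim
      | exact (tR.d2 e3).elim
      | exact (tR.d2 e3.symm).elim
      | exact (tR.d3 e4).elim
      | exact (tR.d3 e4.symm).elim
      | exact (tR.d3 e3).elim
      | exact (tR.d3 e3.symm).elim
      | exact (tR.d4 e4).elim
      | exact (tR.d4 e4.symm).elim
      | exact (tR.d4 e3).elim
      | exact (tR.d4 e3.symm).elim
      | exact (tR.e1 e4).elim
      | exact (tR.e1 e4.symm).elim
      | exact (tR.e1 e3).elim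
      | exact (tR.e1 e3.symm).elim
      | exact (tR.e2 e4).elim
      | exact (tR.e2 e4.symm).elim
      | exact (tR.e2 e3).elim
      | exact (tR.e2 e3.symm).elim
      | exact (tB.c1 e4).elim
      | exact (tB.c1 e4.symm).elim
      | exact (tB.c1 e3).elim
      | exact (tB.c1 e3.symm).elim
      | exact (tB.c2 e4).elim
      | exact (tB.c2 e4.symm).elim
      | exact (tB.c2 e3).elim
      | exact (tB.c2 e3.symm).elim
      | exact (tB.c3 e4).elim
      | exact (tB.c3 e4.symm).elim
      | exact (tB.c3 e3).elim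
      | exact (tB.c3 e3.symm).elim
      | exact (tB.c4 e4).elim
      | exact (tB.c4 e4.symm).elim
      | exact (tB.c4 e3).elim
      | exact (tB.c4 e3.symm).elim
      | exact (tB.d1 e4).elim
      | exact (tB.d1 e4.symm).elim
      | exact (tB.d1 e3).elim
      | exact (tB.d1 e3.symm).elim
      | exact (tB.d2 e4).elim
      | exact (tB.d2 e4.symm).elim
      | exact (tB.d2 e3).elim
      | exact (tB.d2 e3.symm).elim
      | exact (tB.d3 e4).elim
      | exact (tB.d3 e4.symm).elim
      | exact (tB.d3 e3).elim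
      | exact (tB.d3 e3.symm).elim
      | exact (tB.d4 e4).elim
      | exact (tB.d4 e4.symm).elim
      | exact (tB.d4 e3).elim
      | exact (tB.d4 e3.symm).elim
      | exact (tB.e1 e4).elim
      | exact (tB.e1 e4.symm).elim
      | exact (tB.e1 e3).elim
      | exact (tB.e1 e3.symm).elim
      | exact (tB.e2 e4).elim
      | exact (tB.e2 e4.symm).elim
      | exact (tB.e2 e3).elim
      | exact (tB.e2 e3.symm).elim
      | exact (tS.c1 e4).elim
      | exact (tS.c1 e4.symm).elim
      | exact (tS.c1 e3).elim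
      | exact (tS.c1 e3.symm).elim
      | exact (tS.c2 e4).elim
      | exact (tS.c2 e4.symm).elim
      | exact (tS.c2 e3).elim
      | exact (tS.c2 e3.symm).elim
      | exact (tS.c3 e4).elim
      | exact (tS.c3 e4.symm).elim
      | exact (tS.c3 e3).elim
      | exact (tS.c3 e3.symm).elim
      | exact (tS.c4 e4).elim
      | exact (tS.c4 e4.symm).elim
      | exact (tS.c4 e3).elim
      | exact (tS.c4 e3.symm).elim
      | exact (tS.d1 e4).elim
      | exact (tS.d1 e4.symm).elim
      | exact (tS.d1 e3).elim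
      | exact (tS.d1 e3.symm).elim
      | exact (tS.d2 e4).elim
      | exact (tS.d2 e4.symm).elim
      | exact (tS.d2 e3).elim
      | exact (tS.d2 e3.symm).elim
      | exact (tS.d3 e4).elim
      | exact (tS.d3 e4.symm).elim
      | exact (tS.d3 e3).elim
      | exact (tS.d3 e3.symm).elim
      | exact (tS.d4 e4).elim
      | exact (tS.d4 e4.symm).elim
      | exact (tS.d4 e3).elim
      | exact (tS.d4 e3.symm).elim
      | exact (tS.e1 e4).elim
      | exact (tS.e1 e4.symm).elim
      | exact (tS.e1 e3).elim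
      | exact (tS.e1 e3.symm).elim
      | exact (tS.e2 e4).elim
      | exact (tS.e2 e4.symm).elim
      | exact (tS.e2 e3).elim
      | exact (tS.e2 e3.symm).elim
      | exact (nR'.c1 e3).elim
      | exact (nR'.c1 e4).elim
      | exact (nR'.c1 e3.symm).elim
      | exact (nR'.c1 e4.symm).elim
      | exact (nR'.d1 e3).elim
      | exact (nR'.d1 e4).elim
      | exact (nR'.d1 e3.symm).elim
      | exact (nR'.d1 e4.symm).elim
      | exact (nR'.e1 e3).elim
      | exact (nR'.e1 e4).elim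
      | exact (nR'.e1 e3.symm).elim
      | exact (nR'.e1 e4.symm).elim
      | exact (nR'.e2 e3).elim
      | exact (nR'.e2 e4).elim
      | exact (nR'.e2 e3.symm).elim
      | exact (nR'.e2 e4.symm).elim
      | exact (nR'.c3 hR e3).elim
      | exact (nR'.c3 hS e3).elim
      | exact (nR'.c3 hQ e3).elim
      | exact (nR'.c3 hQ e3).elim
      | exact (nR'.c4 hR e3).elim
      | exact (nR'.c4 hS e3).elim
      | exact (nR'.c4 hQ e3).elim
      | exact (nR'.c4 hQ e3).elim
      | exact (nR'.d3 hR e3).elim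
      | exact (nR'.d3 hS e3).elim
      | exact (nR'.d3 hQ e3).elim
      | exact (nR'.d3 hQ e3).elim
      | exact (nR'.d4 hR e3).elim
      | exact (nR'.d4 hS e3).elim
      | exact (nR'.d4 hQ e3).elim
      | exact (nR'.d4 hQ e3).elim
      | exact (nB'.c1 e3).elim
      | exact (nB'.c1 e4).elim
      | exact (nB'.c1 e3.symm).elim
      | exact (nB'.c1 e4.symm).elim
      | exact (nB'.d1 e3).elim
      | exact (nB'.d1 e4).elim
      | exact (nB'.d1 e3.symm).elim
      | exact (nB'.d1 e4.symm).elim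
      | exact (nB'.e1 e3).elim
      | exact (nB'.e1 e4).elim
      | exact (nB'.e1 e3.symm).elim
      | exact (nB'.e1 e4.symm).elim
      | exact (nB'.e2 e3).elim
      | exact (nB'.e2 e4).elim
      | exact (nB'.e2 e3.symm).elim
      | exact (nB'.e2 e4.symm).elim
      | exact (nB'.c3 hR e3).elim
      | exact (nB'.c3 hS e3).elim
      | exact (nB'.c3 hQ e3).elim
      | exact (nB'.c3 hQ e3).elim
      | exact (nB'.c4 hR e3).elim
      | exact (nB'.c4 hS e3).elim
      | exact (nB'.c4 hQ e3).elim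
      | exact (nB'.c4 hQ e3).elim
      | exact (nB'.d3 hR e3).elim
      | exact (nB'.d3 hS e3).elim
      | exact (nB'.d3 hQ e3).elim
      | exact (nB'.d3 hQ e3).elim
      | exact (nB'.d4 hR e3).elim
      | exact (nB'.d4 hS e3).elim
      | exact (nB'.d4 hQ e3).elim
      | exact (nB'.d4 hQ e3).elim
      | exact (nS'.c1 e3).elim
      | exact (nS'.c1 e4).elim
      | exact (nS'.c1 e3.symm).elim
      | exact (nS'.c1 e4.symm).elim
      | exact (nS'.d1 e3).elim
      | exact (nS'.d1 e4).elim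
      | exact (nS'.d1 e3.symm).elim
      | exact (nS'.d1 e4.symm).elim
      | exact (nS'.e1 e3).elim
      | exact (nS'.e1 e4).elim
      | exact (nS'.e1 e3.symm).elim
      | exact (nS'.e1 e4.symm).elim
      | exact (nS'.e2 e3).elim
      | exact (nS'.e2 e4).elim
      | exact (nS'.e2 e3.symm).elim
      | exact (nS'.e2 e4.symm).elim
      | exact (nS'.c3 hR e3).elim
      | exact (nS'.c3 hS e3).elim
      | exact (nS'.c3 hQ e3).elim
      | exact (nS'.c3 hQ e3).elim
      | exact (nS'.c4 hR e3).elim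
      | exact (nS'.c4 hS e3).elim
      | exact (nS'.c4 hQ e3).elim
      | exact (nS'.c4 hQ e3).elim
      | exact (nS'.d3 hR e3).elim
      | exact (nS'.d3 hS e3).elim
      | exact (nS'.d3 hQ e3).elim
      | exact (nS'.d3 hQ e3).elim
      | exact (nS'.d4 hR e3).elim
      | exact (nS'.d4 hS e3).elim
      | exact (nS'.d4 hQ e3).elim
      | exact (nS'.d4 hQ e3).elim
      | (exfalso; simp [hR.symm, hS.symm, hR'.symm, hS'.symm, dB', (fun Y => (dB' Y).symm), lB, (fun Y => (lB Y).symm), lB', (fun Y => (lB' Y).symm), pc, snoc_iff, snoc_one, snoc_one', app_eq_nil, app, end2, end3, sn2, sn2', sn3, sn3', sn4, sn4', H1.app_nil, hR, hS, hR', hS', lR.a, lS.a, lR'.a, lS'.a, mR.a, mS.a, fR.a, fS.a, fR'.a, fS'.a, gR.a, gS.a, fun Y => (lR.a Y).symm, fun Y => (lS.a Y).symm, fun Y => (lR'.a Y).symm, fun Y => (lS'.a Y).symm, fun Y => (mR.a Y).symm, fun Y => (mS.a Y).symm, fun Y => (fR.a Y).symm, fun Y => (fS.a Y).symm, fun Y => (fR'.a Y).symm, fun Y => (fS'.a Y).symm, fun Y => (gR.a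 Y).symm, fun Y => (gS.a Y).symm, fun A Y => (lR.node A).a Y, fun A Y => (lS.node A).a Y, fun A C Y => ((lR.node A).node C).a Y, fun A C Y => ((lS.node A).node C).a Y, fun A C Y => (((lR.node A).node C).a Y).symm, fun A C Y => (((lS.node A).node C).a Y).symm] at e3; done)
      | (exfalso; simp [hR.symm, hS.symm, hR'.symm, hS'.symm, dB', (fun Y => (dB' Y).symm), lB, (fun Y => (lB Y).symm), lB', (fun Y => (lB' Y).symm), pc, snoc_iff, snoc_one, snoc_one', app_eq_nil, app, end2, end3, sn2, sn2', sn3, sn3', sn4, sn4', H1.app_nil, hR, hS, hR', hS', lR.a, lS.a, lR'.a, lS'.a, mR.a, mS.a, fR.a, fS.a, fR'.a, fS'.a, gR.a, gS.a, fun Y => (lR.a Y).symm, fun Y => (lS.a Y).symm, fun Y => (lR'.a Y).symm, fun Y => (lS'.a Y).symm, fun Y => (mR.a Y).symm, fun Y => (mS.a Y).symm, fun Y => (fR.a Y).symm, fun Y => (fS.a Y).symm, fun Y => (fR'.a Y).symm, fun Y => (fS'.a Y).symm, fun Y => (gR.a Y).symm, fun Y => (gS.a Y).symm, fun A Y => (lR.node A).a Y, fun A Y => (lS.node A).a Y, fun A C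 Y => ((lR.node A).node C).a Y, fun A C Y => ((lS.node A).node C).a Y, fun A C Y => (((lR.node A).node C).a Y).symm, fun A C Y => (((lS.node A).node C).a Y).symm] at e4; done)
      | (exfalso; have l4 := congrArg H1.len e4; simp only [H1.len_app, len_node, len_nil, pc, app] at l4; omega)
      | (exfalso; have l4 := congrArg H1.len e3; simp only [H1.len_app, len_node, len_nil, pc, app] at l4; omega)
      | (exfalso; subst e3; simp [hR.symm, hS.symm, hR'.symm, hS'.symm, dB', (fun Y => (dB' Y).symm), lB, (fun Y => (lB Y).symm), lB', (fun Y => (lB' Y).symm), pc, snoc_iff, snoc_one, snoc_one', app_eq_nil, app, end2, end3, sn2, sn2', sn3, sn3', sn4, sn4', H1.app_nil, hR, hS, hR', hS', lR.a, lS.a, lR'.a, lS'.a, mR.a, mS.a, fR.a, fS.a, fR'.a, fS'.a, gR.a, gS.a, fun Y => (lR.a Y).symm, fun Y => (lS.a Y).symm, fun Y => (lR'.a Y).symm, fun Y => (lS'.a Y).symm, fun Y => (mR.a Y).symm, fun Y => (mS.a Y).symm, fun Y => (fR.a Y).symm, fun Y => (fS.a Y).symm, fun Y => (fR'.a Y).symm,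 fun Y => (fS'.a Y).symm, fun Y => (gR.a Y).symm, fun Y => (gS.a Y).symm, fun A Y => (lR.node A).a Y, fun A Y => (lS.node A).a Y, fun A C Y => ((lR.node A).node C).a Y, fun A C Y => ((lS.node A).node C).a Y, fun A C Y => (((lR.node A).node C).a Y).symm, fun A C Y => (((lS.node A).node C).a Y).symm] at e4; done)
      | skip
  · obtain rfl := pc_lf e3; exact ⟨_, Or.inl rfl, Or.inl ⟨rfl, Or.inl e4.symm⟩⟩
  · obtain rfl := pc_lf e3; exact ⟨_, Or.inr ⟨hB', rfl⟩, Or.inl ⟨rfl, Or.inl e4.symm⟩⟩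

theorem a0_m7 (h : SqD k R' B' S') (hR : R ≠ .nil) (hS : S ≠ .nil) (tR : T3 R) (tB : T3 B) (tS : T3 S)
    {j : ℕ} (hj : j < 20) (h9 : j ≠ 9) (q : ℕ)
    (e : H1.W R' .nil B' S' j = aw R (pc (q + 1)) B S 7) :
    ∃ X, (X = R' ∨ (B' = .nil ∧ X = S')) ∧ PossA0 (q) R B S X := by
  have nR' : N1 R' := h.one
  have nB' : N1 B' := h.oneB
  have nS' : N1 S' := h.oneS
  have hR' := h.ne
  have hS' := h.neS
  have hQ : pc (q + 1) ≠ .nil := by simp [pc]
  have lR := L1.of tR.n1 hR
  have lS := L1.of tS.n1 hS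
  have lR' := L1.of nR' hR'
  have lS' := L1.of nS' hS'
  have mR := L2.of tR hR
  have mS := L2.of tS hS
  have fR := F1.of tR.n1 hR
  have fS := F1.of tS.n1 hS
  have fR' := F1.of nR' hR'
  have fS' := F1.of nS' hS'
  have gR := F2.of tR hR
  have gS := F2.of tS hS
  have dB' : ∀ Y, B' ≠ .nil △ Y := fun Y => nB'.d1
  have lB : ∀ Y, B ≠ app Y (.nil △ .nil) := fun Y => tB.n1.c1
  have lB' : ∀ Y, B' ≠ app Y (.nil △ .nil) := fun Y => nB'.c1
  have tT : T3 (app B (S △ .nil)) := tB.app (tS.one hS)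
  have zR := H1.len_pos hR
  have zS := H1.len_pos hS
  have zR' := H1.len_pos hR'
  have zS' := H1.len_pos hS'
  have e' : H1.W R' .nil B' S' j = (app R (.nil △ .nil)) △ pc (q + 1) := e
  rcases h.fstA hj h9 (by simp [app_eq_nil, pc, hR, hS]) e' with ⟨hj', X', e3, e4⟩ | ⟨hj', X', e3, e4⟩ | ⟨hj', e3, e4⟩ | ⟨hj', e3, e4⟩ |
    ⟨hj', e3, e4⟩ | ⟨hj', e3, e4⟩ | ⟨hj', hB', e3, e4⟩ | ⟨hj', X', e3, e4⟩ | ⟨hj', X', e3, e4⟩ | ⟨hj', e3, e4⟩ |
    ⟨hj', X', e3, e4⟩ | ⟨hj', e3, e4⟩ | ⟨hj', X', e3, e4⟩ | ⟨hj', e3, e4⟩ | ⟨hj', e3, e4⟩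
  all_goals first
      | exact (hR e4).elim
      | exact (hR' e4.symm).elim
      | exact (hS e4).elim
      | exact (hR e4.symm).elim
      | exact (hS' e4.symm).elim
      | exact (hS e4.symm).elim
      | exact (tR.c1 e4).elim
      | exact (tR.c1 e4.symm).elim
      | exact (tR.c1 e3).elim
      | exact (tR.c1 e3.symm).elim
      | exact (tR.c2 e4).elim
      | exact (tR.c2 e4.symm).elim
      | exact (tR.c2 e3).elim
      | exact (tR.c2 e3.symm).elim
      | exact (tR.c3 e4).elim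
      | exact (tR.c3 e4.symm).elim
      | exact (tR.c3 e3).elim
      | exact (tR.c3 e3.symm).elim
      | exact (tR.c4 e4).elim
      | exact (tR.c4 e4.symm).elim
      | exact (tR.c4 e3).elim
      | exact (tR.c4 e3.symm).elim
      | exact (tR.d1 e4).elim
      | exact (tR.d1 e4.symm).elim
      | exact (tR.d1 e3).elim
      | exact (tR.d1 e3.symm).elim
      | exact (tR.d2 e4).elim
      | exact (tR.d2 e4.symm).elim
      | exact (tR.d2 e3).elim
      | exact (tR.d2 e3.symm).elim
      | exact (tR.d3 e4).elim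
      | exact (tR.d3 e4.symm).elim
      | exact (tR.d3 e3).elim
      | exact (tR.d3 e3.symm).elim
      | exact (tR.d4 e4).elim
      | exact (tR.d4 e4.symm).elim
      | exact (tR.d4 e3).elim
      | exact (tR.d4 e3.symm).elim
      | exact (tR.e1 e4).elim
      | exact (tR.e1 e4.symm).elim
      | exact (tR.e1 e3).elim
      | exact (tR.e1 e3.symm).elim
      | exact (tR.e2 e4).elim
      | exact (tR.e2 e4.symm).elim
      | exact (tR.e2 e3).elim
      | exact (tR.e2 e3.symm).elim
      | exact (tB.c1 e4).elim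
      | exact (tB.c1 e4.symm).elim
      | exact (tB.c1 e3).elim
      | exact (tB.c1 e3.symm).elim
      | exact (tB.c2 e4).elim
      | exact (tB.c2 e4.symm).elim
      | exact (tB.c2 e3).elim
      | exact (tB.c2 e3.symm).elim
      | exact (tB.c3 e4).elim
      | exact (tB.c3 e4.symm).elim
      | exact (tB.c3 e3).elim
      | exact (tB.c3 e3.symm).elim
      | exact (tB.c4 e4).elim
      | exact (tB.c4 e4.symm).elim
      | exact (tB.c4 e3).elim
      | exact (tB.c4 e3.symm).elim
      | exact (tB.d1 e4).elim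
      | exact (tB.d1 e4.symm).elim
      | exact (tB.d1 e3).elim
      | exact (tB.d1 e3.symm).elim
      | exact (tB.d2 e4).elim
      | exact (tB.d2 e4.symm).elim
      | exact (tB.d2 e3).elim
      | exact (tB.d2 e3.symm).elim
      | exact (tB.d3 e4).elim
      | exact (tB.d3 e4.symm).elim
      | exact (tB.d3 e3).elim
      | exact (tB.d3 e3.symm).elim
      | exact (tB.d4 e4).elim
      | exact (tB.d4 e4.symm).elim
      | exact (tB.d4 e3).elim
      | exact (tB.d4 e3.symm).elim
      | exact (tB.e1 e4).elim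
      | exact (tB.e1 e4.symm).elim
      | exact (tB.e1 e3).elim
      | exact (tB.e1 e3.symm).elim
      | exact (tB.e2 e4).elim
      | exact (tB.e2 e4.symm).elim
      | exact (tB.e2 e3).elim
      | exact (tB.e2 e3.symm).elim
      | exact (tS.c1 e4).elim
      | exact (tS.c1 e4.symm).elim
      | exact (tS.c1 e3).elim
      | exact (tS.c1 e3.symm).elim
      | exact (tS.c2 e4).elim
      | exact (tS.c2 e4.symm).elim
      | exact (tS.c2 e3).elim
      | exact (tS.c2 e3.symm).elim
      | exact (tS.c3 e4).elim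
      | exact (tS.c3 e4.symm).elim
      | exact (tS.c3 e3).elim
      | exact (tS.c3 e3.symm).elim
      | exact (tS.c4 e4).elim
      | exact (tS.c4 e4.symm).elim
      | exact (tS.c4 e3).elim
      | exact (tS.c4 e3.symm).elim
      | exact (tS.d1 e4).elim
      | exact (tS.d1 e4.symm).elim
      | exact (tS.d1 e3).elim
      | exact (tS.d1 e3.symm).elim
      | exact (tS.d2 e4).elim
      | exact (tS.d2 e4.symm).elim
      | exact (tS.d2 e3).elim
      | exact (tS.d2 e3.symm).elim
      | exact (tS.d3 e4).elim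
      | exact (tS.d3 e4.symm).elim
      | exact (tS.d3 e3).elim
      | exact (tS.d3 e3.symm).elim
      | exact (tS.d4 e4).elim
      | exact (tS.d4 e4.symm).elim
      | exact (tS.d4 e3).elim
      | exact (tS.d4 e3.symm).elim
      | exact (tS.e1 e4).elim
      | exact (tS.e1 e4.symm).elim
      | exact (tS.e1 e3).elim
      | exact (tS.e1 e3.symm).elim
      | exact (tS.e2 e4).elim
      | exact (tS.e2 e4.symm).elim
      | exact (tS.e2 e3).elim
      | exact (tS.e2 e3.symm).elim
      | exact (nR'.c1 e3).elim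
      | exact (nR'.c1 e4).elim
      | exact (nR'.c1 e3.symm).elim
      | exact (nR'.c1 e4.symm).elim
      | exact (nR'.d1 e3).elim
      | exact (nR'.d1 e4).elim
      | exact (nR'.d1 e3.symm).elim
      | exact (nR'.d1 e4.symm).elim
      | exact (nR'.e1 e3).elim
      | exact (nR'.e1 e4).elim
      | exact (nR'.e1 e3.symm).elim
      | exact (nR'.e1 e4.symm).elim
      | exact (nR'.e2 e3).elim
      | exact (nR'.e2 e4).elim
      | exact (nR'.e2 e3.symm).elim
      | exact (nR'.e2 e4.symm).elim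
      | exact (nR'.c3 hR e3).elim
      | exact (nR'.c3 hS e3).elim
      | exact (nR'.c3 hQ e3).elim
      | exact (nR'.c3 hQ e3).elim
      | exact (nR'.c4 hR e3).elim
      | exact (nR'.c4 hS e3).elim
      | exact (nR'.c4 hQ e3).elim
      | exact (nR'.c4 hQ e3).elim
      | exact (nR'.d3 hR e3).elim
      | exact (nR'.d3 hS e3).elim
      | exact (nR'.d3 hQ e3).elim
      | exact (nR'.d3 hQ e3).elim
      | exact (nR'.d4 hR e3).elim
      | exact (nR'.d4 hS e3).elim
      | exact (nR'.d4 hQ e3).elim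
      | exact (nR'.d4 hQ e3).elim
      | exact (nB'.c1 e3).elim
      | exact (nB'.c1 e4).elim
      | exact (nB'.c1 e3.symm).elim
      | exact (nB'.c1 e4.symm).elim
      | exact (nB'.d1 e3).elim
      | exact (nB'.d1 e4).elim
      | exact (nB'.d1 e3.symm).elim
      | exact (nB'.d1 e4.symm).elim
      | exact (nB'.e1 e3).elim
      | exact (nB'.e1 e4).elim
      | exact (nB'.e1 e3.symm).elim
      | exact (nB'.e1 e4.symm).elim
      | exact (nB'.e2 e3).elim
      | exact (nB'.e2 e4).elim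
      | exact (nB'.e2 e3.symm).elim
      | exact (nB'.e2 e4.symm).elim
      | exact (nB'.c3 hR e3).elim
      | exact (nB'.c3 hS e3).elim
      | exact (nB'.c3 hQ e3).elim
      | exact (nB'.c3 hQ e3).elim
      | exact (nB'.c4 hR e3).elim
      | exact (nB'.c4 hS e3).elim
      | exact (nB'.c4 hQ e3).elim
      | exact (nB'.c4 hQ e3).elim
      | exact (nB'.d3 hR e3).elim
      | exact (nB'.d3 hS e3).elim
      | exact (nB'.d3 hQ e3).elim
      | exact (nB'.d3 hQ e3).elim
      | exact (nB'.d4 hR e3).elim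
      | exact (nB'.d4 hS e3).elim
      | exact (nB'.d4 hQ e3).elim
      | exact (nB'.d4 hQ e3).elim
      | exact (nS'.c1 e3).elim
      | exact (nS'.c1 e4).elim
      | exact (nS'.c1 e3.symm).elim
      | exact (nS'.c1 e4.symm).elim
      | exact (nS'.d1 e3).elim
      | exact (nS'.d1 e4).elim
      | exact (nS'.d1 e3.symm).elim
      | exact (nS'.d1 e4.symm).elim
      | exact (nS'.e1 e3).elim
      | exact (nS'.e1 e4).elim
      | exact (nS'.e1 e3.symm).elim
      | exact (nS'.e1 e4.symm).elim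
      | exact (nS'.e2 e3).elim
      | exact (nS'.e2 e4).elim
      | exact (nS'.e2 e3.symm).elim
      | exact (nS'.e2 e4.symm).elim
      | exact (nS'.c3 hR e3).elim
      | exact (nS'.c3 hS e3).elim
      | exact (nS'.c3 hQ e3).elim
      | exact (nS'.c3 hQ e3).elim
      | exact (nS'.c4 hR e3).elim
      | exact (nS'.c4 hS e3).elim
      | exact (nS'.c4 hQ e3).elim
      | exact (nS'.c4 hQ e3).elim
      | exact (nS'.d3 hR e3).elim
      | exact (nS'.d3 hS e3).elim
      | exact (nS'.d3 hQ e3).elim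
      | exact (nS'.d3 hQ e3).elim
      | exact (nS'.d4 hR e3).elim
      | exact (nS'.d4 hS e3).elim
      | exact (nS'.d4 hQ e3).elim
      | exact (nS'.d4 hQ e3).elim
      | (exfalso; simp [hR.symm, hS.symm, hR'.symm, hS'.symm, dB', (fun Y => (dB' Y).symm), lB, (fun Y => (lB Y).symm), lB', (fun Y => (lB' Y).symm), pc, snoc_iff, snoc_one, snoc_one', app_eq_nil, app, end2, end3, sn2, sn2', sn3, sn3', sn4, sn4', H1.app_nil, hR, hS, hR', hS', lR.a, lS.a, lR'.a, lS'.a, mR.a, mS.a, fR.a, fS.a, fR'.a, fS'.a, gR.a, gS.a, fun Y => (lR.a Y).symm, fun Y => (lS.a Y).symm, fun Y => (lR'.a Y).symm, fun Y => (lS'.a Y).symm, fun Y => (mR.a Y).symm, fun Y => (mS.a Y).symm, fun Y => (fR.a Y).symm, fun Y => (fS.a Y).symm, fun Y => (fR'.a Y).symm, fun Y => (fS'.a Y).symm, fun Y => (gR.a Y).symm, fun Y => (gS.a Y).symm, fun A Y => (lR.node A).a Y, fun A Y => (lS.node A).a Y, fun A C Y => ((lR.node A).node C).a Y, fun A C Y => ((lS.node A).node C).a Y, fun A C Y => (((lR.node A).node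 C).a Y).symm, fun A C Y => (((lS.node A).node C).a Y).symm] at e3; done)
      | (exfalso; simp [hR.symm, hS.symm, hR'.symm, hS'.symm, dB', (fun Y => (dB' Y).symm), lB, (fun Y => (lB Y).symm), lB', (fun Y => (lB' Y).symm), pc, snoc_iff, snoc_one, snoc_one', app_eq_nil, app, end2, end3, sn2, sn2', sn3, sn3', sn4, sn4', H1.app_nil, hR, hS, hR', hS', lR.a, lS.a, lR'.a, lS'.a, mR.a, mS.a, fR.a, fS.a, fR'.a, fS'.a, gR.a, gS.a, fun Y => (lR.a Y).symm, fun Y => (lS.a Y).symm, fun Y => (lR'.a Y).symm, fun Y => (lS'.a Y).symm, fun Y => (mR.a Y).symm, fun Y => (mS.a Y).symm, fun Y => (fR.a Y).symm, fun Y => (fS.a Y).symm, fun Y => (fR'.a Y).symm, fun Y => (fS'.a Y).symm, fun Y => (gR.a Y).symm, fun Y => (gS.a Y).symm, fun A Y => (lR.node A).a Y, fun A Y => (lS.node A).a Y, fun A C Y => ((lR.node A).node C).a Y, fun A C Y => ((lS.node A).node C).a Y, fun A C Y => (((lR.node A).node C).a Y).symm, fun A C Y => (((lS.node A).node C).a Y).symm] at e4; done)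
      | (exfalso; have l4 := congrArg H1.len e4; simp only [H1.len_app, len_node, len_nil, pc, app] at l4; omega)
      | (exfalso; have l4 := congrArg H1.len e3; simp only [H1.len_app, len_node, len_nil, pc, app] at l4; omega)
      | (exfalso; subst e3; simp [hR.symm, hS.symm, hR'.symm, hS'.symm, dB', (fun Y => (dB' Y).symm), lB, (fun Y => (lB Y).symm), lB', (fun Y => (lB' Y).symm), pc, snoc_iff, snoc_one, snoc_one', app_eq_nil, app, end2, end3, sn2, sn2', sn3, sn3', sn4, sn4', H1.app_nil, hR, hS, hR', hS', lR.a, lS.a, lR'.a, lS'.a, mR.a, mS.a, fR.a, fS.a, fR'.a, fS'.a, gR.a, gS.a, fun Y => (lR.a Y).symm, fun Y => (lS.a Y).symm, fun Y => (lR'.a Y).symm, fun Y => (lS'.a Y).symm, fun Y => (mR.a Y).symm, fun Y => (mS.a Y).symm, fun Y => (fR.a Y).symm, fun Y => (fS.a Y).symm, fun Y => (fR'.a Y).symm, fun Y => (fS'.a Y).symm, fun Y => (gR.a Y).symm, fun Y => (gS.a Y).symm, fun A Y => (lR.node A).a Y, fun A Y => (lS.node A).a Y, fun A C Y => ((lR.node A).node C).a Y, fun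 A C Y => ((lS.node A).node C).a Y, fun A C Y => (((lR.node A).node C).a Y).symm, fun A C Y => (((lS.node A).node C).a Y).symm] at e4; done)
      | skip
  · exact absurd e3 ((fR.app _).a _)

theorem a0_m8 (h : SqD k R' B' S') (hR : R ≠ .nil) (hS : S ≠ .nil) (tR : T3 R) (tB : T3 B) (tS : T3 S)
    {j : ℕ} (hj : j < 20) (h9 : j ≠ 9) (q : ℕ)
    (e : H1.W R' .nil B' S' j = aw R (pc (q + 1)) B S 8) :
    ∃ X, (X = R' ∨ (B' = .nil ∧ X = S')) ∧ PossA0 (q) R B S X := by
  have nR' : N1 R' := h.one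
  have nB' : N1 B' := h.oneB
  have nS' : N1 S' := h.oneS
  have hR' := h.ne
  have hS' := h.neS
  have hQ : pc (q + 1) ≠ .nil := by simp [pc]
  have lR := L1.of tR.n1 hR
  have lS := L1.of tS.n1 hS
  have lR' := L1.of nR' hR'
  have lS' := L1.of nS' hS'
  have mR := L2.of tR hR
  have mS := L2.of tS hS
  have fR := F1.of tR.n1 hR
  have fS := F1.of tS.n1 hS
  have fR' := F1.of nR' hR'
  have fS' := F1.of nS' hS'
  have gR := F2.of tR hR
  have gS := F2.of tS hS
  have dB' : ∀ Y, B' ≠ .nil △ Y := fun Y => nB'.d1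
  have lB : ∀ Y, B ≠ app Y (.nil △ .nil) := fun Y => tB.n1.c1
  have lB' : ∀ Y, B' ≠ app Y (.nil △ .nil) := fun Y => nB'.c1
  have tT : T3 (app B (S △ .nil)) := tB.app (tS.one hS)
  have zR := H1.len_pos hR
  have zS := H1.len_pos hS
  have zR' := H1.len_pos hR'
  have zS' := H1.len_pos hS'
  have e' : H1.W R' .nil B' S' j = R △ (.nil △ pc (q + 1)) := e
  rcases h.fstA hj h9 (by simp [app_eq_nil, pc, hR, hS]) e' with ⟨hj', X', e3, e4⟩ | ⟨hj', X', e3, e4⟩ | ⟨hj', e3, e4⟩ | ⟨hj', e3, e4⟩ |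
    ⟨hj', e3, e4⟩ | ⟨hj', e3, e4⟩ | ⟨hj', hB', e3, e4⟩ | ⟨hj', X', e3, e4⟩ | ⟨hj', X', e3, e4⟩ | ⟨hj', e3, e4⟩ |
    ⟨hj', X', e3, e4⟩ | ⟨hj', e3, e4⟩ | ⟨hj', X', e3, e4⟩ | ⟨hj', e3, e4⟩ | ⟨hj', e3, e4⟩
  all_goals first
      | exact (hR e4).elim
      | exact (hR' e4.symm).elim
      | exact (hS e4).elim
      | exact (hR e4.symm).elim
      | exact (hS' e4.symm).elim
      | exact (hS e4.symm).elim
      | exact (tR.c1 e4).elim
      | exact (tR.c1 e4.symm).elim
      | exact (tR.c1 e3).elim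
      | exact (tR.c1 e3.symm).elim
      | exact (tR.c2 e4).elim
      | exact (tR.c2 e4.symm).elim
      | exact (tR.c2 e3).elim
      | exact (tR.c2 e3.symm).elim
      | exact (tR.c3 e4).elim
      | exact (tR.c3 e4.symm).elim
      | exact (tR.c3 e3).elim
      | exact (tR.c3 e3.symm).elim
      | exact (tR.c4 e4).elim
      | exact (tR.c4 e4.symm).elim
      | exact (tR.c4 e3).elim
      | exact (tR.c4 e3.symm).elim
      | exact (tR.d1 e4).elim
      | exact (tR.d1 e4.symm).elim
      | exact (tR.d1 e3).elim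
      | exact (tR.d1 e3.symm).elim
      | exact (tR.d2 e4).elim
      | exact (tR.d2 e4.symm).elim
      | exact (tR.d2 e3).elim
      | exact (tR.d2 e3.symm).elim
      | exact (tR.d3 e4).elim
      | exact (tR.d3 e4.symm).elim
      | exact (tR.d3 e3).elim
      | exact (tR.d3 e3.symm).elim
      | exact (tR.d4 e4).elim
      | exact (tR.d4 e4.symm).elim
      | exact (tR.d4 e3).elim
      | exact (tR.d4 e3.symm).elim
      | exact (tR.e1 e4).elim
      | exact (tR.e1 e4.symm).elim
      | exact (tR.e1 e3).elim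
      | exact (tR.e1 e3.symm).elim
      | exact (tR.e2 e4).elim
      | exact (tR.e2 e4.symm).elim
      | exact (tR.e2 e3).elim
      | exact (tR.e2 e3.symm).elim
      | exact (tB.c1 e4).elim
      | exact (tB.c1 e4.symm).elim
      | exact (tB.c1 e3).elim
      | exact (tB.c1 e3.symm).elim
      | exact (tB.c2 e4).elim
      | exact (tB.c2 e4.symm).elim
      | exact (tB.c2 e3).elim
      | exact (tB.c2 e3.symm).elim
      | exact (tB.c3 e4).elim
      | exact (tB.c3 e4.symm).elim
      | exact (tB.c3 e3).elim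
      | exact (tB.c3 e3.symm).elim
      | exact (tB.c4 e4).elim
      | exact (tB.c4 e4.symm).elim
      | exact (tB.c4 e3).elim
      | exact (tB.c4 e3.symm).elim
      | exact (tB.d1 e4).elim
      | exact (tB.d1 e4.symm).elim
      | exact (tB.d1 e3).elim
      | exact (tB.d1 e3.symm).elim
      | exact (tB.d2 e4).elim
      | exact (tB.d2 e4.symm).elim
      | exact (tB.d2 e3).elim
      | exact (tB.d2 e3.symm).elim
      | exact (tB.d3 e4).elim
      | exact (tB.d3 e4.symm).elim
      | exact (tB.d3 e3).elim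
      | exact (tB.d3 e3.symm).elim
      | exact (tB.d4 e4).elim
      | exact (tB.d4 e4.symm).elim
      | exact (tB.d4 e3).elim
      | exact (tB.d4 e3.symm).elim
      | exact (tB.e1 e4).elim
      | exact (tB.e1 e4.symm).elim
      | exact (tB.e1 e3).elim
      | exact (tB.e1 e3.symm).elim
      | exact (tB.e2 e4).elim
      | exact (tB.e2 e4.symm).elim
      | exact (tB.e2 e3).elim
      | exact (tB.e2 e3.symm).elim
      | exact (tS.c1 e4).elim
      | exact (tS.c1 e4.symm).elim
      | exact (tS.c1 e3).elim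
      | exact (tS.c1 e3.symm).elim
      | exact (tS.c2 e4).elim
      | exact (tS.c2 e4.symm).elim
      | exact (tS.c2 e3).elim
      | exact (tS.c2 e3.symm).elim
      | exact (tS.c3 e4).elim
      | exact (tS.c3 e4.symm).elim
      | exact (tS.c3 e3).elim
      | exact (tS.c3 e3.symm).elim
      | exact (tS.c4 e4).elim
      | exact (tS.c4 e4.symm).elim
      | exact (tS.c4 e3).elim
      | exact (tS.c4 e3.symm).elim
      | exact (tS.d1 e4).elim
      | exact (tS.d1 e4.symm).elim
      | exact (tS.d1 e3).elim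
      | exact (tS.d1 e3.symm).elim
      | exact (tS.d2 e4).elim
      | exact (tS.d2 e4.symm).elim
      | exact (tS.d2 e3).elim
      | exact (tS.d2 e3.symm).elim
      | exact (tS.d3 e4).elim
      | exact (tS.d3 e4.symm).elim
      | exact (tS.d3 e3).elim
      | exact (tS.d3 e3.symm).elim
      | exact (tS.d4 e4).elim
      | exact (tS.d4 e4.symm).elim
      | exact (tS.d4 e3).elim
      | exact (tS.d4 e3.symm).elim
      | exact (tS.e1 e4).elim
      | exact (tS.e1 e4.symm).elim
      | exact (tS.e1 e3).elim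
      | exact (tS.e1 e3.symm).elim
      | exact (tS.e2 e4).elim
      | exact (tS.e2 e4.symm).elim
      | exact (tS.e2 e3).elim
      | exact (tS.e2 e3.symm).elim
      | exact (nR'.c1 e3).elim
      | exact (nR'.c1 e4).elim
      | exact (nR'.c1 e3.symm).elim
      | exact (nR'.c1 e4.symm).elim
      | exact (nR'.d1 e3).elim
      | exact (nR'.d1 e4).elim
      | exact (nR'.d1 e3.symm).elim
      | exact (nR'.d1 e4.symm).elim
      | exact (nR'.e1 e3).elim
      | exact (nR'.e1 e4).elim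
      | exact (nR'.e1 e3.symm).elim
      | exact (nR'.e1 e4.symm).elim
      | exact (nR'.e2 e3).elim
      | exact (nR'.e2 e4).elim
      | exact (nR'.e2 e3.symm).elim
      | exact (nR'.e2 e4.symm).elim
      | exact (nR'.c3 hR e3).elim
      | exact (nR'.c3 hS e3).elim
      | exact (nR'.c3 hQ e3).elim
      | exact (nR'.c3 hQ e3).elim
      | exact (nR'.c4 hR e3).elim
      | exact (nR'.c4 hS e3).elim
      | exact (nR'.c4 hQ e3).elim
      | exact (nR'.c4 hQ e3).elim
      | exact (nR'.d3 hR e3).elim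
      | exact (nR'.d3 hS e3).elim
      | exact (nR'.d3 hQ e3).elim
      | exact (nR'.d3 hQ e3).elim
      | exact (nR'.d4 hR e3).elim
      | exact (nR'.d4 hS e3).elim
      | exact (nR'.d4 hQ e3).elim
      | exact (nR'.d4 hQ e3).elim
      | exact (nB'.c1 e3).elim
      | exact (nB'.c1 e4).elim
      | exact (nB'.c1 e3.symm).elim
      | exact (nB'.c1 e4.symm).elim
      | exact (nB'.d1 e3).elim
      | exact (nB'.d1 e4).elim
      | exact (nB'.d1 e3.symm).elim
      | exact (nB'.d1 e4.symm).elim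
      | exact (nB'.e1 e3).elim
      | exact (nB'.e1 e4).elim
      | exact (nB'.e1 e3.symm).elim
      | exact (nB'.e1 e4.symm).elim
      | exact (nB'.e2 e3).elim
      | exact (nB'.e2 e4).elim
      | exact (nB'.e2 e3.symm).elim
      | exact (nB'.e2 e4.symm).elim
      | exact (nB'.c3 hR e3).elim
      | exact (nB'.c3 hS e3).elim
      | exact (nB'.c3 hQ e3).elim
      | exact (nB'.c3 hQ e3).elim
      | exact (nB'.c4 hR e3).elim
      | exact (nB'.c4 hS e3).elim
      | exact (nB'.c4 hQ e3).elim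
      | exact (nB'.c4 hQ e3).elim
      | exact (nB'.d3 hR e3).elim
      | exact (nB'.d3 hS e3).elim
      | exact (nB'.d3 hQ e3).elim
      | exact (nB'.d3 hQ e3).elim
      | exact (nB'.d4 hR e3).elim
      | exact (nB'.d4 hS e3).elim
      | exact (nB'.d4 hQ e3).elim
      | exact (nB'.d4 hQ e3).elim
      | exact (nS'.c1 e3).elim
      | exact (nS'.c1 e4).elim
      | exact (nS'.c1 e3.symm).elim
      | exact (nS'.c1 e4.symm).elim
      | exact (nS'.d1 e3).elim
      | exact (nS'.d1 e4).elim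
      | exact (nS'.d1 e3.symm).elim
      | exact (nS'.d1 e4.symm).elim
      | exact (nS'.e1 e3).elim
      | exact (nS'.e1 e4).elim
      | exact (nS'.e1 e3.symm).elim
      | exact (nS'.e1 e4.symm).elim
      | exact (nS'.e2 e3).elim
      | exact (nS'.e2 e4).elim
      | exact (nS'.e2 e3.symm).elim
      | exact (nS'.e2 e4.symm).elim
      | exact (nS'.c3 hR e3).elim
      | exact (nS'.c3 hS e3).elim
      | exact (nS'.c3 hQ e3).elim
      | exact (nS'.c3 hQ e3).elim
      | exact (nS'.c4 hR e3).elim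
      | exact (nS'.c4 hS e3).elim
      | exact (nS'.c4 hQ e3).elim
      | exact (nS'.c4 hQ e3).elim
      | exact (nS'.d3 hR e3).elim
      | exact (nS'.d3 hS e3).elim
      | exact (nS'.d3 hQ e3).elim
      | exact (nS'.d3 hQ e3).elim
      | exact (nS'.d4 hR e3).elim
      | exact (nS'.d4 hS e3).elim
      | exact (nS'.d4 hQ e3).elim
      | exact (nS'.d4 hQ e3).elim
      | (exfalso; simp [hR.symm, hS.symm, hR'.symm, hS'.symm, dB', (fun Y => (dB' Y).symm), lB, (fun Y => (lB Y).symm), lB', (fun Y => (lB' Y).symm), pc, snoc_iff, snoc_one, snoc_one', app_eq_nil, app, end2, end3, sn2, sn2', sn3, sn3', sn4, sn4', H1.app_nil, hR, hS, hR', hS', lR.a, lS.a, lR'.a, lS'.a, mR.a, mS.a, fR.a, fS.a, fR'.a, fS'.a, gR.a, gS.a, fun Y => (lR.a Y).symm, fun Y => (lS.a Y).symm, fun Y => (lR'.a Y).symm, fun Y => (lS'.a Y).symm, fun Y => (mR.a Y).symm, fun Y => (mS.a Y).symm, fun Y => (fR.a Y).symm, fun Y => (fS.a Y).symm, fun Y => (fR'.a Y).symm, fun Y => (fS'.a Y).symm, fun Y => (gR.a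 Y).symm, fun Y => (gS.a Y).symm, fun A Y => (lR.node A).a Y, fun A Y => (lS.node A).a Y, fun A C Y => ((lR.node A).node C).a Y, fun A C Y => ((lS.node A).node C).a Y, fun A C Y => (((lR.node A).node C).a Y).symm, fun A C Y => (((lS.node A).node C).a Y).symm] at e3; done)
      | (exfalso; simp [hR.symm, hS.symm, hR'.symm, hS'.symm, dB', (fun Y => (dB' Y).symm), lB, (fun Y => (lB Y).symm), lB', (fun Y => (lB' Y).symm), pc, snoc_iff, snoc_one, snoc_one', app_eq_nil, app, end2, end3, sn2, sn2', sn3, sn3', sn4, sn4', H1.app_nil, hR, hS, hR', hS', lR.a, lS.a, lR'.a, lS'.a, mR.a, mS.a, fR.a, fS.a, fR'.a, fS'.a, gR.a, gS.a, fun Y => (lR.a Y).symm, fun Y => (lS.a Y).symm, fun Y => (lR'.a Y).symm, fun Y => (lS'.a Y).symm, fun Y => (mR.a Y).symm, fun Y => (mS.a Y).symm, fun Y => (fR.a Y).symm, fun Y => (fS.a Y).symm, fun Y => (fR'.a Y).symm, fun Y => (fS'.a Y).symm, fun Y => (gR.a Y).symm, fun Y => (gS.a Y).symm, fun A Y => (lR.node A).a Y, fun A Y => (lS.node A).a Y, fun A C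 Y => ((lR.node A).node C).a Y, fun A C Y => ((lS.node A).node C).a Y, fun A C Y => (((lR.node A).node C).a Y).symm, fun A C Y => (((lS.node A).node C).a Y).symm] at e4; done)
      | (exfalso; have l4 := congrArg H1.len e4; simp only [H1.len_app, len_node, len_nil, pc, app] at l4; omega)
      | (exfalso; have l4 := congrArg H1.len e3; simp only [H1.len_app, len_node, len_nil, pc, app] at l4; omega)
      | (exfalso; subst e3; simp [hR.symm, hS.symm, hR'.symm, hS'.symm, dB', (fun Y => (dB' Y).symm), lB, (fun Y => (lB Y).symm), lB', (fun Y => (lB' Y).symm), pc, snoc_iff, snoc_one, snoc_one', app_eq_nil, app, end2, end3, sn2, sn2', sn3, sn3', sn4, sn4', H1.app_nil, hR, hS, hR', hS', lR.a, lS.a, lR'.a, lS'.a, mR.a, mS.a, fR.a, fS.a, fR'.a, fS'.a, gR.a, gS.a, fun Y => (lR.a Y).symm, fun Y => (lS.a Y).symm, fun Y => (lR'.a Y).symm, fun Y => (lS'.a Y).symm, fun Y => (mR.a Y).symm, fun Y => (mS.a Y).symm, fun Y => (fR.a Y).symm, fun Y => (fS.a Y).symm, fun Y => (fR'.a Y).symm,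 fun Y => (fS'.a Y).symm, fun Y => (gR.a Y).symm, fun Y => (gS.a Y).symm, fun A Y => (lR.node A).a Y, fun A Y => (lS.node A).a Y, fun A C Y => ((lR.node A).node C).a Y, fun A C Y => ((lS.node A).node C).a Y, fun A C Y => (((lR.node A).node C).a Y).symm, fun A C Y => (((lS.node A).node C).a Y).symm] at e4; done)
      | skip
  · obtain ⟨h5, h6⟩ := K2 (by rw [e3] at nR'; exact nR'.tl) e4
    exact absurd (H1.node_inj h6).1 (by simp)
  · obtain ⟨h5, h6⟩ := K2 (by rw [e3] at nR'; exact nR'.tl) e4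
    obtain rfl := pc_lf (H1.node_inj h6).2.symm
    rw [h5] at e3
    exact ⟨_, Or.inl rfl, Or.inl ⟨rfl, Or.inl e3⟩⟩
  · obtain ⟨h5, h6⟩ := K2 (by rw [e3] at nB'; exact nB'.tl) e4
    exact absurd (H1.node_inj h6).1 (by simp)
  · obtain ⟨h5, h6⟩ := K2 (by rw [e3] at nS'; exact nS'.tl) e4
    exact absurd (H1.node_inj h6).1 (by simp [app_eq_nil])
  · obtain ⟨h5, h6⟩ := K2 (by rw [e3] at nS'; exact nS'.tl) e4
    obtain rfl := pc_lf (H1.node_inj h6).2.symm
    rw [h5] at e3
    exact ⟨_, Or.inr ⟨(H1.node_inj h6).1, rfl⟩, Or.inl ⟨rfl, Or.inl e3⟩⟩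

theorem a0_m9a (h : SqD k R' B' S') (hR : R ≠ .nil) (hS : S ≠ .nil) (tR : T3 R) (tB : T3 B) (tS : T3 S)
    {j : ℕ} (hj : j < 20) (h9 : j ≠ 9) (q : ℕ)
    (e : H1.W R' .nil B' S' j = aw R (pc (0 + 1)) B S 9) :
    ∃ X, (X = R' ∨ (B' = .nil ∧ X = S')) ∧ PossA0 (0) R B S X := by
  have nR' : N1 R' := h.one
  have nB' : N1 B' := h.oneB
  have nS' : N1 S' := h.oneS
  have hR' := h.ne
  have hS' := h.neS
  have hQ : pc (q + 1) ≠ .nil := by simp [pc]
  have lR := L1.of tR.n1 hR
  have lS := L1.of tS.n1 hS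
  have lR' := L1.of nR' hR'
  have lS' := L1.of nS' hS'
  have mR := L2.of tR hR
  have mS := L2.of tS hS
  have fR := F1.of tR.n1 hR
  have fS := F1.of tS.n1 hS
  have fR' := F1.of nR' hR'
  have fS' := F1.of nS' hS'
  have gR := F2.of tR hR
  have gS := F2.of tS hS
  have dB' : ∀ Y, B' ≠ .nil △ Y := fun Y => nB'.d1
  have lB : ∀ Y, B ≠ app Y (.nil △ .nil) := fun Y => tB.n1.c1
  have lB' : ∀ Y, B' ≠ app Y (.nil △ .nil) := fun Y => nB'.c1
  have tT : T3 (app B (S △ .nil)) := tB.app (tS.one hS)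
  have zR := H1.len_pos hR
  have zS := H1.len_pos hS
  have zR' := H1.len_pos hR'
  have zS' := H1.len_pos hS'
  have e' : H1.W R' .nil B' S' j = .nil △ ((R △ .nil) △ .nil) := e
  rcases h.fst hj h9 e' with ⟨hj', e4⟩ | ⟨hj', e4⟩ | ⟨hj', e4⟩ | ⟨hj', e4⟩ | ⟨hj', e4⟩ | ⟨hj', hB', e4⟩
  all_goals first
      | exact (hR e4).elim
      | exact (hR' e4.symm).elim
      | exact (hS e4).elim
      | exact (hR e4.symm).elim
      | exact (hS' e4.symm).elim
      | exact (hS e4.symm).elim
      | exact (tR.c1 e4).elim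
      | exact (tR.c1 e4.symm).elim
      | exact (tR.c1 e3).elim
      | exact (tR.c1 e3.symm).elim
      | exact (tR.c2 e4).elim
      | exact (tR.c2 e4.symm).elim
      | exact (tR.c2 e3).elim
      | exact (tR.c2 e3.symm).elim
      | exact (tR.c3 e4).elim
      | exact (tR.c3 e4.symm).elim
      | exact (tR.c3 e3).elim
      | exact (tR.c3 e3.symm).elim
      | exact (tR.c4 e4).elim
      | exact (tR.c4 e4.symm).elim
      | exact (tR.c4 e3).elim
      | exact (tR.c4 e3.symm).elim
      | exact (tR.d1 e4).elim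
      | exact (tR.d1 e4.symm).elim
      | exact (tR.d1 e3).elim
      | exact (tR.d1 e3.symm).elim
      | exact (tR.d2 e4).elim
      | exact (tR.d2 e4.symm).elim
      | exact (tR.d2 e3).elim
      | exact (tR.d2 e3.symm).elim
      | exact (tR.d3 e4).elim
      | exact (tR.d3 e4.symm).elim
      | exact (tR.d3 e3).elim
      | exact (tR.d3 e3.symm).elim
      | exact (tR.d4 e4).elim
      | exact (tR.d4 e4.symm).elim
      | exact (tR.d4 e3).elim
      | exact (tR.d4 e3.symm).elim
      | exact (tR.e1 e4).elim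
      | exact (tR.e1 e4.symm).elim
      | exact (tR.e1 e3).elim
      | exact (tR.e1 e3.symm).elim
      | exact (tR.e2 e4).elim
      | exact (tR.e2 e4.symm).elim
      | exact (tR.e2 e3).elim
      | exact (tR.e2 e3.symm).elim
      | exact (tB.c1 e4).elim
      | exact (tB.c1 e4.symm).elim
      | exact (tB.c1 e3).elim
      | exact (tB.c1 e3.symm).elim
      | exact (tB.c2 e4).elim
      | exact (tB.c2 e4.symm).elim
      | exact (tB.c2 e3).elim
      | exact (tB.c2 e3.symm).elim
      | exact (tB.c3 e4).elim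
      | exact (tB.c3 e4.symm).elim
      | exact (tB.c3 e3).elim
      | exact (tB.c3 e3.symm).elim
      | exact (tB.c4 e4).elim
      | exact (tB.c4 e4.symm).elim
      | exact (tB.c4 e3).elim
      | exact (tB.c4 e3.symm).elim
      | exact (tB.d1 e4).elim
      | exact (tB.d1 e4.symm).elim
      | exact (tB.d1 e3).elim
      | exact (tB.d1 e3.symm).elim
      | exact (tB.d2 e4).elim
      | exact (tB.d2 e4.symm).elim
      | exact (tB.d2 e3).elim
      | exact (tB.d2 e3.symm).elim
      | exact (tB.d3 e4).elim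
      | exact (tB.d3 e4.symm).elim
      | exact (tB.d3 e3).elim
      | exact (tB.d3 e3.symm).elim
      | exact (tB.d4 e4).elim
      | exact (tB.d4 e4.symm).elim
      | exact (tB.d4 e3).elim
      | exact (tB.d4 e3.symm).elim
      | exact (tB.e1 e4).elim
      | exact (tB.e1 e4.symm).elim
      | exact (tB.e1 e3).elim
      | exact (tB.e1 e3.symm).elim
      | exact (tB.e2 e4).elim
      | exact (tB.e2 e4.symm).elim
      | exact (tB.e2 e3).elim
      | exact (tB.e2 e3.symm).elim
      | exact (tS.c1 e4).elim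
      | exact (tS.c1 e4.symm).elim
      | exact (tS.c1 e3).elim
      | exact (tS.c1 e3.symm).elim
      | exact (tS.c2 e4).elim
      | exact (tS.c2 e4.symm).elim
      | exact (tS.c2 e3).elim
      | exact (tS.c2 e3.symm).elim
      | exact (tS.c3 e4).elim
      | exact (tS.c3 e4.symm).elim
      | exact (tS.c3 e3).elim
      | exact (tS.c3 e3.symm).elim
      | exact (tS.c4 e4).elim
      | exact (tS.c4 e4.symm).elim
      | exact (tS.c4 e3).elim
      | exact (tS.c4 e3.symm).elim
      | exact (tS.d1 e4).elim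
      | exact (tS.d1 e4.symm).elim
      | exact (tS.d1 e3).elim
      | exact (tS.d1 e3.symm).elim
      | exact (tS.d2 e4).elim
      | exact (tS.d2 e4.symm).elim
      | exact (tS.d2 e3).elim
      | exact (tS.d2 e3.symm).elim
      | exact (tS.d3 e4).elim
      | exact (tS.d3 e4.symm).elim
      | exact (tS.d3 e3).elim
      | exact (tS.d3 e3.symm).elim
      | exact (tS.d4 e4).elim
      | exact (tS.d4 e4.symm).elim
      | exact (tS.d4 e3).elim
      | exact (tS.d4 e3.symm).elim
      | exact (tS.e1 e4).elim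
      | exact (tS.e1 e4.symm).elim
      | exact (tS.e1 e3).elim
      | exact (tS.e1 e3.symm).elim
      | exact (tS.e2 e4).elim
      | exact (tS.e2 e4.symm).elim
      | exact (tS.e2 e3).elim
      | exact (tS.e2 e3.symm).elim
      | exact (nR'.c1 e3).elim
      | exact (nR'.c1 e4).elim
      | exact (nR'.c1 e3.symm).elim
      | exact (nR'.c1 e4.symm).elim
      | exact (nR'.d1 e3).elim
      | exact (nR'.d1 e4).elim
      | exact (nR'.d1 e3.symm).elim
      | exact (nR'.d1 e4.symm).elim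
      | exact (nR'.e1 e3).elim
      | exact (nR'.e1 e4).elim
      | exact (nR'.e1 e3.symm).elim
      | exact (nR'.e1 e4.symm).elim
      | exact (nR'.e2 e3).elim
      | exact (nR'.e2 e4).elim
      | exact (nR'.e2 e3.symm).elim
      | exact (nR'.e2 e4.symm).elim
      | exact (nR'.c3 hR e3).elim
      | exact (nR'.c3 hS e3).elim
      | exact (nR'.c3 hQ e3).elim
      | exact (nR'.c3 hQ e3).elim
      | exact (nR'.c4 hR e3).elim
      | exact (nR'.c4 hS e3).elim
      | exact (nR'.c4 hQ e3).elim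
      | exact (nR'.c4 hQ e3).elim
      | exact (nR'.d3 hR e3).elim
      | exact (nR'.d3 hS e3).elim
      | exact (nR'.d3 hQ e3).elim
      | exact (nR'.d3 hQ e3).elim
      | exact (nR'.d4 hR e3).elim
      | exact (nR'.d4 hS e3).elim
      | exact (nR'.d4 hQ e3).elim
      | exact (nR'.d4 hQ e3).elim
      | exact (nB'.c1 e3).elim
      | exact (nB'.c1 e4).elim
      | exact (nB'.c1 e3.symm).elim
      | exact (nB'.c1 e4.symm).elim
      | exact (nB'.d1 e3).elim
      | exact (nB'.d1 e4).elim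
      | exact (nB'.d1 e3.symm).elim
      | exact (nB'.d1 e4.symm).elim
      | exact (nB'.e1 e3).elim
      | exact (nB'.e1 e4).elim
      | exact (nB'.e1 e3.symm).elim
      | exact (nB'.e1 e4.symm).elim
      | exact (nB'.e2 e3).elim
      | exact (nB'.e2 e4).elim
      | exact (nB'.e2 e3.symm).elim
      | exact (nB'.e2 e4.symm).elim
      | exact (nB'.c3 hR e3).elim
      | exact (nB'.c3 hS e3).elim
      | exact (nB'.c3 hQ e3).elim
      | exact (nB'.c3 hQ e3).elim
      | exact (nB'.c4 hR e3).elim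
      | exact (nB'.c4 hS e3).elim
      | exact (nB'.c4 hQ e3).elim
      | exact (nB'.c4 hQ e3).elim
      | exact (nB'.d3 hR e3).elim
      | exact (nB'.d3 hS e3).elim
      | exact (nB'.d3 hQ e3).elim
      | exact (nB'.d3 hQ e3).elim
      | exact (nB'.d4 hR e3).elim
      | exact (nB'.d4 hS e3).elim
      | exact (nB'.d4 hQ e3).elim
      | exact (nB'.d4 hQ e3).elim
      | exact (nS'.c1 e3).elim
      | exact (nS'.c1 e4).elim
      | exact (nS'.c1 e3.symm).elim
      | exact (nS'.c1 e4.symm).elim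
      | exact (nS'.d1 e3).elim
      | exact (nS'.d1 e4).elim
      | exact (nS'.d1 e3.symm).elim
      | exact (nS'.d1 e4.symm).elim
      | exact (nS'.e1 e3).elim
      | exact (nS'.e1 e4).elim
      | exact (nS'.e1 e3.symm).elim
      | exact (nS'.e1 e4.symm).elim
      | exact (nS'.e2 e3).elim
      | exact (nS'.e2 e4).elim
      | exact (nS'.e2 e3.symm).elim
      | exact (nS'.e2 e4.symm).elim
      | exact (nS'.c3 hR e3).elim
      | exact (nS'.c3 hS e3).elim
      | exact (nS'.c3 hQ e3).elim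
      | exact (nS'.c3 hQ e3).elim
      | exact (nS'.c4 hR e3).elim
      | exact (nS'.c4 hS e3).elim
      | exact (nS'.c4 hQ e3).elim
      | exact (nS'.c4 hQ e3).elim
      | exact (nS'.d3 hR e3).elim
      | exact (nS'.d3 hS e3).elim
      | exact (nS'.d3 hQ e3).elim
      | exact (nS'.d3 hQ e3).elim
      | exact (nS'.d4 hR e3).elim
      | exact (nS'.d4 hS e3).elim
      | exact (nS'.d4 hQ e3).elim
      | exact (nS'.d4 hQ e3).elim
      | (exfalso; simp [hR.symm, hS.symm, hR'.symm, hS'.symm, dB', (fun Y => (dB' Y).symm), lB, (fun Y => (lB Y).symm), lB', (fun Y => (lB' Y).symm), pc, snoc_iff, snoc_one, snoc_one', app_eq_nil, app, end2, end3, sn2, sn2', sn3, sn3', sn4, sn4', H1.app_nil, hR, hS, hR', hS', lR.a, lS.a, lR'.a, lS'.a, mR.a, mS.a, fR.a, fS.a, fR'.a, fS'.a, gR.a, gS.a, fun Y => (lR.a Y).symm, fun Y => (lS.a Y).symm, fun Y => (lR'.a Y).symm, fun Y => (lS'.a Y).symm, fun Y => (mR.a Y).symm, fun Y => (mS.a Y).symm, fun Y => (fR.a Y).symm, fun Y => (fS.a Y).symm,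 fun Y => (fR'.a Y).symm, fun Y => (fS'.a Y).symm, fun Y => (gR.a Y).symm, fun Y => (gS.a Y).symm, fun A Y => (lR.node A).a Y, fun A Y => (lS.node A).a Y, fun A C Y => ((lR.node A).node C).a Y, fun A C Y => ((lS.node A).node C).a Y, fun A C Y => (((lR.node A).node C).a Y).symm, fun A C Y => (((lS.node A).node C).a Y).symm] at e3; done)
      | (exfalso; simp [hR.symm, hS.symm, hR'.symm, hS'.symm, dB', (fun Y => (dB' Y).symm), lB, (fun Y => (lB Y).symm), lB', (fun Y => (lB' Y).symm), pc, snoc_iff, snoc_one, snoc_one', app_eq_nil, app, end2, end3, sn2, sn2', sn3, sn3', sn4, sn4', H1.app_nil, hR, hS, hR', hS', lR.a, lS.a, lR'.a, lS'.a, mR.a, mS.a, fR.a, fS.a, fR'.a, fS'.a, gR.a, gS.a, fun Y => (lR.a Y).symm, fun Y => (lS.a Y).symm, fun Y => (lR'.a Y).symm, fun Y => (lS'.a Y).symm, fun Y => (mR.a Y).symm, fun Y => (mS.a Y).symm, fun Y => (fR.a Y).symm, fun Y => (fS.a Y).symm, fun Y => (fR'.a Y).symm, fun Y => (fS'.a Y).symm, fun Y => (gR.a Y).symm, fun Y => (gS.a Y).symm,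 fun A Y => (lR.node A).a Y, fun A Y => (lS.node A).a Y, fun A C Y => ((lR.node A).node C).a Y, fun A C Y => ((lS.node A).node C).a Y, fun A C Y => (((lR.node A).node C).a Y).symm, fun A C Y => (((lS.node A).node C).a Y).symm] at e4; done)
      | (exfalso; have l4 := congrArg H1.len e4; simp only [H1.len_app, len_node, len_nil, pc, app] at l4; omega)
      | (exfalso; have l4 := congrArg H1.len e3; simp only [H1.len_app, len_node, len_nil, pc, app] at l4; omega)
      | (exfalso; subst e3; simp [hR.symm, hS.symm, hR'.symm, hS'.symm, dB', (fun Y => (dB' Y).symm), lB, (fun Y => (lB Y).symm), lB', (fun Y => (lB' Y).symm), pc, snoc_iff, snoc_one, snoc_one', app_eq_nil, app, end2, end3, sn2, sn2', sn3, sn3', sn4, sn4', H1.app_nil, hR, hS, hR', hS', lR.a, lS.a, lR'.a, lS'.a, mR.a, mS.a, fR.a, fS.a, fR'.a, fS'.a, gR.a, gS.a, fun Y => (lR.a Y).symm, fun Y => (lS.a Y).symm, fun Y => (lR'.a Y).symm, fun Y => (lS'.a Y).symm, fun Y => (mR.a Y).symm, fun Y => (mS.a Y).symm, fun Y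 => (fR.a Y).symm, fun Y => (fS.a Y).symm, fun Y => (fR'.a Y).symm, fun Y => (fS'.a Y).symm, fun Y => (gR.a Y).symm, fun Y => (gS.a Y).symm, fun A Y => (lR.node A).a Y, fun A Y => (lS.node A).a Y, fun A C Y => ((lR.node A).node C).a Y, fun A C Y => ((lS.node A).node C).a Y, fun A C Y => (((lR.node A).node C).a Y).symm, fun A C Y => (((lS.node A).node C).a Y).symm] at e4; done)
      | skip
  · exact ⟨_, Or.inl rfl, Or.inl ⟨rfl, Or.inl (H1.node_inj e4).1.symm⟩⟩
  · exact ⟨_, Or.inr ⟨(H1.node_inj e4).2.symm, rfl⟩, Or.inl ⟨rfl, Or.inl (H1.node_inj e4).1.symm⟩⟩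

theorem a0_m9b (h : SqD k R' B' S') (hR : R ≠ .nil) (hS : S ≠ .nil) (tR : T3 R) (tB : T3 B) (tS : T3 S)
    {j : ℕ} (hj : j < 20) (h9 : j ≠ 9) (q : ℕ)
    (e : H1.W R' .nil B' S' j = aw R (pc ((q + 1) + 1)) B S 9) :
    ∃ X, (X = R' ∨ (B' = .nil ∧ X = S')) ∧ PossA0 ((q + 1)) R B S X := by
  have nR' : N1 R' := h.one
  have nB' : N1 B' := h.oneB
  have nS' : N1 S' := h.oneS
  have hR' := h.ne
  have hS' := h.neS
  have hQ : pc (q + 1) ≠ .nil := by simp [pc]
  have lR := L1.of tR.n1 hR
  have lS := L1.of tS.n1 hS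
  have lR' := L1.of nR' hR'
  have lS' := L1.of nS' hS'
  have mR := L2.of tR hR
  have mS := L2.of tS hS
  have fR := F1.of tR.n1 hR
  have fS := F1.of tS.n1 hS
  have fR' := F1.of nR' hR'
  have fS' := F1.of nS' hS'
  have gR := F2.of tR hR
  have gS := F2.of tS hS
  have dB' : ∀ Y, B' ≠ .nil △ Y := fun Y => nB'.d1
  have lB : ∀ Y, B ≠ app Y (.nil △ .nil) := fun Y => tB.n1.c1
  have lB' : ∀ Y, B' ≠ app Y (.nil △ .nil) := fun Y => nB'.c1
  have tT : T3 (app B (S △ .nil)) := tB.app (tS.one hS)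
  have zR := H1.len_pos hR
  have zS := H1.len_pos hS
  have zR' := H1.len_pos hR'
  have zS' := H1.len_pos hS'
  have e' : H1.W R' .nil B' S' j = pc (q + 1) △ ((R △ .nil) △ .nil) := e
  rcases h.fstA hj h9 (by simp [app_eq_nil, pc, hR, hS]) e' with ⟨hj', X', e3, e4⟩ | ⟨hj', X', e3, e4⟩ | ⟨hj', e3, e4⟩ | ⟨hj', e3, e4⟩ |
    ⟨hj', e3, e4⟩ | ⟨hj', e3, e4⟩ | ⟨hj', hB', e3, e4⟩ | ⟨hj', X', e3, e4⟩ | ⟨hj', X', e3, e4⟩ | ⟨hj', e3, e4⟩ |
    ⟨hj', X', e3, e4⟩ | ⟨hj', e3, e4⟩ | ⟨hj', X', e3, e4⟩ | ⟨hj', e3, e4⟩ | ⟨hj', e3, e4⟩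
  all_goals first
      | exact (hR e4).elim
      | exact (hR' e4.symm).elim
      | exact (hS e4).elim
      | exact (hR e4.symm).elim
      | exact (hS' e4.symm).elim
      | exact (hS e4.symm).elim
      | exact (tR.c1 e4).elim
      | exact (tR.c1 e4.symm).elim
      | exact (tR.c1 e3).elim
      | exact (tR.c1 e3.symm).elim
      | exact (tR.c2 e4).elim
      | exact (tR.c2 e4.symm).elim
      | exact (tR.c2 e3).elim
      | exact (tR.c2 e3.symm).elim
      | exact (tR.c3 e4).elim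
      | exact (tR.c3 e4.symm).elim
      | exact (tR.c3 e3).elim
      | exact (tR.c3 e3.symm).elim
      | exact (tR.c4 e4).elim
      | exact (tR.c4 e4.symm).elim
      | exact (tR.c4 e3).elim
      | exact (tR.c4 e3.symm).elim
      | exact (tR.d1 e4).elim
      | exact (tR.d1 e4.symm).elim
      | exact (tR.d1 e3).elim
      | exact (tR.d1 e3.symm).elim
      | exact (tR.d2 e4).elim
      | exact (tR.d2 e4.symm).elim
      | exact (tR.d2 e3).elim
      | exact (tR.d2 e3.symm).elim
      | exact (tR.d3 e4).elim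
      | exact (tR.d3 e4.symm).elim
      | exact (tR.d3 e3).elim
      | exact (tR.d3 e3.symm).elim
      | exact (tR.d4 e4).elim
      | exact (tR.d4 e4.symm).elim
      | exact (tR.d4 e3).elim
      | exact (tR.d4 e3.symm).elim
      | exact (tR.e1 e4).elim
      | exact (tR.e1 e4.symm).elim
      | exact (tR.e1 e3).elim
      | exact (tR.e1 e3.symm).elim
      | exact (tR.e2 e4).elim
      | exact (tR.e2 e4.symm).elim
      | exact (tR.e2 e3).elim
      | exact (tR.e2 e3.symm).elim
      | exact (tB.c1 e4).elim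
      | exact (tB.c1 e4.symm).elim
      | exact (tB.c1 e3).elim
      | exact (tB.c1 e3.symm).elim
      | exact (tB.c2 e4).elim
      | exact (tB.c2 e4.symm).elim
      | exact (tB.c2 e3).elim
      | exact (tB.c2 e3.symm).elim
      | exact (tB.c3 e4).elim
      | exact (tB.c3 e4.symm).elim
      | exact (tB.c3 e3).elim
      | exact (tB.c3 e3.symm).elim
      | exact (tB.c4 e4).elim
      | exact (tB.c4 e4.symm).elim
      | exact (tB.c4 e3).elim
      | exact (tB.c4 e3.symm).elim
      | exact (tB.d1 e4).elim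
      | exact (tB.d1 e4.symm).elim
      | exact (tB.d1 e3).elim
      | exact (tB.d1 e3.symm).elim
      | exact (tB.d2 e4).elim
      | exact (tB.d2 e4.symm).elim
      | exact (tB.d2 e3).elim
      | exact (tB.d2 e3.symm).elim
      | exact (tB.d3 e4).elim
      | exact (tB.d3 e4.symm).elim
      | exact (tB.d3 e3).elim
      | exact (tB.d3 e3.symm).elim
      | exact (tB.d4 e4).elim
      | exact (tB.d4 e4.symm).elim
      | exact (tB.d4 e3).elim
      | exact (tB.d4 e3.symm).elim
      | exact (tB.e1 e4).elim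
      | exact (tB.e1 e4.symm).elim
      | exact (tB.e1 e3).elim
      | exact (tB.e1 e3.symm).elim
      | exact (tB.e2 e4).elim
      | exact (tB.e2 e4.symm).elim
      | exact (tB.e2 e3).elim
      | exact (tB.e2 e3.symm).elim
      | exact (tS.c1 e4).elim
      | exact (tS.c1 e4.symm).elim
      | exact (tS.c1 e3).elim
      | exact (tS.c1 e3.symm).elim
      | exact (tS.c2 e4).elim
      | exact (tS.c2 e4.symm).elim
      | exact (tS.c2 e3).elim
      | exact (tS.c2 e3.symm).elim
      | exact (tS.c3 e4).elim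
      | exact (tS.c3 e4.symm).elim
      | exact (tS.c3 e3).elim
      | exact (tS.c3 e3.symm).elim
      | exact (tS.c4 e4).elim
      | exact (tS.c4 e4.symm).elim
      | exact (tS.c4 e3).elim
      | exact (tS.c4 e3.symm).elim
      | exact (tS.d1 e4).elim
      | exact (tS.d1 e4.symm).elim
      | exact (tS.d1 e3).elim
      | exact (tS.d1 e3.symm).elim
      | exact (tS.d2 e4).elim
      | exact (tS.d2 e4.symm).elim
      | exact (tS.d2 e3).elim
      | exact (tS.d2 e3.symm).elim
      | exact (tS.d3 e4).elim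
      | exact (tS.d3 e4.symm).elim
      | exact (tS.d3 e3).elim
      | exact (tS.d3 e3.symm).elim
      | exact (tS.d4 e4).elim
      | exact (tS.d4 e4.symm).elim
      | exact (tS.d4 e3).elim
      | exact (tS.d4 e3.symm).elim
      | exact (tS.e1 e4).elim
      | exact (tS.e1 e4.symm).elim
      | exact (tS.e1 e3).elim
      | exact (tS.e1 e3.symm).elim
      | exact (tS.e2 e4).elim
      | exact (tS.e2 e4.symm).elim
      | exact (tS.e2 e3).elim
      | exact (tS.e2 e3.symm).elim
      | exact (nR'.c1 e3).elim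
      | exact (nR'.c1 e4).elim
      | exact (nR'.c1 e3.symm).elim
      | exact (nR'.c1 e4.symm).elim
      | exact (nR'.d1 e3).elim
      | exact (nR'.d1 e4).elim
      | exact (nR'.d1 e3.symm).elim
      | exact (nR'.d1 e4.symm).elim
      | exact (nR'.e1 e3).elim
      | exact (nR'.e1 e4).elim
      | exact (nR'.e1 e3.symm).elim
      | exact (nR'.e1 e4.symm).elim
      | exact (nR'.e2 e3).elim
      | exact (nR'.e2 e4).elim
      | exact (nR'.e2 e3.symm).elim
      | exact (nR'.e2 e4.symm).elim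
      | exact (nR'.c3 hR e3).elim
      | exact (nR'.c3 hS e3).elim
      | exact (nR'.c3 hQ e3).elim
      | exact (nR'.c3 hQ e3).elim
      | exact (nR'.c4 hR e3).elim
      | exact (nR'.c4 hS e3).elim
      | exact (nR'.c4 hQ e3).elim
      | exact (nR'.c4 hQ e3).elim
      | exact (nR'.d3 hR e3).elim
      | exact (nR'.d3 hS e3).elim
      | exact (nR'.d3 hQ e3).elim
      | exact (nR'.d3 hQ e3).elim
      | exact (nR'.d4 hR e3).elim
      | exact (nR'.d4 hS e3).elim
      | exact (nR'.d4 hQ e3).elim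
      | exact (nR'.d4 hQ e3).elim
      | exact (nB'.c1 e3).elim
      | exact (nB'.c1 e4).elim
      | exact (nB'.c1 e3.symm).elim
      | exact (nB'.c1 e4.symm).elim
      | exact (nB'.d1 e3).elim
      | exact (nB'.d1 e4).elim
      | exact (nB'.d1 e3.symm).elim
      | exact (nB'.d1 e4.symm).elim
      | exact (nB'.e1 e3).elim
      | exact (nB'.e1 e4).elim
      | exact (nB'.e1 e3.symm).elim
      | exact (nB'.e1 e4.symm).elim
      | exact (nB'.e2 e3).elim
      | exact (nB'.e2 e4).elim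
      | exact (nB'.e2 e3.symm).elim
      | exact (nB'.e2 e4.symm).elim
      | exact (nB'.c3 hR e3).elim
      | exact (nB'.c3 hS e3).elim
      | exact (nB'.c3 hQ e3).elim
      | exact (nB'.c3 hQ e3).elim
      | exact (nB'.c4 hR e3).elim
      | exact (nB'.c4 hS e3).elim
      | exact (nB'.c4 hQ e3).elim
      | exact (nB'.c4 hQ e3).elim
      | exact (nB'.d3 hR e3).elim
      | exact (nB'.d3 hS e3).elim
      | exact (nB'.d3 hQ e3).elim
      | exact (nB'.d3 hQ e3).elim
      | exact (nB'.d4 hR e3).elim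
      | exact (nB'.d4 hS e3).elim
      | exact (nB'.d4 hQ e3).elim
      | exact (nB'.d4 hQ e3).elim
      | exact (nS'.c1 e3).elim
      | exact (nS'.c1 e4).elim
      | exact (nS'.c1 e3.symm).elim
      | exact (nS'.c1 e4.symm).elim
      | exact (nS'.d1 e3).elim
      | exact (nS'.d1 e4).elim
      | exact (nS'.d1 e3.symm).elim
      | exact (nS'.d1 e4.symm).elim
      | exact (nS'.e1 e3).elim
      | exact (nS'.e1 e4).elim
      | exact (nS'.e1 e3.symm).elim
      | exact (nS'.e1 e4.symm).elim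
      | exact (nS'.e2 e3).elim
      | exact (nS'.e2 e4).elim
      | exact (nS'.e2 e3.symm).elim
      | exact (nS'.e2 e4.symm).elim
      | exact (nS'.c3 hR e3).elim
      | exact (nS'.c3 hS e3).elim
      | exact (nS'.c3 hQ e3).elim
      | exact (nS'.c3 hQ e3).elim
      | exact (nS'.c4 hR e3).elim
      | exact (nS'.c4 hS e3).elim
      | exact (nS'.c4 hQ e3).elim
      | exact (nS'.c4 hQ e3).elim
      | exact (nS'.d3 hR e3).elim
      | exact (nS'.d3 hS e3).elim
      | exact (nS'.d3 hQ e3).elim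
      | exact (nS'.d3 hQ e3).elim
      | exact (nS'.d4 hR e3).elim
      | exact (nS'.d4 hS e3).elim
      | exact (nS'.d4 hQ e3).elim
      | exact (nS'.d4 hQ e3).elim
      | (exfalso; simp [hR.symm, hS.symm, hR'.symm, hS'.symm, dB', (fun Y => (dB' Y).symm), lB, (fun Y => (lB Y).symm), lB', (fun Y => (lB' Y).symm), pc, snoc_iff, snoc_one, snoc_one', app_eq_nil, app, end2, end3, sn2, sn2', sn3, sn3', sn4, sn4', H1.app_nil, hR, hS, hR', hS', lR.a, lS.a, lR'.a, lS'.a, mR.a, mS.a, fR.a, fS.a, fR'.a, fS'.a, gR.a, gS.a, fun Y => (lR.a Y).symm, fun Y => (lS.a Y).symm, fun Y => (lR'.a Y).symm, fun Y => (lS'.a Y).symm, fun Y => (mR.a Y).symm, fun Y => (mS.a Y).symm, fun Y => (fR.a Y).symm, fun Y => (fS.a Y).symm, fun Y => (fR'.a Y).symm, fun Y => (fS'.a Y).symm, fun Y => (gR.a Y).symm, fun Y => (gS.a Y).symm, fun A Y => (lR.node A).a Y, fun A Y => (lS.node A).a Y, fun A C Y => ((lR.node A).node C).a Y, fun A C Y => ((lS.node A).node C).a Y, fun A C Y => (((lR.node A).node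 C).a Y).symm, fun A C Y => (((lS.node A).node C).a Y).symm] at e3; done)
      | (exfalso; simp [hR.symm, hS.symm, hR'.symm, hS'.symm, dB', (fun Y => (dB' Y).symm), lB, (fun Y => (lB Y).symm), lB', (fun Y => (lB' Y).symm), pc, snoc_iff, snoc_one, snoc_one', app_eq_nil, app, end2, end3, sn2, sn2', sn3, sn3', sn4, sn4', H1.app_nil, hR, hS, hR', hS', lR.a, lS.a, lR'.a, lS'.a, mR.a, mS.a, fR.a, fS.a, fR'.a, fS'.a, gR.a, gS.a, fun Y => (lR.a Y).symm, fun Y => (lS.a Y).symm, fun Y => (lR'.a Y).symm, fun Y => (lS'.a Y).symm, fun Y => (mR.a Y).symm, fun Y => (mS.a Y).symm, fun Y => (fR.a Y).symm, fun Y => (fS.a Y).symm, fun Y => (fR'.a Y).symm, fun Y => (fS'.a Y).symm, fun Y => (gR.a Y).symm, fun Y => (gS.a Y).symm, fun A Y => (lR.node A).a Y, fun A Y => (lS.node A).a Y, fun A C Y => ((lR.node A).node C).a Y, fun A C Y => ((lS.node A).node C).a Y, fun A C Y => (((lR.node A).node C).a Y).symm, fun A C Y => (((lS.node A).node C).a Y).symm] at e4; done)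
      | (exfalso; have l4 := congrArg H1.len e4; simp only [H1.len_app, len_node, len_nil, pc, app] at l4; omega)
      | (exfalso; have l4 := congrArg H1.len e3; simp only [H1.len_app, len_node, len_nil, pc, app] at l4; omega)
      | (exfalso; subst e3; simp [hR.symm, hS.symm, hR'.symm, hS'.symm, dB', (fun Y => (dB' Y).symm), lB, (fun Y => (lB Y).symm), lB', (fun Y => (lB' Y).symm), pc, snoc_iff, snoc_one, snoc_one', app_eq_nil, app, end2, end3, sn2, sn2', sn3, sn3', sn4, sn4', H1.app_nil, hR, hS, hR', hS', lR.a, lS.a, lR'.a, lS'.a, mR.a, mS.a, fR.a, fS.a, fR'.a, fS'.a, gR.a, gS.a, fun Y => (lR.a Y).symm, fun Y => (lS.a Y).symm, fun Y => (lR'.a Y).symm, fun Y => (lS'.a Y).symm, fun Y => (mR.a Y).symm, fun Y => (mS.a Y).symm, fun Y => (fR.a Y).symm, fun Y => (fS.a Y).symm, fun Y => (fR'.a Y).symm, fun Y => (fS'.a Y).symm, fun Y => (gR.a Y).symm, fun Y => (gS.a Y).symm, fun A Y => (lR.node A).a Y, fun A Y => (lS.node A).a Y, fun A C Y => ((lR.node A).node C).a Y, fun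 A C Y => ((lS.node A).node C).a Y, fun A C Y => (((lR.node A).node C).a Y).symm, fun A C Y => (((lS.node A).node C).a Y).symm] at e4; done)
      | skip
  · obtain rfl := pc_lf e3; exact ⟨_, Or.inl rfl, Or.inr ⟨rfl, Or.inl e4.symm⟩⟩
  · obtain rfl := pc_lf e3; exact ⟨_, Or.inr ⟨hB', rfl⟩, Or.inr ⟨rfl, Or.inl e4.symm⟩⟩

theorem a0_m12a (h : SqD k R' B' S') (hR : R ≠ .nil) (hS : S ≠ .nil) (tR : T3 R) (tB : T3 B) (tS : T3 S)
    {j : ℕ} (hj : j < 20) (h9 : j ≠ 9) (q : ℕ)
    (e : H1.W R' .nil B' S' j = aw R (pc (0 + 1)) B S 12) :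
    ∃ X, (X = R' ∨ (B' = .nil ∧ X = S')) ∧ PossA0 (0) R B S X := by
  have nR' : N1 R' := h.one
  have nB' : N1 B' := h.oneB
  have nS' : N1 S' := h.oneS
  have hR' := h.ne
  have hS' := h.neS
  have hQ : pc (q + 1) ≠ .nil := by simp [pc]
  have lR := L1.of tR.n1 hR
  have lS := L1.of tS.n1 hS
  have lR' := L1.of nR' hR'
  have lS' := L1.of nS' hS'
  have mR := L2.of tR hR
  have mS := L2.of tS hS
  have fR := F1.of tR.n1 hR
  have fS := F1.of tS.n1 hS
  have fR' := F1.of nR' hR'
  have fS' := F1.of nS' hS'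
  have gR := F2.of tR hR
  have gS := F2.of tS hS
  have dB' : ∀ Y, B' ≠ .nil △ Y := fun Y => nB'.d1
  have lB : ∀ Y, B ≠ app Y (.nil △ .nil) := fun Y => tB.n1.c1
  have lB' : ∀ Y, B' ≠ app Y (.nil △ .nil) := fun Y => nB'.c1
  have tT : T3 (app B (S △ .nil)) := tB.app (tS.one hS)
  have zR := H1.len_pos hR
  have zS := H1.len_pos hS
  have zR' := H1.len_pos hR'
  have zS' := H1.len_pos hS'
  have e' : H1.W R' .nil B' S' j = .nil △ (.nil △ app B (S △ .nil)) := e
  rcases h.fst hj h9 e' with ⟨hj', e4⟩ | ⟨hj', e4⟩ | ⟨hj', e4⟩ | ⟨hj', e4⟩ | ⟨hj', e4⟩ | ⟨hj', hB', e4⟩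
  all_goals first
      | exact (hR e4).elim
      | exact (hR' e4.symm).elim
      | exact (hS e4).elim
      | exact (hR e4.symm).elim
      | exact (hS' e4.symm).elim
      | exact (hS e4.symm).elim
      | exact (tR.c1 e4).elim
      | exact (tR.c1 e4.symm).elim
      | exact (tR.c1 e3).elim
      | exact (tR.c1 e3.symm).elim
      | exact (tR.c2 e4).elim
      | exact (tR.c2 e4.symm).elim
      | exact (tR.c2 e3).elim
      | exact (tR.c2 e3.symm).elim
      | exact (tR.c3 e4).elim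
      | exact (tR.c3 e4.symm).elim
      | exact (tR.c3 e3).elim
      | exact (tR.c3 e3.symm).elim
      | exact (tR.c4 e4).elim
      | exact (tR.c4 e4.symm).elim
      | exact (tR.c4 e3).elim
      | exact (tR.c4 e3.symm).elim
      | exact (tR.d1 e4).elim
      | exact (tR.d1 e4.symm).elim
      | exact (tR.d1 e3).elim
      | exact (tR.d1 e3.symm).elim
      | exact (tR.d2 e4).elim
      | exact (tR.d2 e4.symm).elim
      | exact (tR.d2 e3).elim
      | exact (tR.d2 e3.symm).elim
      | exact (tR.d3 e4).elim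
      | exact (tR.d3 e4.symm).elim
      | exact (tR.d3 e3).elim
      | exact (tR.d3 e3.symm).elim
      | exact (tR.d4 e4).elim
      | exact (tR.d4 e4.symm).elim
      | exact (tR.d4 e3).elim
      | exact (tR.d4 e3.symm).elim
      | exact (tR.e1 e4).elim
      | exact (tR.e1 e4.symm).elim
      | exact (tR.e1 e3).elim
      | exact (tR.e1 e3.symm).elim
      | exact (tR.e2 e4).elim
      | exact (tR.e2 e4.symm).elim
      | exact (tR.e2 e3).elim
      | exact (tR.e2 e3.symm).elim
      | exact (tB.c1 e4).elim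
      | exact (tB.c1 e4.symm).elim
      | exact (tB.c1 e3).elim
      | exact (tB.c1 e3.symm).elim
      | exact (tB.c2 e4).elim
      | exact (tB.c2 e4.symm).elim
      | exact (tB.c2 e3).elim
      | exact (tB.c2 e3.symm).elim
      | exact (tB.c3 e4).elim
      | exact (tB.c3 e4.symm).elim
      | exact (tB.c3 e3).elim
      | exact (tB.c3 e3.symm).elim
      | exact (tB.c4 e4).elim
      | exact (tB.c4 e4.symm).elim
      | exact (tB.c4 e3).elim
      | exact (tB.c4 e3.symm).elim
      | exact (tB.d1 e4).elim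
      | exact (tB.d1 e4.symm).elim
      | exact (tB.d1 e3).elim
      | exact (tB.d1 e3.symm).elim
      | exact (tB.d2 e4).elim
      | exact (tB.d2 e4.symm).elim
      | exact (tB.d2 e3).elim
      | exact (tB.d2 e3.symm).elim
      | exact (tB.d3 e4).elim
      | exact (tB.d3 e4.symm).elim
      | exact (tB.d3 e3).elim
      | exact (tB.d3 e3.symm).elim
      | exact (tB.d4 e4).elim
      | exact (tB.d4 e4.symm).elim
      | exact (tB.d4 e3).elim
      | exact (tB.d4 e3.symm).elim
      | exact (tB.e1 e4).elim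
      | exact (tB.e1 e4.symm).elim
      | exact (tB.e1 e3).elim
      | exact (tB.e1 e3.symm).elim
      | exact (tB.e2 e4).elim
      | exact (tB.e2 e4.symm).elim
      | exact (tB.e2 e3).elim
      | exact (tB.e2 e3.symm).elim
      | exact (tS.c1 e4).elim
      | exact (tS.c1 e4.symm).elim
      | exact (tS.c1 e3).elim
      | exact (tS.c1 e3.symm).elim
      | exact (tS.c2 e4).elim
      | exact (tS.c2 e4.symm).elim
      | exact (tS.c2 e3).elim
      | exact (tS.c2 e3.symm).elim
      | exact (tS.c3 e4).elim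
      | exact (tS.c3 e4.symm).elim
      | exact (tS.c3 e3).elim
      | exact (tS.c3 e3.symm).elim
      | exact (tS.c4 e4).elim
      | exact (tS.c4 e4.symm).elim
      | exact (tS.c4 e3).elim
      | exact (tS.c4 e3.symm).elim
      | exact (tS.d1 e4).elim
      | exact (tS.d1 e4.symm).elim
      | exact (tS.d1 e3).elim
      | exact (tS.d1 e3.symm).elim
      | exact (tS.d2 e4).elim
      | exact (tS.d2 e4.symm).elim
      | exact (tS.d2 e3).elim
      | exact (tS.d2 e3.symm).elim
      | exact (tS.d3 e4).elim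
      | exact (tS.d3 e4.symm).elim
      | exact (tS.d3 e3).elim
      | exact (tS.d3 e3.symm).elim
      | exact (tS.d4 e4).elim
      | exact (tS.d4 e4.symm).elim
      | exact (tS.d4 e3).elim
      | exact (tS.d4 e3.symm).elim
      | exact (tS.e1 e4).elim
      | exact (tS.e1 e4.symm).elim
      | exact (tS.e1 e3).elim
      | exact (tS.e1 e3.symm).elim
      | exact (tS.e2 e4).elim
      | exact (tS.e2 e4.symm).elim
      | exact (tS.e2 e3).elim
      | exact (tS.e2 e3.symm).elim
      | exact (nR'.c1 e3).elim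
      | exact (nR'.c1 e4).elim
      | exact (nR'.c1 e3.symm).elim
      | exact (nR'.c1 e4.symm).elim
      | exact (nR'.d1 e3).elim
      | exact (nR'.d1 e4).elim
      | exact (nR'.d1 e3.symm).elim
      | exact (nR'.d1 e4.symm).elim
      | exact (nR'.e1 e3).elim
      | exact (nR'.e1 e4).elim
      | exact (nR'.e1 e3.symm).elim
      | exact (nR'.e1 e4.symm).elim
      | exact (nR'.e2 e3).elim
      | exact (nR'.e2 e4).elim
      | exact (nR'.e2 e3.symm).elim
      | exact (nR'.e2 e4.symm).elim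
      | exact (nR'.c3 hR e3).elim
      | exact (nR'.c3 hS e3).elim
      | exact (nR'.c3 hQ e3).elim
      | exact (nR'.c3 hQ e3).elim
      | exact (nR'.c4 hR e3).elim
      | exact (nR'.c4 hS e3).elim
      | exact (nR'.c4 hQ e3).elim
      | exact (nR'.c4 hQ e3).elim
      | exact (nR'.d3 hR e3).elim
      | exact (nR'.d3 hS e3).elim
      | exact (nR'.d3 hQ e3).elim
      | exact (nR'.d3 hQ e3).elim
      | exact (nR'.d4 hR e3).elim
      | exact (nR'.d4 hS e3).elim
      | exact (nR'.d4 hQ e3).elim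
      | exact (nR'.d4 hQ e3).elim
      | exact (nB'.c1 e3).elim
      | exact (nB'.c1 e4).elim
      | exact (nB'.c1 e3.symm).elim
      | exact (nB'.c1 e4.symm).elim
      | exact (nB'.d1 e3).elim
      | exact (nB'.d1 e4).elim
      | exact (nB'.d1 e3.symm).elim
      | exact (nB'.d1 e4.symm).elim
      | exact (nB'.e1 e3).elim
      | exact (nB'.e1 e4).elim
      | exact (nB'.e1 e3.symm).elim
      | exact (nB'.e1 e4.symm).elim
      | exact (nB'.e2 e3).elim
      | exact (nB'.e2 e4).elim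
      | exact (nB'.e2 e3.symm).elim
      | exact (nB'.e2 e4.symm).elim
      | exact (nB'.c3 hR e3).elim
      | exact (nB'.c3 hS e3).elim
      | exact (nB'.c3 hQ e3).elim
      | exact (nB'.c3 hQ e3).elim
      | exact (nB'.c4 hR e3).elim
      | exact (nB'.c4 hS e3).elim
      | exact (nB'.c4 hQ e3).elim
      | exact (nB'.c4 hQ e3).elim
      | exact (nB'.d3 hR e3).elim
      | exact (nB'.d3 hS e3).elim
      | exact (nB'.d3 hQ e3).elim
      | exact (nB'.d3 hQ e3).elim
      | exact (nB'.d4 hR e3).elim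
      | exact (nB'.d4 hS e3).elim
      | exact (nB'.d4 hQ e3).elim
      | exact (nB'.d4 hQ e3).elim
      | exact (nS'.c1 e3).elim
      | exact (nS'.c1 e4).elim
      | exact (nS'.c1 e3.symm).elim
      | exact (nS'.c1 e4.symm).elim
      | exact (nS'.d1 e3).elim
      | exact (nS'.d1 e4).elim
      | exact (nS'.d1 e3.symm).elim
      | exact (nS'.d1 e4.symm).elim
      | exact (nS'.e1 e3).elim
      | exact (nS'.e1 e4).elim
      | exact (nS'.e1 e3.symm).elim
      | exact (nS'.e1 e4.symm).elim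
      | exact (nS'.e2 e3).elim
      | exact (nS'.e2 e4).elim
      | exact (nS'.e2 e3.symm).elim
      | exact (nS'.e2 e4.symm).elim
      | exact (nS'.c3 hR e3).elim
      | exact (nS'.c3 hS e3).elim
      | exact (nS'.c3 hQ e3).elim
      | exact (nS'.c3 hQ e3).elim
      | exact (nS'.c4 hR e3).elim
      | exact (nS'.c4 hS e3).elim
      | exact (nS'.c4 hQ e3).elim
      | exact (nS'.c4 hQ e3).elim
      | exact (nS'.d3 hR e3).elim
      | exact (nS'.d3 hS e3).elim
      | exact (nS'.d3 hQ e3).elim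
      | exact (nS'.d3 hQ e3).elim
      | exact (nS'.d4 hR e3).elim
      | exact (nS'.d4 hS e3).elim
      | exact (nS'.d4 hQ e3).elim
      | exact (nS'.d4 hQ e3).elim
      | (exfalso; simp [hR.symm, hS.symm, hR'.symm, hS'.symm, dB', (fun Y => (dB' Y).symm), lB, (fun Y => (lB Y).symm), lB', (fun Y => (lB' Y).symm), pc, snoc_iff, snoc_one, snoc_one', app_eq_nil, app, end2, end3, sn2, sn2', sn3, sn3', sn4, sn4', H1.app_nil, hR, hS, hR', hS', lR.a, lS.a, lR'.a, lS'.a, mR.a, mS.a, fR.a, fS.a, fR'.a, fS'.a, gR.a, gS.a, fun Y => (lR.a Y).symm, fun Y => (lS.a Y).symm, fun Y => (lR'.a Y).symm, fun Y => (lS'.a Y).symm, fun Y => (mR.a Y).symm, fun Y => (mS.a Y).symm, fun Y => (fR.a Y).symm, fun Y => (fS.a Y).symm, fun Y => (fR'.a Y).symm, fun Y => (fS'.a Y).symm, fun Y => (gR.a Y).symm, fun Y => (gS.a Y).symm, fun A Y => (lR.node A).a Y, fun A Y => (lS.node A).a Y, fun A C Y => ((lR.node A).node C).a Y, fun A C Y => ((lS.node A).node C).a Y, fun A C Y => (((lR.node A).node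 C).a Y).symm, fun A C Y => (((lS.node A).node C).a Y).symm] at e3; done)
      | (exfalso; simp [hR.symm, hS.symm, hR'.symm, hS'.symm, dB', (fun Y => (dB' Y).symm), lB, (fun Y => (lB Y).symm), lB', (fun Y => (lB' Y).symm), pc, snoc_iff, snoc_one, snoc_one', app_eq_nil, app, end2, end3, sn2, sn2', sn3, sn3', sn4, sn4', H1.app_nil, hR, hS, hR', hS', lR.a, lS.a, lR'.a, lS'.a, mR.a, mS.a, fR.a, fS.a, fR'.a, fS'.a, gR.a, gS.a, fun Y => (lR.a Y).symm, fun Y => (lS.a Y).symm, fun Y => (lR'.a Y).symm, fun Y => (lS'.a Y).symm, fun Y => (mR.a Y).symm, fun Y => (mS.a Y).symm, fun Y => (fR.a Y).symm, fun Y => (fS.a Y).symm, fun Y => (fR'.a Y).symm, fun Y => (fS'.a Y).symm, fun Y => (gR.a Y).symm, fun Y => (gS.a Y).symm, fun A Y => (lR.node A).a Y, fun A Y => (lS.node A).a Y, fun A C Y => ((lR.node A).node C).a Y, fun A C Y => ((lS.node A).node C).a Y, fun A C Y => (((lR.node A).node C).a Y).symm, fun A C Y => (((lS.node A).node C).a Y).symm] at e4; done)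
      | (exfalso; have l4 := congrArg H1.len e4; simp only [H1.len_app, len_node, len_nil, pc, app] at l4; omega)
      | (exfalso; have l4 := congrArg H1.len e3; simp only [H1.len_app, len_node, len_nil, pc, app] at l4; omega)
      | (exfalso; subst e3; simp [hR.symm, hS.symm, hR'.symm, hS'.symm, dB', (fun Y => (dB' Y).symm), lB, (fun Y => (lB Y).symm), lB', (fun Y => (lB' Y).symm), pc, snoc_iff, snoc_one, snoc_one', app_eq_nil, app, end2, end3, sn2, sn2', sn3, sn3', sn4, sn4', H1.app_nil, hR, hS, hR', hS', lR.a, lS.a, lR'.a, lS'.a, mR.a, mS.a, fR.a, fS.a, fR'.a, fS'.a, gR.a, gS.a, fun Y => (lR.a Y).symm, fun Y => (lS.a Y).symm, fun Y => (lR'.a Y).symm, fun Y => (lS'.a Y).symm, fun Y => (mR.a Y).symm, fun Y => (mS.a Y).symm, fun Y => (fR.a Y).symm, fun Y => (fS.a Y).symm, fun Y => (fR'.a Y).symm, fun Y => (fS'.a Y).symm, fun Y => (gR.a Y).symm, fun Y => (gS.a Y).symm, fun A Y => (lR.node A).a Y, fun A Y => (lS.node A).a Y, fun A C Y => ((lR.node A).node C).a Y, fun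 A C Y => ((lS.node A).node C).a Y, fun A C Y => (((lR.node A).node C).a Y).symm, fun A C Y => (((lS.node A).node C).a Y).symm] at e4; done)
      | skip
  · exact ⟨_, Or.inl rfl, Or.inl ⟨rfl, Or.inr (Or.inl (H1.node_inj e4).2.symm)⟩⟩
  · exact ⟨_, Or.inr ⟨hB', rfl⟩, Or.inl ⟨rfl, Or.inr (Or.inl (H1.node_inj e4).2.symm)⟩⟩

theorem a0_m12b (h : SqD k R' B' S') (hR : R ≠ .nil) (hS : S ≠ .nil) (tR : T3 R) (tB : T3 B) (tS : T3 S)
    {j : ℕ} (hj : j < 20) (h9 : j ≠ 9) (q : ℕ)
    (e : H1.W R' .nil B' S' j = aw R (pc ((q + 1) + 1)) B S 12) :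
    ∃ X, (X = R' ∨ (B' = .nil ∧ X = S')) ∧ PossA0 ((q + 1)) R B S X := by
  have nR' : N1 R' := h.one
  have nB' : N1 B' := h.oneB
  have nS' : N1 S' := h.oneS
  have hR' := h.ne
  have hS' := h.neS
  have hQ : pc (q + 1) ≠ .nil := by simp [pc]
  have lR := L1.of tR.n1 hR
  have lS := L1.of tS.n1 hS
  have lR' := L1.of nR' hR'
  have lS' := L1.of nS' hS'
  have mR := L2.of tR hR
  have mS := L2.of tS hS
  have fR := F1.of tR.n1 hR
  have fS := F1.of tS.n1 hS
  have fR' := F1.of nR' hR'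
  have fS' := F1.of nS' hS'
  have gR := F2.of tR hR
  have gS := F2.of tS hS
  have dB' : ∀ Y, B' ≠ .nil △ Y := fun Y => nB'.d1
  have lB : ∀ Y, B ≠ app Y (.nil △ .nil) := fun Y => tB.n1.c1
  have lB' : ∀ Y, B' ≠ app Y (.nil △ .nil) := fun Y => nB'.c1
  have tT : T3 (app B (S △ .nil)) := tB.app (tS.one hS)
  have zR := H1.len_pos hR
  have zS := H1.len_pos hS
  have zR' := H1.len_pos hR'
  have zS' := H1.len_pos hS'
  have e' : H1.W R' .nil B' S' j = pc (q + 1) △ (.nil △ app B (S △ .nil)) := e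
  rcases h.fstA hj h9 (by simp [app_eq_nil, pc, hR, hS]) e' with ⟨hj', X', e3, e4⟩ | ⟨hj', X', e3, e4⟩ | ⟨hj', e3, e4⟩ | ⟨hj', e3, e4⟩ |
    ⟨hj', e3, e4⟩ | ⟨hj', e3, e4⟩ | ⟨hj', hB', e3, e4⟩ | ⟨hj', X', e3, e4⟩ | ⟨hj', X', e3, e4⟩ | ⟨hj', e3, e4⟩ |
    ⟨hj', X', e3, e4⟩ | ⟨hj', e3, e4⟩ | ⟨hj', X', e3, e4⟩ | ⟨hj', e3, e4⟩ | ⟨hj', e3, e4⟩
  all_goals first
      | exact (hR e4).elim
      | exact (hR' e4.symm).elim
      | exact (hS e4).elim
      | exact (hR e4.symm).elim
      | exact (hS' e4.symm).elim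
      | exact (hS e4.symm).elim
      | exact (tR.c1 e4).elim
      | exact (tR.c1 e4.symm).elim
      | exact (tR.c1 e3).elim
      | exact (tR.c1 e3.symm).elim
      | exact (tR.c2 e4).elim
      | exact (tR.c2 e4.symm).elim
      | exact (tR.c2 e3).elim
      | exact (tR.c2 e3.symm).elim
      | exact (tR.c3 e4).elim
      | exact (tR.c3 e4.symm).elim
      | exact (tR.c3 e3).elim
      | exact (tR.c3 e3.symm).elim
      | exact (tR.c4 e4).elim
      | exact (tR.c4 e4.symm).elim
      | exact (tR.c4 e3).elim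
      | exact (tR.c4 e3.symm).elim
      | exact (tR.d1 e4).elim
      | exact (tR.d1 e4.symm).elim
      | exact (tR.d1 e3).elim
      | exact (tR.d1 e3.symm).elim
      | exact (tR.d2 e4).elim
      | exact (tR.d2 e4.symm).elim
      | exact (tR.d2 e3).elim
      | exact (tR.d2 e3.symm).elim
      | exact (tR.d3 e4).elim
      | exact (tR.d3 e4.symm).elim
      | exact (tR.d3 e3).elim
      | exact (tR.d3 e3.symm).elim
      | exact (tR.d4 e4).elim
      | exact (tR.d4 e4.symm).elim
      | exact (tR.d4 e3).elim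
      | exact (tR.d4 e3.symm).elim
      | exact (tR.e1 e4).elim
      | exact (tR.e1 e4.symm).elim
      | exact (tR.e1 e3).elim
      | exact (tR.e1 e3.symm).elim
      | exact (tR.e2 e4).elim
      | exact (tR.e2 e4.symm).elim
      | exact (tR.e2 e3).elim
      | exact (tR.e2 e3.symm).elim
      | exact (tB.c1 e4).elim
      | exact (tB.c1 e4.symm).elim
      | exact (tB.c1 e3).elim
      | exact (tB.c1 e3.symm).elim
      | exact (tB.c2 e4).elim
      | exact (tB.c2 e4.symm).elim
      | exact (tB.c2 e3).elim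
      | exact (tB.c2 e3.symm).elim
      | exact (tB.c3 e4).elim
      | exact (tB.c3 e4.symm).elim
      | exact (tB.c3 e3).elim
      | exact (tB.c3 e3.symm).elim
      | exact (tB.c4 e4).elim
      | exact (tB.c4 e4.symm).elim
      | exact (tB.c4 e3).elim
      | exact (tB.c4 e3.symm).elim
      | exact (tB.d1 e4).elim
      | exact (tB.d1 e4.symm).elim
      | exact (tB.d1 e3).elim
      | exact (tB.d1 e3.symm).elim
      | exact (tB.d2 e4).elim
      | exact (tB.d2 e4.symm).elim
      | exact (tB.d2 e3).elim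
      | exact (tB.d2 e3.symm).elim
      | exact (tB.d3 e4).elim
      | exact (tB.d3 e4.symm).elim
      | exact (tB.d3 e3).elim
      | exact (tB.d3 e3.symm).elim
      | exact (tB.d4 e4).elim
      | exact (tB.d4 e4.symm).elim
      | exact (tB.d4 e3).elim
      | exact (tB.d4 e3.symm).elim
      | exact (tB.e1 e4).elim
      | exact (tB.e1 e4.symm).elim
      | exact (tB.e1 e3).elim
      | exact (tB.e1 e3.symm).elim
      | exact (tB.e2 e4).elim
      | exact (tB.e2 e4.symm).elim
      | exact (tB.e2 e3).elim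
      | exact (tB.e2 e3.symm).elim
      | exact (tS.c1 e4).elim
      | exact (tS.c1 e4.symm).elim
      | exact (tS.c1 e3).elim
      | exact (tS.c1 e3.symm).elim
      | exact (tS.c2 e4).elim
      | exact (tS.c2 e4.symm).elim
      | exact (tS.c2 e3).elim
      | exact (tS.c2 e3.symm).elim
      | exact (tS.c3 e4).elim
      | exact (tS.c3 e4.symm).elim
      | exact (tS.c3 e3).elim
      | exact (tS.c3 e3.symm).elim
      | exact (tS.c4 e4).elim
      | exact (tS.c4 e4.symm).elim
      | exact (tS.c4 e3).elim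
      | exact (tS.c4 e3.symm).elim
      | exact (tS.d1 e4).elim
      | exact (tS.d1 e4.symm).elim
      | exact (tS.d1 e3).elim
      | exact (tS.d1 e3.symm).elim
      | exact (tS.d2 e4).elim
      | exact (tS.d2 e4.symm).elim
      | exact (tS.d2 e3).elim
      | exact (tS.d2 e3.symm).elim
      | exact (tS.d3 e4).elim
      | exact (tS.d3 e4.symm).elim
      | exact (tS.d3 e3).elim
      | exact (tS.d3 e3.symm).elim
      | exact (tS.d4 e4).elim
      | exact (tS.d4 e4.symm).elim
      | exact (tS.d4 e3).elim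
      | exact (tS.d4 e3.symm).elim
      | exact (tS.e1 e4).elim
      | exact (tS.e1 e4.symm).elim
      | exact (tS.e1 e3).elim
      | exact (tS.e1 e3.symm).elim
      | exact (tS.e2 e4).elim
      | exact (tS.e2 e4.symm).elim
      | exact (tS.e2 e3).elim
      | exact (tS.e2 e3.symm).elim
      | exact (nR'.c1 e3).elim
      | exact (nR'.c1 e4).elim
      | exact (nR'.c1 e3.symm).elim
      | exact (nR'.c1 e4.symm).elim
      | exact (nR'.d1 e3).elim
      | exact (nR'.d1 e4).elim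
      | exact (nR'.d1 e3.symm).elim
      | exact (nR'.d1 e4.symm).elim
      | exact (nR'.e1 e3).elim
      | exact (nR'.e1 e4).elim
      | exact (nR'.e1 e3.symm).elim
      | exact (nR'.e1 e4.symm).elim
      | exact (nR'.e2 e3).elim
      | exact (nR'.e2 e4).elim
      | exact (nR'.e2 e3.symm).elim
      | exact (nR'.e2 e4.symm).elim
      | exact (nR'.c3 hR e3).elim
      | exact (nR'.c3 hS e3).elim
      | exact (nR'.c3 hQ e3).elim
      | exact (nR'.c3 hQ e3).elim
      | exact (nR'.c4 hR e3).elim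
      | exact (nR'.c4 hS e3).elim
      | exact (nR'.c4 hQ e3).elim
      | exact (nR'.c4 hQ e3).elim
      | exact (nR'.d3 hR e3).elim
      | exact (nR'.d3 hS e3).elim
      | exact (nR'.d3 hQ e3).elim
      | exact (nR'.d3 hQ e3).elim
      | exact (nR'.d4 hR e3).elim
      | exact (nR'.d4 hS e3).elim
      | exact (nR'.d4 hQ e3).elim
      | exact (nR'.d4 hQ e3).elim
      | exact (nB'.c1 e3).elim
      | exact (nB'.c1 e4).elim
      | exact (nB'.c1 e3.symm).elim
      | exact (nB'.c1 e4.symm).elim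
      | exact (nB'.d1 e3).elim
      | exact (nB'.d1 e4).elim
      | exact (nB'.d1 e3.symm).elim
      | exact (nB'.d1 e4.symm).elim
      | exact (nB'.e1 e3).elim
      | exact (nB'.e1 e4).elim
      | exact (nB'.e1 e3.symm).elim
      | exact (nB'.e1 e4.symm).elim
      | exact (nB'.e2 e3).elim
      | exact (nB'.e2 e4).elim
      | exact (nB'.e2 e3.symm).elim
      | exact (nB'.e2 e4.symm).elim
      | exact (nB'.c3 hR e3).elim
      | exact (nB'.c3 hS e3).elim
      | exact (nB'.c3 hQ e3).elim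
      | exact (nB'.c3 hQ e3).elim
      | exact (nB'.c4 hR e3).elim
      | exact (nB'.c4 hS e3).elim
      | exact (nB'.c4 hQ e3).elim
      | exact (nB'.c4 hQ e3).elim
      | exact (nB'.d3 hR e3).elim
      | exact (nB'.d3 hS e3).elim
      | exact (nB'.d3 hQ e3).elim
      | exact (nB'.d3 hQ e3).elim
      | exact (nB'.d4 hR e3).elim
      | exact (nB'.d4 hS e3).elim
      | exact (nB'.d4 hQ e3).elim
      | exact (nB'.d4 hQ e3).elim
      | exact (nS'.c1 e3).elim
      | exact (nS'.c1 e4).elim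
      | exact (nS'.c1 e3.symm).elim
      | exact (nS'.c1 e4.symm).elim
      | exact (nS'.d1 e3).elim
      | exact (nS'.d1 e4).elim
      | exact (nS'.d1 e3.symm).elim
      | exact (nS'.d1 e4.symm).elim
      | exact (nS'.e1 e3).elim
      | exact (nS'.e1 e4).elim
      | exact (nS'.e1 e3.symm).elim
      | exact (nS'.e1 e4.symm).elim
      | exact (nS'.e2 e3).elim
      | exact (nS'.e2 e4).elim
      | exact (nS'.e2 e3.symm).elim
      | exact (nS'.e2 e4.symm).elim
      | exact (nS'.c3 hR e3).elim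
      | exact (nS'.c3 hS e3).elim
      | exact (nS'.c3 hQ e3).elim
      | exact (nS'.c3 hQ e3).elim
      | exact (nS'.c4 hR e3).elim
      | exact (nS'.c4 hS e3).elim
      | exact (nS'.c4 hQ e3).elim
      | exact (nS'.c4 hQ e3).elim
      | exact (nS'.d3 hR e3).elim
      | exact (nS'.d3 hS e3).elim
      | exact (nS'.d3 hQ e3).elim
      | exact (nS'.d3 hQ e3).elim
      | exact (nS'.d4 hR e3).elim
      | exact (nS'.d4 hS e3).elim
      | exact (nS'.d4 hQ e3).elim
      | exact (nS'.d4 hQ e3).elim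
      | (exfalso; simp [hR.symm, hS.symm, hR'.symm, hS'.symm, dB', (fun Y => (dB' Y).symm), lB, (fun Y => (lB Y).symm), lB', (fun Y => (lB' Y).symm), pc, snoc_iff, snoc_one, snoc_one', app_eq_nil, app, end2, end3, sn2, sn2', sn3, sn3', sn4, sn4', H1.app_nil, hR, hS, hR', hS', lR.a, lS.a, lR'.a, lS'.a, mR.a, mS.a, fR.a, fS.a, fR'.a, fS'.a, gR.a, gS.a, fun Y => (lR.a Y).symm, fun Y => (lS.a Y).symm, fun Y => (lR'.a Y).symm, fun Y => (lS'.a Y).symm, fun Y => (mR.a Y).symm, fun Y => (mS.a Y).symm, fun Y => (fR.a Y).symm, fun Y => (fS.a Y).symm, fun Y => (fR'.a Y).symm, fun Y => (fS'.a Y).symm, fun Y => (gR.a Y).symm, fun Y => (gS.a Y).symm, fun A Y => (lR.node A).a Y, fun A Y => (lS.node A).a Y, fun A C Y => ((lR.node A).node C).a Y, fun A C Y => ((lS.node A).node C).a Y, fun A C Y => (((lR.node A).node C).a Y).symm, fun A C Y => (((lS.node A).node C).a Y).symm] at e3; done)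
      | (exfalso; simp [hR.symm, hS.symm, hR'.symm, hS'.symm, dB', (fun Y => (dB' Y).symm), lB, (fun Y => (lB Y).symm), lB', (fun Y => (lB' Y).symm), pc, snoc_iff, snoc_one, snoc_one', app_eq_nil, app, end2, end3, sn2, sn2', sn3, sn3', sn4, sn4', H1.app_nil, hR, hS, hR', hS', lR.a, lS.a, lR'.a, lS'.a, mR.a, mS.a, fR.a, fS.a, fR'.a, fS'.a, gR.a, gS.a, fun Y => (lR.a Y).symm, fun Y => (lS.a Y).symm, fun Y => (lR'.a Y).symm, fun Y => (lS'.a Y).symm, fun Y => (mR.a Y).symm, fun Y => (mS.a Y).symm, fun Y => (fR.a Y).symm, fun Y => (fS.a Y).symm, fun Y => (fR'.a Y).symm, fun Y => (fS'.a Y).symm, fun Y => (gR.a Y).symm, fun Y => (gS.a Y).symm, fun A Y => (lR.node A).a Y, fun A Y => (lS.node A).a Y, fun A C Y => ((lR.node A).node C).a Y, fun A C Y => ((lS.node A).node C).a Y, fun A C Y => (((lR.node A).node C).a Y).symm, fun A C Y => (((lS.node A).node C).a Y).symm] at e4; done)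
      | (exfalso; have l4 := congrArg H1.len e4; simp only [H1.len_app, len_node, len_nil, pc, app] at l4; omega)
      | (exfalso; have l4 := congrArg H1.len e3; simp only [H1.len_app, len_node, len_nil, pc, app] at l4; omega)
      | (exfalso; subst e3; simp [hR.symm, hS.symm, hR'.symm, hS'.symm, dB', (fun Y => (dB' Y).symm), lB, (fun Y => (lB Y).symm), lB', (fun Y => (lB' Y).symm), pc, snoc_iff, snoc_one, snoc_one', app_eq_nil, app, end2, end3, sn2, sn2', sn3, sn3', sn4, sn4', H1.app_nil, hR, hS, hR', hS', lR.a, lS.a, lR'.a, lS'.a, mR.a, mS.a, fR.a, fS.a, fR'.a, fS'.a, gR.a, gS.a, fun Y => (lR.a Y).symm, fun Y => (lS.a Y).symm, fun Y => (lR'.a Y).symm, fun Y => (lS'.a Y).symm, fun Y => (mR.a Y).symm, fun Y => (mS.a Y).symm, fun Y => (fR.a Y).symm, fun Y => (fS.a Y).symm, fun Y => (fR'.a Y).symm, fun Y => (fS'.a Y).symm, fun Y => (gR.a Y).symm, fun Y => (gS.a Y).symm, fun A Y => (lR.node A).a Y, fun A Y => (lS.node A).a Y, fun A C Y => ((lR.node A).node C).a Y, fun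 A C Y => ((lS.node A).node C).a Y, fun A C Y => (((lR.node A).node C).a Y).symm, fun A C Y => (((lS.node A).node C).a Y).symm] at e4; done)
      | skip
  · obtain ⟨h5, h6⟩ := K2 (by rw [e3] at nB'; exact nB'.tl) e4
    exact absurd (H1.node_inj h6).1 (by simp)
  · obtain ⟨h5, h6⟩ := K2 (by rw [e3] at nB'; exact nB'.tl) e4
    exact absurd (H1.node_inj h6).2.symm tT.d1

theorem a0_m13 (h : SqD k R' B' S') (hR : R ≠ .nil) (hS : S ≠ .nil) (tR : T3 R) (tB : T3 B) (tS : T3 S)
    {j : ℕ} (hj : j < 20) (h9 : j ≠ 9) (q : ℕ)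
    (e : H1.W R' .nil B' S' j = aw R (pc (q + 1)) B S 13) :
    ∃ X, (X = R' ∨ (B' = .nil ∧ X = S')) ∧ PossA0 (q) R B S X := by
  have nR' : N1 R' := h.one
  have nB' : N1 B' := h.oneB
  have nS' : N1 S' := h.oneS
  have hR' := h.ne
  have hS' := h.neS
  have hQ : pc (q + 1) ≠ .nil := by simp [pc]
  have lR := L1.of tR.n1 hR
  have lS := L1.of tS.n1 hS
  have lR' := L1.of nR' hR'
  have lS' := L1.of nS' hS'
  have mR := L2.of tR hR
  have mS := L2.of tS hS
  have fR := F1.of tR.n1 hR
  have fS := F1.of tS.n1 hS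
  have fR' := F1.of nR' hR'
  have fS' := F1.of nS' hS'
  have gR := F2.of tR hR
  have gS := F2.of tS hS
  have dB' : ∀ Y, B' ≠ .nil △ Y := fun Y => nB'.d1
  have lB : ∀ Y, B ≠ app Y (.nil △ .nil) := fun Y => tB.n1.c1
  have lB' : ∀ Y, B' ≠ app Y (.nil △ .nil) := fun Y => nB'.c1
  have tT : T3 (app B (S △ .nil)) := tB.app (tS.one hS)
  have zR := H1.len_pos hR
  have zS := H1.len_pos hS
  have zR' := H1.len_pos hR'
  have zS' := H1.len_pos hS'
  have e' : H1.W R' .nil B' S' j = (app (pc (q + 1)) (.nil △ B)) △ S := e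
  rcases h.fstA hj h9 (by simp [app_eq_nil, pc, hR, hS]) e' with ⟨hj', X', e3, e4⟩ | ⟨hj', X', e3, e4⟩ | ⟨hj', e3, e4⟩ | ⟨hj', e3, e4⟩ |
    ⟨hj', e3, e4⟩ | ⟨hj', e3, e4⟩ | ⟨hj', hB', e3, e4⟩ | ⟨hj', X', e3, e4⟩ | ⟨hj', X', e3, e4⟩ | ⟨hj', e3, e4⟩ |
    ⟨hj', X', e3, e4⟩ | ⟨hj', e3, e4⟩ | ⟨hj', X', e3, e4⟩ | ⟨hj', e3, e4⟩ | ⟨hj', e3, e4⟩
  all_goals first
      | exact (hR e4).elim
      | exact (hR' e4.symm).elim
      | exact (hS e4).elim
      | exact (hR e4.symm).elim
      | exact (hS' e4.symm).elim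
      | exact (hS e4.symm).elim
      | exact (tR.c1 e4).elim
      | exact (tR.c1 e4.symm).elim
      | exact (tR.c1 e3).elim
      | exact (tR.c1 e3.symm).elim
      | exact (tR.c2 e4).elim
      | exact (tR.c2 e4.symm).elim
      | exact (tR.c2 e3).elim
      | exact (tR.c2 e3.symm).elim
      | exact (tR.c3 e4).elim
      | exact (tR.c3 e4.symm).elim
      | exact (tR.c3 e3).elim
      | exact (tR.c3 e3.symm).elim
      | exact (tR.c4 e4).elim
      | exact (tR.c4 e4.symm).elim
      | exact (tR.c4 e3).elim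
      | exact (tR.c4 e3.symm).elim
      | exact (tR.d1 e4).elim
      | exact (tR.d1 e4.symm).elim
      | exact (tR.d1 e3).elim
      | exact (tR.d1 e3.symm).elim
      | exact (tR.d2 e4).elim
      | exact (tR.d2 e4.symm).elim
      | exact (tR.d2 e3).elim
      | exact (tR.d2 e3.symm).elim
      | exact (tR.d3 e4).elim
      | exact (tR.d3 e4.symm).elim
      | exact (tR.d3 e3).elim
      | exact (tR.d3 e3.symm).elim
      | exact (tR.d4 e4).elim
      | exact (tR.d4 e4.symm).elim
      | exact (tR.d4 e3).elim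
      | exact (tR.d4 e3.symm).elim
      | exact (tR.e1 e4).elim
      | exact (tR.e1 e4.symm).elim
      | exact (tR.e1 e3).elim
      | exact (tR.e1 e3.symm).elim
      | exact (tR.e2 e4).elim
      | exact (tR.e2 e4.symm).elim
      | exact (tR.e2 e3).elim
      | exact (tR.e2 e3.symm).elim
      | exact (tB.c1 e4).elim
      | exact (tB.c1 e4.symm).elim
      | exact (tB.c1 e3).elim
      | exact (tB.c1 e3.symm).elim
      | exact (tB.c2 e4).elim
      | exact (tB.c2 e4.symm).elim
      | exact (tB.c2 e3).elim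
      | exact (tB.c2 e3.symm).elim
      | exact (tB.c3 e4).elim
      | exact (tB.c3 e4.symm).elim
      | exact (tB.c3 e3).elim
      | exact (tB.c3 e3.symm).elim
      | exact (tB.c4 e4).elim
      | exact (tB.c4 e4.symm).elim
      | exact (tB.c4 e3).elim
      | exact (tB.c4 e3.symm).elim
      | exact (tB.d1 e4).elim
      | exact (tB.d1 e4.symm).elim
      | exact (tB.d1 e3).elim
      | exact (tB.d1 e3.symm).elim
      | exact (tB.d2 e4).elim
      | exact (tB.d2 e4.symm).elim
      | exact (tB.d2 e3).elim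
      | exact (tB.d2 e3.symm).elim
      | exact (tB.d3 e4).elim
      | exact (tB.d3 e4.symm).elim
      | exact (tB.d3 e3).elim
      | exact (tB.d3 e3.symm).elim
      | exact (tB.d4 e4).elim
      | exact (tB.d4 e4.symm).elim
      | exact (tB.d4 e3).elim
      | exact (tB.d4 e3.symm).elim
      | exact (tB.e1 e4).elim
      | exact (tB.e1 e4.symm).elim
      | exact (tB.e1 e3).elim
      | exact (tB.e1 e3.symm).elim
      | exact (tB.e2 e4).elim
      | exact (tB.e2 e4.symm).elim
      | exact (tB.e2 e3).elim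
      | exact (tB.e2 e3.symm).elim
      | exact (tS.c1 e4).elim
      | exact (tS.c1 e4.symm).elim
      | exact (tS.c1 e3).elim
      | exact (tS.c1 e3.symm).elim
      | exact (tS.c2 e4).elim
      | exact (tS.c2 e4.symm).elim
      | exact (tS.c2 e3).elim
      | exact (tS.c2 e3.symm).elim
      | exact (tS.c3 e4).elim
      | exact (tS.c3 e4.symm).elim
      | exact (tS.c3 e3).elim
      | exact (tS.c3 e3.symm).elim
      | exact (tS.c4 e4).elim
      | exact (tS.c4 e4.symm).elim
      | exact (tS.c4 e3).elim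
      | exact (tS.c4 e3.symm).elim
      | exact (tS.d1 e4).elim
      | exact (tS.d1 e4.symm).elim
      | exact (tS.d1 e3).elim
      | exact (tS.d1 e3.symm).elim
      | exact (tS.d2 e4).elim
      | exact (tS.d2 e4.symm).elim
      | exact (tS.d2 e3).elim
      | exact (tS.d2 e3.symm).elim
      | exact (tS.d3 e4).elim
      | exact (tS.d3 e4.symm).elim
      | exact (tS.d3 e3).elim
      | exact (tS.d3 e3.symm).elim
      | exact (tS.d4 e4).elim
      | exact (tS.d4 e4.symm).elim
      | exact (tS.d4 e3).elim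
      | exact (tS.d4 e3.symm).elim
      | exact (tS.e1 e4).elim
      | exact (tS.e1 e4.symm).elim
      | exact (tS.e1 e3).elim
      | exact (tS.e1 e3.symm).elim
      | exact (tS.e2 e4).elim
      | exact (tS.e2 e4.symm).elim
      | exact (tS.e2 e3).elim
      | exact (tS.e2 e3.symm).elim
      | exact (nR'.c1 e3).elim
      | exact (nR'.c1 e4).elim
      | exact (nR'.c1 e3.symm).elim
      | exact (nR'.c1 e4.symm).elim
      | exact (nR'.d1 e3).elim
      | exact (nR'.d1 e4).elim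
      | exact (nR'.d1 e3.symm).elim
      | exact (nR'.d1 e4.symm).elim
      | exact (nR'.e1 e3).elim
      | exact (nR'.e1 e4).elim
      | exact (nR'.e1 e3.symm).elim
      | exact (nR'.e1 e4.symm).elim
      | exact (nR'.e2 e3).elim
      | exact (nR'.e2 e4).elim
      | exact (nR'.e2 e3.symm).elim
      | exact (nR'.e2 e4.symm).elim
      | exact (nR'.c3 hR e3).elim
      | exact (nR'.c3 hS e3).elim
      | exact (nR'.c3 hQ e3).elim
      | exact (nR'.c3 hQ e3).elim
      | exact (nR'.c4 hR e3).elim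
      | exact (nR'.c4 hS e3).elim
      | exact (nR'.c4 hQ e3).elim
      | exact (nR'.c4 hQ e3).elim
      | exact (nR'.d3 hR e3).elim
      | exact (nR'.d3 hS e3).elim
      | exact (nR'.d3 hQ e3).elim
      | exact (nR'.d3 hQ e3).elim
      | exact (nR'.d4 hR e3).elim
      | exact (nR'.d4 hS e3).elim
      | exact (nR'.d4 hQ e3).elim
      | exact (nR'.d4 hQ e3).elim
      | exact (nB'.c1 e3).elim
      | exact (nB'.c1 e4).elim
      | exact (nB'.c1 e3.symm).elim
      | exact (nB'.c1 e4.symm).elim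
      | exact (nB'.d1 e3).elim
      | exact (nB'.d1 e4).elim
      | exact (nB'.d1 e3.symm).elim
      | exact (nB'.d1 e4.symm).elim
      | exact (nB'.e1 e3).elim
      | exact (nB'.e1 e4).elim
      | exact (nB'.e1 e3.symm).elim
      | exact (nB'.e1 e4.symm).elim
      | exact (nB'.e2 e3).elim
      | exact (nB'.e2 e4).elim
      | exact (nB'.e2 e3.symm).elim
      | exact (nB'.e2 e4.symm).elim
      | exact (nB'.c3 hR e3).elim
      | exact (nB'.c3 hS e3).elim
      | exact (nB'.c3 hQ e3).elim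
      | exact (nB'.c3 hQ e3).elim
      | exact (nB'.c4 hR e3).elim
      | exact (nB'.c4 hS e3).elim
      | exact (nB'.c4 hQ e3).elim
      | exact (nB'.c4 hQ e3).elim
      | exact (nB'.d3 hR e3).elim
      | exact (nB'.d3 hS e3).elim
      | exact (nB'.d3 hQ e3).elim
      | exact (nB'.d3 hQ e3).elim
      | exact (nB'.d4 hR e3).elim
      | exact (nB'.d4 hS e3).elim
      | exact (nB'.d4 hQ e3).elim
      | exact (nB'.d4 hQ e3).elim
      | exact (nS'.c1 e3).elim
      | exact (nS'.c1 e4).elim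
      | exact (nS'.c1 e3.symm).elim
      | exact (nS'.c1 e4.symm).elim
      | exact (nS'.d1 e3).elim
      | exact (nS'.d1 e4).elim
      | exact (nS'.d1 e3.symm).elim
      | exact (nS'.d1 e4.symm).elim
      | exact (nS'.e1 e3).elim
      | exact (nS'.e1 e4).elim
      | exact (nS'.e1 e3.symm).elim
      | exact (nS'.e1 e4.symm).elim
      | exact (nS'.e2 e3).elim
      | exact (nS'.e2 e4).elim
      | exact (nS'.e2 e3.symm).elim
      | exact (nS'.e2 e4.symm).elim
      | exact (nS'.c3 hR e3).elim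
      | exact (nS'.c3 hS e3).elim
      | exact (nS'.c3 hQ e3).elim
      | exact (nS'.c3 hQ e3).elim
      | exact (nS'.c4 hR e3).elim
      | exact (nS'.c4 hS e3).elim
      | exact (nS'.c4 hQ e3).elim
      | exact (nS'.c4 hQ e3).elim
      | exact (nS'.d3 hR e3).elim
      | exact (nS'.d3 hS e3).elim
      | exact (nS'.d3 hQ e3).elim
      | exact (nS'.d3 hQ e3).elim
      | exact (nS'.d4 hR e3).elim
      | exact (nS'.d4 hS e3).elim
      | exact (nS'.d4 hQ e3).elim
      | exact (nS'.d4 hQ e3).elim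
      | (exfalso; simp [hR.symm, hS.symm, hR'.symm, hS'.symm, dB', (fun Y => (dB' Y).symm), lB, (fun Y => (lB Y).symm), lB', (fun Y => (lB' Y).symm), pc, snoc_iff, snoc_one, snoc_one', app_eq_nil, app, end2, end3, sn2, sn2', sn3, sn3', sn4, sn4', H1.app_nil, hR, hS, hR', hS', lR.a, lS.a, lR'.a, lS'.a, mR.a, mS.a, fR.a, fS.a, fR'.a, fS'.a, gR.a, gS.a, fun Y => (lR.a Y).symm, fun Y => (lS.a Y).symm, fun Y => (lR'.a Y).symm, fun Y => (lS'.a Y).symm, fun Y => (mR.a Y).symm, fun Y => (mS.a Y).symm, fun Y => (fR.a Y).symm, fun Y => (fS.a Y).symm, fun Y => (fR'.a Y).symm, fun Y => (fS'.a Y).symm, fun Y => (gR.a Y).symm, fun Y => (gS.a Y).symm, fun A Y => (lR.node A).a Y, fun A Y => (lS.node A).a Y, fun A C Y => ((lR.node A).node C).a Y, fun A C Y => ((lS.node A).node C).a Y, fun A C Y => (((lR.node A).node C).a Y).symm, fun A C Y => (((lS.node A).node C).a Y).symm] at e3; done)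
      | (exfalso; simp [hR.symm, hS.symm, hR'.symm, hS'.symm, dB', (fun Y => (dB' Y).symm), lB, (fun Y => (lB Y).symm), lB', (fun Y => (lB' Y).symm), pc, snoc_iff, snoc_one, snoc_one', app_eq_nil, app, end2, end3, sn2, sn2', sn3, sn3', sn4, sn4', H1.app_nil, hR, hS, hR', hS', lR.a, lS.a, lR'.a, lS'.a, mR.a, mS.a, fR.a, fS.a, fR'.a, fS'.a, gR.a, gS.a, fun Y => (lR.a Y).symm, fun Y => (lS.a Y).symm, fun Y => (lR'.a Y).symm, fun Y => (lS'.a Y).symm, fun Y => (mR.a Y).symm, fun Y => (mS.a Y).symm, fun Y => (fR.a Y).symm, fun Y => (fS.a Y).symm, fun Y => (fR'.a Y).symm, fun Y => (fS'.a Y).symm, fun Y => (gR.a Y).symm, fun Y => (gS.a Y).symm, fun A Y => (lR.node A).a Y, fun A Y => (lS.node A).a Y, fun A C Y => ((lR.node A).node C).a Y, fun A C Y => ((lS.node A).node C).a Y, fun A C Y => (((lR.node A).node C).a Y).symm, fun A C Y => (((lS.node A).node C).a Y).symm] at e4; done)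
      | (exfalso; have l4 := congrArg H1.len e4; simp only [H1.len_app, len_node, len_nil, pc, app] at l4; omega)
      | (exfalso; have l4 := congrArg H1.len e3; simp only [H1.len_app, len_node, len_nil, pc, app] at l4; omega)
      | (exfalso; subst e3; simp [hR.symm, hS.symm, hR'.symm, hS'.symm, dB', (fun Y => (dB' Y).symm), lB, (fun Y => (lB Y).symm), lB', (fun Y => (lB' Y).symm), pc, snoc_iff, snoc_one, snoc_one', app_eq_nil, app, end2, end3, sn2, sn2', sn3, sn3', sn4, sn4', H1.app_nil, hR, hS, hR', hS', lR.a, lS.a, lR'.a, lS'.a, mR.a, mS.a, fR.a, fS.a, fR'.a, fS'.a, gR.a, gS.a, fun Y => (lR.a Y).symm, fun Y => (lS.a Y).symm, fun Y => (lR'.a Y).symm, fun Y => (lS'.a Y).symm, fun Y => (mR.a Y).symm, fun Y => (mS.a Y).symm, fun Y => (fR.a Y).symm, fun Y => (fS.a Y).symm, fun Y => (fR'.a Y).symm, fun Y => (fS'.a Y).symm, fun Y => (gR.a Y).symm, fun Y => (gS.a Y).symm, fun A Y => (lR.node A).a Y, fun A Y => (lS.node A).a Y, fun A C Y => ((lR.node A).node C).a Y, fun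 A C Y => ((lS.node A).node C).a Y, fun A C Y => (((lR.node A).node C).a Y).symm, fun A C Y => (((lS.node A).node C).a Y).symm] at e4; done)
      | skip

theorem a0_m14 (h : SqD k R' B' S') (hR : R ≠ .nil) (hS : S ≠ .nil) (tR : T3 R) (tB : T3 B) (tS : T3 S)
    {j : ℕ} (hj : j < 20) (h9 : j ≠ 9) (q : ℕ)
    (e : H1.W R' .nil B' S' j = aw R (pc (q + 1)) B S 14) :
    ∃ X, (X = R' ∨ (B' = .nil ∧ X = S')) ∧ PossA0 (q) R B S X := by
  have nR' : N1 R' := h.one
  have nB' : N1 B' := h.oneB
  have nS' : N1 S' := h.oneS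
  have hR' := h.ne
  have hS' := h.neS
  have hQ : pc (q + 1) ≠ .nil := by simp [pc]
  have lR := L1.of tR.n1 hR
  have lS := L1.of tS.n1 hS
  have lR' := L1.of nR' hR'
  have lS' := L1.of nS' hS'
  have mR := L2.of tR hR
  have mS := L2.of tS hS
  have fR := F1.of tR.n1 hR
  have fS := F1.of tS.n1 hS
  have fR' := F1.of nR' hR'
  have fS' := F1.of nS' hS'
  have gR := F2.of tR hR
  have gS := F2.of tS hS
  have dB' : ∀ Y, B' ≠ .nil △ Y := fun Y => nB'.d1
  have lB : ∀ Y, B ≠ app Y (.nil △ .nil) := fun Y => tB.n1.c1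
  have lB' : ∀ Y, B' ≠ app Y (.nil △ .nil) := fun Y => nB'.c1
  have tT : T3 (app B (S △ .nil)) := tB.app (tS.one hS)
  have zR := H1.len_pos hR
  have zS := H1.len_pos hS
  have zR' := H1.len_pos hR'
  have zS' := H1.len_pos hS'
  have e' : H1.W R' .nil B' S' j = app B ((app S (.nil △ pc (q + 1))) △ .nil) := e
  rcases h.lstA hj h9 (by simp [app_eq_nil, pc, hR, hS]) e' with ⟨hj', e3, e4⟩ | ⟨hj', X', e3, e4⟩ | ⟨hj', X', e3, e4⟩ | ⟨hj', e3, e4⟩ | ⟨hj', X', e3, e4⟩ |
    ⟨hj', X', e3, e4⟩ | ⟨hj', e3, e4⟩ | ⟨hj', hB', e3, e4⟩ | ⟨hj', X', e3, e4⟩ | ⟨hj', hB', e3, e4⟩ | ⟨hj', X', e3, e4⟩ |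
    ⟨hj', e3, e4⟩ | ⟨hj', e3, e4⟩ | ⟨hj', e3, e4⟩ | ⟨hj', e3, e4⟩ | ⟨hj', e3, e4⟩
  all_goals first
      | exact (hR e4).elim
      | exact (hR' e4.symm).elim
      | exact (hS e4).elim
      | exact (hR e4.symm).elim
      | exact (hS' e4.symm).elim
      | exact (hS e4.symm).elim
      | exact (tR.c1 e4).elim
      | exact (tR.c1 e4.symm).elim
      | exact (tR.c1 e3).elim
      | exact (tR.c1 e3.symm).elim
      | exact (tR.c2 e4).elim
      | exact (tR.c2 e4.symm).elim
      | exact (tR.c2 e3).elim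
      | exact (tR.c2 e3.symm).elim
      | exact (tR.c3 e4).elim
      | exact (tR.c3 e4.symm).elim
      | exact (tR.c3 e3).elim
      | exact (tR.c3 e3.symm).elim
      | exact (tR.c4 e4).elim
      | exact (tR.c4 e4.symm).elim
      | exact (tR.c4 e3).elim
      | exact (tR.c4 e3.symm).elim
      | exact (tR.d1 e4).elim
      | exact (tR.d1 e4.symm).elim
      | exact (tR.d1 e3).elim
      | exact (tR.d1 e3.symm).elim
      | exact (tR.d2 e4).elim
      | exact (tR.d2 e4.symm).elim
      | exact (tR.d2 e3).elim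
      | exact (tR.d2 e3.symm).elim
      | exact (tR.d3 e4).elim
      | exact (tR.d3 e4.symm).elim
      | exact (tR.d3 e3).elim
      | exact (tR.d3 e3.symm).elim
      | exact (tR.d4 e4).elim
      | exact (tR.d4 e4.symm).elim
      | exact (tR.d4 e3).elim
      | exact (tR.d4 e3.symm).elim
      | exact (tR.e1 e4).elim
      | exact (tR.e1 e4.symm).elim
      | exact (tR.e1 e3).elim
      | exact (tR.e1 e3.symm).elim
      | exact (tR.e2 e4).elim
      | exact (tR.e2 e4.symm).elim
      | exact (tR.e2 e3).elim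
      | exact (tR.e2 e3.symm).elim
      | exact (tB.c1 e4).elim
      | exact (tB.c1 e4.symm).elim
      | exact (tB.c1 e3).elim
      | exact (tB.c1 e3.symm).elim
      | exact (tB.c2 e4).elim
      | exact (tB.c2 e4.symm).elim
      | exact (tB.c2 e3).elim
      | exact (tB.c2 e3.symm).elim
      | exact (tB.c3 e4).elim
      | exact (tB.c3 e4.symm).elim
      | exact (tB.c3 e3).elim
      | exact (tB.c3 e3.symm).elim
      | exact (tB.c4 e4).elim
      | exact (tB.c4 e4.symm).elim
      | exact (tB.c4 e3).elim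
      | exact (tB.c4 e3.symm).elim
      | exact (tB.d1 e4).elim
      | exact (tB.d1 e4.symm).elim
      | exact (tB.d1 e3).elim
      | exact (tB.d1 e3.symm).elim
      | exact (tB.d2 e4).elim
      | exact (tB.d2 e4.symm).elim
      | exact (tB.d2 e3).elim
      | exact (tB.d2 e3.symm).elim
      | exact (tB.d3 e4).elim
      | exact (tB.d3 e4.symm).elim
      | exact (tB.d3 e3).elim
      | exact (tB.d3 e3.symm).elim
      | exact (tB.d4 e4).elim
      | exact (tB.d4 e4.symm).elim
      | exact (tB.d4 e3).elim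
      | exact (tB.d4 e3.symm).elim
      | exact (tB.e1 e4).elim
      | exact (tB.e1 e4.symm).elim
      | exact (tB.e1 e3).elim
      | exact (tB.e1 e3.symm).elim
      | exact (tB.e2 e4).elim
      | exact (tB.e2 e4.symm).elim
      | exact (tB.e2 e3).elim
      | exact (tB.e2 e3.symm).elim
      | exact (tS.c1 e4).elim
      | exact (tS.c1 e4.symm).elim
      | exact (tS.c1 e3).elim
      | exact (tS.c1 e3.symm).elim
      | exact (tS.c2 e4).elim
      | exact (tS.c2 e4.symm).elim
      | exact (tS.c2 e3).elim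
      | exact (tS.c2 e3.symm).elim
      | exact (tS.c3 e4).elim
      | exact (tS.c3 e4.symm).elim
      | exact (tS.c3 e3).elim
      | exact (tS.c3 e3.symm).elim
      | exact (tS.c4 e4).elim
      | exact (tS.c4 e4.symm).elim
      | exact (tS.c4 e3).elim
      | exact (tS.c4 e3.symm).elim
      | exact (tS.d1 e4).elim
      | exact (tS.d1 e4.symm).elim
      | exact (tS.d1 e3).elim
      | exact (tS.d1 e3.symm).elim
      | exact (tS.d2 e4).elim
      | exact (tS.d2 e4.symm).elim
      | exact (tS.d2 e3).elim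
      | exact (tS.d2 e3.symm).elim
      | exact (tS.d3 e4).elim
      | exact (tS.d3 e4.symm).elim
      | exact (tS.d3 e3).elim
      | exact (tS.d3 e3.symm).elim
      | exact (tS.d4 e4).elim
      | exact (tS.d4 e4.symm).elim
      | exact (tS.d4 e3).elim
      | exact (tS.d4 e3.symm).elim
      | exact (tS.e1 e4).elim
      | exact (tS.e1 e4.symm).elim
      | exact (tS.e1 e3).elim
      | exact (tS.e1 e3.symm).elim
      | exact (tS.e2 e4).elim
      | exact (tS.e2 e4.symm).elim
      | exact (tS.e2 e3).elim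
      | exact (tS.e2 e3.symm).elim
      | exact (nR'.c1 e3).elim
      | exact (nR'.c1 e4).elim
      | exact (nR'.c1 e3.symm).elim
      | exact (nR'.c1 e4.symm).elim
      | exact (nR'.d1 e3).elim
      | exact (nR'.d1 e4).elim
      | exact (nR'.d1 e3.symm).elim
      | exact (nR'.d1 e4.symm).elim
      | exact (nR'.e1 e3).elim
      | exact (nR'.e1 e4).elim
      | exact (nR'.e1 e3.symm).elim
      | exact (nR'.e1 e4.symm).elim
      | exact (nR'.e2 e3).elim
      | exact (nR'.e2 e4).elim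
      | exact (nR'.e2 e3.symm).elim
      | exact (nR'.e2 e4.symm).elim
      | exact (nR'.c3 hR e3).elim
      | exact (nR'.c3 hS e3).elim
      | exact (nR'.c3 hQ e3).elim
      | exact (nR'.c3 hQ e3).elim
      | exact (nR'.c4 hR e3).elim
      | exact (nR'.c4 hS e3).elim
      | exact (nR'.c4 hQ e3).elim
      | exact (nR'.c4 hQ e3).elim
      | exact (nR'.d3 hR e3).elim
      | exact (nR'.d3 hS e3).elim
      | exact (nR'.d3 hQ e3).elim
      | exact (nR'.d3 hQ e3).elim
      | exact (nR'.d4 hR e3).elim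
      | exact (nR'.d4 hS e3).elim
      | exact (nR'.d4 hQ e3).elim
      | exact (nR'.d4 hQ e3).elim
      | exact (nB'.c1 e3).elim
      | exact (nB'.c1 e4).elim
      | exact (nB'.c1 e3.symm).elim
      | exact (nB'.c1 e4.symm).elim
      | exact (nB'.d1 e3).elim
      | exact (nB'.d1 e4).elim
      | exact (nB'.d1 e3.symm).elim
      | exact (nB'.d1 e4.symm).elim
      | exact (nB'.e1 e3).elim
      | exact (nB'.e1 e4).elim
      | exact (nB'.e1 e3.symm).elim
      | exact (nB'.e1 e4.symm).elim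
      | exact (nB'.e2 e3).elim
      | exact (nB'.e2 e4).elim
      | exact (nB'.e2 e3.symm).elim
      | exact (nB'.e2 e4.symm).elim
      | exact (nB'.c3 hR e3).elim
      | exact (nB'.c3 hS e3).elim
      | exact (nB'.c3 hQ e3).elim
      | exact (nB'.c3 hQ e3).elim
      | exact (nB'.c4 hR e3).elim
      | exact (nB'.c4 hS e3).elim
      | exact (nB'.c4 hQ e3).elim
      | exact (nB'.c4 hQ e3).elim
      | exact (nB'.d3 hR e3).elim
      | exact (nB'.d3 hS e3).elim
      | exact (nB'.d3 hQ e3).elim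
      | exact (nB'.d3 hQ e3).elim
      | exact (nB'.d4 hR e3).elim
      | exact (nB'.d4 hS e3).elim
      | exact (nB'.d4 hQ e3).elim
      | exact (nB'.d4 hQ e3).elim
      | exact (nS'.c1 e3).elim
      | exact (nS'.c1 e4).elim
      | exact (nS'.c1 e3.symm).elim
      | exact (nS'.c1 e4.symm).elim
      | exact (nS'.d1 e3).elim
      | exact (nS'.d1 e4).elim
      | exact (nS'.d1 e3.symm).elim
      | exact (nS'.d1 e4.symm).elim
      | exact (nS'.e1 e3).elim
      | exact (nS'.e1 e4).elim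
      | exact (nS'.e1 e3.symm).elim
      | exact (nS'.e1 e4.symm).elim
      | exact (nS'.e2 e3).elim
      | exact (nS'.e2 e4).elim
      | exact (nS'.e2 e3.symm).elim
      | exact (nS'.e2 e4.symm).elim
      | exact (nS'.c3 hR e3).elim
      | exact (nS'.c3 hS e3).elim
      | exact (nS'.c3 hQ e3).elim
      | exact (nS'.c3 hQ e3).elim
      | exact (nS'.c4 hR e3).elim
      | exact (nS'.c4 hS e3).elim
      | exact (nS'.c4 hQ e3).elim
      | exact (nS'.c4 hQ e3).elim
      | exact (nS'.d3 hR e3).elim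
      | exact (nS'.d3 hS e3).elim
      | exact (nS'.d3 hQ e3).elim
      | exact (nS'.d3 hQ e3).elim
      | exact (nS'.d4 hR e3).elim
      | exact (nS'.d4 hS e3).elim
      | exact (nS'.d4 hQ e3).elim
      | exact (nS'.d4 hQ e3).elim
      | (exfalso; simp [hR.symm, hS.symm, hR'.symm, hS'.symm, dB', (fun Y => (dB' Y).symm), lB, (fun Y => (lB Y).symm), lB', (fun Y => (lB' Y).symm), pc, snoc_iff, snoc_one, snoc_one', app_eq_nil, app, end2, end3, sn2, sn2', sn3, sn3', sn4, sn4', H1.app_nil, hR, hS, hR', hS', lR.a, lS.a, lR'.a, lS'.a, mR.a, mS.a, fR.a, fS.a, fR'.a, fS'.a, gR.a, gS.a, fun Y => (lR.a Y).symm, fun Y => (lS.a Y).symm, fun Y => (lR'.a Y).symm, fun Y => (lS'.a Y).symm, fun Y => (mR.a Y).symm, fun Y => (mS.a Y).symm, fun Y => (fR.a Y).symm, fun Y => (fS.a Y).symm, fun Y => (fR'.a Y).symm, fun Y => (fS'.a Y).symm, fun Y => (gR.a Y).symm, fun Y => (gS.a Y).symm, fun A Y => (lR.node A).a Y, fun A Y => (lS.node A).a Y, fun A C Y => ((lR.node A).node C).a Y, fun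 A C Y => ((lS.node A).node C).a Y, fun A C Y => (((lR.node A).node C).a Y).symm, fun A C Y => (((lS.node A).node C).a Y).symm] at e3; done)
      | (exfalso; simp [hR.symm, hS.symm, hR'.symm, hS'.symm, dB', (fun Y => (dB' Y).symm), lB, (fun Y => (lB Y).symm), lB', (fun Y => (lB' Y).symm), pc, snoc_iff, snoc_one, snoc_one', app_eq_nil, app, end2, end3, sn2, sn2', sn3, sn3', sn4, sn4', H1.app_nil, hR, hS, hR', hS', lR.a, lS.a, lR'.a, lS'.a, mR.a, mS.a, fR.a, fS.a, fR'.a, fS'.a, gR.a, gS.a, fun Y => (lR.a Y).symm, fun Y => (lS.a Y).symm, fun Y => (lR'.a Y).symm, fun Y => (lS'.a Y).symm, fun Y => (mR.a Y).symm, fun Y => (mS.a Y).symm, fun Y => (fR.a Y).symm, fun Y => (fS.a Y).symm, fun Y => (fR'.a Y).symm, fun Y => (fS'.a Y).symm, fun Y => (gR.a Y).symm, fun Y => (gS.a Y).symm, fun A Y => (lR.node A).a Y, fun A Y => (lS.node A).a Y, fun A C Y => ((lR.node A).node C).a Y, fun A C Y => ((lS.node A).node C).a Y, fun A C Y => (((lR.node A).node C).a Y).symm, fun A C Y => (((lS.node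 A).node C).a Y).symm] at e4; done)
      | (exfalso; have l4 := congrArg H1.len e4; simp only [H1.len_app, len_node, len_nil, pc, app] at l4; omega)
      | (exfalso; have l4 := congrArg H1.len e3; simp only [H1.len_app, len_node, len_nil, pc, app] at l4; omega)
      | (exfalso; subst e3; simp [hR.symm, hS.symm, hR'.symm, hS'.symm, dB', (fun Y => (dB' Y).symm), lB, (fun Y => (lB Y).symm), lB', (fun Y => (lB' Y).symm), pc, snoc_iff, snoc_one, snoc_one', app_eq_nil, app, end2, end3, sn2, sn2', sn3, sn3', sn4, sn4', H1.app_nil, hR, hS, hR', hS', lR.a, lS.a, lR'.a, lS'.a, mR.a, mS.a, fR.a, fS.a, fR'.a, fS'.a, gR.a, gS.a, fun Y => (lR.a Y).symm, fun Y => (lS.a Y).symm, fun Y => (lR'.a Y).symm, fun Y => (lS'.a Y).symm, fun Y => (mR.a Y).symm, fun Y => (mS.a Y).symm, fun Y => (fR.a Y).symm, fun Y => (fS.a Y).symm, fun Y => (fR'.a Y).symm, fun Y => (fS'.a Y).symm, fun Y => (gR.a Y).symm, fun Y => (gS.a Y).symm, fun A Y => (lR.node A).a Y, fun A Y => (lS.node A).a Y, fun A C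 Y => ((lR.node A).node C).a Y, fun A C Y => ((lS.node A).node C).a Y, fun A C Y => (((lR.node A).node C).a Y).symm, fun A C Y => (((lS.node A).node C).a Y).symm] at e4; done)
      | skip
  · exact absurd e3 ((fS.app _).a _)
  · exact absurd e3 ((fS.app _).a _)
  · obtain ⟨P', h1, h2⟩ := fst_app hS e3
    exact absurd h2 nB'.c1

theorem a0_m15 (h : SqD k R' B' S') (hR : R ≠ .nil) (hS : S ≠ .nil) (tR : T3 R) (tB : T3 B) (tS : T3 S)
    {j : ℕ} (hj : j < 20) (h9 : j ≠ 9) (q : ℕ)
    (e : H1.W R' .nil B' S' j = aw R (pc (q + 1)) B S 15) :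
    ∃ X, (X = R' ∨ (B' = .nil ∧ X = S')) ∧ PossA0 (q) R B S X := by
  have nR' : N1 R' := h.one
  have nB' : N1 B' := h.oneB
  have nS' : N1 S' := h.oneS
  have hR' := h.ne
  have hS' := h.neS
  have hQ : pc (q + 1) ≠ .nil := by simp [pc]
  have lR := L1.of tR.n1 hR
  have lS := L1.of tS.n1 hS
  have lR' := L1.of nR' hR'
  have lS' := L1.of nS' hS'
  have mR := L2.of tR hR
  have mS := L2.of tS hS
  have fR := F1.of tR.n1 hR
  have fS := F1.of tS.n1 hS
  have fR' := F1.of nR' hR'
  have fS' := F1.of nS' hS'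
  have gR := F2.of tR hR
  have gS := F2.of tS hS
  have dB' : ∀ Y, B' ≠ .nil △ Y := fun Y => nB'.d1
  have lB : ∀ Y, B ≠ app Y (.nil △ .nil) := fun Y => tB.n1.c1
  have lB' : ∀ Y, B' ≠ app Y (.nil △ .nil) := fun Y => nB'.c1
  have tT : T3 (app B (S △ .nil)) := tB.app (tS.one hS)
  have zR := H1.len_pos hR
  have zS := H1.len_pos hS
  have zR' := H1.len_pos hR'
  have zS' := H1.len_pos hS'
  have e' : H1.W R' .nil B' S' j = app (app B (S △ .nil)) (pc (q + 1) △ .nil) := by rw [e, H1.app_assoc]; rfl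
  rcases h.lstA hj h9 (by simp [app_eq_nil, pc, hR, hS]) e' with ⟨hj', e3, e4⟩ | ⟨hj', X', e3, e4⟩ | ⟨hj', X', e3, e4⟩ | ⟨hj', e3, e4⟩ | ⟨hj', X', e3, e4⟩ |
    ⟨hj', X', e3, e4⟩ | ⟨hj', e3, e4⟩ | ⟨hj', hB', e3, e4⟩ | ⟨hj', X', e3, e4⟩ | ⟨hj', hB', e3, e4⟩ | ⟨hj', X', e3, e4⟩ |
    ⟨hj', e3, e4⟩ | ⟨hj', e3, e4⟩ | ⟨hj', e3, e4⟩ | ⟨hj', e3, e4⟩ | ⟨hj', e3, e4⟩
  all_goals first
      | exact (hR e4).elim
      | exact (hR' e4.symm).elim
      | exact (hS e4).elim
      | exact (hR e4.symm).elim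
      | exact (hS' e4.symm).elim
      | exact (hS e4.symm).elim
      | exact (tR.c1 e4).elim
      | exact (tR.c1 e4.symm).elim
      | exact (tR.c1 e3).elim
      | exact (tR.c1 e3.symm).elim
      | exact (tR.c2 e4).elim
      | exact (tR.c2 e4.symm).elim
      | exact (tR.c2 e3).elim
      | exact (tR.c2 e3.symm).elim
      | exact (tR.c3 e4).elim
      | exact (tR.c3 e4.symm).elim
      | exact (tR.c3 e3).elim
      | exact (tR.c3 e3.symm).elim
      | exact (tR.c4 e4).elim
      | exact (tR.c4 e4.symm).elim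
      | exact (tR.c4 e3).elim
      | exact (tR.c4 e3.symm).elim
      | exact (tR.d1 e4).elim
      | exact (tR.d1 e4.symm).elim
      | exact (tR.d1 e3).elim
      | exact (tR.d1 e3.symm).elim
      | exact (tR.d2 e4).elim
      | exact (tR.d2 e4.symm).elim
      | exact (tR.d2 e3).elim
      | exact (tR.d2 e3.symm).elim
      | exact (tR.d3 e4).elim
      | exact (tR.d3 e4.symm).elim
      | exact (tR.d3 e3).elim
      | exact (tR.d3 e3.symm).elim
      | exact (tR.d4 e4).elim
      | exact (tR.d4 e4.symm).elim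
      | exact (tR.d4 e3).elim
      | exact (tR.d4 e3.symm).elim
      | exact (tR.e1 e4).elim
      | exact (tR.e1 e4.symm).elim
      | exact (tR.e1 e3).elim
      | exact (tR.e1 e3.symm).elim
      | exact (tR.e2 e4).elim
      | exact (tR.e2 e4.symm).elim
      | exact (tR.e2 e3).elim
      | exact (tR.e2 e3.symm).elim
      | exact (tB.c1 e4).elim
      | exact (tB.c1 e4.symm).elim
      | exact (tB.c1 e3).elim
      | exact (tB.c1 e3.symm).elim
      | exact (tB.c2 e4).elim
      | exact (tB.c2 e4.symm).elim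
      | exact (tB.c2 e3).elim
      | exact (tB.c2 e3.symm).elim
      | exact (tB.c3 e4).elim
      | exact (tB.c3 e4.symm).elim
      | exact (tB.c3 e3).elim
      | exact (tB.c3 e3.symm).elim
      | exact (tB.c4 e4).elim
      | exact (tB.c4 e4.symm).elim
      | exact (tB.c4 e3).elim
      | exact (tB.c4 e3.symm).elim
      | exact (tB.d1 e4).elim
      | exact (tB.d1 e4.symm).elim
      | exact (tB.d1 e3).elim
      | exact (tB.d1 e3.symm).elim
      | exact (tB.d2 e4).elim
      | exact (tB.d2 e4.symm).elim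
      | exact (tB.d2 e3).elim
      | exact (tB.d2 e3.symm).elim
      | exact (tB.d3 e4).elim
      | exact (tB.d3 e4.symm).elim
      | exact (tB.d3 e3).elim
      | exact (tB.d3 e3.symm).elim
      | exact (tB.d4 e4).elim
      | exact (tB.d4 e4.symm).elim
      | exact (tB.d4 e3).elim
      | exact (tB.d4 e3.symm).elim
      | exact (tB.e1 e4).elim
      | exact (tB.e1 e4.symm).elim
      | exact (tB.e1 e3).elim
      | exact (tB.e1 e3.symm).elim
      | exact (tB.e2 e4).elim
      | exact (tB.e2 e4.symm).elim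
      | exact (tB.e2 e3).elim
      | exact (tB.e2 e3.symm).elim
      | exact (tS.c1 e4).elim
      | exact (tS.c1 e4.symm).elim
      | exact (tS.c1 e3).elim
      | exact (tS.c1 e3.symm).elim
      | exact (tS.c2 e4).elim
      | exact (tS.c2 e4.symm).elim
      | exact (tS.c2 e3).elim
      | exact (tS.c2 e3.symm).elim
      | exact (tS.c3 e4).elim
      | exact (tS.c3 e4.symm).elim
      | exact (tS.c3 e3).elim
      | exact (tS.c3 e3.symm).elim
      | exact (tS.c4 e4).elim
      | exact (tS.c4 e4.symm).elim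
      | exact (tS.c4 e3).elim
      | exact (tS.c4 e3.symm).elim
      | exact (tS.d1 e4).elim
      | exact (tS.d1 e4.symm).elim
      | exact (tS.d1 e3).elim
      | exact (tS.d1 e3.symm).elim
      | exact (tS.d2 e4).elim
      | exact (tS.d2 e4.symm).elim
      | exact (tS.d2 e3).elim
      | exact (tS.d2 e3.symm).elim
      | exact (tS.d3 e4).elim
      | exact (tS.d3 e4.symm).elim
      | exact (tS.d3 e3).elim
      | exact (tS.d3 e3.symm).elim
      | exact (tS.d4 e4).elim
      | exact (tS.d4 e4.symm).elim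
      | exact (tS.d4 e3).elim
      | exact (tS.d4 e3.symm).elim
      | exact (tS.e1 e4).elim
      | exact (tS.e1 e4.symm).elim
      | exact (tS.e1 e3).elim
      | exact (tS.e1 e3.symm).elim
      | exact (tS.e2 e4).elim
      | exact (tS.e2 e4.symm).elim
      | exact (tS.e2 e3).elim
      | exact (tS.e2 e3.symm).elim
      | exact (nR'.c1 e3).elim
      | exact (nR'.c1 e4).elim
      | exact (nR'.c1 e3.symm).elim
      | exact (nR'.c1 e4.symm).elim
      | exact (nR'.d1 e3).elim
      | exact (nR'.d1 e4).elim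
      | exact (nR'.d1 e3.symm).elim
      | exact (nR'.d1 e4.symm).elim
      | exact (nR'.e1 e3).elim
      | exact (nR'.e1 e4).elim
      | exact (nR'.e1 e3.symm).elim
      | exact (nR'.e1 e4.symm).elim
      | exact (nR'.e2 e3).elim
      | exact (nR'.e2 e4).elim
      | exact (nR'.e2 e3.symm).elim
      | exact (nR'.e2 e4.symm).elim
      | exact (nR'.c3 hR e3).elim
      | exact (nR'.c3 hS e3).elim
      | exact (nR'.c3 hQ e3).elim
      | exact (nR'.c3 hQ e3).elim
      | exact (nR'.c4 hR e3).elim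
      | exact (nR'.c4 hS e3).elim
      | exact (nR'.c4 hQ e3).elim
      | exact (nR'.c4 hQ e3).elim
      | exact (nR'.d3 hR e3).elim
      | exact (nR'.d3 hS e3).elim
      | exact (nR'.d3 hQ e3).elim
      | exact (nR'.d3 hQ e3).elim
      | exact (nR'.d4 hR e3).elim
      | exact (nR'.d4 hS e3).elim
      | exact (nR'.d4 hQ e3).elim
      | exact (nR'.d4 hQ e3).elim
      | exact (nB'.c1 e3).elim
      | exact (nB'.c1 e4).elim
      | exact (nB'.c1 e3.symm).elim
      | exact (nB'.c1 e4.symm).elim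
      | exact (nB'.d1 e3).elim
      | exact (nB'.d1 e4).elim
      | exact (nB'.d1 e3.symm).elim
      | exact (nB'.d1 e4.symm).elim
      | exact (nB'.e1 e3).elim
      | exact (nB'.e1 e4).elim
      | exact (nB'.e1 e3.symm).elim
      | exact (nB'.e1 e4.symm).elim
      | exact (nB'.e2 e3).elim
      | exact (nB'.e2 e4).elim
      | exact (nB'.e2 e3.symm).elim
      | exact (nB'.e2 e4.symm).elim
      | exact (nB'.c3 hR e3).elim
      | exact (nB'.c3 hS e3).elim
      | exact (nB'.c3 hQ e3).elim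
      | exact (nB'.c3 hQ e3).elim
      | exact (nB'.c4 hR e3).elim
      | exact (nB'.c4 hS e3).elim
      | exact (nB'.c4 hQ e3).elim
      | exact (nB'.c4 hQ e3).elim
      | exact (nB'.d3 hR e3).elim
      | exact (nB'.d3 hS e3).elim
      | exact (nB'.d3 hQ e3).elim
      | exact (nB'.d3 hQ e3).elim
      | exact (nB'.d4 hR e3).elim
      | exact (nB'.d4 hS e3).elim
      | exact (nB'.d4 hQ e3).elim
      | exact (nB'.d4 hQ e3).elim
      | exact (nS'.c1 e3).elim
      | exact (nS'.c1 e4).elim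
      | exact (nS'.c1 e3.symm).elim
      | exact (nS'.c1 e4.symm).elim
      | exact (nS'.d1 e3).elim
      | exact (nS'.d1 e4).elim
      | exact (nS'.d1 e3.symm).elim
      | exact (nS'.d1 e4.symm).elim
      | exact (nS'.e1 e3).elim
      | exact (nS'.e1 e4).elim
      | exact (nS'.e1 e3.symm).elim
      | exact (nS'.e1 e4.symm).elim
      | exact (nS'.e2 e3).elim
      | exact (nS'.e2 e4).elim
      | exact (nS'.e2 e3.symm).elim
      | exact (nS'.e2 e4.symm).elim
      | exact (nS'.c3 hR e3).elim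
      | exact (nS'.c3 hS e3).elim
      | exact (nS'.c3 hQ e3).elim
      | exact (nS'.c3 hQ e3).elim
      | exact (nS'.c4 hR e3).elim
      | exact (nS'.c4 hS e3).elim
      | exact (nS'.c4 hQ e3).elim
      | exact (nS'.c4 hQ e3).elim
      | exact (nS'.d3 hR e3).elim
      | exact (nS'.d3 hS e3).elim
      | exact (nS'.d3 hQ e3).elim
      | exact (nS'.d3 hQ e3).elim
      | exact (nS'.d4 hR e3).elim
      | exact (nS'.d4 hS e3).elim
      | exact (nS'.d4 hQ e3).elim
      | exact (nS'.d4 hQ e3).elim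
      | (exfalso; simp [hR.symm, hS.symm, hR'.symm, hS'.symm, dB', (fun Y => (dB' Y).symm), lB, (fun Y => (lB Y).symm), lB', (fun Y => (lB' Y).symm), pc, snoc_iff, snoc_one, snoc_one', app_eq_nil, app, end2, end3, sn2, sn2', sn3, sn3', sn4, sn4', H1.app_nil, hR, hS, hR', hS', lR.a, lS.a, lR'.a, lS'.a, mR.a, mS.a, fR.a, fS.a, fR'.a, fS'.a, gR.a, gS.a, fun Y => (lR.a Y).symm, fun Y => (lS.a Y).symm, fun Y => (lR'.a Y).symm, fun Y => (lS'.a Y).symm, fun Y => (mR.a Y).symm, fun Y => (mS.a Y).symm, fun Y => (fR.a Y).symm, fun Y => (fS.a Y).symm, fun Y => (fR'.a Y).symm, fun Y => (fS'.a Y).symm, fun Y => (gR.a Y).symm, fun Y => (gS.a Y).symm, fun A Y => (lR.node A).a Y, fun A Y => (lS.node A).a Y, fun A C Y => ((lR.node A).node C).a Y, fun A C Y => ((lS.node A).node C).a Y, fun A C Y => (((lR.node A).node C).a Y).symm, fun A C Y => (((lS.node A).node C).a Y).symm] at e3; done)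
      | (exfalso; simp [hR.symm, hS.symm, hR'.symm, hS'.symm, dB', (fun Y => (dB' Y).symm), lB, (fun Y => (lB Y).symm), lB', (fun Y => (lB' Y).symm), pc, snoc_iff, snoc_one, snoc_one', app_eq_nil, app, end2, end3, sn2, sn2', sn3, sn3', sn4, sn4', H1.app_nil, hR, hS, hR', hS', lR.a, lS.a, lR'.a, lS'.a, mR.a, mS.a, fR.a, fS.a, fR'.a, fS'.a, gR.a, gS.a, fun Y => (lR.a Y).symm, fun Y => (lS.a Y).symm, fun Y => (lR'.a Y).symm, fun Y => (lS'.a Y).symm, fun Y => (mR.a Y).symm, fun Y => (mS.a Y).symm, fun Y => (fR.a Y).symm, fun Y => (fS.a Y).symm, fun Y => (fR'.a Y).symm, fun Y => (fS'.a Y).symm, fun Y => (gR.a Y).symm, fun Y => (gS.a Y).symm, fun A Y => (lR.node A).a Y, fun A Y => (lS.node A).a Y, fun A C Y => ((lR.node A).node C).a Y, fun A C Y => ((lS.node A).node C).a Y, fun A C Y => (((lR.node A).node C).a Y).symm, fun A C Y => (((lS.node A).node C).a Y).symm] at e4; done)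
      | (exfalso; have l4 := congrArg H1.len e4; simp only [H1.len_app, len_node, len_nil, pc, app] at l4; omega)
      | (exfalso; have l4 := congrArg H1.len e3; simp only [H1.len_app, len_node, len_nil, pc, app] at l4; omega)
      | (exfalso; subst e3; simp [hR.symm, hS.symm, hR'.symm, hS'.symm, dB', (fun Y => (dB' Y).symm), lB, (fun Y => (lB Y).symm), lB', (fun Y => (lB' Y).symm), pc, snoc_iff, snoc_one, snoc_one', app_eq_nil, app, end2, end3, sn2, sn2', sn3, sn3', sn4, sn4', H1.app_nil, hR, hS, hR', hS', lR.a, lS.a, lR'.a, lS'.a, mR.a, mS.a, fR.a, fS.a, fR'.a, fS'.a, gR.a, gS.a, fun Y => (lR.a Y).symm, fun Y => (lS.a Y).symm, fun Y => (lR'.a Y).symm, fun Y => (lS'.a Y).symm, fun Y => (mR.a Y).symm, fun Y => (mS.a Y).symm, fun Y => (fR.a Y).symm, fun Y => (fS.a Y).symm, fun Y => (fR'.a Y).symm, fun Y => (fS'.a Y).symm, fun Y => (gR.a Y).symm, fun Y => (gS.a Y).symm, fun A Y => (lR.node A).a Y, fun A Y => (lS.node A).a Y, fun A C Y => ((lR.node A).node C).a Y, fun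 A C Y => ((lS.node A).node C).a Y, fun A C Y => (((lR.node A).node C).a Y).symm, fun A C Y => (((lS.node A).node C).a Y).symm] at e4; done)
      | skip
  · obtain rfl := pc_lf e3; exact ⟨_, Or.inl rfl, Or.inl ⟨rfl, Or.inr (Or.inl e4.symm)⟩⟩
  · exact absurd e4 tT.d2
  · exact absurd e4 tT.d1
  · exact absurd e4 tT.c2
  · exact absurd e4 tT.c1
  · obtain ⟨h5, h6⟩ := snoc_one'.1 (show pc q △ .nil = app B' (.nil △ .nil) from e3)
    obtain rfl := pc_z h6.symm
    exact ⟨_, Or.inr ⟨h5, rfl⟩, Or.inl ⟨rfl, Or.inr (Or.inl e4.symm)⟩⟩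
  · exact absurd e4 tT.d4
  · exact absurd e4 tT.d1
  · exact absurd e4 tT.d1

theorem a0_m16 (h : SqD k R' B' S') (hR : R ≠ .nil) (hS : S ≠ .nil) (tR : T3 R) (tB : T3 B) (tS : T3 S)
    {j : ℕ} (hj : j < 20) (h9 : j ≠ 9) (q : ℕ)
    (e : H1.W R' .nil B' S' j = aw R (pc (q + 1)) B S 16) :
    ∃ X, (X = R' ∨ (B' = .nil ∧ X = S')) ∧ PossA0 (q) R B S X := by
  have nR' : N1 R' := h.one
  have nB' : N1 B' := h.oneB
  have nS' : N1 S' := h.oneS
  have hR' := h.ne
  have hS' := h.neS
  have hQ : pc (q + 1) ≠ .nil := by simp [pc]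
  have lR := L1.of tR.n1 hR
  have lS := L1.of tS.n1 hS
  have lR' := L1.of nR' hR'
  have lS' := L1.of nS' hS'
  have mR := L2.of tR hR
  have mS := L2.of tS hS
  have fR := F1.of tR.n1 hR
  have fS := F1.of tS.n1 hS
  have fR' := F1.of nR' hR'
  have fS' := F1.of nS' hS'
  have gR := F2.of tR hR
  have gS := F2.of tS hS
  have dB' : ∀ Y, B' ≠ .nil △ Y := fun Y => nB'.d1
  have lB : ∀ Y, B ≠ app Y (.nil △ .nil) := fun Y => tB.n1.c1
  have lB' : ∀ Y, B' ≠ app Y (.nil △ .nil) := fun Y => nB'.c1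
  have tT : T3 (app B (S △ .nil)) := tB.app (tS.one hS)
  have zR := H1.len_pos hR
  have zS := H1.len_pos hS
  have zR' := H1.len_pos hR'
  have zS' := H1.len_pos hS'
  have e' : H1.W R' .nil B' S' j = pc (q + 1) △ (B △ S) := e
  rcases h.fstA hj h9 (by simp [app_eq_nil, pc, hR, hS]) e' with ⟨hj', X', e3, e4⟩ | ⟨hj', X', e3, e4⟩ | ⟨hj', e3, e4⟩ | ⟨hj', e3, e4⟩ |
    ⟨hj', e3, e4⟩ | ⟨hj', e3, e4⟩ | ⟨hj', hB', e3, e4⟩ | ⟨hj', X', e3, e4⟩ | ⟨hj', X', e3, e4⟩ | ⟨hj', e3, e4⟩ |
    ⟨hj', X', e3, e4⟩ | ⟨hj', e3, e4⟩ | ⟨hj', X', e3, e4⟩ | ⟨hj', e3, e4⟩ | ⟨hj', e3, e4⟩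
  all_goals first
      | exact (hR e4).elim
      | exact (hR' e4.symm).elim
      | exact (hS e4).elim
      | exact (hR e4.symm).elim
      | exact (hS' e4.symm).elim
      | exact (hS e4.symm).elim
      | exact (tR.c1 e4).elim
      | exact (tR.c1 e4.symm).elim
      | exact (tR.c1 e3).elim
      | exact (tR.c1 e3.symm).elim
      | exact (tR.c2 e4).elim
      | exact (tR.c2 e4.symm).elim
      | exact (tR.c2 e3).elim
      | exact (tR.c2 e3.symm).elim
      | exact (tR.c3 e4).elim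
      | exact (tR.c3 e4.symm).elim
      | exact (tR.c3 e3).elim
      | exact (tR.c3 e3.symm).elim
      | exact (tR.c4 e4).elim
      | exact (tR.c4 e4.symm).elim
      | exact (tR.c4 e3).elim
      | exact (tR.c4 e3.symm).elim
      | exact (tR.d1 e4).elim
      | exact (tR.d1 e4.symm).elim
      | exact (tR.d1 e3).elim
      | exact (tR.d1 e3.symm).elim
      | exact (tR.d2 e4).elim
      | exact (tR.d2 e4.symm).elim
      | exact (tR.d2 e3).elim
      | exact (tR.d2 e3.symm).elim
      | exact (tR.d3 e4).elim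
      | exact (tR.d3 e4.symm).elim
      | exact (tR.d3 e3).elim
      | exact (tR.d3 e3.symm).elim
      | exact (tR.d4 e4).elim
      | exact (tR.d4 e4.symm).elim
      | exact (tR.d4 e3).elim
      | exact (tR.d4 e3.symm).elim
      | exact (tR.e1 e4).elim
      | exact (tR.e1 e4.symm).elim
      | exact (tR.e1 e3).elim
      | exact (tR.e1 e3.symm).elim
      | exact (tR.e2 e4).elim
      | exact (tR.e2 e4.symm).elim
      | exact (tR.e2 e3).elim
      | exact (tR.e2 e3.symm).elim
      | exact (tB.c1 e4).elim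
      | exact (tB.c1 e4.symm).elim
      | exact (tB.c1 e3).elim
      | exact (tB.c1 e3.symm).elim
      | exact (tB.c2 e4).elim
      | exact (tB.c2 e4.symm).elim
      | exact (tB.c2 e3).elim
      | exact (tB.c2 e3.symm).elim
      | exact (tB.c3 e4).elim
      | exact (tB.c3 e4.symm).elim
      | exact (tB.c3 e3).elim
      | exact (tB.c3 e3.symm).elim
      | exact (tB.c4 e4).elim
      | exact (tB.c4 e4.symm).elim
      | exact (tB.c4 e3).elim
      | exact (tB.c4 e3.symm).elim
      | exact (tB.d1 e4).elim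
      | exact (tB.d1 e4.symm).elim
      | exact (tB.d1 e3).elim
      | exact (tB.d1 e3.symm).elim
      | exact (tB.d2 e4).elim
      | exact (tB.d2 e4.symm).elim
      | exact (tB.d2 e3).elim
      | exact (tB.d2 e3.symm).elim
      | exact (tB.d3 e4).elim
      | exact (tB.d3 e4.symm).elim
      | exact (tB.d3 e3).elim
      | exact (tB.d3 e3.symm).elim
      | exact (tB.d4 e4).elim
      | exact (tB.d4 e4.symm).elim
      | exact (tB.d4 e3).elim
      | exact (tB.d4 e3.symm).elim
      | exact (tB.e1 e4).elim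
      | exact (tB.e1 e4.symm).elim
      | exact (tB.e1 e3).elim
      | exact (tB.e1 e3.symm).elim
      | exact (tB.e2 e4).elim
      | exact (tB.e2 e4.symm).elim
      | exact (tB.e2 e3).elim
      | exact (tB.e2 e3.symm).elim
      | exact (tS.c1 e4).elim
      | exact (tS.c1 e4.symm).elim
      | exact (tS.c1 e3).elim
      | exact (tS.c1 e3.symm).elim
      | exact (tS.c2 e4).elim
      | exact (tS.c2 e4.symm).elim
      | exact (tS.c2 e3).elim
      | exact (tS.c2 e3.symm).elim
      | exact (tS.c3 e4).elim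
      | exact (tS.c3 e4.symm).elim
      | exact (tS.c3 e3).elim
      | exact (tS.c3 e3.symm).elim
      | exact (tS.c4 e4).elim
      | exact (tS.c4 e4.symm).elim
      | exact (tS.c4 e3).elim
      | exact (tS.c4 e3.symm).elim
      | exact (tS.d1 e4).elim
      | exact (tS.d1 e4.symm).elim
      | exact (tS.d1 e3).elim
      | exact (tS.d1 e3.symm).elim
      | exact (tS.d2 e4).elim
      | exact (tS.d2 e4.symm).elim
      | exact (tS.d2 e3).elim
      | exact (tS.d2 e3.symm).elim
      | exact (tS.d3 e4).elim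
      | exact (tS.d3 e4.symm).elim
      | exact (tS.d3 e3).elim
      | exact (tS.d3 e3.symm).elim
      | exact (tS.d4 e4).elim
      | exact (tS.d4 e4.symm).elim
      | exact (tS.d4 e3).elim
      | exact (tS.d4 e3.symm).elim
      | exact (tS.e1 e4).elim
      | exact (tS.e1 e4.symm).elim
      | exact (tS.e1 e3).elim
      | exact (tS.e1 e3.symm).elim
      | exact (tS.e2 e4).elim
      | exact (tS.e2 e4.symm).elim
      | exact (tS.e2 e3).elim
      | exact (tS.e2 e3.symm).elim
      | exact (nR'.c1 e3).elim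
      | exact (nR'.c1 e4).elim
      | exact (nR'.c1 e3.symm).elim
      | exact (nR'.c1 e4.symm).elim
      | exact (nR'.d1 e3).elim
      | exact (nR'.d1 e4).elim
      | exact (nR'.d1 e3.symm).elim
      | exact (nR'.d1 e4.symm).elim
      | exact (nR'.e1 e3).elim
      | exact (nR'.e1 e4).elim
      | exact (nR'.e1 e3.symm).elim
      | exact (nR'.e1 e4.symm).elim
      | exact (nR'.e2 e3).elim
      | exact (nR'.e2 e4).elim
      | exact (nR'.e2 e3.symm).elim
      | exact (nR'.e2 e4.symm).elim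
      | exact (nR'.c3 hR e3).elim
      | exact (nR'.c3 hS e3).elim
      | exact (nR'.c3 hQ e3).elim
      | exact (nR'.c3 hQ e3).elim
      | exact (nR'.c4 hR e3).elim
      | exact (nR'.c4 hS e3).elim
      | exact (nR'.c4 hQ e3).elim
      | exact (nR'.c4 hQ e3).elim
      | exact (nR'.d3 hR e3).elim
      | exact (nR'.d3 hS e3).elim
      | exact (nR'.d3 hQ e3).elim
      | exact (nR'.d3 hQ e3).elim
      | exact (nR'.d4 hR e3).elim
      | exact (nR'.d4 hS e3).elim
      | exact (nR'.d4 hQ e3).elim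
      | exact (nR'.d4 hQ e3).elim
      | exact (nB'.c1 e3).elim
      | exact (nB'.c1 e4).elim
      | exact (nB'.c1 e3.symm).elim
      | exact (nB'.c1 e4.symm).elim
      | exact (nB'.d1 e3).elim
      | exact (nB'.d1 e4).elim
      | exact (nB'.d1 e3.symm).elim
      | exact (nB'.d1 e4.symm).elim
      | exact (nB'.e1 e3).elim
      | exact (nB'.e1 e4).elim
      | exact (nB'.e1 e3.symm).elim
      | exact (nB'.e1 e4.symm).elim
      | exact (nB'.e2 e3).elim
      | exact (nB'.e2 e4).elim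
      | exact (nB'.e2 e3.symm).elim
      | exact (nB'.e2 e4.symm).elim
      | exact (nB'.c3 hR e3).elim
      | exact (nB'.c3 hS e3).elim
      | exact (nB'.c3 hQ e3).elim
      | exact (nB'.c3 hQ e3).elim
      | exact (nB'.c4 hR e3).elim
      | exact (nB'.c4 hS e3).elim
      | exact (nB'.c4 hQ e3).elim
      | exact (nB'.c4 hQ e3).elim
      | exact (nB'.d3 hR e3).elim
      | exact (nB'.d3 hS e3).elim
      | exact (nB'.d3 hQ e3).elim
      | exact (nB'.d3 hQ e3).elim
      | exact (nB'.d4 hR e3).elim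
      | exact (nB'.d4 hS e3).elim
      | exact (nB'.d4 hQ e3).elim
      | exact (nB'.d4 hQ e3).elim
      | exact (nS'.c1 e3).elim
      | exact (nS'.c1 e4).elim
      | exact (nS'.c1 e3.symm).elim
      | exact (nS'.c1 e4.symm).elim
      | exact (nS'.d1 e3).elim
      | exact (nS'.d1 e4).elim
      | exact (nS'.d1 e3.symm).elim
      | exact (nS'.d1 e4.symm).elim
      | exact (nS'.e1 e3).elim
      | exact (nS'.e1 e4).elim
      | exact (nS'.e1 e3.symm).elim
      | exact (nS'.e1 e4.symm).elim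
      | exact (nS'.e2 e3).elim
      | exact (nS'.e2 e4).elim
      | exact (nS'.e2 e3.symm).elim
      | exact (nS'.e2 e4.symm).elim
      | exact (nS'.c3 hR e3).elim
      | exact (nS'.c3 hS e3).elim
      | exact (nS'.c3 hQ e3).elim
      | exact (nS'.c3 hQ e3).elim
      | exact (nS'.c4 hR e3).elim
      | exact (nS'.c4 hS e3).elim
      | exact (nS'.c4 hQ e3).elim
      | exact (nS'.c4 hQ e3).elim
      | exact (nS'.d3 hR e3).elim
      | exact (nS'.d3 hS e3).elim
      | exact (nS'.d3 hQ e3).elim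
      | exact (nS'.d3 hQ e3).elim
      | exact (nS'.d4 hR e3).elim
      | exact (nS'.d4 hS e3).elim
      | exact (nS'.d4 hQ e3).elim
      | exact (nS'.d4 hQ e3).elim
      | (exfalso; simp [hR.symm, hS.symm, hR'.symm, hS'.symm, dB', (fun Y => (dB' Y).symm), lB, (fun Y => (lB Y).symm), lB', (fun Y => (lB' Y).symm), pc, snoc_iff, snoc_one, snoc_one', app_eq_nil, app, end2, end3, sn2, sn2', sn3, sn3', sn4, sn4', H1.app_nil, hR, hS, hR', hS', lR.a, lS.a, lR'.a, lS'.a, mR.a, mS.a, fR.a, fS.a, fR'.a, fS'.a, gR.a, gS.a, fun Y => (lR.a Y).symm, fun Y => (lS.a Y).symm, fun Y => (lR'.a Y).symm, fun Y => (lS'.a Y).symm, fun Y => (mR.a Y).symm, fun Y => (mS.a Y).symm, fun Y => (fR.a Y).symm, fun Y => (fS.a Y).symm, fun Y => (fR'.a Y).symm, fun Y => (fS'.a Y).symm, fun Y => (gR.a Y).symm, fun Y => (gS.a Y).symm, fun A Y => (lR.node A).a Y, fun A Y => (lS.node A).a Y, fun A C Y => ((lR.node A).node C).a Y, fun A C Y => ((lS.node A).node C).a Y, fun A C Y => (((lR.node A).node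 C).a Y).symm, fun A C Y => (((lS.node A).node C).a Y).symm] at e3; done)
      | (exfalso; simp [hR.symm, hS.symm, hR'.symm, hS'.symm, dB', (fun Y => (dB' Y).symm), lB, (fun Y => (lB Y).symm), lB', (fun Y => (lB' Y).symm), pc, snoc_iff, snoc_one, snoc_one', app_eq_nil, app, end2, end3, sn2, sn2', sn3, sn3', sn4, sn4', H1.app_nil, hR, hS, hR', hS', lR.a, lS.a, lR'.a, lS'.a, mR.a, mS.a, fR.a, fS.a, fR'.a, fS'.a, gR.a, gS.a, fun Y => (lR.a Y).symm, fun Y => (lS.a Y).symm, fun Y => (lR'.a Y).symm, fun Y => (lS'.a Y).symm, fun Y => (mR.a Y).symm, fun Y => (mS.a Y).symm, fun Y => (fR.a Y).symm, fun Y => (fS.a Y).symm, fun Y => (fR'.a Y).symm, fun Y => (fS'.a Y).symm, fun Y => (gR.a Y).symm, fun Y => (gS.a Y).symm, fun A Y => (lR.node A).a Y, fun A Y => (lS.node A).a Y, fun A C Y => ((lR.node A).node C).a Y, fun A C Y => ((lS.node A).node C).a Y, fun A C Y => (((lR.node A).node C).a Y).symm, fun A C Y => (((lS.node A).node C).a Y).symm] at e4; done)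
      | (exfalso; have l4 := congrArg H1.len e4; simp only [H1.len_app, len_node, len_nil, pc, app] at l4; omega)
      | (exfalso; have l4 := congrArg H1.len e3; simp only [H1.len_app, len_node, len_nil, pc, app] at l4; omega)
      | (exfalso; subst e3; simp [hR.symm, hS.symm, hR'.symm, hS'.symm, dB', (fun Y => (dB' Y).symm), lB, (fun Y => (lB Y).symm), lB', (fun Y => (lB' Y).symm), pc, snoc_iff, snoc_one, snoc_one', app_eq_nil, app, end2, end3, sn2, sn2', sn3, sn3', sn4, sn4', H1.app_nil, hR, hS, hR', hS', lR.a, lS.a, lR'.a, lS'.a, mR.a, mS.a, fR.a, fS.a, fR'.a, fS'.a, gR.a, gS.a, fun Y => (lR.a Y).symm, fun Y => (lS.a Y).symm, fun Y => (lR'.a Y).symm, fun Y => (lS'.a Y).symm, fun Y => (mR.a Y).symm, fun Y => (mS.a Y).symm, fun Y => (fR.a Y).symm, fun Y => (fS.a Y).symm, fun Y => (fR'.a Y).symm, fun Y => (fS'.a Y).symm, fun Y => (gR.a Y).symm, fun Y => (gS.a Y).symm, fun A Y => (lR.node A).a Y, fun A Y => (lS.node A).a Y, fun A C Y => ((lR.node A).node C).a Y, fun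 A C Y => ((lS.node A).node C).a Y, fun A C Y => (((lR.node A).node C).a Y).symm, fun A C Y => (((lS.node A).node C).a Y).symm] at e4; done)
      | skip
  · exact absurd e4 ((mS.node B).a _)
  · obtain rfl := pc_lf e3
    exact ⟨_, Or.inl rfl, Or.inl ⟨rfl, Or.inr (Or.inr ⟨fun hB => by rw [hB] at e4; exact nR'.d1 e4.symm, e4.symm⟩)⟩⟩
  · obtain rfl := pc_lf e3
    exact ⟨_, Or.inr ⟨hB', rfl⟩, Or.inl ⟨rfl, Or.inr (Or.inr ⟨fun hB => by rw [hB] at e4; exact nS'.d1 e4.symm, e4.symm⟩)⟩⟩
  · by_cases hX : X' = .nil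
    · rw [hX] at e4
      exact absurd (H1.node_inj e4).1 tB.d1
    · obtain ⟨P', h1, h2⟩ := fst_app hX e4.symm
      exact absurd h2 tS.c2
  · by_cases hX : X' = .nil
    · rw [hX] at e4
      exact absurd (H1.node_inj e4).2 tS.d1
    · obtain ⟨P', h1, h2⟩ := fst_app hX e4.symm
      exact absurd h2 tS.c1
  · obtain ⟨Q', h1, h2⟩ := lst_node hS e4
    exact absurd h1 tS.c3

theorem a0_m17 (h : SqD k R' B' S') (hR : R ≠ .nil) (hS : S ≠ .nil) (tR : T3 R) (tB : T3 B) (tS : T3 S)
    {j : ℕ} (hj : j < 20) (h9 : j ≠ 9) (q : ℕ)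
    (e : H1.W R' .nil B' S' j = aw R (pc (q + 1)) B S 17) :
    ∃ X, (X = R' ∨ (B' = .nil ∧ X = S')) ∧ PossA0 (q) R B S X := by
  have nR' : N1 R' := h.one
  have nB' : N1 B' := h.oneB
  have nS' : N1 S' := h.oneS
  have hR' := h.ne
  have hS' := h.neS
  have hQ : pc (q + 1) ≠ .nil := by simp [pc]
  have lR := L1.of tR.n1 hR
  have lS := L1.of tS.n1 hS
  have lR' := L1.of nR' hR'
  have lS' := L1.of nS' hS'
  have mR := L2.of tR hR
  have mS := L2.of tS hS
  have fR := F1.of tR.n1 hR
  have fS := F1.of tS.n1 hS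
  have fR' := F1.of nR' hR'
  have fS' := F1.of nS' hS'
  have gR := F2.of tR hR
  have gS := F2.of tS hS
  have dB' : ∀ Y, B' ≠ .nil △ Y := fun Y => nB'.d1
  have lB : ∀ Y, B ≠ app Y (.nil △ .nil) := fun Y => tB.n1.c1
  have lB' : ∀ Y, B' ≠ app Y (.nil △ .nil) := fun Y => nB'.c1
  have tT : T3 (app B (S △ .nil)) := tB.app (tS.one hS)
  have zR := H1.len_pos hR
  have zS := H1.len_pos hS
  have zR' := H1.len_pos hR'
  have zS' := H1.len_pos hS'
  have e' : H1.W R' .nil B' S' j = (app B (S △ .nil)) △ pc (q + 1) := e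
  rcases h.fstA hj h9 (by simp [app_eq_nil, pc, hR, hS]) e' with ⟨hj', X', e3, e4⟩ | ⟨hj', X', e3, e4⟩ | ⟨hj', e3, e4⟩ | ⟨hj', e3, e4⟩ |
    ⟨hj', e3, e4⟩ | ⟨hj', e3, e4⟩ | ⟨hj', hB', e3, e4⟩ | ⟨hj', X', e3, e4⟩ | ⟨hj', X', e3, e4⟩ | ⟨hj', e3, e4⟩ |
    ⟨hj', X', e3, e4⟩ | ⟨hj', e3, e4⟩ | ⟨hj', X', e3, e4⟩ | ⟨hj', e3, e4⟩ | ⟨hj', e3, e4⟩
  all_goals first
      | exact (hR e4).elim
      | exact (hR' e4.symm).elim
      | exact (hS e4).elim
      | exact (hR e4.symm).elim
      | exact (hS' e4.symm).elim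
      | exact (hS e4.symm).elim
      | exact (tR.c1 e4).elim
      | exact (tR.c1 e4.symm).elim
      | exact (tR.c1 e3).elim
      | exact (tR.c1 e3.symm).elim
      | exact (tR.c2 e4).elim
      | exact (tR.c2 e4.symm).elim
      | exact (tR.c2 e3).elim
      | exact (tR.c2 e3.symm).elim
      | exact (tR.c3 e4).elim
      | exact (tR.c3 e4.symm).elim
      | exact (tR.c3 e3).elim
      | exact (tR.c3 e3.symm).elim
      | exact (tR.c4 e4).elim
      | exact (tR.c4 e4.symm).elim
      | exact (tR.c4 e3).elim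
      | exact (tR.c4 e3.symm).elim
      | exact (tR.d1 e4).elim
      | exact (tR.d1 e4.symm).elim
      | exact (tR.d1 e3).elim
      | exact (tR.d1 e3.symm).elim
      | exact (tR.d2 e4).elim
      | exact (tR.d2 e4.symm).elim
      | exact (tR.d2 e3).elim
      | exact (tR.d2 e3.symm).elim
      | exact (tR.d3 e4).elim
      | exact (tR.d3 e4.symm).elim
      | exact (tR.d3 e3).elim
      | exact (tR.d3 e3.symm).elim
      | exact (tR.d4 e4).elim
      | exact (tR.d4 e4.symm).elim
      | exact (tR.d4 e3).elim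
      | exact (tR.d4 e3.symm).elim
      | exact (tR.e1 e4).elim
      | exact (tR.e1 e4.symm).elim
      | exact (tR.e1 e3).elim
      | exact (tR.e1 e3.symm).elim
      | exact (tR.e2 e4).elim
      | exact (tR.e2 e4.symm).elim
      | exact (tR.e2 e3).elim
      | exact (tR.e2 e3.symm).elim
      | exact (tB.c1 e4).elim
      | exact (tB.c1 e4.symm).elim
      | exact (tB.c1 e3).elim
      | exact (tB.c1 e3.symm).elim
      | exact (tB.c2 e4).elim
      | exact (tB.c2 e4.symm).elim
      | exact (tB.c2 e3).elim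
      | exact (tB.c2 e3.symm).elim
      | exact (tB.c3 e4).elim
      | exact (tB.c3 e4.symm).elim
      | exact (tB.c3 e3).elim
      | exact (tB.c3 e3.symm).elim
      | exact (tB.c4 e4).elim
      | exact (tB.c4 e4.symm).elim
      | exact (tB.c4 e3).elim
      | exact (tB.c4 e3.symm).elim
      | exact (tB.d1 e4).elim
      | exact (tB.d1 e4.symm).elim
      | exact (tB.d1 e3).elim
      | exact (tB.d1 e3.symm).elim
      | exact (tB.d2 e4).elim
      | exact (tB.d2 e4.symm).elim
      | exact (tB.d2 e3).elim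
      | exact (tB.d2 e3.symm).elim
      | exact (tB.d3 e4).elim
      | exact (tB.d3 e4.symm).elim
      | exact (tB.d3 e3).elim
      | exact (tB.d3 e3.symm).elim
      | exact (tB.d4 e4).elim
      | exact (tB.d4 e4.symm).elim
      | exact (tB.d4 e3).elim
      | exact (tB.d4 e3.symm).elim
      | exact (tB.e1 e4).elim
      | exact (tB.e1 e4.symm).elim
      | exact (tB.e1 e3).elim
      | exact (tB.e1 e3.symm).elim
      | exact (tB.e2 e4).elim
      | exact (tB.e2 e4.symm).elim
      | exact (tB.e2 e3).elim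
      | exact (tB.e2 e3.symm).elim
      | exact (tS.c1 e4).elim
      | exact (tS.c1 e4.symm).elim
      | exact (tS.c1 e3).elim
      | exact (tS.c1 e3.symm).elim
      | exact (tS.c2 e4).elim
      | exact (tS.c2 e4.symm).elim
      | exact (tS.c2 e3).elim
      | exact (tS.c2 e3.symm).elim
      | exact (tS.c3 e4).elim
      | exact (tS.c3 e4.symm).elim
      | exact (tS.c3 e3).elim
      | exact (tS.c3 e3.symm).elim
      | exact (tS.c4 e4).elim
      | exact (tS.c4 e4.symm).elim
      | exact (tS.c4 e3).elim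
      | exact (tS.c4 e3.symm).elim
      | exact (tS.d1 e4).elim
      | exact (tS.d1 e4.symm).elim
      | exact (tS.d1 e3).elim
      | exact (tS.d1 e3.symm).elim
      | exact (tS.d2 e4).elim
      | exact (tS.d2 e4.symm).elim
      | exact (tS.d2 e3).elim
      | exact (tS.d2 e3.symm).elim
      | exact (tS.d3 e4).elim
      | exact (tS.d3 e4.symm).elim
      | exact (tS.d3 e3).elim
      | exact (tS.d3 e3.symm).elim
      | exact (tS.d4 e4).elim
      | exact (tS.d4 e4.symm).elim
      | exact (tS.d4 e3).elim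
      | exact (tS.d4 e3.symm).elim
      | exact (tS.e1 e4).elim
      | exact (tS.e1 e4.symm).elim
      | exact (tS.e1 e3).elim
      | exact (tS.e1 e3.symm).elim
      | exact (tS.e2 e4).elim
      | exact (tS.e2 e4.symm).elim
      | exact (tS.e2 e3).elim
      | exact (tS.e2 e3.symm).elim
      | exact (nR'.c1 e3).elim
      | exact (nR'.c1 e4).elim
      | exact (nR'.c1 e3.symm).elim
      | exact (nR'.c1 e4.symm).elim
      | exact (nR'.d1 e3).elim
      | exact (nR'.d1 e4).elim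
      | exact (nR'.d1 e3.symm).elim
      | exact (nR'.d1 e4.symm).elim
      | exact (nR'.e1 e3).elim
      | exact (nR'.e1 e4).elim
      | exact (nR'.e1 e3.symm).elim
      | exact (nR'.e1 e4.symm).elim
      | exact (nR'.e2 e3).elim
      | exact (nR'.e2 e4).elim
      | exact (nR'.e2 e3.symm).elim
      | exact (nR'.e2 e4.symm).elim
      | exact (nR'.c3 hR e3).elim
      | exact (nR'.c3 hS e3).elim
      | exact (nR'.c3 hQ e3).elim
      | exact (nR'.c3 hQ e3).elim
      | exact (nR'.c4 hR e3).elim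
      | exact (nR'.c4 hS e3).elim
      | exact (nR'.c4 hQ e3).elim
      | exact (nR'.c4 hQ e3).elim
      | exact (nR'.d3 hR e3).elim
      | exact (nR'.d3 hS e3).elim
      | exact (nR'.d3 hQ e3).elim
      | exact (nR'.d3 hQ e3).elim
      | exact (nR'.d4 hR e3).elim
      | exact (nR'.d4 hS e3).elim
      | exact (nR'.d4 hQ e3).elim
      | exact (nR'.d4 hQ e3).elim
      | exact (nB'.c1 e3).elim
      | exact (nB'.c1 e4).elim
      | exact (nB'.c1 e3.symm).elim
      | exact (nB'.c1 e4.symm).elim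
      | exact (nB'.d1 e3).elim
      | exact (nB'.d1 e4).elim
      | exact (nB'.d1 e3.symm).elim
      | exact (nB'.d1 e4.symm).elim
      | exact (nB'.e1 e3).elim
      | exact (nB'.e1 e4).elim
      | exact (nB'.e1 e3.symm).elim
      | exact (nB'.e1 e4.symm).elim
      | exact (nB'.e2 e3).elim
      | exact (nB'.e2 e4).elim
      | exact (nB'.e2 e3.symm).elim
      | exact (nB'.e2 e4.symm).elim
      | exact (nB'.c3 hR e3).elim
      | exact (nB'.c3 hS e3).elim
      | exact (nB'.c3 hQ e3).elim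
      | exact (nB'.c3 hQ e3).elim
      | exact (nB'.c4 hR e3).elim
      | exact (nB'.c4 hS e3).elim
      | exact (nB'.c4 hQ e3).elim
      | exact (nB'.c4 hQ e3).elim
      | exact (nB'.d3 hR e3).elim
      | exact (nB'.d3 hS e3).elim
      | exact (nB'.d3 hQ e3).elim
      | exact (nB'.d3 hQ e3).elim
      | exact (nB'.d4 hR e3).elim
      | exact (nB'.d4 hS e3).elim
      | exact (nB'.d4 hQ e3).elim
      | exact (nB'.d4 hQ e3).elim
      | exact (nS'.c1 e3).elim
      | exact (nS'.c1 e4).elim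
      | exact (nS'.c1 e3.symm).elim
      | exact (nS'.c1 e4.symm).elim
      | exact (nS'.d1 e3).elim
      | exact (nS'.d1 e4).elim
      | exact (nS'.d1 e3.symm).elim
      | exact (nS'.d1 e4.symm).elim
      | exact (nS'.e1 e3).elim
      | exact (nS'.e1 e4).elim
      | exact (nS'.e1 e3.symm).elim
      | exact (nS'.e1 e4.symm).elim
      | exact (nS'.e2 e3).elim
      | exact (nS'.e2 e4).elim
      | exact (nS'.e2 e3.symm).elim
      | exact (nS'.e2 e4.symm).elim
      | exact (nS'.c3 hR e3).elim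
      | exact (nS'.c3 hS e3).elim
      | exact (nS'.c3 hQ e3).elim
      | exact (nS'.c3 hQ e3).elim
      | exact (nS'.c4 hR e3).elim
      | exact (nS'.c4 hS e3).elim
      | exact (nS'.c4 hQ e3).elim
      | exact (nS'.c4 hQ e3).elim
      | exact (nS'.d3 hR e3).elim
      | exact (nS'.d3 hS e3).elim
      | exact (nS'.d3 hQ e3).elim
      | exact (nS'.d3 hQ e3).elim
      | exact (nS'.d4 hR e3).elim
      | exact (nS'.d4 hS e3).elim
      | exact (nS'.d4 hQ e3).elim
      | exact (nS'.d4 hQ e3).elim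
      | (exfalso; simp [hR.symm, hS.symm, hR'.symm, hS'.symm, dB', (fun Y => (dB' Y).symm), lB, (fun Y => (lB Y).symm), lB', (fun Y => (lB' Y).symm), pc, snoc_iff, snoc_one, snoc_one', app_eq_nil, app, end2, end3, sn2, sn2', sn3, sn3', sn4, sn4', H1.app_nil, hR, hS, hR', hS', lR.a, lS.a, lR'.a, lS'.a, mR.a, mS.a, fR.a, fS.a, fR'.a, fS'.a, gR.a, gS.a, fun Y => (lR.a Y).symm, fun Y => (lS.a Y).symm, fun Y => (lR'.a Y).symm, fun Y => (lS'.a Y).symm, fun Y => (mR.a Y).symm, fun Y => (mS.a Y).symm, fun Y => (fR.a Y).symm, fun Y => (fS.a Y).symm, fun Y => (fR'.a Y).symm, fun Y => (fS'.a Y).symm, fun Y => (gR.a Y).symm, fun Y => (gS.a Y).symm, fun A Y => (lR.node A).a Y, fun A Y => (lS.node A).a Y, fun A C Y => ((lR.node A).node C).a Y, fun A C Y => ((lS.node A).node C).a Y, fun A C Y => (((lR.node A).node C).a Y).symm, fun A C Y => (((lS.node A).node C).a Y).symm] at e3; done)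
      | (exfalso; simp [hR.symm, hS.symm, hR'.symm, hS'.symm, dB', (fun Y => (dB' Y).symm), lB, (fun Y => (lB Y).symm), lB', (fun Y => (lB' Y).symm), pc, snoc_iff, snoc_one, snoc_one', app_eq_nil, app, end2, end3, sn2, sn2', sn3, sn3', sn4, sn4', H1.app_nil, hR, hS, hR', hS', lR.a, lS.a, lR'.a, lS'.a, mR.a, mS.a, fR.a, fS.a, fR'.a, fS'.a, gR.a, gS.a, fun Y => (lR.a Y).symm, fun Y => (lS.a Y).symm, fun Y => (lR'.a Y).symm, fun Y => (lS'.a Y).symm, fun Y => (mR.a Y).symm, fun Y => (mS.a Y).symm, fun Y => (fR.a Y).symm, fun Y => (fS.a Y).symm, fun Y => (fR'.a Y).symm, fun Y => (fS'.a Y).symm, fun Y => (gR.a Y).symm, fun Y => (gS.a Y).symm, fun A Y => (lR.node A).a Y, fun A Y => (lS.node A).a Y, fun A C Y => ((lR.node A).node C).a Y, fun A C Y => ((lS.node A).node C).a Y, fun A C Y => (((lR.node A).node C).a Y).symm, fun A C Y => (((lS.node A).node C).a Y).symm] at e4; done)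
      | (exfalso; have l4 := congrArg H1.len e4; simp only [H1.len_app, len_node, len_nil, pc, app] at l4; omega)
      | (exfalso; have l4 := congrArg H1.len e3; simp only [H1.len_app, len_node, len_nil, pc, app] at l4; omega)
      | (exfalso; subst e3; simp [hR.symm, hS.symm, hR'.symm, hS'.symm, dB', (fun Y => (dB' Y).symm), lB, (fun Y => (lB Y).symm), lB', (fun Y => (lB' Y).symm), pc, snoc_iff, snoc_one, snoc_one', app_eq_nil, app, end2, end3, sn2, sn2', sn3, sn3', sn4, sn4', H1.app_nil, hR, hS, hR', hS', lR.a, lS.a, lR'.a, lS'.a, mR.a, mS.a, fR.a, fS.a, fR'.a, fS'.a, gR.a, gS.a, fun Y => (lR.a Y).symm, fun Y => (lS.a Y).symm, fun Y => (lR'.a Y).symm, fun Y => (lS'.a Y).symm, fun Y => (mR.a Y).symm, fun Y => (mS.a Y).symm, fun Y => (fR.a Y).symm, fun Y => (fS.a Y).symm, fun Y => (fR'.a Y).symm, fun Y => (fS'.a Y).symm, fun Y => (gR.a Y).symm, fun Y => (gS.a Y).symm, fun A Y => (lR.node A).a Y, fun A Y => (lS.node A).a Y, fun A C Y => ((lR.node A).node C).a Y, fun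 A C Y => ((lS.node A).node C).a Y, fun A C Y => (((lR.node A).node C).a Y).symm, fun A C Y => (((lS.node A).node C).a Y).symm] at e4; done)
      | skip
  · obtain ⟨h5, h6⟩ := snoc_one'.1 (show pc q △ .nil = app X' ((.nil △ .nil) △ .nil) from e4)
    rw [h5] at e3
    have h7 : q = 1 := by
      cases q with
      | zero => exact absurd h6 (by simp [pc])
      | succ q => rw [pc_lf h6.symm]
    subst h7
    exact ⟨_, Or.inl rfl, Or.inr ⟨rfl, Or.inr (Or.inl e3)⟩⟩
  · obtain rfl := pc_lf e4; exact ⟨_, Or.inl rfl, Or.inl ⟨rfl, Or.inr (Or.inl e3.symm)⟩⟩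
  · obtain ⟨h5, h6⟩ := snoc_one'.1 (show pc q △ .nil = app B' (.nil △ .nil) from e4)
    obtain rfl := pc_z h6.symm
    exact ⟨_, Or.inr ⟨h5, rfl⟩, Or.inl ⟨rfl, Or.inr (Or.inl e3.symm)⟩⟩
  · obtain ⟨h5, h6⟩ := snoc_one'.1 (show pc q △ .nil = app X' ((app B' (.nil △ .nil)) △ .nil) from e4)
    rw [h5] at e3
    cases q with
    | zero => exact absurd h6 (by simp [pc, app_eq_nil])
    | succ q =>
      obtain ⟨h7, h8⟩ := snoc_one.1 (show app B' (.nil △ .nil) = pc q △ .nil from h6)
      obtain rfl := pc_z h8.symm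
      exact ⟨_, Or.inr ⟨h7, rfl⟩, Or.inr ⟨rfl, Or.inr (Or.inl e3)⟩⟩
  · exact absurd e3 tT.d1

theorem a0_m19a (h : SqD k R' B' S') (hR : R ≠ .nil) (hS : S ≠ .nil) (tR : T3 R) (tB : T3 B) (tS : T3 S)
    {j : ℕ} (hj : j < 20) (h9 : j ≠ 9) (q : ℕ)
    (e : H1.W R' .nil B' S' j = aw R (pc (0 + 1)) B S 19) :
    ∃ X, (X = R' ∨ (B' = .nil ∧ X = S')) ∧ PossA0 (0) R B S X := by
  have nR' : N1 R' := h.one
  have nB' : N1 B' := h.oneB
  have nS' : N1 S' := h.oneS
  have hR' := h.ne
  have hS' := h.neS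
  have hQ : pc (q + 1) ≠ .nil := by simp [pc]
  have lR := L1.of tR.n1 hR
  have lS := L1.of tS.n1 hS
  have lR' := L1.of nR' hR'
  have lS' := L1.of nS' hS'
  have mR := L2.of tR hR
  have mS := L2.of tS hS
  have fR := F1.of tR.n1 hR
  have fS := F1.of tS.n1 hS
  have fR' := F1.of nR' hR'
  have fS' := F1.of nS' hS'
  have gR := F2.of tR hR
  have gS := F2.of tS hS
  have dB' : ∀ Y, B' ≠ .nil △ Y := fun Y => nB'.d1
  have lB : ∀ Y, B ≠ app Y (.nil △ .nil) := fun Y => tB.n1.c1
  have lB' : ∀ Y, B' ≠ app Y (.nil △ .nil) := fun Y => nB'.c1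
  have tT : T3 (app B (S △ .nil)) := tB.app (tS.one hS)
  have zR := H1.len_pos hR
  have zS := H1.len_pos hS
  have zR' := H1.len_pos hR'
  have zS' := H1.len_pos hS'
  have e' : H1.W R' .nil B' S' j = .nil △ ((B △ S) △ .nil) := e
  rcases h.fst hj h9 e' with ⟨hj', e4⟩ | ⟨hj', e4⟩ | ⟨hj', e4⟩ | ⟨hj', e4⟩ | ⟨hj', e4⟩ | ⟨hj', hB', e4⟩
  all_goals first
      | exact (hR e4).elim
      | exact (hR' e4.symm).elim
      | exact (hS e4).elim
      | exact (hR e4.symm).elim
      | exact (hS' e4.symm).elim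
      | exact (hS e4.symm).elim
      | exact (tR.c1 e4).elim
      | exact (tR.c1 e4.symm).elim
      | exact (tR.c1 e3).elim
      | exact (tR.c1 e3.symm).elim
      | exact (tR.c2 e4).elim
      | exact (tR.c2 e4.symm).elim
      | exact (tR.c2 e3).elim
      | exact (tR.c2 e3.symm).elim
      | exact (tR.c3 e4).elim
      | exact (tR.c3 e4.symm).elim
      | exact (tR.c3 e3).elim
      | exact (tR.c3 e3.symm).elim
      | exact (tR.c4 e4).elim
      | exact (tR.c4 e4.symm).elim
      | exact (tR.c4 e3).elim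
      | exact (tR.c4 e3.symm).elim
      | exact (tR.d1 e4).elim
      | exact (tR.d1 e4.symm).elim
      | exact (tR.d1 e3).elim
      | exact (tR.d1 e3.symm).elim
      | exact (tR.d2 e4).elim
      | exact (tR.d2 e4.symm).elim
      | exact (tR.d2 e3).elim
      | exact (tR.d2 e3.symm).elim
      | exact (tR.d3 e4).elim
      | exact (tR.d3 e4.symm).elim
      | exact (tR.d3 e3).elim
      | exact (tR.d3 e3.symm).elim
      | exact (tR.d4 e4).elim
      | exact (tR.d4 e4.symm).elim
      | exact (tR.d4 e3).elim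
      | exact (tR.d4 e3.symm).elim
      | exact (tR.e1 e4).elim
      | exact (tR.e1 e4.symm).elim
      | exact (tR.e1 e3).elim
      | exact (tR.e1 e3.symm).elim
      | exact (tR.e2 e4).elim
      | exact (tR.e2 e4.symm).elim
      | exact (tR.e2 e3).elim
      | exact (tR.e2 e3.symm).elim
      | exact (tB.c1 e4).elim
      | exact (tB.c1 e4.symm).elim
      | exact (tB.c1 e3).elim
      | exact (tB.c1 e3.symm).elim
      | exact (tB.c2 e4).elim
      | exact (tB.c2 e4.symm).elim
      | exact (tB.c2 e3).elim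
      | exact (tB.c2 e3.symm).elim
      | exact (tB.c3 e4).elim
      | exact (tB.c3 e4.symm).elim
      | exact (tB.c3 e3).elim
      | exact (tB.c3 e3.symm).elim
      | exact (tB.c4 e4).elim
      | exact (tB.c4 e4.symm).elim
      | exact (tB.c4 e3).elim
      | exact (tB.c4 e3.symm).elim
      | exact (tB.d1 e4).elim
      | exact (tB.d1 e4.symm).elim
      | exact (tB.d1 e3).elim
      | exact (tB.d1 e3.symm).elim
      | exact (tB.d2 e4).elim
      | exact (tB.d2 e4.symm).elim
      | exact (tB.d2 e3).elim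
      | exact (tB.d2 e3.symm).elim
      | exact (tB.d3 e4).elim
      | exact (tB.d3 e4.symm).elim
      | exact (tB.d3 e3).elim
      | exact (tB.d3 e3.symm).elim
      | exact (tB.d4 e4).elim
      | exact (tB.d4 e4.symm).elim
      | exact (tB.d4 e3).elim
      | exact (tB.d4 e3.symm).elim
      | exact (tB.e1 e4).elim
      | exact (tB.e1 e4.symm).elim
      | exact (tB.e1 e3).elim
      | exact (tB.e1 e3.symm).elim
      | exact (tB.e2 e4).elim
      | exact (tB.e2 e4.symm).elim
      | exact (tB.e2 e3).elim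
      | exact (tB.e2 e3.symm).elim
      | exact (tS.c1 e4).elim
      | exact (tS.c1 e4.symm).elim
      | exact (tS.c1 e3).elim
      | exact (tS.c1 e3.symm).elim
      | exact (tS.c2 e4).elim
      | exact (tS.c2 e4.symm).elim
      | exact (tS.c2 e3).elim
      | exact (tS.c2 e3.symm).elim
      | exact (tS.c3 e4).elim
      | exact (tS.c3 e4.symm).elim
      | exact (tS.c3 e3).elim
      | exact (tS.c3 e3.symm).elim
      | exact (tS.c4 e4).elim
      | exact (tS.c4 e4.symm).elim
      | exact (tS.c4 e3).elim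
      | exact (tS.c4 e3.symm).elim
      | exact (tS.d1 e4).elim
      | exact (tS.d1 e4.symm).elim
      | exact (tS.d1 e3).elim
      | exact (tS.d1 e3.symm).elim
      | exact (tS.d2 e4).elim
      | exact (tS.d2 e4.symm).elim
      | exact (tS.d2 e3).elim
      | exact (tS.d2 e3.symm).elim
      | exact (tS.d3 e4).elim
      | exact (tS.d3 e4.symm).elim
      | exact (tS.d3 e3).elim
      | exact (tS.d3 e3.symm).elim
      | exact (tS.d4 e4).elim
      | exact (tS.d4 e4.symm).elim
      | exact (tS.d4 e3).elim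
      | exact (tS.d4 e3.symm).elim
      | exact (tS.e1 e4).elim
      | exact (tS.e1 e4.symm).elim
      | exact (tS.e1 e3).elim
      | exact (tS.e1 e3.symm).elim
      | exact (tS.e2 e4).elim
      | exact (tS.e2 e4.symm).elim
      | exact (tS.e2 e3).elim
      | exact (tS.e2 e3.symm).elim
      | exact (nR'.c1 e3).elim
      | exact (nR'.c1 e4).elim
      | exact (nR'.c1 e3.symm).elim
      | exact (nR'.c1 e4.symm).elim
      | exact (nR'.d1 e3).elim
      | exact (nR'.d1 e4).elim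
      | exact (nR'.d1 e3.symm).elim
      | exact (nR'.d1 e4.symm).elim
      | exact (nR'.e1 e3).elim
      | exact (nR'.e1 e4).elim
      | exact (nR'.e1 e3.symm).elim
      | exact (nR'.e1 e4.symm).elim
      | exact (nR'.e2 e3).elim
      | exact (nR'.e2 e4).elim
      | exact (nR'.e2 e3.symm).elim
      | exact (nR'.e2 e4.symm).elim
      | exact (nR'.c3 hR e3).elim
      | exact (nR'.c3 hS e3).elim
      | exact (nR'.c3 hQ e3).elim
      | exact (nR'.c3 hQ e3).elim
      | exact (nR'.c4 hR e3).elim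
      | exact (nR'.c4 hS e3).elim
      | exact (nR'.c4 hQ e3).elim
      | exact (nR'.c4 hQ e3).elim
      | exact (nR'.d3 hR e3).elim
      | exact (nR'.d3 hS e3).elim
      | exact (nR'.d3 hQ e3).elim
      | exact (nR'.d3 hQ e3).elim
      | exact (nR'.d4 hR e3).elim
      | exact (nR'.d4 hS e3).elim
      | exact (nR'.d4 hQ e3).elim
      | exact (nR'.d4 hQ e3).elim
      | exact (nB'.c1 e3).elim
      | exact (nB'.c1 e4).elim
      | exact (nB'.c1 e3.symm).elim
      | exact (nB'.c1 e4.symm).elim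
      | exact (nB'.d1 e3).elim
      | exact (nB'.d1 e4).elim
      | exact (nB'.d1 e3.symm).elim
      | exact (nB'.d1 e4.symm).elim
      | exact (nB'.e1 e3).elim
      | exact (nB'.e1 e4).elim
      | exact (nB'.e1 e3.symm).elim
      | exact (nB'.e1 e4.symm).elim
      | exact (nB'.e2 e3).elim
      | exact (nB'.e2 e4).elim
      | exact (nB'.e2 e3.symm).elim
      | exact (nB'.e2 e4.symm).elim
      | exact (nB'.c3 hR e3).elim
      | exact (nB'.c3 hS e3).elim
      | exact (nB'.c3 hQ e3).elim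
      | exact (nB'.c3 hQ e3).elim
      | exact (nB'.c4 hR e3).elim
      | exact (nB'.c4 hS e3).elim
      | exact (nB'.c4 hQ e3).elim
      | exact (nB'.c4 hQ e3).elim
      | exact (nB'.d3 hR e3).elim
      | exact (nB'.d3 hS e3).elim
      | exact (nB'.d3 hQ e3).elim
      | exact (nB'.d3 hQ e3).elim
      | exact (nB'.d4 hR e3).elim
      | exact (nB'.d4 hS e3).elim
      | exact (nB'.d4 hQ e3).elim
      | exact (nB'.d4 hQ e3).elim
      | exact (nS'.c1 e3).elim
      | exact (nS'.c1 e4).elim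
      | exact (nS'.c1 e3.symm).elim
      | exact (nS'.c1 e4.symm).elim
      | exact (nS'.d1 e3).elim
      | exact (nS'.d1 e4).elim
      | exact (nS'.d1 e3.symm).elim
      | exact (nS'.d1 e4.symm).elim
      | exact (nS'.e1 e3).elim
      | exact (nS'.e1 e4).elim
      | exact (nS'.e1 e3.symm).elim
      | exact (nS'.e1 e4.symm).elim
      | exact (nS'.e2 e3).elim
      | exact (nS'.e2 e4).elim
      | exact (nS'.e2 e3.symm).elim
      | exact (nS'.e2 e4.symm).elim
      | exact (nS'.c3 hR e3).elim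
      | exact (nS'.c3 hS e3).elim
      | exact (nS'.c3 hQ e3).elim
      | exact (nS'.c3 hQ e3).elim
      | exact (nS'.c4 hR e3).elim
      | exact (nS'.c4 hS e3).elim
      | exact (nS'.c4 hQ e3).elim
      | exact (nS'.c4 hQ e3).elim
      | exact (nS'.d3 hR e3).elim
      | exact (nS'.d3 hS e3).elim
      | exact (nS'.d3 hQ e3).elim
      | exact (nS'.d3 hQ e3).elim
      | exact (nS'.d4 hR e3).elim
      | exact (nS'.d4 hS e3).elim
      | exact (nS'.d4 hQ e3).elim
      | exact (nS'.d4 hQ e3).elim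
      | (exfalso; simp [hR.symm, hS.symm, hR'.symm, hS'.symm, dB', (fun Y => (dB' Y).symm), lB, (fun Y => (lB Y).symm), lB', (fun Y => (lB' Y).symm), pc, snoc_iff, snoc_one, snoc_one', app_eq_nil, app, end2, end3, sn2, sn2', sn3, sn3', sn4, sn4', H1.app_nil, hR, hS, hR', hS', lR.a, lS.a, lR'.a, lS'.a, mR.a, mS.a, fR.a, fS.a, fR'.a, fS'.a, gR.a, gS.a, fun Y => (lR.a Y).symm, fun Y => (lS.a Y).symm, fun Y => (lR'.a Y).symm, fun Y => (lS'.a Y).symm, fun Y => (mR.a Y).symm, fun Y => (mS.a Y).symm, fun Y => (fR.a Y).symm, fun Y => (fS.a Y).symm, fun Y => (fR'.a Y).symm, fun Y => (fS'.a Y).symm, fun Y => (gR.a Y).symm, fun Y => (gS.a Y).symm, fun A Y => (lR.node A).a Y, fun A Y => (lS.node A).a Y, fun A C Y => ((lR.node A).node C).a Y, fun A C Y => ((lS.node A).node C).a Y, fun A C Y => (((lR.node A).node C).a Y).symm, fun A C Y => (((lS.node A).node C).a Y).symm] at e3; done)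
      | (exfalso; simp [hR.symm, hS.symm, hR'.symm, hS'.symm, dB', (fun Y => (dB' Y).symm), lB, (fun Y => (lB Y).symm), lB', (fun Y => (lB' Y).symm), pc, snoc_iff, snoc_one, snoc_one', app_eq_nil, app, end2, end3, sn2, sn2', sn3, sn3', sn4, sn4', H1.app_nil, hR, hS, hR', hS', lR.a, lS.a, lR'.a, lS'.a, mR.a, mS.a, fR.a, fS.a, fR'.a, fS'.a, gR.a, gS.a, fun Y => (lR.a Y).symm, fun Y => (lS.a Y).symm, fun Y => (lR'.a Y).symm, fun Y => (lS'.a Y).symm, fun Y => (mR.a Y).symm, fun Y => (mS.a Y).symm, fun Y => (fR.a Y).symm, fun Y => (fS.a Y).symm, fun Y => (fR'.a Y).symm, fun Y => (fS'.a Y).symm, fun Y => (gR.a Y).symm, fun Y => (gS.a Y).symm, fun A Y => (lR.node A).a Y, fun A Y => (lS.node A).a Y, fun A C Y => ((lR.node A).node C).a Y, fun A C Y => ((lS.node A).node C).a Y, fun A C Y => (((lR.node A).node C).a Y).symm, fun A C Y => (((lS.node A).node C).a Y).symm] at e4; done)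
      | (exfalso; have l4 := congrArg H1.len e4; simp only [H1.len_app, len_node, len_nil, pc, app] at l4; omega)
      | (exfalso; have l4 := congrArg H1.len e3; simp only [H1.len_app, len_node, len_nil, pc, app] at l4; omega)
      | (exfalso; subst e3; simp [hR.symm, hS.symm, hR'.symm, hS'.symm, dB', (fun Y => (dB' Y).symm), lB, (fun Y => (lB Y).symm), lB', (fun Y => (lB' Y).symm), pc, snoc_iff, snoc_one, snoc_one', app_eq_nil, app, end2, end3, sn2, sn2', sn3, sn3', sn4, sn4', H1.app_nil, hR, hS, hR', hS', lR.a, lS.a, lR'.a, lS'.a, mR.a, mS.a, fR.a, fS.a, fR'.a, fS'.a, gR.a, gS.a, fun Y => (lR.a Y).symm, fun Y => (lS.a Y).symm, fun Y => (lR'.a Y).symm, fun Y => (lS'.a Y).symm, fun Y => (mR.a Y).symm, fun Y => (mS.a Y).symm, fun Y => (fR.a Y).symm, fun Y => (fS.a Y).symm, fun Y => (fR'.a Y).symm, fun Y => (fS'.a Y).symm, fun Y => (gR.a Y).symm, fun Y => (gS.a Y).symm, fun A Y => (lR.node A).a Y, fun A Y => (lS.node A).a Y, fun A C Y => ((lR.node A).node C).a Y, fun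 A C Y => ((lS.node A).node C).a Y, fun A C Y => (((lR.node A).node C).a Y).symm, fun A C Y => (((lS.node A).node C).a Y).symm] at e4; done)
      | skip
  · have h5 := (H1.node_inj e4).1.symm
    exact ⟨_, Or.inl rfl, Or.inl ⟨rfl, Or.inr (Or.inr ⟨fun hB => by rw [hB] at h5; exact nR'.d1 h5, h5⟩)⟩⟩
  · have h5 := (H1.node_inj e4).1.symm
    exact ⟨_, Or.inr ⟨(H1.node_inj e4).2.symm, rfl⟩, Or.inl ⟨rfl, Or.inr (Or.inr ⟨fun hB => by rw [hB] at h5; exact nS'.d1 h5, h5⟩)⟩⟩

theorem a0_m19b (h : SqD k R' B' S') (hR : R ≠ .nil) (hS : S ≠ .nil) (tR : T3 R) (tB : T3 B) (tS : T3 S)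
    {j : ℕ} (hj : j < 20) (h9 : j ≠ 9) (q : ℕ)
    (e : H1.W R' .nil B' S' j = aw R (pc ((q + 1) + 1)) B S 19) :
    ∃ X, (X = R' ∨ (B' = .nil ∧ X = S')) ∧ PossA0 ((q + 1)) R B S X := by
  have nR' : N1 R' := h.one
  have nB' : N1 B' := h.oneB
  have nS' : N1 S' := h.oneS
  have hR' := h.ne
  have hS' := h.neS
  have hQ : pc (q + 1) ≠ .nil := by simp [pc]
  have lR := L1.of tR.n1 hR
  have lS := L1.of tS.n1 hS
  have lR' := L1.of nR' hR'
  have lS' := L1.of nS' hS'
  have mR := L2.of tR hR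
  have mS := L2.of tS hS
  have fR := F1.of tR.n1 hR
  have fS := F1.of tS.n1 hS
  have fR' := F1.of nR' hR'
  have fS' := F1.of nS' hS'
  have gR := F2.of tR hR
  have gS := F2.of tS hS
  have dB' : ∀ Y, B' ≠ .nil △ Y := fun Y => nB'.d1
  have lB : ∀ Y, B ≠ app Y (.nil △ .nil) := fun Y => tB.n1.c1
  have lB' : ∀ Y, B' ≠ app Y (.nil △ .nil) := fun Y => nB'.c1
  have tT : T3 (app B (S △ .nil)) := tB.app (tS.one hS)
  have zR := H1.len_pos hR
  have zS := H1.len_pos hS
  have zR' := H1.len_pos hR'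
  have zS' := H1.len_pos hS'
  have e' : H1.W R' .nil B' S' j = pc (q + 1) △ ((B △ S) △ .nil) := e
  rcases h.fstA hj h9 (by simp [app_eq_nil, pc, hR, hS]) e' with ⟨hj', X', e3, e4⟩ | ⟨hj', X', e3, e4⟩ | ⟨hj', e3, e4⟩ | ⟨hj', e3, e4⟩ |
    ⟨hj', e3, e4⟩ | ⟨hj', e3, e4⟩ | ⟨hj', hB', e3, e4⟩ | ⟨hj', X', e3, e4⟩ | ⟨hj', X', e3, e4⟩ | ⟨hj', e3, e4⟩ |
    ⟨hj', X', e3, e4⟩ | ⟨hj', e3, e4⟩ | ⟨hj', X', e3, e4⟩ | ⟨hj', e3, e4⟩ | ⟨hj', e3, e4⟩
  all_goals first
      | exact (hR e4).elim
      | exact (hR' e4.symm).elim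
      | exact (hS e4).elim
      | exact (hR e4.symm).elim
      | exact (hS' e4.symm).elim
      | exact (hS e4.symm).elim
      | exact (tR.c1 e4).elim
      | exact (tR.c1 e4.symm).elim
      | exact (tR.c1 e3).elim
      | exact (tR.c1 e3.symm).elim
      | exact (tR.c2 e4).elim
      | exact (tR.c2 e4.symm).elim
      | exact (tR.c2 e3).elim
      | exact (tR.c2 e3.symm).elim
      | exact (tR.c3 e4).elim
      | exact (tR.c3 e4.symm).elim
      | exact (tR.c3 e3).elim
      | exact (tR.c3 e3.symm).elim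
      | exact (tR.c4 e4).elim
      | exact (tR.c4 e4.symm).elim
      | exact (tR.c4 e3).elim
      | exact (tR.c4 e3.symm).elim
      | exact (tR.d1 e4).elim
      | exact (tR.d1 e4.symm).elim
      | exact (tR.d1 e3).elim
      | exact (tR.d1 e3.symm).elim
      | exact (tR.d2 e4).elim
      | exact (tR.d2 e4.symm).elim
      | exact (tR.d2 e3).elim
      | exact (tR.d2 e3.symm).elim
      | exact (tR.d3 e4).elim
      | exact (tR.d3 e4.symm).elim
      | exact (tR.d3 e3).elim
      | exact (tR.d3 e3.symm).elim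
      | exact (tR.d4 e4).elim
      | exact (tR.d4 e4.symm).elim
      | exact (tR.d4 e3).elim
      | exact (tR.d4 e3.symm).elim
      | exact (tR.e1 e4).elim
      | exact (tR.e1 e4.symm).elim
      | exact (tR.e1 e3).elim
      | exact (tR.e1 e3.symm).elim
      | exact (tR.e2 e4).elim
      | exact (tR.e2 e4.symm).elim
      | exact (tR.e2 e3).elim
      | exact (tR.e2 e3.symm).elim
      | exact (tB.c1 e4).elim
      | exact (tB.c1 e4.symm).elim
      | exact (tB.c1 e3).elim
      | exact (tB.c1 e3.symm).elim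
      | exact (tB.c2 e4).elim
      | exact (tB.c2 e4.symm).elim
      | exact (tB.c2 e3).elim
      | exact (tB.c2 e3.symm).elim
      | exact (tB.c3 e4).elim
      | exact (tB.c3 e4.symm).elim
      | exact (tB.c3 e3).elim
      | exact (tB.c3 e3.symm).elim
      | exact (tB.c4 e4).elim
      | exact (tB.c4 e4.symm).elim
      | exact (tB.c4 e3).elim
      | exact (tB.c4 e3.symm).elim
      | exact (tB.d1 e4).elim
      | exact (tB.d1 e4.symm).elim
      | exact (tB.d1 e3).elim
      | exact (tB.d1 e3.symm).elim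
      | exact (tB.d2 e4).elim
      | exact (tB.d2 e4.symm).elim
      | exact (tB.d2 e3).elim
      | exact (tB.d2 e3.symm).elim
      | exact (tB.d3 e4).elim
      | exact (tB.d3 e4.symm).elim
      | exact (tB.d3 e3).elim
      | exact (tB.d3 e3.symm).elim
      | exact (tB.d4 e4).elim
      | exact (tB.d4 e4.symm).elim
      | exact (tB.d4 e3).elim
      | exact (tB.d4 e3.symm).elim
      | exact (tB.e1 e4).elim
      | exact (tB.e1 e4.symm).elim
      | exact (tB.e1 e3).elim
      | exact (tB.e1 e3.symm).elim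
      | exact (tB.e2 e4).elim
      | exact (tB.e2 e4.symm).elim
      | exact (tB.e2 e3).elim
      | exact (tB.e2 e3.symm).elim
      | exact (tS.c1 e4).elim
      | exact (tS.c1 e4.symm).elim
      | exact (tS.c1 e3).elim
      | exact (tS.c1 e3.symm).elim
      | exact (tS.c2 e4).elim
      | exact (tS.c2 e4.symm).elim
      | exact (tS.c2 e3).elim
      | exact (tS.c2 e3.symm).elim
      | exact (tS.c3 e4).elim
      | exact (tS.c3 e4.symm).elim
      | exact (tS.c3 e3).elim
      | exact (tS.c3 e3.symm).elim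
      | exact (tS.c4 e4).elim
      | exact (tS.c4 e4.symm).elim
      | exact (tS.c4 e3).elim
      | exact (tS.c4 e3.symm).elim
      | exact (tS.d1 e4).elim
      | exact (tS.d1 e4.symm).elim
      | exact (tS.d1 e3).elim
      | exact (tS.d1 e3.symm).elim
      | exact (tS.d2 e4).elim
      | exact (tS.d2 e4.symm).elim
      | exact (tS.d2 e3).elim
      | exact (tS.d2 e3.symm).elim
      | exact (tS.d3 e4).elim
      | exact (tS.d3 e4.symm).elim
      | exact (tS.d3 e3).elim
      | exact (tS.d3 e3.symm).elim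
      | exact (tS.d4 e4).elim
      | exact (tS.d4 e4.symm).elim
      | exact (tS.d4 e3).elim
      | exact (tS.d4 e3.symm).elim
      | exact (tS.e1 e4).elim
      | exact (tS.e1 e4.symm).elim
      | exact (tS.e1 e3).elim
      | exact (tS.e1 e3.symm).elim
      | exact (tS.e2 e4).elim
      | exact (tS.e2 e4.symm).elim
      | exact (tS.e2 e3).elim
      | exact (tS.e2 e3.symm).elim
      | exact (nR'.c1 e3).elim
      | exact (nR'.c1 e4).elim
      | exact (nR'.c1 e3.symm).elim
      | exact (nR'.c1 e4.symm).elim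
      | exact (nR'.d1 e3).elim
      | exact (nR'.d1 e4).elim
      | exact (nR'.d1 e3.symm).elim
      | exact (nR'.d1 e4.symm).elim
      | exact (nR'.e1 e3).elim
      | exact (nR'.e1 e4).elim
      | exact (nR'.e1 e3.symm).elim
      | exact (nR'.e1 e4.symm).elim
      | exact (nR'.e2 e3).elim
      | exact (nR'.e2 e4).elim
      | exact (nR'.e2 e3.symm).elim
      | exact (nR'.e2 e4.symm).elim
      | exact (nR'.c3 hR e3).elim
      | exact (nR'.c3 hS e3).elim
      | exact (nR'.c3 hQ e3).elim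
      | exact (nR'.c3 hQ e3).elim
      | exact (nR'.c4 hR e3).elim
      | exact (nR'.c4 hS e3).elim
      | exact (nR'.c4 hQ e3).elim
      | exact (nR'.c4 hQ e3).elim
      | exact (nR'.d3 hR e3).elim
      | exact (nR'.d3 hS e3).elim
      | exact (nR'.d3 hQ e3).elim
      | exact (nR'.d3 hQ e3).elim
      | exact (nR'.d4 hR e3).elim
      | exact (nR'.d4 hS e3).elim
      | exact (nR'.d4 hQ e3).elim
      | exact (nR'.d4 hQ e3).elim
      | exact (nB'.c1 e3).elim
      | exact (nB'.c1 e4).elim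
      | exact (nB'.c1 e3.symm).elim
      | exact (nB'.c1 e4.symm).elim
      | exact (nB'.d1 e3).elim
      | exact (nB'.d1 e4).elim
      | exact (nB'.d1 e3.symm).elim
      | exact (nB'.d1 e4.symm).elim
      | exact (nB'.e1 e3).elim
      | exact (nB'.e1 e4).elim
      | exact (nB'.e1 e3.symm).elim
      | exact (nB'.e1 e4.symm).elim
      | exact (nB'.e2 e3).elim
      | exact (nB'.e2 e4).elim
      | exact (nB'.e2 e3.symm).elim
      | exact (nB'.e2 e4.symm).elim
      | exact (nB'.c3 hR e3).elim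
      | exact (nB'.c3 hS e3).elim
      | exact (nB'.c3 hQ e3).elim
      | exact (nB'.c3 hQ e3).elim
      | exact (nB'.c4 hR e3).elim
      | exact (nB'.c4 hS e3).elim
      | exact (nB'.c4 hQ e3).elim
      | exact (nB'.c4 hQ e3).elim
      | exact (nB'.d3 hR e3).elim
      | exact (nB'.d3 hS e3).elim
      | exact (nB'.d3 hQ e3).elim
      | exact (nB'.d3 hQ e3).elim
      | exact (nB'.d4 hR e3).elim
      | exact (nB'.d4 hS e3).elim
      | exact (nB'.d4 hQ e3).elim
      | exact (nB'.d4 hQ e3).elim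
      | exact (nS'.c1 e3).elim
      | exact (nS'.c1 e4).elim
      | exact (nS'.c1 e3.symm).elim
      | exact (nS'.c1 e4.symm).elim
      | exact (nS'.d1 e3).elim
      | exact (nS'.d1 e4).elim
      | exact (nS'.d1 e3.symm).elim
      | exact (nS'.d1 e4.symm).elim
      | exact (nS'.e1 e3).elim
      | exact (nS'.e1 e4).elim
      | exact (nS'.e1 e3.symm).elim
      | exact (nS'.e1 e4.symm).elim
      | exact (nS'.e2 e3).elim
      | exact (nS'.e2 e4).elim
      | exact (nS'.e2 e3.symm).elim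
      | exact (nS'.e2 e4.symm).elim
      | exact (nS'.c3 hR e3).elim
      | exact (nS'.c3 hS e3).elim
      | exact (nS'.c3 hQ e3).elim
      | exact (nS'.c3 hQ e3).elim
      | exact (nS'.c4 hR e3).elim
      | exact (nS'.c4 hS e3).elim
      | exact (nS'.c4 hQ e3).elim
      | exact (nS'.c4 hQ e3).elim
      | exact (nS'.d3 hR e3).elim
      | exact (nS'.d3 hS e3).elim
      | exact (nS'.d3 hQ e3).elim
      | exact (nS'.d3 hQ e3).elim
      | exact (nS'.d4 hR e3).elim
      | exact (nS'.d4 hS e3).elim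
      | exact (nS'.d4 hQ e3).elim
      | exact (nS'.d4 hQ e3).elim
      | (exfalso; simp [hR.symm, hS.symm, hR'.symm, hS'.symm, dB', (fun Y => (dB' Y).symm), lB, (fun Y => (lB Y).symm), lB', (fun Y => (lB' Y).symm), pc, snoc_iff, snoc_one, snoc_one', app_eq_nil, app, end2, end3, sn2, sn2', sn3, sn3', sn4, sn4', H1.app_nil, hR, hS, hR', hS', lR.a, lS.a, lR'.a, lS'.a, mR.a, mS.a, fR.a, fS.a, fR'.a, fS'.a, gR.a, gS.a, fun Y => (lR.a Y).symm, fun Y => (lS.a Y).symm, fun Y => (lR'.a Y).symm, fun Y => (lS'.a Y).symm, fun Y => (mR.a Y).symm, fun Y => (mS.a Y).symm, fun Y => (fR.a Y).symm, fun Y => (fS.a Y).symm, fun Y => (fR'.a Y).symm, fun Y => (fS'.a Y).symm, fun Y => (gR.a Y).symm, fun Y => (gS.a Y).symm, fun A Y => (lR.node A).a Y, fun A Y => (lS.node A).a Y, fun A C Y => ((lR.node A).node C).a Y, fun A C Y => ((lS.node A).node C).a Y, fun A C Y => (((lR.node A).node C).a Y).symm, fun A C Y => (((lS.node A).node C).a Y).symm] at e3; done)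
      | (exfalso; simp [hR.symm, hS.symm, hR'.symm, hS'.symm, dB', (fun Y => (dB' Y).symm), lB, (fun Y => (lB Y).symm), lB', (fun Y => (lB' Y).symm), pc, snoc_iff, snoc_one, snoc_one', app_eq_nil, app, end2, end3, sn2, sn2', sn3, sn3', sn4, sn4', H1.app_nil, hR, hS, hR', hS', lR.a, lS.a, lR'.a, lS'.a, mR.a, mS.a, fR.a, fS.a, fR'.a, fS'.a, gR.a, gS.a, fun Y => (lR.a Y).symm, fun Y => (lS.a Y).symm, fun Y => (lR'.a Y).symm, fun Y => (lS'.a Y).symm, fun Y => (mR.a Y).symm, fun Y => (mS.a Y).symm, fun Y => (fR.a Y).symm, fun Y => (fS.a Y).symm, fun Y => (fR'.a Y).symm, fun Y => (fS'.a Y).symm, fun Y => (gR.a Y).symm, fun Y => (gS.a Y).symm, fun A Y => (lR.node A).a Y, fun A Y => (lS.node A).a Y, fun A C Y => ((lR.node A).node C).a Y, fun A C Y => ((lS.node A).node C).a Y, fun A C Y => (((lR.node A).node C).a Y).symm, fun A C Y => (((lS.node A).node C).a Y).symm] at e4; done)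
      | (exfalso; have l4 := congrArg H1.len e4; simp only [H1.len_app, len_node, len_nil, pc, app] at l4; omega)
      | (exfalso; have l4 := congrArg H1.len e3; simp only [H1.len_app, len_node, len_nil, pc, app] at l4; omega)
      | (exfalso; subst e3; simp [hR.symm, hS.symm, hR'.symm, hS'.symm, dB', (fun Y => (dB' Y).symm), lB, (fun Y => (lB Y).symm), lB', (fun Y => (lB' Y).symm), pc, snoc_iff, snoc_one, snoc_one', app_eq_nil, app, end2, end3, sn2, sn2', sn3, sn3', sn4, sn4', H1.app_nil, hR, hS, hR', hS', lR.a, lS.a, lR'.a, lS'.a, mR.a, mS.a, fR.a, fS.a, fR'.a, fS'.a, gR.a, gS.a, fun Y => (lR.a Y).symm, fun Y => (lS.a Y).symm, fun Y => (lR'.a Y).symm, fun Y => (lS'.a Y).symm, fun Y => (mR.a Y).symm, fun Y => (mS.a Y).symm, fun Y => (fR.a Y).symm, fun Y => (fS.a Y).symm, fun Y => (fR'.a Y).symm, fun Y => (fS'.a Y).symm, fun Y => (gR.a Y).symm, fun Y => (gS.a Y).symm, fun A Y => (lR.node A).a Y, fun A Y => (lS.node A).a Y, fun A C Y => ((lR.node A).node C).a Y, fun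 A C Y => ((lS.node A).node C).a Y, fun A C Y => (((lR.node A).node C).a Y).symm, fun A C Y => (((lS.node A).node C).a Y).symm] at e4; done)
      | skip
  · obtain rfl := pc_lf e3; exact ⟨_, Or.inl rfl, Or.inr ⟨rfl, Or.inr (Or.inr e4.symm)⟩⟩
  · obtain rfl := pc_lf e3; exact ⟨_, Or.inr ⟨hB', rfl⟩, Or.inr ⟨rfl, Or.inr (Or.inr e4.symm)⟩⟩
  · obtain ⟨h5, h6⟩ := snoc_one'.1 e4
    exact absurd h6.symm ((lS.node B).a _)

/-! ### The words 10, 11, 18 -/

/-- the number of the components `()` -/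
def nu : BinaryTree Unit → ℕ
  | .nil => 0
  | .node _ A B => (if H1.isNil A then 1 else 0) + nu B

theorem nu_node (A B : BinaryTree Unit) : nu (A △ B) = (if H1.isNil A then 1 else 0) + nu B := rfl

theorem nu_app (P Q : BinaryTree Unit) : nu (app P Q) = nu P + nu Q := by
  induction P with
  | nil => rw [app, nu, zero_add]
  | node _ A B _ ih =>
    change nu (A △ app B Q) = nu (A △ B) + nu Q
    rw [nu_node, nu_node, ih]
    omega

theorem N1.nu (h : N1 T) : J3.nu T = 0 := by
  induction T with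
  | nil => rfl
  | node _ A B _ ih =>
    change J3.nu (A △ B) = 0
    have h' : N1 (A △ B) := h
    rw [nu_node, ih h'.tl]
    have h1 : A ≠ .nil := (h'.comp (P := .nil) rfl).1
    rw [H1.isNil_f.2 h1]
    rfl

/-- a J word with all parts at least 3 is one component -/
theorem t3W (h : SqD k R' B' S') {j : ℕ} (hj : j < 20) (h9 : j ≠ 9) (t : T3 (H1.W R' .nil B' S' j)) :
    j = 17 ∨ j = 19 := by
  interval_cases j
  · exact absurd rfl (t.c2 (P := R') (Q := .nil))
  · exact absurd rfl (t.c1 (P := R') (Q := .nil △ .nil))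
  · exact absurd rfl (t.d1 (Q := app R' (.nil △ .nil)))
  · exact absurd rfl (t.d3 (A := R') (Q := .nil))
  · exact absurd rfl (t.d2 (Q := R'))
  · exact absurd rfl (t.d1 (Q := .nil △ R'))
  · exact absurd rfl (t.e2 (A := R'))
  · exact absurd rfl (t.d4 (A := R') (Q := .nil))
  · exact absurd rfl (t.d1 (Q := R' △ .nil))
  · exact absurd rfl h9
  · exact absurd rfl (t.c2 (P := B') (Q := S'))
  · exact absurd rfl (t.c1 (P := B') (Q := .nil △ S'))
  · exact absurd rfl (t.c1 (P := S' △ B') (Q := .nil))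
  · exact absurd rfl (t.c3 (P := S') (A := B') (Q := .nil))
  · exact absurd rfl (t.d4 (A := S') (Q := B'))
  · exact absurd rfl (t.d1 (Q := S' △ B'))
  · exact absurd rfl (t.e1 (P := S') (A := B'))
  · exact Or.inl rfl
  · exact absurd rfl (t.d1 (Q := app S' (B' △ .nil)))
  · exact Or.inr rfl

theorem cont_pc (q : ℕ) : OddHC.cont (pc (q + 1)) = {q + 1} := by
  induction q with
  | zero => rfl
  | succ q ih =>
    have e : OddHC.cont (pc (q + 1 + 1)) = raise (OddHC.cont (pc (q + 1))) + OddHC.cont BinaryTree.nil := rfl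
    rw [e, ih, cont_nil, add_zero]
    unfold raise
    rw [Multiset.sup_singleton, Multiset.erase_singleton]
    rfl

theorem a0_m10 (h : SqD k R' B' S') (hR : R ≠ .nil) (hS : S ≠ .nil) (tR : T3 R) (tB : T3 B) (tS : T3 S)
    {j : ℕ} (hj : j < 20) (h9 : j ≠ 9) (q : ℕ)
    (e : H1.W R' .nil B' S' j = aw R (pc (q + 1)) B S 10) : False := by
  have t : T3 (aw R (pc (q + 1)) B S 10) := by
    change T3 (app S ((pc (q + 1) △ .nil) △ B))
    refine tS.app ?_
    intro x hx
    have e2 : OddHC.cont ((pc (q + 1) △ .nil) △ B) = OddHC.cont (pc (q + 2 + 1)) + OddHC.cont B := by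
      change raise (OddHC.cont (pc (q + 1 + 1))) + _ = raise (OddHC.cont (pc (q + 1 + 1))) + 0 + _
      rw [add_zero]
    rw [e2, cont_pc] at hx
    rcases Multiset.mem_add.1 hx with hx | hx
    · rw [Multiset.mem_singleton] at hx
      omega
    · exact tB x hx
  rw [← e] at t
  have hl := congrArg H1.len e
  have e3 : H1.len (aw R (pc (q + 1)) B S 10) = H1.len S + (H1.len B + 1) := by
    change H1.len (app S (_ △ B)) = _
    rw [H1.len_app, len_node]
  have zS := H1.len_pos hS
  rcases t3W h hj h9 t with rfl | rfl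
  · have e4 : H1.len (H1.W R' .nil B' S' 17) = 1 := rfl
    omega
  · have e4 : H1.len (H1.W R' .nil B' S' 19) = 1 := rfl
    omega

theorem a0_m11 (h : SqD k R' B' S') (hR : R ≠ .nil) (hS : S ≠ .nil) (tR : T3 R) (tB : T3 B) (tS : T3 S)
    {j : ℕ} (hj : j < 20) (h9 : j ≠ 9) (q : ℕ)
    (e : H1.W R' .nil B' S' j = aw R (pc (q + 1)) B S 11) : False := by
  have nR' : N1 R' := h.one
  have nB' : N1 B' := h.oneB
  have nS' : N1 S' := h.oneS
  have hR' := h.ne
  have hS' := h.neS
  have fS := F1.of tS.n1 hS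
  have iR : H1.isNil R' = false := H1.isNil_f.2 hR'
  have iS : H1.isNil S' = false := H1.isNil_f.2 hS'
  have i0 : H1.isNil (BinaryTree.nil : BinaryTree Unit) = true := rfl
  have i1 : ∀ P Q : BinaryTree Unit, H1.isNil (P △ Q) = false := fun _ _ => rfl
  have e' : H1.W R' .nil B' S' j = app S (.nil △ (pc q △ (.nil △ B))) := e
  have hn := congrArg nu e'
  rw [nu_app, nu_node, nu_node, nu_node, tS.n1.nu, tB.n1.nu, i0] at hn
  have hn2 : 2 ≤ nu (H1.W R' .nil B' S' j) := by rw [hn]; simp; omega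
  have ia : ∀ P Q R : BinaryTree Unit, H1.isNil (app P (Q △ R)) = false := fun P Q R =>
    H1.isNil_f.2 (H1.app_ne (by simp))
  have u1 : ∀ {T V : BinaryTree Unit}, N1 T → app T (.nil △ V) = app S (.nil △ (pc q △ (.nil △ B))) →
      V = pc q △ (.nil △ B) := fun hT e => (K4 hT tS.n1 e).2
  interval_cases j
  · simp only [H1.W, nu_app, nu_node, nR'.nu, i0, i1, nu] at hn2; simp at hn2
  · have := u1 nR' e'
    exact absurd (H1.node_inj this).2 (by simp)
  · exact absurd e'.symm ((fS.app _).a _)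
  · simp only [H1.W, nu_app, nu_node, nR'.nu, i0, i1, ia, nu] at hn2; simp at hn2
  · simp only [H1.W, app, nu_app, nu_node, nR'.nu, i0, i1, ia, nu] at hn2; simp at hn2
  · exact absurd e'.symm ((fS.app _).a _)
  · simp only [H1.W, nu_app, nu_node, nR'.nu, i0, i1, ia, iR, nu] at hn2; simp at hn2
  · simp only [H1.W, app, nu_app, nu_node, nR'.nu, i0, i1, ia, iR, nu] at hn2; simp at hn2
  · exact absurd e'.symm ((fS.app _).a _)
  · exact absurd rfl h9
  · simp only [H1.W, nu_app, nu_node, nB'.nu, nS'.nu, i0, i1, ia, iR, nu] at hn2; simp at hn2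
  · have := u1 nB' (show app B' (.nil △ (.nil △ S')) = _ from e')
    exact absurd (H1.node_inj this).2 nS'.d1
  · simp only [H1.W, nu_app, nu_node, nB'.nu, nS'.nu, i0, i1, ia, iS, nu] at hn2; simp at hn2
  · simp only [H1.W, app, nu_app, nu_node, nB'.nu, nS'.nu, i0, i1, ia, iS, nu] at hn2; simp at hn2
  · simp only [H1.W, app, nu_app, nu_node, nB'.nu, nS'.nu, i0, i1, ia, iS, nu] at hn2; simp at hn2
  · exact absurd e'.symm ((fS.app _).a _)
  · by_cases hB : B' = .nil
    · subst hB
      have := u1 nS' (show app S' (.nil △ (.nil △ .nil)) = _ from e')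
      exact absurd (H1.node_inj this).2 (by simp)
    · simp only [H1.W, nu_app, nu_node, nB'.nu, nS'.nu, i0, i1, ia, iS, H1.isNil_f.2 hB, nu] at hn2; simp at hn2
  · simp only [H1.W, app, nu_app, nu_node, nB'.nu, nS'.nu, i0, i1, ia, iS, nu] at hn2; simp at hn2
  · exact absurd e'.symm ((fS.app _).a _)
  · simp only [H1.W, app, nu_app, nu_node, nB'.nu, nS'.nu, i0, i1, ia, iS, nu] at hn2; simp at hn2

theorem a0_m18 (h : SqD k R' B' S') (hR : R ≠ .nil) (hS : S ≠ .nil) (tR : T3 R) (tB : T3 B) (tS : T3 S)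
    {j : ℕ} (hj : j < 20) (h9 : j ≠ 9) (q : ℕ)
    (e : H1.W R' .nil B' S' j = aw R (pc (q + 1)) B S 18) :
    ∃ X, (X = R' ∨ (B' = .nil ∧ X = S')) ∧ PossA0 q R B S X := by
  have nR' : N1 R' := h.one
  have nB' : N1 B' := h.oneB
  have nS' : N1 S' := h.oneS
  have hR' := h.ne
  have hS' := h.neS
  have hQ : pc (q + 1) ≠ .nil := by simp [pc]
  have lR := L1.of tR.n1 hR
  have lS := L1.of tS.n1 hS
  have lR' := L1.of nR' hR'
  have lS' := L1.of nS' hS'
  have mR := L2.of tR hR
  have mS := L2.of tS hS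
  have fR := F1.of tR.n1 hR
  have fS := F1.of tS.n1 hS
  have fR' := F1.of nR' hR'
  have fS' := F1.of nS' hS'
  have gR := F2.of tR hR
  have gS := F2.of tS hS
  have dB' : ∀ Y, B' ≠ .nil △ Y := fun Y => nB'.d1
  have lB : ∀ Y, B ≠ app Y (.nil △ .nil) := fun Y => tB.n1.c1
  have lB' : ∀ Y, B' ≠ app Y (.nil △ .nil) := fun Y => nB'.c1
  have tT : T3 (app B (S △ .nil)) := tB.app (tS.one hS)
  have zR := H1.len_pos hR
  have zS := H1.len_pos hS
  have zR' := H1.len_pos hR'
  have zS' := H1.len_pos hS'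
  have hBn : ∀ {X : BinaryTree Unit}, N1 X → X = B △ S → B ≠ .nil := by
    rintro X hX h1 rfl
    exact hX.d1 h1
  have kS : ∀ {X : BinaryTree Unit}, N1 X → X ≠ app S (.nil △ .nil) := fun hX => hX.c1
  cases q with
  | zero =>
    have e' : H1.W R' .nil B' S' j = app (app (B △ S) (.nil △ .nil)) (.nil △ .nil) := by
      rw [e, H1.app_assoc]
      rfl
    rcases h.lst hj h9 e' with ⟨_, e4⟩ | ⟨_, e4⟩ | ⟨_, e4⟩ | ⟨_, e4⟩ | ⟨_, e4⟩ | ⟨_, hB', e4⟩
    · have h1 := (H1.app_snoc e4).1.symm
      exact ⟨_, Or.inl rfl, Or.inl ⟨rfl, Or.inr (Or.inr ⟨hBn nR' h1, h1⟩)⟩⟩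
    · exact absurd (H1.node_inj (show B △ app S (.nil △ .nil) = .nil △ R' from e4)).2.symm (kS nR')
    · exact absurd (snoc_one.1 e4).2 hR'.symm
    · exact absurd (H1.node_inj (show B △ app S (.nil △ .nil) = S' △ B' from e4)).2.symm (kS nB')
    · obtain ⟨h1, h2⟩ := H1.app_snoc e4
      exact ⟨_, Or.inr ⟨h2.symm, rfl⟩, Or.inl ⟨rfl, Or.inr (Or.inr ⟨hBn nS' h1.symm, h1.symm⟩)⟩⟩
    · exact absurd (H1.node_inj (show B △ app S (.nil △ .nil) = .nil △ S' from e4)).2.symm (kS nS')
  | succ q =>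
    exfalso
    have e' : H1.W R' .nil B' S' j = app (app (B △ S) (.nil △ .nil)) (pc (q + 1) △ .nil) := by
      rw [e, H1.app_assoc]
      rfl
    have e5 : app (B △ S) (.nil △ .nil) = B △ app S (.nil △ .nil) := rfl
    rcases h.lstA hj h9 (by simp [pc]) e' with ⟨_, e3, e4⟩ | ⟨_, X', e3, e4⟩ | ⟨_, X', e3, e4⟩ | ⟨_, e3, e4⟩ |
      ⟨_, X', e3, e4⟩ | ⟨_, X', e3, e4⟩ | ⟨_, e3, e4⟩ | ⟨_, hB', e3, e4⟩ | ⟨_, X', e3, e4⟩ | ⟨_, hB', e3, e4⟩ |
      ⟨_, X', e3, e4⟩ | ⟨_, e3, e4⟩ | ⟨_, e3, e4⟩ | ⟨_, e3, e4⟩ | ⟨_, e3, e4⟩ | ⟨_, e3, e4⟩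
    · exact nR'.c1 e4.symm
    · exact tB.d1 (H1.node_inj (e5.symm.trans e4)).1
    · exact (fS.app _).a _ (H1.node_inj (e5.symm.trans e4)).2
    · exact absurd (H1.node_inj (e5.symm.trans e4)).2 (by simp [app_eq_nil])
    · have h5 := K3 (P := app B' ((.nil △ .nil) △ .nil)) (by rw [e3] at nS'; exact nS'.fr)
        (by rw [e4, H1.app_assoc]; rfl)
      subst h5
      exact absurd (H1.app_snoc e4).2 (by simp)
    · have h5 := K3 (P := app B' (.nil △ (.nil △ .nil))) (by rw [e3] at nS'; exact nS'.fr)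
        (by rw [e4, H1.app_assoc]; rfl)
      subst h5
      rw [end2] at e4
      exact (lS.node B).a _ (H1.app_snoc e4).1
    · exact nS'.c1 e4.symm
    · exact absurd e4 (by rw [e5]; simp)
    · have h1 := (H1.node_inj (e5.symm.trans e4)).2
      exact kS (by rw [e3] at nB'; exact nB'.fr) h1.symm
    · exact absurd (H1.node_inj (e5.symm.trans e4)).2 (by simp [app_eq_nil])
    · have h1 := (H1.node_inj (e5.symm.trans e4)).2
      obtain ⟨P', h2, h3⟩ := fst_app hS h1
      exact (show N1 X' by rw [e3] at nB'; exact nB'.fr).c1 h3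
    · exact kS nS' (H1.node_inj (e5.symm.trans e4)).2.symm
    · exact absurd e4 (by rw [e5]; simp)
    · exact absurd e4 (by rw [e5]; simp)
    · exact absurd e4 (by rw [e5]; simp)
    · exact absurd e4 (by rw [e5]; simp)

/-- **W-A0-J3V**, the core: a common word of the mirrored window and the 19 words has one of the listed forms -/
theorem SqD.a0W (h : SqD k R' B' S') (hR : R ≠ .nil) (hS : S ≠ .nil) (tR : T3 R) (tB : T3 B) (tS : T3 S)
    {i j : ℕ} (hi : i < 20) (hj : j < 20) (h9 : j ≠ 9) (q : ℕ)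
    (e : H1.W R' .nil B' S' j = aw R (pc (q + 1)) B S i) :
    ∃ X, (X = R' ∨ (B' = .nil ∧ X = S')) ∧ PossA0 q R B S X := by
  have split : ∀ {P : ℕ → Prop}, P 0 → (∀ n, P (n + 1)) → ∀ n, P n := fun h0 h1 n => by
    cases n with
    | zero => exact h0
    | succ n => exact h1 n
  interval_cases i
  · exact a0_m0 h hR hS tR tB tS hj h9 q e
  · exact a0_m1 h hR hS tR tB tS hj h9 q e
  · cases q with
    | zero => exact a0_m2a h hR hS tR tB tS hj h9 0 e
    | succ q => exact a0_m2b h hR hS tR tB tS hj h9 q e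
  · exact a0_m3 h hR hS tR tB tS hj h9 q e
  · exact a0_m4 h hR hS tR tB tS hj h9 q e
  · exact a0_m5 h hR hS tR tB tS hj h9 q e
  · exact a0_m6 h hR hS tR tB tS hj h9 q e
  · exact a0_m7 h hR hS tR tB tS hj h9 q e
  · exact a0_m8 h hR hS tR tB tS hj h9 q e
  · cases q with
    | zero => exact a0_m9a h hR hS tR tB tS hj h9 0 e
    | succ q => exact a0_m9b h hR hS tR tB tS hj h9 q e
  · exact (a0_m10 h hR hS tR tB tS hj h9 q e).elim
  · exact (a0_m11 h hR hS tR tB tS hj h9 q e).elim
  · cases q with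
    | zero => exact a0_m12a h hR hS tR tB tS hj h9 0 e
    | succ q => exact a0_m12b h hR hS tR tB tS hj h9 q e
  · exact a0_m13 h hR hS tR tB tS hj h9 q e
  · exact a0_m14 h hR hS tR tB tS hj h9 q e
  · exact a0_m15 h hR hS tR tB tS hj h9 q e
  · exact a0_m16 h hR hS tR tB tS hj h9 q e
  · exact a0_m17 h hR hS tR tB tS hj h9 q e
  · exact a0_m18 h hR hS tR tB tS hj h9 q e
  · cases q with
    | zero => exact a0_m19a h hR hS tR tB tS hj h9 0 e
    | succ q => exact a0_m19b h hR hS tR tB tS hj h9 q e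

/-- all the forms have only parts at least 3 -/
theorem PossA0.t3 {q : ℕ} (hR : R ≠ .nil) (hS : S ≠ .nil) (tR : T3 R) (tB : T3 B) (tS : T3 S)
    (h : PossA0 q R B S X) (hX : N1 X) : T3 X := by
  have tT : T3 (app B (S △ .nil)) := tB.app (tS.one hS)
  have nT : app B (S △ .nil) ≠ .nil := H1.app_ne (by simp)
  rcases h with ⟨_, rfl | rfl | ⟨hB, rfl⟩⟩ | ⟨_, rfl | rfl | rfl⟩
  · exact tR.one hR
  · exact tT
  · exact tB.nod hB tS
  · exact (tR.one hR).one (by simp)
  · exact tT.one nT
  · have hB : B ≠ .nil := by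
      rintro rfl
      exact hX.d4 hS rfl
    exact (tB.nod hB tS).one (by simp)

theorem SqD.t3R (h : SqD k R' B' S') (hX : X = R' ∨ (B' = .nil ∧ X = S')) (t : T3 X) : T3 R' := by
  rcases hX with rfl | ⟨rfl, rfl⟩
  · exact t
  · have h1 := h.cont
    rw [cont_nil, zero_add] at h1
    unfold T3
    rw [← h1]
    exact t

end J3

open J3 HM

variable {k : ℕ} {F F' : Set (Cyc k)} {g g' : DG k}

/-- **W-A0-J3V**: the forms of a common word (`q = c - 3`, `R`, `B`, `S` the data of the bare window) -/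
theorem TyA0.w_J3V_form (h : TyA0 F g) (h' : TyJ3V F' g') : ∀ w ∈ g.B, w ∈ g'.B →
    ∃ (q : ℕ) (R B S R' B' S' Y : BinaryTree Unit) (w0 : X k), NodeM k q R B S ∧ SqD k R' B' S' ∧
      F' = {cyc (sX R' B' S' w0 0), cyc (sX R' B' S' w0 1), cyc (sX R' B' S' w0 2)} ∧
      (Y = R' ∨ (B' = .nil ∧ Y = S')) ∧ PossA0 q (Tsq.mir R) (Tsq.mir B) (Tsq.mir S) Y ∧ T3 R' := by
  obtain ⟨q, R, B, S, w0, h1, hne, rfl, rfl⟩ := h
  obtain ⟨R', B', S', w0', h1', hp, rfl, rfl⟩ := h'
  intro w hw hw'
  obtain ⟨i, hi, rfl⟩ := mem_gad20M.1 hw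
  obtain ⟨j, hj, h9, e⟩ := mem_gadS.1 hw'
  have e1 := congrArg Subtype.val e
  rw [h1'.word w0' hj, h1.word' w0 hi] at e1
  have p3 : ∀ x ∈ OddHC.cont R, 3 ≤ x := fun x hx => by have := h1.part x hx; omega
  have c1 := h1.eq
  have hRn := h1.ne
  have hSn : S ≠ .nil := by
    rintro rfl
    have h2 := h1.dat.htS
    have h3 := h1.top
    rw [← h2, OddHC.ht] at h3
    omega
  have mn : ∀ {t : BinaryTree Unit}, t ≠ .nil → Tsq.mir t ≠ .nil := fun h e => by
    have := congrArg Tsq.mir e
    rw [Tsq.mir_mir] at this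
    exact h this
  have tR : T3 (Tsq.mir R) := fun x hx => p3 x (by rwa [cont_mir] at hx)
  have tB : T3 (Tsq.mir B) := fun x hx => p3 x (by
    rw [cont_mir] at hx
    rw [← c1]
    exact Multiset.mem_add.2 (Or.inl hx))
  have tS : T3 (Tsq.mir S) := fun x hx => p3 x (by
    rw [cont_mir] at hx
    rw [← c1]
    exact Multiset.mem_add.2 (Or.inr hx))
  obtain ⟨Y, hY, hP⟩ := h1'.a0W (mn hRn) (mn hSn) tR tB tS hi hj h9 q e1
  have nY : N1 Y := by
    rcases hY with rfl | ⟨_, rfl⟩
    · exact h1'.one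
    · exact h1'.oneS
  exact ⟨q, R, B, S, R', B', S', Y, w0', h1, h1', rfl, hY, hP,
    h1'.t3R hY (hP.t3 (mn hRn) (mn hSn) tR tB tS nY)⟩

/-- **W-A0-J3V**: no common word, if the base `R'` of J3V has a part 2 (a T-cycle of the group has the parts 1 and 2) -/
theorem TyA0.w_J3V (h : TyA0 F g) (h' : TyJ3V F' g') (ha : ∃ c ∈ F', 1 ∈ contc c ∧ 2 ∈ contc c) :
    ∀ w ∈ g.B, w ∉ g'.B := by
  intro w hw hw'
  obtain ⟨q, R, B, S, R', B', S', Y, w0, h1, h1', rfl, hY, hP, t⟩ := h.w_J3V_form h' w hw hw'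
  obtain ⟨c, hc, m1, m2⟩ := ha
  have n1 : 1 ∉ OddHC.cont R' := fun h => by have := t 1 h; omega
  have n2 : 2 ∉ OddHC.cont R' := fun h => by have := t 2 h; omega
  rcases hc with rfl | rfl | rfl
  · have e : contc (cyc (sX R' B' S' w0 0)) = OddHC.cont R' + {2} := h1'.cont0 w0
    rw [e] at m1
    rcases Multiset.mem_add.1 m1 with m1 | m1
    · exact n1 m1
    · simp at m1
  · have e : contc (cyc (sX R' B' S' w0 1)) = OddHC.cont R' + ({1} + {1}) := h1'.cont1 w0
    rw [e] at m2
    rcases Multiset.mem_add.1 m2 with m2 | m2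
    · exact n2 m2
    · simp at m2
  · have e : contc (cyc (sX R' B' S' w0 2)) = OddHC.cont R' + ({1} + {1}) := h1'.cont2 w0
    rw [e] at m2
    rcases Multiset.mem_add.1 m2 with m2 | m2
    · exact n2 m2
    · simp at m2

end Pool.OddHC
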