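import Pool.Agent.Work.MP_8f87b2_h27.Inn4
import Pool.Agent.Work.MP_8f87b2_h4.Ends

/-!
# MP_8f87b2_co: the inner words of the windows A against the 20 words `W R () B S j` (J3V, J2B)

`NodeG.inner_sq`: the exact list. `TyA.inner_sq5`: windows of height at least 5 with a part 1 have no inner word among the
20 words.
-/

set_option autoImplicit false

namespace Pool.OddHC

open Finset Equiv BinaryTree Pool.Agent.Work.MP_8f87b2_co

namespace H1

variable {k : ℕ}

/-! ### The end of the inner words of windows of height at least 5 -/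

/-- `a` ends with `111` or `00011` -/
def E5 (a : List Bool) : Prop := (∃ u, a = u ++ [true, true, true]) ∨
  ∃ u, a = u ++ [false, false, false, true, true]

theorem E5.app {a : List Bool} (h : E5 a) (u : List Bool) : E5 (u ++ a) := by
  rcases h with ⟨v, rfl⟩ | ⟨v, rfl⟩
  · exact Or.inl ⟨u ++ v, by simp⟩
  · exact Or.inr ⟨u ++ v, by simp⟩

theorem E5.cons {a : List Bool} (h : E5 a) (c : Bool) : E5 (c :: a) := h.app [c]

/-- heavy words end with `000` -/
theorem hv_end {t : BinaryTree Unit} : hv t → t ≠ .nil → ∃ v, wd t = v ++ [false, false, false] := by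
  induction t with
  | nil => intro _ h; exact absurd rfl h
  | node _ A C ihA ihC =>
    intro h _
    by_cases hC : C = .nil
    · subst hC
      rcases h.1 with rfl | ⟨h1, h2⟩
      · exact ⟨[true, true, true], rfl⟩
      · obtain ⟨v, hv⟩ := ihA h2 h1
        refine ⟨true :: (v ++ [false]), ?_⟩
        change wd (A △ .nil) = _
        rw [wd_node, hv]
        simp [wd]
    · obtain ⟨v, hv⟩ := ihC h.2 hC
      refine ⟨true :: (wd A ++ false :: v), ?_⟩
      change wd (A △ C) = _
      rw [wd_node, hv]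
      simp

/-- the first maximum of a heavy word of height 3 -/
theorem FM_three {t : BinaryTree Unit} (h : hv t) (h0 : t ≠ .nil) (h3 : Tsq.ht t = 3) :
    ∃ b, FM t [true, true] b := by
  cases t with
  | nil => exact absurd rfl h0
  | node _ A C =>
    rcases h.1 with rfl | ⟨h1, h2⟩
    · refine ⟨[false, false, false] ++ wd C, ?_, ?_, ?_⟩
      · change wd ((((.nil △ .nil) △ .nil : BinaryTree Unit)) △ C) = _
        rw [wd_node]
        simp [wd]
      · intro m
        rw [h3]
        have := List.count_le_length (l := [true, true].take m) (a := true)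
        have h4 : ([true, true].take m).length ≤ 2 := by simp
        omega
      · rw [h3]; rfl
    · exfalso
      have h4 := (hg_FM (by norm_num) (hg_hv h2) h1).1
      have h5 : Tsq.ht (A △ C) = 3 := h3
      rw [Tsq.ht_node] at h5
      omega

theorem FM_five {t : BinaryTree Unit} : hv t → 4 ≤ Tsq.ht t → ∃ a b, FM t a b ∧ E5 a := by
  induction t with
  | nil => intro _ h; simp [Tsq.ht] at h
  | node _ A C ihA ihC =>
    intro h h4
    change 4 ≤ Tsq.ht (A △ C) at h4
    change ∃ a b, FM (A △ C) a b ∧ E5 a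
    rw [Tsq.ht_node] at h4
    by_cases hC : Tsq.ht A + 1 < Tsq.ht C
    · obtain ⟨a, b, h2, h3⟩ := ihC h.2 (by omega)
      have h5 := h2.app_left (P := A △ .nil) (by rw [Tsq.ht_node]; simp [Tsq.ht]; omega)
      exact ⟨_, b, h5, h3.app _⟩
    · push Not at hC
      have hA3 : 3 ≤ Tsq.ht A := by omega
      rcases h.1 with rfl | ⟨h1, h2⟩
      · exfalso
        simp [Tsq.ht] at hA3
      · rcases Nat.lt_or_ge 3 (Tsq.ht A) with h5 | h5
        · obtain ⟨a, b, h6, h7⟩ := ihA h2 (by omega)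
          exact ⟨_, _, h6.node hC, h7.cons _⟩
        · obtain ⟨b, h6⟩ := FM_three h2 h1 (by omega)
          exact ⟨_, _, h6.node hC, Or.inl ⟨[], rfl⟩⟩

/-- the linked words -/
theorem FM5_W {q : ℕ} {R B S : BinaryTree Unit} {a b : List Bool} (h : FM R a b) (ha : E5 a)
    (hq : q + 3 ≤ Tsq.ht R) : ∀ i ∈ [0, 1, 3, 6, 8, 9],
    ∃ a b, FM (W R (ch (q + 1)) B S i) a b ∧ E5 a := by
  intro i hi
  have hn : Tsq.ht (.nil : BinaryTree Unit) = 0 := rfl
  have hc : ∀ n, Tsq.ht (ch n) = n := fun n => by rw [ht_eq, ch_ht]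
  simp only [List.mem_cons, List.not_mem_nil, or_false] at hi
  rcases hi with rfl | rfl | rfl | rfl | rfl | rfl
  · exact ⟨_, _, h.app_right (Z := ch (q + 3)) (by rw [hc]; exact hq), ha⟩
  · exact ⟨_, _, h.app_right (Z := .nil △ app (ch (q + 1)) (.nil △ .nil)) (by
      rw [Tsq.ht_node, Tsq.ht_app, Tsq.ht_node, hc, hn]; omega), ha⟩
  · exact ⟨_, _, (h.app_right (Z := .nil △ ch (q + 1)) (by
      rw [Tsq.ht_node, hc, hn]; omega)).node (Z := .nil) (by rw [hn]; omega), ha.cons _⟩
  · exact ⟨_, _, h.node (Z := ch (q + 2)) (by rw [hc]; omega), ha.cons _⟩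
  · have k := (h.node (Z := .nil) (by rw [hn]; omega)).app_left
      (P := app (ch (q + 1)) (.nil △ .nil)) (by
        rw [Tsq.ht_node, Tsq.ht_app, Tsq.ht_node, hc, hn]; omega)
    have e : W R (ch (q + 1)) B S 8 = app (app (ch (q + 1)) (.nil △ .nil)) (R △ .nil) := by
      rw [app_assoc]; rfl
    rw [e]
    exact ⟨_, _, k, (ha.cons _).app _⟩
  · exact ⟨_, _, (h.node (Z := .nil) (by rw [hn]; omega)).node (Z := ch (q + 1)) (by
      rw [Tsq.ht_node, hc, hn]; omega), (ha.cons _).cons _⟩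

variable {q : ℕ} {B1 H s B : BinaryTree Unit}

/-- **the end of the inner words of a window of height at least 5**: `000` or `11100` -/
theorem NodeG.end5 (h : NodeG k q B1 H s B) (h4 : 4 ≤ OddHC.ht s) (w0 : X k) {i : ℕ}
    (hi : i ∈ [0, 1, 3, 6, 8, 9]) :
    (∃ v, wd (TT (gX q B1 H s B w0 i)).1 = v ++ [false, false, false]) ∨
      ∃ v, wd (TT (gX q B1 H s B w0 i)).1 = v ++ [true, true, true, false, false] := by
  have hi' : i < 20 := by
    simp only [List.mem_cons, List.not_mem_nil, or_false] at hi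
    omega
  obtain ⟨a, b, h1, h2⟩ := FM_five h.hs (by rw [ht_eq]; exact h4)
  have a1 := bl_ht h.light
  have a2 := ht_eq H
  have a3 := ht_eq s
  have k1 := h1.app_left (P := H) (by omega)
  have e1 : Tsq.ht (app H s) = Tsq.ht s := by rw [Tsq.ht_app]; omega
  have k2 := k1.node (Z := B) (by rw [e1, ht_eq, ht_eq]; exact h.top)
  have e2 : Tsq.ht (app H s △ B) = Tsq.ht s + 1 := by
    rw [Tsq.ht_node, e1]
    have := h.top
    have := ht_eq B
    omega
  have k3 := k2.app_left (P := B1) (by rw [e2, ht_eq, ht_eq]; exact h.low)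
  obtain ⟨a', b', h5, h6⟩ := FM5_W (S := (Tsq.sq (gR B1 H s B)).1) (B := B) (R := gR B1 H s B) k3
    (((h2.app _).cons _).app _) (by rw [ht_eq, h.ht]; exact h.big) i hi
  rw [← h.word w0 hi'] at h5
  rw [h5.wdT]
  rcases h6 with ⟨u, rfl⟩ | ⟨u, rfl⟩
  · exact Or.inl ⟨b'.map not ++ false :: u.map not, by simp⟩
  · exact Or.inr ⟨b'.map not ++ false :: u.map not, by simp⟩

/-- no bead in `R`: the inner words of a window of height 4 end with `001100` -/
theorem NodeG.end4' (h : NodeG k q B1 H s B) (h3 : OddHC.ht s ≤ 3) (h1 : (cont (gR B1 H s B)).count 1 = 0)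
    (w0 : X k) {i : ℕ} (hi : i ∈ [0, 1, 3, 6, 8, 9]) :
    ∃ v, wd (TT (gX q B1 H s B w0 i)).1 = v ++ [false, false, true, true, false, false] := by
  have hb : ∀ H', H ≠ app H' (.nil △ .nil) := by
    intro H' e
    have e1 : cont (gR B1 H s B) = cont B1 + (raise (cont (app H s)) + cont B) := by
      unfold gR
      rw [cont_app, cont_node]
    have e2 : cont (app H s) = cont H' + {1} + cont s := by
      rw [e, cont_app, cont_app, cont_node, cont_nil, add_zero, raise_zero]
    have e3 : 3 ≤ (cont (app H s)).sup := by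
      rw [← OddHC.ht_eq, OddHC.ht_app]
      exact le_trans h.hs3 (le_max_right _ _)
    rw [e1, Multiset.count_add, Multiset.count_add, count_raise 1 (by omega) (by omega), e2] at h1
    simp at h1
  obtain ⟨b, p, rfl, rfl, -⟩ := h.four h3
  rw [h.TW w0 hi]
  have key : ∃ v, El b H = v ++ [false, false, true, true, false, false] := by
    obtain ⟨H', e | e⟩ := bl_snoc h.light h.H0
    · exact absurd e (hb H')
    · subst e
      exact ⟨co (wd (lv3' b .nil)) ++ false :: co (wd H'), by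
        unfold El; rw [wd_app, co_app]; simp [co, wd]⟩
  obtain ⟨v, hv⟩ := key
  obtain ⟨e0, e1, e3, e6, e8, e9⟩ := Yl_eq q b H
  have gen : ∀ u : List Bool, ∀ l : List Bool, (∃ v, l = v ++ [false, false, true, true, false, false]) →
      ∃ v, u ++ l = v ++ [false, false, true, true, false, false] := by
    rintro u _ ⟨v, rfl⟩
    exact ⟨u ++ v, by simp⟩
  have hY : ∃ v, Yl q b H i = v ++ [false, false, true, true, false, false] := by
    simp only [List.mem_cons, List.not_mem_nil, or_false] at hi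
    rcases hi with rfl | rfl | rfl | rfl | rfl | rfl
    · rw [e0]
      simpa using gen (false :: false :: (co (wd (ch (q + 1))) ++ [true, true, false])) _ ⟨v, hv⟩
    · rw [e1]
      simpa using gen (false :: true :: (co (wd (ch (q + 1))) ++ [false, true, false])) _ ⟨v, hv⟩
    · rw [e3]
      simpa using gen (false :: true :: (co (wd (ch (q + 1))) ++ [true, false, false])) _ ⟨v, hv⟩
    · rw [e6]
      simpa using gen (true :: false :: (co (wd (ch (q + 1))) ++ [true, false, false])) _ ⟨v, hv⟩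
    · rw [e8]
      simpa using gen (true :: false :: (co (wd (ch (q + 1))) ++ [false, true, false])) _ ⟨v, hv⟩
    · rw [e9]
      simpa using gen (true :: true :: (co (wd (ch (q + 1))) ++ [false, false, false])) _ ⟨v, hv⟩
  simpa using gen (true :: true :: true :: (co (wd (lv3' p .nil)) ++ true :: co (wd B))) _ hY

/-! ### Words without part 1 -/

theorem wd_lastJ {t : BinaryTree Unit} : t ≠ .nil → ∃ v, wd t = v ++ [false] := by
  induction t with
  | nil => intro h; exact absurd rfl h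
  | node _ A C _ ihC =>
    intro _
    change ∃ v, wd (A △ C) = _
    rw [wd_node]
    by_cases hC : C = .nil
    · subst hC
      exact ⟨true :: wd A, by simp [wd]⟩
    · obtain ⟨v, hv⟩ := ihC hC
      exact ⟨true :: (wd A ++ false :: v), by rw [hv]; simp⟩

theorem one_node {A C : BinaryTree Unit} (h : (cont (A △ C)).count 1 = 0) :
    A ≠ .nil ∧ (cont C).count 1 = 0 := by
  rw [cont_node, Multiset.count_add] at h
  refine ⟨?_, by omega⟩
  rintro rfl
  rw [cont_nil, raise_zero] at h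
  simp at h

theorem one_end {t : BinaryTree Unit} : (cont t).count 1 = 0 → t ≠ .nil →
    ∃ v, wd t = v ++ [false, false] := by
  induction t with
  | nil => intro _ h; exact absurd rfl h
  | node _ A C _ ihC =>
    intro h _
    change ∃ v, wd (A △ C) = _
    obtain ⟨hA, h1⟩ := one_node h
    rw [wd_node]
    by_cases hC : C = .nil
    · subst hC
      obtain ⟨v, hv⟩ := wd_lastJ hA
      exact ⟨true :: v, by rw [hv]; simp [wd]⟩
    · obtain ⟨v, hv⟩ := ihC h1 hC
      exact ⟨true :: (wd A ++ false :: v), by rw [hv]; simp⟩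

theorem one_start {t : BinaryTree Unit} (h : (cont t).count 1 = 0) (h0 : t ≠ .nil) :
    ∃ v, wd t = true :: true :: v := by
  cases t with
  | nil => exact absurd rfl h0
  | node _ A C =>
    obtain ⟨hA, h1⟩ := one_node h
    cases A with
    | nil => exact absurd rfl hA
    | node _ A1 A2 =>
      change ∃ v, wd ((A1 △ A2) △ C) = _
      rw [wd_node, wd_node]
      exact ⟨_, rfl⟩

theorem cont_nz {t : BinaryTree Unit} (h : OddHC.cont t = 0) : t = .nil := by
  cases t with
  | nil => rfl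
  | node _ A C =>
    exfalso
    have h' : raise (OddHC.cont A) + OddHC.cont C = 0 := h
    unfold raise at h'
    rw [Multiset.cons_add] at h'
    exact Multiset.cons_ne_zero h'

theorem raise_one0 {M : Multiset ℕ} (h : M.count 1 = 0) (h0 : M.sup ≠ 0) : (raise M).count 1 = 0 := by
  unfold raise
  rw [Multiset.count_cons_of_ne (by omega)]
  have := Multiset.count_le_of_le 1 (Multiset.erase_le M.sup M)
  omega

end H1

namespace J3

variable {k : ℕ} {R B S : BinaryTree Unit}

open H1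

theorem SqD.one10 (h : SqD k R B S) : ∀ j ∈ [0, 9, 10, 17], (OddHC.cont (W R .nil B S j)).count 1 = 0 := by
  have h1 := h.one
  have h2 := h.oneB
  have h3 := h.oneS
  have e1 : (OddHC.cont R).sup = OddHC.ht R := (OddHC.ht_eq R).symm
  have e2 : (OddHC.cont S).sup = OddHC.ht S := (OddHC.ht_eq S).symm
  have e3 := h.h3
  have e4 := h.htS
  have c0 : OddHC.cont (BinaryTree.nil : BinaryTree Unit) = 0 := rfl
  have c2 : raise (raise (OddHC.cont (BinaryTree.nil : BinaryTree Unit))) = {2} := by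
    rw [c0, raise_zero]; unfold raise; simp
  have rS : (raise (OddHC.cont S)).count 1 = 0 := raise_one0 h3 (by omega)
  intro j hj
  simp only [List.mem_cons, List.not_mem_nil, or_false] at hj
  rcases hj with rfl | rfl | rfl | rfl
  · have e : W R .nil B S 0 = app R ((.nil △ .nil) △ .nil) := rfl
    rw [e, cont_app, cont_node, cont_node, c0, add_zero, add_zero, ← c0, c2, Multiset.count_add, h1]
    rfl
  · have e : W R .nil B S 9 = (R △ .nil) △ .nil := rfl
    rw [e, cont_node, cont_node, c0, add_zero, add_zero]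
    exact raise_one0 (raise_one0 h1 (by omega)) (by rw [sup_raise]; omega)
  · have e : W R .nil B S 10 = app B ((.nil △ .nil) △ S) := rfl
    rw [e, cont_app, cont_node, cont_node, c0, add_zero, ← c0, c2, Multiset.count_add, Multiset.count_add, h2, h3]
    rfl
  · have e : W R .nil B S 17 = (S △ B) △ .nil := rfl
    rw [e, cont_node, cont_node, c0, add_zero]
    refine raise_one0 (by rw [Multiset.count_add, rS, h2]) ?_
    rw [Multiset.sup_add, sup_raise]
    have h7 : OddHC.ht S + 1 ≤ max ((OddHC.cont S).sup + 1) (OddHC.cont B).sup := by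
      rw [e2]; exact le_max_left _ _
    change max ((OddHC.cont S).sup + 1) (OddHC.cont B).sup ≠ 0
    omega

theorem SqD.one13 (h : SqD k R .nil S) : (OddHC.cont (W R .nil .nil S 13)).count 1 = 0 := by
  have e : W R .nil .nil S 13 = app S ((.nil △ .nil) △ .nil) := rfl
  have c0 : OddHC.cont (BinaryTree.nil : BinaryTree Unit) = 0 := rfl
  have c2 : raise (raise (OddHC.cont (BinaryTree.nil : BinaryTree Unit))) = {2} := by
    rw [c0, raise_zero]; unfold raise; simp
  rw [e, cont_app, cont_node, cont_node, c0, add_zero, add_zero, ← c0, c2, Multiset.count_add, h.oneS]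
  rfl

theorem SqD.one19 (h : SqD k R B S) (hB : B ≠ .nil) : (OddHC.cont (W R .nil B S 19)).count 1 = 0 := by
  have e : W R .nil B S 19 = app S (B △ .nil) △ .nil := rfl
  have c0 : OddHC.cont (BinaryTree.nil : BinaryTree Unit) = 0 := rfl
  have hs : OddHC.cont B ≠ 0 := fun h0 => hB (H1.cont_nz h0)
  have hs2 : (OddHC.cont B).sup ≠ 0 := by
    intro h0
    obtain ⟨x, hx⟩ := Multiset.exists_mem_of_ne_zero hs
    have h4 := Multiset.le_sup hx
    have h5 := cont_pos B x hx
    omega
  have rB : (raise (OddHC.cont B)).count 1 = 0 := raise_one0 h.oneB hs2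
  rw [e, cont_node, cont_app, cont_node, c0, add_zero, add_zero]
  refine raise_one0 (by rw [Multiset.count_add, rB, h.oneS]) ?_
  rw [Multiset.sup_add, sup_raise]
  have h7 : (OddHC.cont B).sup + 1 ≤ max (OddHC.cont S).sup ((OddHC.cont B).sup + 1) := le_max_right _ _
  change max (OddHC.cont S).sup ((OddHC.cont B).sup + 1) ≠ 0
  omega

/-- the inner words of the first two arcs are bad -/
theorem SqD.bad01 (h : SqD k R B S) (w0 : X k) :
    bad (wd (TT (sX R B S w0 0)).1) ∧ bad (wd (TT (sX R B S w0 1)).1) := by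
  obtain ⟨a, c, h1, h2, h3, h4, -⟩ := Tsq.sq_spec R h.ne
  have hf : FM R a (c ++ false :: wd (Tsq.sq R).2) := ⟨h1, h3, h4⟩
  generalize c ++ false :: wd (Tsq.sq R).2 = b at hf
  obtain ⟨v, hv⟩ := one_start h.one h.ne
  have h5 := hf.top
  have h6 : 3 ≤ Tsq.ht R := by rw [H1.ht_eq]; exact h.h3
  have h7 := hf.eq
  obtain ⟨a', rfl⟩ : ∃ a', a = true :: true :: a' := by
    rcases a with _ | ⟨x, _ | ⟨y, a'⟩⟩
    · simp at h5; omega
    · have := List.count_le_length (l := [x]) (a := true)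
      simp at this h5
      omega
    · rw [hv, List.cons_append, List.cons_append, List.cons.injEq, List.cons.injEq] at h7
      exact ⟨a', by rw [← h7.1, ← h7.2.1]⟩
  have hn : Tsq.ht (.nil : BinaryTree Unit) = 0 := rfl
  have k0 := hf.app_right (Z := (.nil △ .nil) △ .nil) (by rw [Tsq.ht_node, Tsq.ht_node, hn]; omega)
  have k1 := hf.app_right (Z := .nil △ (.nil △ .nil)) (by rw [Tsq.ht_node, Tsq.ht_node, hn]; omega)
  have e0 : (sX R B S w0 0).1 = app R ((.nil △ .nil) △ .nil) := h.word w0 (by norm_num)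
  have e1 : (sX R B S w0 1).1 = app R (.nil △ (.nil △ .nil)) := h.word w0 (by norm_num)
  rw [← e0] at k0
  rw [← e1] at k1
  constructor
  · right
    rw [k0.wdT]
    exact ⟨b.map not, a'.map not, by simp [wd]⟩
  · left
    rw [k1.wdT]
    exact ⟨b.map not ++ [false, true], a'.map not, by simp [wd]⟩

/-! ### The list -/

/-- the possible words: windows of height 4 without / with a part 1, windows of height at least 5 without part 1 -/
def HitA (R s B : BinaryTree Unit) (j : ℕ) : Prop :=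
  (OddHC.ht s = 3 ∧ (OddHC.cont R).count 1 = 0 ∧ (j = 0 ∨ (j = 13 ∧ B = .nil))) ∨
  (OddHC.ht s = 3 ∧ 1 ≤ (OddHC.cont R).count 1 ∧ (j = 3 ∨ (j = 13 ∧ B ≠ .nil) ∨ (j = 19 ∧ B = .nil))) ∨
  (4 ≤ OddHC.ht s ∧ (OddHC.cont R).count 1 = 0 ∧ (j = 9 ∨ j = 17 ∨ (j = 19 ∧ B ≠ .nil)))

theorem end_no {l u v : List Bool} {x y z : Bool} (e : l = u ++ [x, y, z]) (e' : l = v ++ [false, false, false])
    (h : x = true) : False := by
  subst h
  rw [e] at e'
  have h5 := congrArg List.reverse e'
  simp at h5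

theorem NodeG.inner_sq {q : ℕ} {B1 H s B' : BinaryTree Unit} (hn : NodeG k q B1 H s B') (h : SqD k R B S)
    (w0 : X k) {i j : ℕ} (hi : i ∈ [0, 1, 3, 6, 8, 9]) (hj : j < 20)
    (e : (TT (gX q B1 H s B' w0 i)).1 = W R .nil B S j) : HitA (gR B1 H s B') s B j := by
  have hi20 : i < 20 := by
    simp only [List.mem_cons, List.not_mem_nil, or_false] at hi
    omega
  have hi10 : i < 10 := by
    simp only [List.mem_cons, List.not_mem_nil, or_false] at hi
    omega
  -- no bead at the ends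
  have lp : ¬ ((∃ v, wd (TT (gX q B1 H s B' w0 i)).1 = true :: false :: v) ∨
      (∃ v, wd (TT (gX q B1 H s B' w0 i)).1 = true :: true :: false :: v) ∨
      ∃ v, wd (TT (gX q B1 H s B' w0 i)).1 = v ++ [true, false]) := fun hw => hn.inner_lp w0 hi hw rfl
  -- a part 1
  have cnt : (OddHC.cont (gR B1 H s B')).count 1 ≤ (OddHC.cont (W R .nil B S j)).count 1 := by
    rw [← e, cont_TT, hn.word w0 hi20]
    refine count_W ?_ i hi
    rw [hn.ht]
    have := hn.hs3
    omega
  -- the ends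
  obtain ⟨vR, eR⟩ := one_end h.one h.ne
  obtain ⟨vS, eS⟩ := one_end h.oneS h.neS
  have E1 : 4 ≤ OddHC.ht s → ∀ v, wd (TT (gX q B1 H s B' w0 i)).1 ≠ v ++ [false, true, true, false, false] ∧
      wd (TT (gX q B1 H s B' w0 i)).1 ≠ v ++ [false, true, false, false] := by
    intro h4 v
    rcases hn.end5 h4 w0 hi with ⟨u, hu⟩ | ⟨u, hu⟩
    · constructor
      · intro h1
        rw [hu] at h1
        have h5 := congrArg List.reverse h1
        simp at h5
      · intro h1
        rw [hu] at h1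
        have h5 := congrArg List.reverse h1
        simp at h5
    · constructor
      · intro h1
        rw [hu] at h1
        have h5 := congrArg List.reverse h1
        simp at h5
      · intro h1
        rw [hu] at h1
        have h5 := congrArg List.reverse h1
        simp at h5
  have E2 : OddHC.ht s ≤ 3 → ∀ v, wd (TT (gX q B1 H s B' w0 i)).1 ≠ v ++ [false, false, false] := by
    intro h3 v h1
    obtain ⟨u, hu⟩ := (hn.end4 h3 w0 hi).tff
    rw [hu] at h1
    have h5 := congrArg List.reverse h1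
    simp at h5
  have E3 : OddHC.ht s ≤ 3 → (OddHC.cont (gR B1 H s B')).count 1 = 0 →
      ∀ v, wd (TT (gX q B1 H s B' w0 i)).1 ≠ v ++ [false, true, false, false] := by
    intro h3 hc v h1
    obtain ⟨u, hu⟩ := hn.end4' h3 hc w0 hi
    rw [hu] at h1
    have h5 := congrArg List.reverse h1
    simp at h5
  have h3 := hn.hs3
  -- classification
  have A0 : (∃ v, wd (TT (gX q B1 H s B' w0 i)).1 = v ++ [false, true, true, false, false]) →
      (OddHC.cont (W R .nil B S j)).count 1 = 0 → OddHC.ht s = 3 ∧ (OddHC.cont (gR B1 H s B')).count 1 = 0 := by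
    rintro ⟨v, hv⟩ h1
    refine ⟨?_, by omega⟩
    by_contra h4
    exact (E1 (by omega) v).1 hv
  have A3 : (∃ v, wd (TT (gX q B1 H s B' w0 i)).1 = v ++ [false, true, false, false]) →
      OddHC.ht s = 3 ∧ 1 ≤ (OddHC.cont (gR B1 H s B')).count 1 := by
    rintro ⟨v, hv⟩
    have h4 : OddHC.ht s = 3 := by
      by_contra h4
      exact (E1 (by omega) v).2 hv
    refine ⟨h4, ?_⟩
    by_contra h5
    exact E3 (by omega) (by omega) v hv
  have A9 : (∃ v, wd (TT (gX q B1 H s B' w0 i)).1 = v ++ [false, false, false]) →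
      (OddHC.cont (W R .nil B S j)).count 1 = 0 → 4 ≤ OddHC.ht s ∧ (OddHC.cont (gR B1 H s B')).count 1 = 0 := by
    rintro ⟨v, hv⟩ h1
    refine ⟨?_, by omega⟩
    by_contra h4
    exact E2 (by omega) v hv
  -- the words 10, 11
  have bd : ∀ a b : ℕ, (a, b) ∈ [(0, 10), (1, 11), (3, 12), (6, 15), (8, 14), (9, 17)] →
      bad (wd (TT (sX R B S w0 a)).1) → (TT (gX q B1 H s B' w0 i)).1 ≠ W R .nil B S b := by
    intro a b hab hbad e1
    have hb : b < 20 := by
      simp only [List.mem_cons, Prod.mk.injEq, List.not_mem_nil, or_false] at hab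
      omega
    have h1 := h.link w0 hab
    have h2 : TT (TT (sX R B S w0 a)) = TT (gX q B1 H s B' w0 i) := by
      rw [h1]
      apply Subtype.ext
      rw [h.word w0 hb, e1]
    have h4 := TT.injective h2
    rw [h4] at hbad
    rw [hn.word w0 hi20] at hbad
    have nd : St.e ≠ .dead := by intro h; cases h
    exact run_W (fun σ hσ => run_R hn.h1 hn.light hn.hs hn.s0 hn.hB hσ) q i hi _ nd (bad_dead hbad St.e)
  have hb := h.bad01 w0
  interval_cases j
  · -- `R(())`
    obtain ⟨h1, h2⟩ := A0 ⟨vR ++ [false], by rw [e]; simp [W, wd_app, wd, eR]⟩ (h.one10 0 (by simp))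
    exact Or.inl ⟨h1, h2, Or.inl rfl⟩
  · exact absurd (Or.inr (Or.inr ⟨wd R ++ [true, false], by rw [e]; simp [W, wd_app, wd]⟩)) lp
  · exact absurd (Or.inl ⟨_, by rw [e]; simp [W, wd_node, wd]; rfl⟩) lp
  · -- `(R())`
    obtain ⟨h1, h2⟩ := A3 ⟨true :: (vR ++ [false]), by rw [e]; simp [W, wd_app, wd, eR]⟩
    exact Or.inr (Or.inl ⟨h1, h2, Or.inl rfl⟩)
  · exact absurd (Or.inr (Or.inl ⟨_, by rw [e]; simp [W, wd_node, wd, app]; rfl⟩)) lp
  · exact absurd (Or.inl ⟨_, by rw [e]; simp [W, wd_node, wd]; rfl⟩) lp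
  · exact absurd (Or.inr (Or.inr ⟨true :: (wd R ++ [false]), by rw [e]; simp [W, wd_node, wd]⟩)) lp
  · exact absurd (Or.inr (Or.inl ⟨_, by rw [e]; simp [W, wd_node, wd, app]; rfl⟩)) lp
  · exact absurd (Or.inl ⟨_, by rw [e]; simp [W, wd_node, wd, app]; rfl⟩) lp
  · -- `((R))`
    obtain ⟨h1, h2⟩ := A9 ⟨true :: true :: (vR ++ [false]), by rw [e]; simp [W, wd_node, wd, eR]⟩
      (h.one10 9 (by simp))
    exact Or.inr (Or.inr ⟨h1, h2, Or.inl rfl⟩)
  · exact absurd e (bd 0 10 (by simp) hb.1)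
  · exact absurd e (bd 1 11 (by simp) hb.2)
  · exact absurd (Or.inr (Or.inr ⟨true :: (wd S ++ false :: wd B), by rw [e]; simp [W, wd_node, wd_app, wd]⟩)) lp
  · -- `S(B())`
    by_cases hB : B = .nil
    · subst hB
      obtain ⟨h1, h2⟩ := A0 ⟨vS ++ [false], by rw [e]; simp [W, wd_app, wd, eS, app]⟩ h.one13
      exact Or.inl ⟨h1, h2, Or.inr ⟨rfl, rfl⟩⟩
    · obtain ⟨vB, eB⟩ := one_end h.oneB hB
      obtain ⟨h1, h2⟩ := A3 ⟨wd S ++ true :: (vB ++ [false]), by rw [e]; simp [W, wd_app, wd, eB]⟩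
      exact Or.inr (Or.inl ⟨h1, h2, Or.inr (Or.inl ⟨rfl, hB⟩)⟩)
  · exact absurd (Or.inr (Or.inl ⟨_, by rw [e]; simp [W, wd_node, wd, app]; rfl⟩)) lp
  · exact absurd (Or.inl ⟨_, by rw [e]; simp [W, wd_node, wd]; rfl⟩) lp
  · exact absurd (Or.inr (Or.inr ⟨wd S ++ true :: (wd B ++ [false]), by
      rw [e]; simp [W, wd_app, wd]⟩)) lp
  · -- `((S)B)`
    by_cases hB : B = .nil
    · subst hB
      obtain ⟨h1, h2⟩ := A9 ⟨true :: true :: (vS ++ [false]), by rw [e]; simp [W, wd_node, wd, eS, app]⟩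
        (h.one10 17 (by simp))
      exact Or.inr (Or.inr ⟨h1, h2, Or.inr (Or.inl rfl)⟩)
    · obtain ⟨vB, eB⟩ := one_end h.oneB hB
      obtain ⟨h1, h2⟩ := A9 ⟨true :: true :: (wd S ++ false :: vB), by
        rw [e]; simp [W, wd_node, wd, eB, app]⟩ (h.one10 17 (by simp))
      exact Or.inr (Or.inr ⟨h1, h2, Or.inr (Or.inl rfl)⟩)
  · exact absurd (Or.inl ⟨_, by rw [e]; simp [W, wd_node, wd, app]; rfl⟩) lp
  · -- `(S(B))`
    by_cases hB : B = .nil
    · subst hB
      obtain ⟨h1, h2⟩ := A3 ⟨true :: (vS ++ [false]), by rw [e]; simp [W, wd_app, wd, eS]⟩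
      exact Or.inr (Or.inl ⟨h1, h2, Or.inr (Or.inr ⟨rfl, rfl⟩)⟩)
    · obtain ⟨vB, eB⟩ := one_end h.oneB hB
      obtain ⟨h1, h2⟩ := A9 ⟨true :: (wd S ++ true :: (vB ++ [false])), by
        rw [e]; simp [W, wd_app, wd, eB]⟩ (h.one19 hB)
      exact Or.inr (Or.inr ⟨h1, h2, Or.inr (Or.inr ⟨rfl, hB⟩)⟩)

end J3

open J3

variable {k : ℕ} {F : Set (Cyc k)} {g : DG k} {R B S : BinaryTree Unit}

/-- **inner words of the windows A against the 20 words**: exact list -/
theorem TyA.inner_sq (h : TyA F g) (h' : SqD k R B S) {a : X k × X k} (ha : a ∈ g.arcs) {w : X k}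
    (hw : w ∈ innA a) {j : ℕ} (hj : j < 20) (e : w.1 = H1.W R .nil B S j) :
    ((∀ c ∈ F, htc c = 4 ∧ (contc c).count 1 = 0) ∧ (j = 0 ∨ (j = 13 ∧ B = .nil))) ∨
    ((∀ c ∈ F, htc c = 4 ∧ 1 ≤ (contc c).count 1) ∧
      (j = 3 ∨ (j = 13 ∧ B ≠ .nil) ∨ (j = 19 ∧ B = .nil))) ∨
    ((∀ c ∈ F, 5 ≤ htc c ∧ (contc c).count 1 = 0) ∧ (j = 9 ∨ j = 17 ∨ (j = 19 ∧ B ≠ .nil))) := by
  obtain ⟨q, B1, H, s, B', w0, hG, rfl, rfl⟩ := h
  obtain ⟨i, hi, e1⟩ := arcs_cases ha
  rw [e1] at hw
  have e2 : w = TT (H1.gX q B1 H s B' w0 i) := hw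
  have e3 : H1.W (H1.gR B1 H s B') (H1.ch (q + 1)) B' (Tsq.sq (H1.gR B1 H s B')).1 0 =
      app (H1.gR B1 H s B') (H1.ch (q + 3)) := rfl
  have c1 : contc (cyc (H1.gX q B1 H s B' w0 0)) = OddHC.cont (H1.gR B1 H s B') + {q + 3} := by
    rw [contc_cyc, hG.word w0 (by norm_num), e3, cont_app, H1.ch_cont]
  have c2 : (contc (cyc (H1.gX q B1 H s B' w0 0))).count 1 = (OddHC.cont (H1.gR B1 H s B')).count 1 := by
    rw [c1, Multiset.count_add, Multiset.count_singleton, if_neg (by omega), add_zero]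
  have c3 : htc (cyc (H1.gX q B1 H s B' w0 0)) = OddHC.ht s + 1 := by
    unfold htc
    rw [c1, Multiset.sup_add, ← OddHC.ht_eq, hG.ht, Multiset.sup_singleton]
    exact max_eq_left hG.big
  have key := J3.NodeG.inner_sq hG h' w0 hi hj (by rw [← e2]; exact e)
  rcases key with ⟨k1, k2, k3⟩ | ⟨k1, k2, k3⟩ | ⟨k1, k2, k3⟩
  · left
    refine ⟨?_, k3⟩
    rintro c rfl
    omega
  · right; left
    refine ⟨?_, k3⟩
    rintro c rfl
    omega
  · right; right
    refine ⟨?_, k3⟩
    rintro c rfl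
    omega

/-- windows of height at least 5 with a part 1: no inner word is one of the 20 words -/
theorem TyA.inner_sq5 (h : TyA F g) (h' : SqD k R B S) (h5 : ∀ c ∈ F, 5 ≤ htc c)
    (h1 : ∀ c ∈ F, 1 ∈ contc c) {a : X k × X k} (ha : a ∈ g.arcs) {w : X k} (hw : w ∈ innA a) {j : ℕ}
    (hj : j < 20) : w.1 ≠ H1.W R .nil B S j := by
  intro e
  obtain ⟨c, hc⟩ : ∃ c, c ∈ F := by
    obtain ⟨q, B1, H, s, B', w0, hG, rfl, rfl⟩ := h
    exact ⟨_, rfl⟩
  have k1 := h5 c hc
  have k2 := Multiset.count_pos.2 (h1 c hc)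
  rcases h.inner_sq h' ha hw hj e with ⟨k3, -⟩ | ⟨k3, -⟩ | ⟨k3, -⟩
  · have := k3 c hc; omega
  · have := k3 c hc; omega
  · have := k3 c hc; omega

end Pool.OddHC
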